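import Pool.Agent.U110.BN.PL

set_option autoImplicit false
set_option maxHeartbeats 400000

/-!
# The final theorems
-/

namespace Pool.Agent.U110.BN

open Pool.Agent.H32BU hiding InL
open Pool.Agent.W629 Pool.Agent.TH69.Mtn
open Pool.Agent.Results.MP_544bd1_al.TwoGenerators (InL B Admissible)

universe u

/-- sections, all universes -/
def SecU (V : Type) [Group V] (F : Type u) [Group F] : Prop :=
  ∃ (H : Subgroup F) (f : H →* V), Function.Surjective f

theorem SecU.sub {V : Type} {A : Type*} {F : Type u} [Group V] [Group A] [Group F] (f : A →* F)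
    (hf : Function.Injective f) (h : ∃ (H : Subgroup A) (g : H →* V), Function.Surjective g) :
    SecU V F := by
  obtain ⟨H, g, hg⟩ := h
  exact ⟨H.map f, g.comp (H.equivMapOfInjective f hf).symm.toMonoidHom,
    hg.comp (H.equivMapOfInjective f hf).symm.surjective⟩

theorem SecU.quo {V : Type} {A : Type u} {F : Type*} [Group V] [Group A] [Group F] (f : F →* A)
    (hf : Function.Surjective f) (h : SecU V A) :
    ∃ (H : Subgroup F) (g : H →* V), Function.Surjective g := by
  obtain ⟨H, g, hg⟩ := h
  let j : H.comap f →* H :=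
    { toFun := fun x => ⟨f x, x.2⟩
      map_one' := Subtype.ext (map_one f)
      map_mul' := fun x y => Subtype.ext (map_mul f _ _) }
  refine ⟨H.comap f, g.comp j, hg.comp ?_⟩
  rintro ⟨x, hx⟩
  obtain ⟨y, rfl⟩ := hf x
  exact ⟨⟨y, hx⟩, rfl⟩

theorem hsc_sec (Q : Type) [Group Q] : HSC (fun H [Group H] => Sec H Q) where
  sub := fun G _ A h => Sec.trans ⟨A, MonoidHom.id A, Function.surjective_id⟩ h
  quo := fun G _ N _ h =>
    Sec.trans (Sec.of_sur (QuotientGroup.mk' N) (QuotientGroup.mk'_surjective N)) h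

/-- transport of local finiteness -/
theorem lf_equiv {H : Type} {H' : Type u} [Group H] [Group H'] (e : H ≃* H')
    (h : ∀ S : Set H', S.Finite → Finite (Subgroup.closure S)) : LF H := by
  intro S
  have h1 := h (e.toMonoidHom '' (S : Set H)) (Set.toFinite _)
  rw [← MonoidHom.map_closure] at h1
  have eq := (Subgroup.closure (S : Set H)).equivMapOfInjective e.toMonoidHom e.injective
  exact Finite.of_equiv _ eq.symm.toEquiv

theorem ps_of {n : ℕ} {G : Type u} [Group G]
    (hp : ∀ p k : ℕ, p.Prime → p ^ k ∣ n → 5 < p ^ k → ∀ (A : Subgroup G) (N : Subgroup A)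
      [N.Normal], (∀ x : A ⧸ N, x ^ p ^ k = 1) →
        ∀ S : Set (A ⧸ N), S.Finite → Finite (Subgroup.closure S))
    {Q : Type} [Group Q] (f : Q →* G) (hf : Function.Injective f) :
    PS (fun H _ => Sec H Q) n := by
  rintro p k hpp hk h5 H _ ⟨A', g, hg⟩ hx
  let e := A'.equivMapOfInjective f hf
  let g' : A'.map f →* H := g.comp e.symm.toMonoidHom
  have hg' : Function.Surjective g' := hg.comp e.symm.surjective
  let q := QuotientGroup.quotientKerEquivOfSurjective g' hg'
  refine lf_equiv q.symm (hp p k hpp hk h5 (A'.map f) g'.ker ?_)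
  intro x
  apply q.injective
  rw [map_pow, hx, map_one]

/-- **The group theorem.** -/
theorem main_all {n c : ℕ} (hn : 1 ≤ n) {G : Type u} [Group G] (hGn : ∀ x : G, x ^ n = 1)
    (h3 : ∀ x y z : G, Finite (Subgroup.closure {x, y, z}) ∧
      ∀ (V : Type) [Group V], Finite V → IsSimpleGroup V → (∃ a b : V, a * b ≠ b * a) →
        SecU V (Subgroup.closure ({x, y, z} : Set G)) → Good V)
    (hb : (∀ x y z : G, Nat.card (Subgroup.closure ({x, y, z} : Set G)) ≤ c) ∨
      (Admissible n ∧ ∀ x y z : G, ∀ (V : Type) [Group V], Finite V → IsSimpleGroup V →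
        (∃ a b : V, a * b ≠ b * a) →
        SecU V (Subgroup.closure ({x, y, z} : Set G)) → Nat.card V ≤ c))
    (hp : ∀ p k : ℕ, p.Prime → p ^ k ∣ n → 5 < p ^ k → ∀ (A : Subgroup G) (N : Subgroup A)
      [N.Normal], (∀ x : A ⧸ N, x ^ p ^ k = 1) →
        ∀ S : Set (A ⧸ N), S.Finite → Finite (Subgroup.closure S))
    (S : Set G) (hS : S.Finite) : Finite (Subgroup.closure S) := by
  refine finite_closure_u S hS fun Q _ f hf => ?_
  have hQn : ∀ x : Q, x ^ n = 1 := fun x => hf (by rw [map_pow, map_one]; exact hGn _)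
  have hPS := ps_of hp f hf
  have hfin : ∀ x y z : Q, Finite (Subgroup.closure {x, y, z}) :=
    fin_three_sub f hf fun x y z => (h3 x y z).1
  have eq : ∀ x y z : Q, ∃ g : Subgroup.closure ({x, y, z} : Set Q) →*
      Subgroup.closure ({f x, f y, f z} : Set G), Function.Bijective g := by
    intro x y z
    have e : (Subgroup.closure {x, y, z}).map f = Subgroup.closure {f x, f y, f z} := by
      rw [MonoidHom.map_closure, Set.image_insert_eq, Set.image_pair]
    rw [← e]
    exact ⟨((Subgroup.closure {x, y, z}).equivMapOfInjective f hf).toMonoidHom,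
      ((Subgroup.closure {x, y, z}).equivMapOfInjective f hf).bijective⟩
  have hna : ∀ (V : Type) [Group V], (¬ ∀ a b : V, a * b = b * a) → ∃ a b : V, a * b ≠ b * a := by
    intro V _ h
    push Not at h
    exact h
  have hZ : Sec Q Q := Sec.refl Q
  rcases hb with hb | ⟨hA, hb⟩
  · refine lfc_good (hsc_sec Q) hn hPS c Q hZ hQn fun x y z => ?_
    obtain ⟨g, hg⟩ := eq x y z
    have h4 := h3 (f x) (f y) (f z)
    have hfc := h4.1
    refine ⟨⟨hfin x y z, (Nat.card_le_card_of_injective g hg.1).trans (hb _ _ _)⟩, hfin x y z, ?_⟩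
    intro V _ h1 h2 hs
    have hfV : Finite V := by
      have := hfin x y z
      obtain ⟨H, f, hf⟩ := hs
      exact Finite.of_surjective f hf
    exact h4.2 V hfV h1 (hna V h2) (SecU.sub g hg.1 hs)
  · refine lfc_good_adm (hsc_sec Q) hn hA hPS c Q hZ hQn fun x y z => ?_
    obtain ⟨g, hg⟩ := eq x y z
    have h4 := h3 (f x) (f y) (f z)
    have hfc := h4.1
    refine ⟨hfin x y z, hfin x y z, ?_⟩
    intro V _ h1 h2 hs
    have hfV : Finite V := by
      have := hfin x y z
      obtain ⟨H, f, hf⟩ := hs
      exact Finite.of_surjective f hf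
    exact ⟨h4.2 V hfV h1 (hna V h2) (SecU.sub g hg.1 hs),
      hb _ _ _ V hfV h1 (hna V h2) (SecU.sub g hg.1 hs)⟩

/-- **The theorem on exponents.** -/
theorem main_exp {n : ℕ} (hn : 1 ≤ n)
    (hG : ∀ (V : Type) [Group V], Finite V → IsSimpleGroup V → (∃ a b : V, a * b ≠ b * a) →
      SecU V (B 3 n) → Good V)
    (hB : Finite (B 3 n)) (hq : PP5.{u} n) : InL.{u} n := by
  intro G _ hGn S hS
  have hom := b3_hom (n := n) hGn
  refine main_all (c := Nat.card (B 3 n)) hn hGn ?_ (Or.inl ?_) ?_ S hS
  · intro x y z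
    obtain ⟨f, hf⟩ := hom x y z
    rw [← hf]
    refine ⟨Finite.of_surjective f.rangeRestrict f.rangeRestrict_surjective, ?_⟩
    intro V _ hfV h1 h2 hs
    exact hG V hfV h1 h2 (SecU.quo f.rangeRestrict f.rangeRestrict_surjective hs)
  · intro x y z
    obtain ⟨f, hf⟩ := hom x y z
    rw [← hf]
    exact Nat.card_le_card_of_surjective f.rangeRestrict f.rangeRestrict_surjective
  · intro p k hp hk h5 A N _ hx
    exact hq p k hp hk h5 (A ⧸ N) hx

theorem good_a5 : Good (alternatingGroup (Fin 5)) := by
  refine ⟨a5_suit.four, fun α hα => ?_⟩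
  rcases a5_out α with ⟨r, hr⟩ | h
  · have hr1 : r ≠ 1 := by
      rintro rfl
      obtain ⟨t, ht⟩ := hα
      apply ht
      rw [hr]
      simp
    obtain ⟨b, hb⟩ := a5_suit.gen r hr1
    refine ⟨b, fun B hbB hinv => ?_⟩
    -- `B` is normalised by `r` and `b`
    have := a5_suit.fin
    have := a5_suit.simple
    have h1 : ∀ x : alternatingGroup (Fin 5), (∀ y ∈ B, x * y * x⁻¹ ∈ B) →
        x ∈ Subgroup.normalizer (B : Set (alternatingGroup (Fin 5))) := by
      intro x hx
      have hmap : B.map (MulAut.conj x).toMonoidHom ≤ B := by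
        rintro _ ⟨y, hy, rfl⟩
        exact hx y hy
      have hcard : Nat.card B ≤ Nat.card (B.map (MulAut.conj x).toMonoidHom) :=
        Nat.card_le_card_of_injective _
          (B.equivMapOfInjective (MulAut.conj x).toMonoidHom (MulAut.conj x).injective).injective
      have hmeq := Subgroup.eq_of_le_of_card_ge hmap hcard
      rw [Subgroup.mem_normalizer_iff]
      intro y
      refine ⟨hx y, fun hy => ?_⟩
      have hy' : x * y * x⁻¹ ∈ B.map (MulAut.conj x).toMonoidHom := by
        rw [hmeq]
        exact hy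
      obtain ⟨z, hz, hzy⟩ := hy'
      have hzy' : x * z * x⁻¹ = x * y * x⁻¹ := hzy
      have : z = y := mul_left_cancel (mul_right_cancel hzy')
      rwa [this] at hz
    have hBn : B.Normal := by
      rw [← Subgroup.normalizer_eq_top_iff, eq_top_iff, ← hb, Subgroup.closure_le]
      intro x hx
      rcases hx with hx | hx
      · rw [hx]
        refine h1 r fun y hy => ?_
        rw [← hr]
        exact hinv y hy
      · rw [Set.mem_singleton_iff] at hx
        rw [hx]
        exact h1 b fun y hy => mul_mem (mul_mem hbB hy) (inv_mem hbB)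
    rcases hBn.eq_bot_or_eq_top with h | h
    · exfalso
      rw [h, Subgroup.mem_bot] at hbB
      rw [hbB] at hb
      -- then the group is cyclic
      apply a5_suit.na
      have h2 : ∀ x : alternatingGroup (Fin 5), x ∈ Subgroup.zpowers r := by
        intro x
        have hx : x ∈ Subgroup.closure {r, (1 : alternatingGroup (Fin 5))} := by
          rw [hb]
          trivial
        have hle : Subgroup.closure {r, (1 : alternatingGroup (Fin 5))} ≤ Subgroup.zpowers r := by
          rw [Subgroup.closure_le]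
          rintro y (rfl | rfl)
          · exact Subgroup.mem_zpowers _
          · exact one_mem _
        exact hle hx
      intro a b
      obtain ⟨k, rfl⟩ := h2 a
      obtain ⟨l, rfl⟩ := h2 b
      exact zpow_mul_comm _ _ _
    · exact h
  · exact h

end Pool.Agent.U110.BN
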