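import Mathlib

set_option autoImplicit false

/-!
# Words which detect a generating tuple of a finite simple group
-/

namespace Pool.Agent.U110.BN

/-- equivalence of tuples under automorphisms -/
def Eqv {J T : Type} [Group T] (v v' : J → T) : Prop := ∃ α : T ≃* T, v' = fun j => α (v j)

theorem lift_comp {J : Type} {T H : Type*} [Group T] [Group H] (α : T →* H) (v : J → T)
    (w : FreeGroup J) : FreeGroup.lift (fun j => α (v j)) w = α (FreeGroup.lift v w) := by
  have h : FreeGroup.lift (fun j => α (v j)) = α.comp (FreeGroup.lift v) := by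
    ext j
    simp
  rw [h]
  rfl

theorem Eqv.lift {J T : Type} [Group T] {v v' : J → T} {α : T ≃* T}
    (h : v' = fun j => α (v j)) (w : FreeGroup J) :
    FreeGroup.lift v' w = α (FreeGroup.lift v w) := by
  rw [h]
  exact lift_comp α.toMonoidHom v w

theorem Eqv.symm {J T : Type} [Group T] {v v' : J → T} (h : Eqv v v') : Eqv v' v := by
  obtain ⟨α, rfl⟩ := h
  exact ⟨α.symm, by funext j; simp⟩

theorem Eqv.trans {J T : Type} [Group T] {v v' v'' : J → T} (h : Eqv v v') (h' : Eqv v' v'') :
    Eqv v v'' := by
  obtain ⟨α, rfl⟩ := h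
  obtain ⟨β, rfl⟩ := h'
  exact ⟨α.trans β, by funext j; simp⟩

theorem Eqv.refl {J T : Type} [Group T] (v : J → T) : Eqv v v :=
  ⟨MulEquiv.refl T, by funext j; simp⟩

/-- `v` generates `T` -/
def Gen {J T : Type} [Group T] (v : J → T) : Prop := Function.Surjective (FreeGroup.lift v)

theorem Gen.eqv {J T : Type} [Group T] {v v' : J → T} (hv : Gen v) (h : Eqv v v') : Gen v' := by
  obtain ⟨α, hα⟩ := h
  intro t
  obtain ⟨w, hw⟩ := hv (α.symm t)
  exact ⟨w, by rw [Eqv.lift hα, hw]; simp⟩

/-- two tuples, the first generating -/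
theorem sep_one {J T : Type} [Group T] [Finite T] [IsSimpleGroup T] {v : J → T} (hv : Gen v)
    (v' : J → T) (hne : ¬ Eqv v v') (t : T) :
    ∃ w, FreeGroup.lift v w = t ∧ FreeGroup.lift v' w = 1 := by
  have hN : ((FreeGroup.lift v').ker.map (FreeGroup.lift v)).Normal :=
    Subgroup.Normal.map inferInstance _ hv
  rcases hN.eq_bot_or_eq_top with h | h
  · exfalso
    apply hne
    have hker : ∀ w, FreeGroup.lift v' w = 1 → FreeGroup.lift v w = 1 := by
      intro w hw
      have : FreeGroup.lift v w ∈ (FreeGroup.lift v').ker.map (FreeGroup.lift v) :=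
        ⟨w, hw, rfl⟩
      rw [h] at this
      exact this
    choose u hu using hv
    let β : T → T := fun s => FreeGroup.lift v' (u s)
    have hinj : Function.Injective β := by
      intro s s' hs
      have h1 : FreeGroup.lift v (u s * (u s')⁻¹) = 1 := by
        apply hker
        have : FreeGroup.lift v' (u s) = FreeGroup.lift v' (u s') := hs
        rw [map_mul, map_inv, this, mul_inv_cancel]
      rw [map_mul, map_inv, hu, hu] at h1
      exact mul_inv_eq_one.1 h1
    have hsurj : Function.Surjective β := Finite.surjective_of_injective hinj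
    have key : ∀ w, FreeGroup.lift v' w = β (FreeGroup.lift v w) := by
      intro w
      obtain ⟨s, hs⟩ := hsurj (FreeGroup.lift v' w)
      have h1 : FreeGroup.lift v (w * (u s)⁻¹) = 1 := by
        apply hker
        have : FreeGroup.lift v' (u s) = FreeGroup.lift v' w := hs
        rw [map_mul, map_inv, this, mul_inv_cancel]
      rw [map_mul, map_inv, hu] at h1
      rw [← hs, mul_inv_eq_one.1 h1]
    refine ⟨MulEquiv.mk' (Equiv.ofBijective β ⟨hinj, hsurj⟩) ?_, ?_⟩
    · intro s s'
      change β (s * s') = β s * β s'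
      have : FreeGroup.lift v (u s * u s') = s * s' := by rw [map_mul, hu, hu]
      rw [← this, ← key, map_mul]
    · funext j
      change v' j = β (v j)
      have := key (FreeGroup.of j)
      simpa using this
  · have : t ∈ (FreeGroup.lift v').ker.map (FreeGroup.lift v) := by rw [h]; trivial
    obtain ⟨w, hw, rfl⟩ := this
    exact ⟨w, rfl, hw⟩

theorem sep_finset {J T : Type} [Group T] [Finite T] [IsSimpleGroup T]
    (hna : ¬ ∀ a b : T, a * b = b * a) {v : J → T} (hv : Gen v) (Ω : Finset (J → T))
    (hΩ : ∀ v' ∈ Ω, ¬ Eqv v v') (t : T) :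
    ∃ w, FreeGroup.lift v w = t ∧ ∀ v' ∈ Ω, FreeGroup.lift v' w = 1 := by
  classical
  induction Ω using Finset.induction_on generalizing t with
  | empty =>
    obtain ⟨w, hw⟩ := hv t
    exact ⟨w, hw, by simp⟩
  | insert a Ω _ ih =>
    have ih' := ih fun v' h => hΩ v' (Finset.mem_insert_of_mem h)
    have ha := sep_one hv a (hΩ a (Finset.mem_insert_self _ _))
    let N : Subgroup (FreeGroup J) := (FreeGroup.lift a).ker ⊓
      ⨅ v' ∈ Ω, (FreeGroup.lift v').ker
    have hNmem : ∀ w, w ∈ N ↔ FreeGroup.lift a w = 1 ∧ ∀ v' ∈ Ω, FreeGroup.lift v' w = 1 := by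
      intro w
      simp [N, Subgroup.mem_inf, Subgroup.mem_iInf, MonoidHom.mem_ker]
    have hNn : N.Normal := by
      refine ⟨fun w hw g => ?_⟩
      rw [hNmem] at hw ⊢
      refine ⟨by simp [hw.1], fun v' hv' => by simp [hw.2 v' hv']⟩
    have hN : (N.map (FreeGroup.lift v)).Normal := Subgroup.Normal.map hNn _ hv
    rcases hN.eq_bot_or_eq_top with h | h
    · exfalso
      apply hna
      intro x y
      obtain ⟨w, hw, hw'⟩ := ha x
      obtain ⟨z, hz, hz'⟩ := ih' y
      have h1 : FreeGroup.lift v (w * z * w⁻¹ * z⁻¹) ∈ N.map (FreeGroup.lift v) := by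
        refine ⟨_, ?_, rfl⟩
        change w * z * w⁻¹ * z⁻¹ ∈ N
        rw [hNmem]
        refine ⟨?_, fun v' hv' => ?_⟩
        · simp [hw']
        · simp [hz' v' hv']
      rw [h, Subgroup.mem_bot] at h1
      rw [map_mul, map_mul, map_mul, map_inv, map_inv, hw, hz] at h1
      exact eq_mul_of_mul_inv_eq (eq_of_mul_inv_eq_one h1)
    · have : t ∈ N.map (FreeGroup.lift v) := by rw [h]; trivial
      obtain ⟨w, hw, rfl⟩ := this
      have := (hNmem w).1 hw
      refine ⟨w, rfl, fun v' hv' => ?_⟩
      rcases Finset.mem_insert.1 hv' with rfl | hv'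
      · exact this.1
      · exact this.2 v' hv'

/-- the word detecting the class of a generating tuple -/
theorem exists_ind {J T : Type} [Finite J] [Group T] [Finite T] [IsSimpleGroup T]
    (hna : ¬ ∀ a b : T, a * b = b * a) {v : J → T} (hv : Gen v) (t : T) :
    ∃ w : FreeGroup J, (∀ α : T ≃* T, FreeGroup.lift (fun j => α (v j)) w = α t) ∧
      ∀ v', ¬ Eqv v v' → FreeGroup.lift v' w = 1 := by
  classical
  have := Fintype.ofFinite (J → T)
  obtain ⟨w, hw, hw'⟩ := sep_finset hna hv (Finset.univ.filter fun v' => ¬ Eqv v v')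
    (by simp) t
  refine ⟨w, fun α => ?_, fun v' hv' => hw' v' (by simp [hv'])⟩
  rw [Eqv.lift (v := v) (α := α) rfl, hw]

/-- data of a finite simple group with its words -/
structure Dat (T : Type) [Group T] : Prop where
  fin : Finite T
  simple : IsSimpleGroup T
  na : ¬ ∀ a b : T, a * b = b * a

section

variable {T : Type} [Group T] (D : Dat T)

include D in
theorem Dat.exists_ind {J : Type} [Finite J] (v : J → T) (t : T) :
    ∃ w : FreeGroup J, (∀ α : T ≃* T, Gen v → FreeGroup.lift (fun j => α (v j)) w = α t) ∧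
      ∀ v', (¬ Eqv v v' ∨ ¬ Gen v) → FreeGroup.lift v' w = 1 := by
  have := D.fin
  have := D.simple
  by_cases hv : Gen v
  · obtain ⟨w, h1, h2⟩ := BN.exists_ind D.na hv t
    exact ⟨w, fun α _ => h1 α, fun v' hv' => h2 v' (hv'.resolve_right (not_not.2 hv))⟩
  · exact ⟨1, fun α h => absurd h hv, fun v' _ => map_one _⟩

/-- the indicator word -/
noncomputable def ind {J : Type} [Finite J] (v : J → T) (t : T) : FreeGroup J :=
  (D.exists_ind v t).choose

theorem ind_self {J : Type} [Finite J] {v v' : J → T} (hv : Gen v) (t : T) {α : T ≃* T}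
    (h : v' = fun j => α (v j)) : FreeGroup.lift v' (ind D v t) = α t := by
  rw [h]
  exact (D.exists_ind v t).choose_spec.1 α hv

theorem ind_not {J : Type} [Finite J] {v v' : J → T} (t : T) (h : ¬ Eqv v v') :
    FreeGroup.lift v' (ind D v t) = 1 := (D.exists_ind v t).choose_spec.2 v' (Or.inl h)

theorem ind_id {J : Type} [Finite J] {v : J → T} (hv : Gen v) (t : T) :
    FreeGroup.lift v (ind D v t) = t := ind_self D hv t (α := MulEquiv.refl T) rfl

end

/-- `H` satisfies the laws of `T` in the variables `J` -/
def Laws (J : Type) (T : Type) (H : Type*) [Group T] [Group H] : Prop :=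
  ∀ w : FreeGroup J, (∀ v : J → T, FreeGroup.lift v w = 1) → ∀ u : J → H, FreeGroup.lift u w = 1

theorem Laws.eq {J T : Type} {H : Type*} [Group T] [Group H] (h : Laws J T H) {w w' : FreeGroup J}
    (hw : ∀ v : J → T, FreeGroup.lift v w = FreeGroup.lift v w') (u : J → H) :
    FreeGroup.lift u w = FreeGroup.lift u w' := by
  have := h (w * w'⁻¹) (fun v => by rw [map_mul, map_inv, hw v, mul_inv_cancel]) u
  rw [map_mul, map_inv] at this
  exact mul_inv_eq_one.1 this

theorem Laws.sub {J T : Type} {H K : Type*} [Group T] [Group H] [Group K] (h : Laws J T H)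
    (f : K →* H) (hf : Function.Injective f) : Laws J T K := by
  intro w hw u
  apply hf
  rw [← lift_comp, h w hw, map_one]

theorem Laws.quo {J T : Type} {H K : Type*} [Group T] [Group H] [Group K] (h : Laws J T H)
    (f : H →* K) (hf : Function.Surjective f) : Laws J T K := by
  intro w hw u
  choose g hg using hf
  have := h w hw fun j => g (u j)
  have e : u = fun j => f (g (u j)) := by funext j; rw [hg]
  rw [e, lift_comp, this, map_one]

/-- **Key lemma.** A word whose support consists of generating tuples, whose indicator words have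
values in `A` at `u`, has its value at `u` in `A`. -/
theorem key_mem {J T : Type} [Finite J] {H : Type*} [Group T] [Group H] (D : Dat T)
    (h : Laws J T H) (u : J → H) (A : Subgroup H) (w : FreeGroup J)
    (hw : ∀ v : J → T, FreeGroup.lift v w ≠ 1 → Gen v ∧ ∀ t, FreeGroup.lift u (ind D v t) ∈ A) :
    FreeGroup.lift u w ∈ A := by
  classical
  have := D.fin
  have := Fintype.ofFinite (J → T)
  obtain ⟨k, hk⟩ : ∃ k, (Finset.univ.filter fun v : J → T => FreeGroup.lift v w ≠ 1).card = k :=
    ⟨_, rfl⟩
  induction k using Nat.strong_induction_on generalizing w with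
  | _ k ih =>
    by_cases h0 : ∀ v : J → T, FreeGroup.lift v w = 1
    · rw [h w h0]
      exact one_mem _
    · push Not at h0
      obtain ⟨v, hv⟩ := h0
      obtain ⟨hg, hA⟩ := hw v hv
      let w' := w * (ind D v (FreeGroup.lift v w))⁻¹
      have e1 : ∀ v' : J → T, Eqv v v' → FreeGroup.lift v' w' = 1 := by
        rintro v' ⟨α, hα⟩
        simp only [w', map_mul, map_inv]
        rw [ind_self D hg _ hα, Eqv.lift hα, mul_inv_cancel]
      have e2 : ∀ v' : J → T, ¬ Eqv v v' → FreeGroup.lift v' w' = FreeGroup.lift v' w := by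
        intro v' hv'
        simp only [w', map_mul, map_inv]
        rw [ind_not D _ hv', inv_one, mul_one]
      have hsub : ∀ v' : J → T, FreeGroup.lift v' w' ≠ 1 → FreeGroup.lift v' w ≠ 1 := by
        intro v' hv'
        by_cases he : Eqv v v'
        · exact absurd (e1 v' he) hv'
        · rwa [e2 v' he] at hv'
      have hlt : (Finset.univ.filter fun v : J → T => FreeGroup.lift v w' ≠ 1).card < k := by
        rw [← hk]
        apply Finset.card_lt_card
        rw [Finset.ssubset_iff_of_subset]
        · refine ⟨v, by simpa using hv, by simpa using e1 v (Eqv.refl v)⟩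
        · intro v' hv'
          simp only [Finset.mem_filter, Finset.mem_univ, true_and] at hv' ⊢
          exact hsub v' hv'
      have h1 := ih _ hlt w' (fun v' hv' => hw v' (hsub v' hv')) rfl
      have h2 := hA (FreeGroup.lift v w)
      have h3 := mul_mem h1 h2
      simpa [w'] using h3

/-- the homomorphism given by the indicator words -/
noncomputable def chi {J T : Type} [Finite J] {H : Type*} [Group T] [Group H] (D : Dat T)
    (h : Laws J T H) (v : J → T) (u : J → H) : T →* H :=
  MonoidHom.mk' (fun t => FreeGroup.lift u (ind D v t)) (by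
    intro s t
    rw [← map_mul]
    refine h.eq (fun v' => ?_) u
    rw [map_mul]
    by_cases hg : Gen v
    · by_cases he : Eqv v v'
      · obtain ⟨α, hα⟩ := he
        rw [ind_self D hg _ hα, ind_self D hg _ hα, ind_self D hg _ hα, map_mul]
      · rw [ind_not D _ he, ind_not D _ he, ind_not D _ he, mul_one]
    · have e : ∀ t, FreeGroup.lift v' (ind D v t) = 1 := fun t =>
        (D.exists_ind v t).choose_spec.2 v' (Or.inr hg)
      rw [e, e, e, mul_one])

theorem chi_apply {J T : Type} [Finite J] {H : Type*} [Group T] [Group H] (D : Dat T)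
    (h : Laws J T H) (v : J → T) (u : J → H) (t : T) :
    chi D h v u t = FreeGroup.lift u (ind D v t) := rfl

end Pool.Agent.U110.BN
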