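import Pool.Agent.U110.BN.A

set_option autoImplicit false

/-!
# Simple subgroups centralise soluble subgroups which they normalise
-/

namespace Pool.Agent.U110.BN

theorem not_solv {T : Type} [Group T] (D : Dat T) : ¬ Group.IsSolvable T := by
  have := D.simple
  intro h
  exact D.na (IsSimpleGroup.comm_iff_isSolvable.2 h)

theorem hom_dich {T : Type} [Group T] (D : Dat T) {S : Type*} [Group S] (φ : T →* S) :
    Function.Injective φ ∨ ∀ t, φ t = 1 := by
  have := D.simple
  rcases (inferInstance : φ.ker.Normal).eq_bot_or_eq_top with h | h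
  · left
    exact (MonoidHom.ker_eq_bot_iff φ).1 h
  · right
    intro t
    have : t ∈ φ.ker := by rw [h]; trivial
    exact this

theorem hom_trivial {T : Type} [Group T] (D : Dat T) {S : Type*} [Group S] [Group.IsSolvable S]
    (φ : T →* S) (t : T) : φ t = 1 := by
  rcases hom_dich D φ with h | h
  · exact absurd (Group.isSolvable_of_isSolvable_injective h) (not_solv D)
  · exact h t

theorem hom_trivial_sub {T : Type} [Group T] (D : Dat T) {Q : Type*} [Group Q] (S : Subgroup Q)
    [Group.IsSolvable S] (φ : T →* Q) (h : ∀ t, φ t ∈ S) (t : T) : φ t = 1 := by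
  have := hom_trivial D (φ.codRestrict S h) t
  exact congrArg Subtype.val this

/-- groups without subgroups `T` -/
theorem solv_of_noT {J T : Type} [Finite J] [Group T] (D : Dat T)
    (hmin : ∀ P : Subgroup T, P ≠ ⊤ → Group.IsSolvable P) {H : Type*} [Group H]
    (h : Laws J T H) (u : J → H) (hu : Function.Surjective (FreeGroup.lift u))
    (hno : ∀ φ : T →* H, ¬ Function.Injective φ) : Group.IsSolvable H := by
  classical
  have := D.fin
  have := Fintype.ofFinite (J → T)
  have h1 : ∀ v : J → T, ∃ d, ¬ Gen v → derivedSeries (FreeGroup.lift v).range d = ⊥ := by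
    intro v
    by_cases hv : Gen v
    · exact ⟨0, fun h => absurd hv h⟩
    · have hne : (FreeGroup.lift v).range ≠ ⊤ := by
        intro h
        exact hv (MonoidHom.range_eq_top.1 h)
      obtain ⟨⟨d, hd⟩⟩ := hmin _ hne
      exact ⟨d, fun _ => hd⟩
  choose d hd using h1
  let e := Finset.univ.sup d
  have h2 : ∀ w ∈ derivedSeries (FreeGroup J) e, FreeGroup.lift u w = 1 := by
    intro w hw
    have := key_mem D h u ⊥ w (fun v hv => ?_)
    · exact this
    by_cases hg : Gen v
    · refine ⟨hg, fun t => ?_⟩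
      rw [Subgroup.mem_bot, ← chi_apply D h]
      exact (hom_dich D (chi D h v u)).resolve_left (hno _) t
    · exfalso
      apply hv
      have h3 : (FreeGroup.lift v).rangeRestrict w ∈ derivedSeries (FreeGroup.lift v).range e :=
        map_derivedSeries_le_derivedSeries _ e ⟨w, hw, rfl⟩
      have h4 := derivedSeries_antitone (G := (FreeGroup.lift v).range)
        (Finset.le_sup (f := d) (Finset.mem_univ v)) h3
      rw [hd v hg, Subgroup.mem_bot] at h4
      exact congrArg Subtype.val h4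
  refine ⟨⟨e, ?_⟩⟩
  rw [← map_derivedSeries_eq hu, eq_bot_iff]
  rintro _ ⟨w, hw, rfl⟩
  exact h2 w hw

/-- the module lemma -/
theorem act_trivial {T : Type} [Group T] (D : Dat T) {V : Type*} [CommGroup V]
    (ρ : T →* MulAut V) {i j : T} (hi : i * i = 1) (hi1 : i ≠ 1) (hj : j * j = 1) (hj1 : j ≠ 1)
    (hij : i * j = j * i) (hne : i ≠ j)
    (h : ∀ a : T, a * a = 1 → a ≠ 1 → ∀ (v : V) (s : T), ρ s (ρ a v * v) = ρ a v * v)
    (t : T) (v : V) : ρ t v = v := by
  have := D.simple
  let C : Subgroup V :=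
    { carrier := {v | ∀ s, ρ s v = v}
      one_mem' := fun s => map_one _
      mul_mem' := fun {a b} ha hb s => by rw [map_mul, ha s, hb s]
      inv_mem' := fun {a} ha s => by rw [map_inv, ha s] }
  have hC : ∀ v, v ∈ C ↔ ∀ s, ρ s v = v := fun v => Iff.rfl
  have hij1 : i * j ≠ 1 := by
    intro h
    apply hne
    rw [eq_comm, ← mul_right_inj i, h, hi]
  have hij2 : (i * j) * (i * j) = 1 := by
    calc (i * j) * (i * j) = (i * j) * (j * i) := by rw [hij]
      _ = i * (j * j) * i := by group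
      _ = 1 := by rw [hj, mul_one, hi]
  have hsq : ∀ v : V, v * v ∈ C := by
    intro v
    have c1 : ρ i v * v ∈ C := h i hi hi1 v
    have c2 : ρ j v * v ∈ C := h j hj hj1 v
    have c3 : ρ (i * j) v * v ∈ C := h _ hij2 hij1 v
    have e1 : ρ i (ρ j v * v) = ρ j v * v := c2 i
    have e2 : ρ (i * j) v = ρ i (ρ j v) := by rw [map_mul]; rfl
    rw [map_mul, ← e2] at e1
    have e3 : v * v = (ρ (i * j) v * v) * (ρ j v * v)⁻¹ * (ρ i v * v) := by
      rw [← e1]
      rw [mul_inv_rev]
      have : ρ (i * j) v * v * ((ρ i v)⁻¹ * (ρ (i * j) v)⁻¹) * (ρ i v * v) =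
        (ρ (i * j) v * (ρ (i * j) v)⁻¹) * (ρ i v * (ρ i v)⁻¹) * (v * v) := by
        simp only [mul_comm, mul_left_comm, mul_assoc]
      rw [this]
      simp
    rw [e3]
    exact mul_mem (mul_mem c3 (inv_mem c2)) c1
  let B : Subgroup T :=
    { carrier := {t | ∀ v, ρ t v * v⁻¹ ∈ C}
      one_mem' := fun v => by simp [one_mem]
      mul_mem' := fun {a b} ha hb v => by
        have h1 := ha (ρ b v)
        have h2 := hb v
        have : ρ (a * b) v * v⁻¹ = (ρ a (ρ b v) * (ρ b v)⁻¹) * (ρ b v * v⁻¹) := by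
          rw [map_mul]
          simp
        rw [this]
        exact mul_mem h1 h2
      inv_mem' := fun {a} ha v => by
        have h1 := ha (ρ a⁻¹ v)
        have h2 : ρ a (ρ a⁻¹ v) = v := by
          rw [← MulAut.mul_apply, ← map_mul, mul_inv_cancel, map_one]
          rfl
        rw [h2] at h1
        have := inv_mem h1
        simpa using this }
  have hB : ∀ t, t ∈ B ↔ ∀ v, ρ t v * v⁻¹ ∈ C := fun t => Iff.rfl
  have hBn : B.Normal := by
    refine ⟨fun t ht g => ?_⟩
    rw [hB] at ht ⊢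
    intro v
    obtain ⟨y, hy⟩ : ∃ y, y = ρ g⁻¹ v := ⟨_, rfl⟩
    have h1 := ht y g
    have h2 : ρ g y = v := by
      rw [hy, ← MulAut.mul_apply, ← map_mul, mul_inv_cancel, map_one]
      rfl
    have h3 : ρ (g * t * g⁻¹) v = ρ g (ρ t y) := by
      rw [hy, map_mul, map_mul]
      rfl
    rw [h3]
    rw [map_mul, map_inv (ρ g), h2] at h1
    rw [h1]
    exact ht _
  have hiB : i ∈ B := by
    rw [hB]
    intro v
    have h1 : ρ i v * v ∈ C := h i hi hi1 v
    have h2 := mul_mem h1 (inv_mem (hsq v))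
    have : ρ i v * v * (v * v)⁻¹ = ρ i v * v⁻¹ := by
      rw [mul_inv_rev]
      group
    rwa [this] at h2
  have hBt : B = ⊤ := by
    rcases hBn.eq_bot_or_eq_top with h | h
    · rw [h, Subgroup.mem_bot] at hiB
      exact absurd hiB hi1
    · exact h
  let χ : T →* V := MonoidHom.mk' (fun t => ρ t v * v⁻¹) (by
    intro s t
    have h1 : ρ t v * v⁻¹ ∈ C := (hB t).1 (by rw [hBt]; trivial) v
    have h2 := h1 s
    have h3 : ρ (s * t) v = ρ s (ρ t v) := by rw [map_mul]; rfl
    rw [map_mul, map_inv, ← h3] at h2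
    have : ρ (s * t) v = (ρ t v * v⁻¹) * ρ s v := by
      rw [← h2]
      group
    rw [this]
    rw [mul_assoc, mul_comm])
  have h1 : χ t = 1 := hom_trivial D χ t
  exact mul_inv_eq_one.1 h1

/-- the hypotheses on `T` -/
structure Suit (T : Type) [Group T] : Prop extends Dat T where
  min : ∀ P : Subgroup T, P ≠ ⊤ → Group.IsSolvable P
  gen : ∀ a : T, a ≠ 1 → ∃ b, Subgroup.closure {a, b} = ⊤
  four : ∃ i j : T, i * i = 1 ∧ i ≠ 1 ∧ j * j = 1 ∧ j ≠ 1 ∧ i * j = j * i ∧ i ≠ j

theorem gen_iff {T : Type} [Group T] (a b : T) :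
    Gen ![a, b] ↔ Subgroup.closure {a, b} = ⊤ := by
  unfold Gen
  rw [← MonoidHom.range_eq_top, FreeGroup.range_lift_eq_closure]
  have : Set.range ![a, b] = {a, b} := by
    ext x
    simp only [Set.mem_range, Fin.exists_fin_two, Set.mem_insert_iff, Set.mem_singleton_iff]
    constructor
    · rintro (h | h)
      · exact Or.inl h.symm
      · exact Or.inr h.symm
    · rintro (h | h)
      · exact Or.inl h.symm
      · exact Or.inr h.symm
  rw [this]

/-- words in elements of `φ(T) V` -/
theorem lift_mod {J T : Type} [Group T] {Q : Type*} [Group Q] (φ : T →* Q) (S : Subgroup Q)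
    (hn : ∀ t, ∀ s ∈ S, φ t * s * (φ t)⁻¹ ∈ S) (a : J → T) (x : J → Q)
    (hx : ∀ j, ∃ s ∈ S, x j = φ (a j) * s) (w : FreeGroup J) :
    ∃ s ∈ S, FreeGroup.lift x w = φ (FreeGroup.lift a w) * s := by
  induction w using FreeGroup.induction_on with
  | C1 => exact ⟨1, one_mem _, by simp⟩
  | of j => simpa using hx j
  | inv_of j _ =>
    obtain ⟨s, hs, e⟩ := hx j
    refine ⟨φ (a j) * s⁻¹ * (φ (a j))⁻¹, hn _ _ (inv_mem hs), ?_⟩
    simp [e]
    group
  | mul w w' h h' =>
    obtain ⟨s, hs, e⟩ := h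
    obtain ⟨s', hs', e'⟩ := h'
    refine ⟨(φ (FreeGroup.lift a w'))⁻¹ * s * φ (FreeGroup.lift a w') * s', mul_mem ?_ hs', ?_⟩
    · have := hn (FreeGroup.lift a w')⁻¹ s hs
      rw [map_inv, inv_inv] at this
      exact this
    · rw [map_mul, map_mul, map_mul, e, e']
      group

end Pool.Agent.U110.BN
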