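import Pool.Agent.U110.BN.B

set_option autoImplicit false

/-!
# Simple subgroups centralise soluble subgroups which they normalise (continued)
-/

namespace Pool.Agent.U110.BN

/-- the action of `T` on a subgroup which is normalised -/
def actS {T : Type} [Group T] {Q : Type*} [Group Q] (φ : T →* Q) (S : Subgroup Q)
    (hn : ∀ t, ∀ s ∈ S, φ t * s * (φ t)⁻¹ ∈ S) : T →* MulAut S where
  toFun t :=
    { toFun := fun s => ⟨φ t * s * (φ t)⁻¹, hn t s s.2⟩
      invFun := fun s => ⟨φ t⁻¹ * s * (φ t⁻¹)⁻¹, hn t⁻¹ s s.2⟩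
      left_inv := fun s => by
        apply Subtype.ext
        simp only [map_inv]
        group
      right_inv := fun s => by
        apply Subtype.ext
        simp only [map_inv]
        group
      map_mul' := fun s s' => by
        apply Subtype.ext
        simp only [Subgroup.coe_mul]
        group }
  map_one' := by
    ext s
    simp
  map_mul' t t' := by
    ext s
    simp [mul_assoc]

/-- the action of `T` on the abelianization -/
def actA {T : Type} [Group T] {Q : Type*} [Group Q] (φ : T →* Q) (S : Subgroup Q)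
    (hn : ∀ t, ∀ s ∈ S, φ t * s * (φ t)⁻¹ ∈ S) : T →* MulAut (Abelianization S) where
  toFun t := (actS φ S hn t).abelianizationCongr
  map_one' := by
    ext x
    obtain ⟨x, rfl⟩ := QuotientGroup.mk_surjective x
    change Abelianization.of (actS φ S hn 1 x) = Abelianization.of x
    rw [map_one]
    rfl
  map_mul' t t' := by
    ext x
    obtain ⟨x, rfl⟩ := QuotientGroup.mk_surjective x
    change Abelianization.of (actS φ S hn (t * t') x) =
      Abelianization.of (actS φ S hn t (actS φ S hn t' x))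
    rw [map_mul]
    rfl

/-- `T` acts trivially on the abelianization -/
theorem act_ab {T : Type} [Group T] (D : Suit T) {Q : Type*} [Group Q] (h2 : Laws (Fin 2) T Q)
    (φ : T →* Q) (S : Subgroup Q) (hn : ∀ t, ∀ s ∈ S, φ t * s * (φ t)⁻¹ ∈ S) (t : T) (x : S) :
    Abelianization.of (actS φ S hn t x) = Abelianization.of x := by
  obtain ⟨i, j, hi, hi1, hj, hj1, hij, hne⟩ := D.four
  refine act_trivial D.toDat (actA φ S hn) hi hi1 hj hj1 hij hne ?_ t (Abelianization.of x)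
  intro a ha ha1 v s
  obtain ⟨v, rfl⟩ := QuotientGroup.mk_surjective v
  obtain ⟨b, hb⟩ := D.gen a ha1
  have hg : Gen ![a, b] := (gen_iff a b).2 hb
  let X : Fin 2 → Q := ![φ a * v, φ b]
  obtain ⟨z, hz, e⟩ := lift_mod φ S hn ![a, b] X (by
    intro k
    fin_cases k
    · exact ⟨v, v.2, rfl⟩
    · exact ⟨1, one_mem _, (mul_one _).symm⟩) (ind D.toDat ![a, b] s⁻¹)
  rw [ind_id D.toDat hg] at e
  -- the commutation law
  have hc : FreeGroup.lift X (FreeGroup.of 0 * FreeGroup.of 0 * ind D.toDat ![a, b] s⁻¹) =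
      FreeGroup.lift X (ind D.toDat ![a, b] s⁻¹ * (FreeGroup.of 0 * FreeGroup.of 0)) := by
    refine h2.eq (fun v' => ?_) X
    by_cases he : Eqv ![a, b] v'
    · obtain ⟨α, hα⟩ := he
      have h0 : v' 0 * v' 0 = 1 := by
        rw [hα]
        change α a * α a = 1
        rw [← map_mul, ha, map_one]
      simp only [map_mul, FreeGroup.lift_apply_of]
      rw [h0, one_mul, mul_one]
    · simp only [map_mul, ind_not D.toDat _ he, FreeGroup.lift_apply_of, mul_one, one_mul]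
  simp only [map_mul, FreeGroup.lift_apply_of] at hc
  rw [e] at hc
  have hX : X 0 = φ a * v := rfl
  have ha2 : φ a * φ a = 1 := by rw [← map_mul, ha, map_one]
  have ha3 : (φ a)⁻¹ = φ a := inv_eq_of_mul_eq_one_left ha2
  -- `y = φ a v φ a⁻¹ v`
  let y : S := actS φ S hn a v * v
  have hy : (y : Q) = X 0 * X 0 := by
    change φ a * v * (φ a)⁻¹ * v = φ a * v * (φ a * v)
    rw [ha3]
    group
  rw [← hy] at hc
  change Abelianization.of (actS φ S hn s y) = Abelianization.of y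
  have hkey : actS φ S hn s y = (⟨z, hz⟩ : S) * y * (⟨z, hz⟩ : S)⁻¹ := by
    apply Subtype.ext
    change φ s * (y : Q) * (φ s)⁻¹ = z * y * z⁻¹
    have h1 : (y : Q) = φ s⁻¹ * z * y * z⁻¹ * φ s := by
      calc (y : Q) = (y * (φ s⁻¹ * z)) * (φ s⁻¹ * z)⁻¹ := by group
        _ = (φ s⁻¹ * z * y) * (φ s⁻¹ * z)⁻¹ := by rw [hc]
        _ = φ s⁻¹ * z * y * z⁻¹ * φ s := by
          rw [mul_inv_rev, map_inv, inv_inv]
          group
    calc φ s * (y : Q) * (φ s)⁻¹ = φ s * (φ s⁻¹ * z * y * z⁻¹ * φ s) * (φ s)⁻¹ := by rw [← h1]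
      _ = z * y * z⁻¹ := by
        rw [map_inv]
        group
  rw [hkey, map_mul, map_mul, map_inv, mul_comm, ← mul_assoc, inv_mul_cancel, one_mul]

theorem act_comm {T : Type} [Group T] (D : Suit T) {Q : Type*} [Group Q] (h2 : Laws (Fin 2) T Q)
    (φ : T →* Q) (S : Subgroup Q) (hn : ∀ t, ∀ s ∈ S, φ t * s * (φ t)⁻¹ ∈ S) (t : T) (x : Q)
    (hx : x ∈ S) : φ t * x * (φ t)⁻¹ * x⁻¹ ∈ ⁅S, S⁆ := by
  have h1 := act_ab D h2 φ S hn t ⟨x, hx⟩
  have h3 : actS φ S hn t ⟨x, hx⟩ * (⟨x, hx⟩ : S)⁻¹ ∈ (Abelianization.of (G := S)).ker := by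
    rw [MonoidHom.mem_ker, map_mul, map_inv, h1, mul_inv_cancel]
  rw [Abelianization.ker_of] at h3
  rw [← Subgroup.map_subtype_commutator]
  exact ⟨_, h3, rfl⟩

/-- the derived series inside the group -/
def dser {Q : Type*} [Group Q] (S : Subgroup Q) : ℕ → Subgroup Q
  | 0 => S
  | n + 1 => ⁅dser S n, dser S n⁆

theorem dser_succ {Q : Type*} [Group Q] (S : Subgroup Q) (n : ℕ) :
    dser S (n + 1) = dser ⁅S, S⁆ n := by
  induction n with
  | zero => rfl
  | succ n ih =>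
    change ⁅dser S (n + 1), dser S (n + 1)⁆ = ⁅dser ⁅S, S⁆ n, dser ⁅S, S⁆ n⁆
    rw [ih]

theorem dser_eq {Q : Type*} [Group Q] (S : Subgroup Q) (n : ℕ) :
    dser S n = (derivedSeries S n).map S.subtype := by
  induction n with
  | zero =>
    rw [derivedSeries_zero, ← MonoidHom.range_eq_map, Subgroup.range_subtype]
    rfl
  | succ n ih =>
    change ⁅dser S n, dser S n⁆ = _
    rw [ih, derivedSeries_succ, Subgroup.map_commutator]

/-- **Lemma X.** `T` centralises soluble subgroups which it normalises. -/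
theorem centralises {T : Type} [Group T] (D : Suit T) {Q : Type*} [Group Q]
    (h2 : Laws (Fin 2) T Q) (φ : T →* Q) (S : Subgroup Q) (hS : Group.IsSolvable S)
    (hn : ∀ t, ∀ s ∈ S, φ t * s * (φ t)⁻¹ ∈ S) (t : T) (x : Q) (hx : x ∈ S) :
    φ t * x = x * φ t := by
  obtain ⟨d, hd⟩ : ∃ d, dser S d = ⊥ := by
    obtain ⟨⟨d, hd⟩⟩ := hS
    exact ⟨d, by rw [dser_eq, hd, Subgroup.map_bot]⟩
  induction d generalizing S t x with
  | zero =>
    have : x ∈ (⊥ : Subgroup Q) := by rw [← hd]; exact hx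
    rw [Subgroup.mem_bot] at this
    rw [this, mul_one, one_mul]
  | succ d ih =>
    have hle : ⁅S, S⁆ ≤ S := Subgroup.commutator_le_self S
    have hS1 : Group.IsSolvable (⁅S, S⁆ : Subgroup Q) :=
      Group.isSolvable_of_isSolvable_injective (f := Subgroup.inclusion hle)
        (Subgroup.inclusion_injective hle)
    have hn1 : ∀ t, ∀ s ∈ ⁅S, S⁆, φ t * s * (φ t)⁻¹ ∈ ⁅S, S⁆ := by
      intro t s hs
      have h1 : (⁅S, S⁆).map (MulAut.conj (φ t)).toMonoidHom ≤ ⁅S, S⁆ := by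
        rw [Subgroup.map_commutator]
        have : S.map (MulAut.conj (φ t)).toMonoidHom ≤ S := by
          rintro _ ⟨y, hy, rfl⟩
          exact hn t y hy
        exact Subgroup.commutator_mono this this
      exact h1 ⟨s, hs, rfl⟩
    have ih' := ih ⁅S, S⁆ hS1 hn1
    have hz := fun t => act_comm D h2 φ S hn t x hx
    have hd' : dser ⁅S, S⁆ d = ⊥ := by rw [← dser_succ]; exact hd
    let χ : T →* Q := MonoidHom.mk' (fun t => (φ t * x * (φ t)⁻¹ * x⁻¹)⁻¹) (by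
      intro s t
      have h1 := ih' s _ (hz t) hd'
      rw [← mul_inv_rev, inv_inj]
      calc φ (s * t) * x * (φ (s * t))⁻¹ * x⁻¹
          = φ s * (φ t * x * (φ t)⁻¹ * x⁻¹) * x * (φ s)⁻¹ * x⁻¹ := by
            rw [map_mul]
            group
        _ = (φ t * x * (φ t)⁻¹ * x⁻¹) * φ s * x * (φ s)⁻¹ * x⁻¹ := by rw [h1]
        _ = (φ t * x * (φ t)⁻¹ * x⁻¹) * (φ s * x * (φ s)⁻¹ * x⁻¹) := by group)
    have h1 : χ t = 1 := hom_trivial_sub D.toDat ⁅S, S⁆ χ (fun t => inv_mem (hz t)) t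
    have h3 : φ t * x * (φ t)⁻¹ * x⁻¹ = 1 := inv_eq_one.1 h1
    calc φ t * x = (φ t * x * (φ t)⁻¹ * x⁻¹) * (x * φ t) := by group
      _ = x * φ t := by rw [h3, one_mul]

/-- **Lemma U.** uniqueness -/
theorem hom_unique {T : Type} [Group T] (D : Suit T) {Q : Type*} [Group Q]
    (h2 : Laws (Fin 2) T Q) (φ ψ : T →* Q) (S : Subgroup Q) (hS : Group.IsSolvable S)
    (hφ : ∀ t, ∀ s ∈ S, φ t * s * (φ t)⁻¹ ∈ S) (hψ : ∀ t, ∀ s ∈ S, ψ t * s * (ψ t)⁻¹ ∈ S)
    (h : ∀ t, φ t * (ψ t)⁻¹ ∈ S) (t : T) : φ t = ψ t := by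
  let χ : T →* Q := MonoidHom.mk' (fun t => φ t * (ψ t)⁻¹) (by
    intro s t
    have h1 := centralises D h2 φ S hS hφ s _ (h t)
    have h3 := centralises D h2 φ S hS hφ s _ (h t)
    have h4 := centralises D h2 ψ S hS hψ s _ (h t)
    have h5 : (φ t * (ψ t)⁻¹) * (ψ s)⁻¹ = (ψ s)⁻¹ * (φ t * (ψ t)⁻¹) := by
      calc (φ t * (ψ t)⁻¹) * (ψ s)⁻¹
          = (ψ s)⁻¹ * (ψ s * (φ t * (ψ t)⁻¹)) * (ψ s)⁻¹ := by group
        _ = (ψ s)⁻¹ * ((φ t * (ψ t)⁻¹) * ψ s) * (ψ s)⁻¹ := by rw [h4]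
        _ = (ψ s)⁻¹ * (φ t * (ψ t)⁻¹) := by group
    rw [map_mul, map_mul]
    calc φ s * φ t * (ψ s * ψ t)⁻¹ = φ s * ((φ t * (ψ t)⁻¹) * (ψ s)⁻¹) := by group
      _ = φ s * ((ψ s)⁻¹ * (φ t * (ψ t)⁻¹)) := by rw [h5]
      _ = φ s * (ψ s)⁻¹ * (φ t * (ψ t)⁻¹) := by group)
  exact mul_inv_eq_one.1 (hom_trivial_sub D.toDat S χ h t)

/-- **Lemma Y.** commuting -/
theorem hom_commute {T : Type} [Group T] (D : Suit T) {Q : Type*} [Group Q]
    (h2 : Laws (Fin 2) T Q) (φ ψ : T →* Q) (S : Subgroup Q) (hS : Group.IsSolvable S)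
    (hφ : ∀ t, ∀ s ∈ S, φ t * s * (φ t)⁻¹ ∈ S) (hψ : ∀ t, ∀ s ∈ S, ψ t * s * (ψ t)⁻¹ ∈ S)
    (h : ∀ s t, φ s * ψ t * (φ s)⁻¹ * (ψ t)⁻¹ ∈ S) (s t : T) : Commute (φ s) (ψ t) := by
  let φ' : T →* Q := (MulAut.conj (ψ t)).toMonoidHom.comp φ
  have e : ∀ s, φ' s = ψ t * φ s * (ψ t)⁻¹ := fun s => rfl
  have h1 := hom_unique D h2 φ φ' S hS hφ (by
    intro r x hx
    rw [e]
    have h3 := hψ t⁻¹ x hx
    have h4 := hφ r _ h3
    have h5 := hψ t _ h4
    rw [map_inv, inv_inv] at h5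
    convert h5 using 1
    group) (by
    intro r
    rw [e]
    convert h r t using 1
    group) s
  rw [e] at h1
  change φ s * ψ t = ψ t * φ s
  rw [eq_mul_inv_iff_mul_eq] at h1
  exact h1

end Pool.Agent.U110.BN
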