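import Pool.Agent.U110.BN.C

set_option autoImplicit false

/-!
# Groups whose three-generator subgroups are soluble-by-(laws of `T`)
-/

namespace Pool.Agent.U110.BN

/-- `F / S` satisfies the laws of `T` in three variables, `S` soluble and normalised by `F` -/
structure Loc (T : Type) [Group T] {Q : Type*} [Group Q] (F S : Subgroup Q) : Prop where
  solv : Group.IsSolvable S
  norm : ∀ f ∈ F, ∀ s ∈ S, f * s * f⁻¹ ∈ S
  laws : ∀ w : FreeGroup (Fin 3), (∀ v : Fin 3 → T, FreeGroup.lift v w = 1) →
    ∀ u : Fin 3 → Q, (∀ i, u i ∈ F) → FreeGroup.lift u w ∈ S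

theorem Loc.eq {T : Type} [Group T] {Q : Type*} [Group Q] {F S : Subgroup Q} (L : Loc T F S)
    {w w' : FreeGroup (Fin 3)} (hw : ∀ v : Fin 3 → T, FreeGroup.lift v w = FreeGroup.lift v w')
    (u : Fin 3 → Q) (hu : ∀ i, u i ∈ F) :
    FreeGroup.lift u w * (FreeGroup.lift u w')⁻¹ ∈ S := by
  have := L.laws (w * w'⁻¹) (fun v => by rw [map_mul, map_inv, hw v, mul_inv_cancel]) u hu
  rwa [map_mul, map_inv] at this

theorem lift_mem {J : Type} {Q : Type*} [Group Q] (F : Subgroup Q) (u : J → Q) (hu : ∀ i, u i ∈ F)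
    (w : FreeGroup J) : FreeGroup.lift u w ∈ F := by
  have h1 : (FreeGroup.lift u).range ≤ F := by
    rw [FreeGroup.range_lift_eq_closure, Subgroup.closure_le]
    rintro _ ⟨i, rfl⟩
    exact hu i
  exact h1 ⟨w, rfl⟩

theorem lift_one {J : Type} {Q : Type*} [Group Q] (w : FreeGroup J) :
    FreeGroup.lift (fun _ : J => (1 : Q)) w = 1 := by
  have := lift_mem (⊥ : Subgroup Q) (fun _ : J => (1 : Q)) (fun _ => one_mem _) w
  exact this

section words

variable {T : Type} [Group T] (D : Dat T) (b : Fin 2 → T)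

/-- the triple `(b 0, b 1, g)` -/
def tr (g : T) : Fin 3 → T := ![b 0, b 1, g]

/-- words in the first two variables -/
def up (w : FreeGroup (Fin 2)) : FreeGroup (Fin 3) :=
  FreeGroup.lift ![FreeGroup.of 0, FreeGroup.of 1] w

theorem lift_up {H : Type*} [Group H] (v : Fin 3 → H) (w : FreeGroup (Fin 2)) :
    FreeGroup.lift v (up w) = FreeGroup.lift ![v 0, v 1] w := by
  unfold up
  rw [← lift_comp]
  congr 2
  funext j
  fin_cases j <;> simp

variable {b}

theorem gen_tr (hb : Gen b) (g : T) : Gen (tr b g) := by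
  intro t
  obtain ⟨w, hw⟩ := hb t
  refine ⟨up w, ?_⟩
  rw [lift_up, ← hw]
  congr 2
  funext j
  fin_cases j <;> rfl

theorem eq_id (hb : Gen b) (α : T ≃* T) (h0 : α (b 0) = b 0) (h1 : α (b 1) = b 1) (t : T) :
    α t = t := by
  obtain ⟨w, rfl⟩ := hb t
  rw [← Eqv.lift (v := b) (α := α) rfl]
  congr 2
  funext j
  fin_cases j
  · exact h0
  · exact h1

theorem tr_inj (hb : Gen b) {g g' : T} {v : Fin 3 → T} (h : Eqv (tr b g) v)
    (h' : Eqv (tr b g') v) : g = g' := by
  obtain ⟨α, hα⟩ := h.trans h'.symm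
  have e0 := congrFun hα 0
  have e1 := congrFun hα 1
  have e2 := congrFun hα 2
  have := eq_id hb α e0.symm e1.symm g
  exact this.symm.trans e2.symm

variable (b) in
/-- the words `Ψ` -/
noncomputable def Psi (g s : T) : FreeGroup (Fin 3) :=
  FreeGroup.lift ![ind D (tr b g) (b 0), ind D (tr b g) (b 1)] (ind D b s)

theorem psi_self (hb : Gen b) (g s : T) {v : Fin 3 → T} {α : T ≃* T}
    (h : v = fun j => α (tr b g j)) : FreeGroup.lift v (Psi D b g s) = α s := by
  unfold Psi
  rw [← lift_comp]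
  apply ind_self D hb s
  funext j
  fin_cases j
  · exact ind_self D (gen_tr hb g) _ h
  · exact ind_self D (gen_tr hb g) _ h

theorem psi_not (g s : T) {v : Fin 3 → T} (h : ¬ Eqv (tr b g) v) :
    FreeGroup.lift v (Psi D b g s) = 1 := by
  unfold Psi
  rw [← lift_comp]
  have : (fun j => FreeGroup.lift v ((![ind D (tr b g) (b 0), ind D (tr b g) (b 1)] :
      Fin 2 → FreeGroup (Fin 3)) j)) = fun _ => 1 := by
    funext j
    fin_cases j
    · exact ind_not D _ h
    · exact ind_not D _ h
  rw [this, lift_one]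

theorem list_single {H : Type*} [Monoid H] {A : Type*} (l : List A) (hl : l.Nodup) (f : A → H)
    (a : A) (ha : a ∈ l) (h : ∀ x ∈ l, x ≠ a → f x = 1) : (l.map f).prod = f a := by
  induction l with
  | nil => simp at ha
  | cons x l ih =>
    rw [List.map_cons, List.prod_cons]
    rw [List.nodup_cons] at hl
    rcases List.mem_cons.1 ha with rfl | ha'
    · rw [List.prod_eq_one, mul_one]
      intro y hy
      obtain ⟨z, hz, rfl⟩ := List.mem_map.1 hy
      exact h z (List.mem_cons_of_mem _ hz) fun e => hl.1 (e ▸ hz)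
    · rw [ih hl.2 ha' fun y hy => h y (List.mem_cons_of_mem _ hy)]
      rw [h x List.mem_cons_self fun e => hl.1 (e ▸ ha'), one_mul]

theorem law1 (hb : Gen b) {g g' : T} (hg : g ≠ g') (s t : T) (v : Fin 3 → T) :
    FreeGroup.lift v (Psi D b g s * Psi D b g' t * (Psi D b g s)⁻¹ * (Psi D b g' t)⁻¹) = 1 := by
  simp only [map_mul, map_inv]
  by_cases h : Eqv (tr b g) v
  · have h' : ¬ Eqv (tr b g') v := fun h' => hg (tr_inj hb h h')
    rw [psi_not D g' t h']
    simp
  · rw [psi_not D g s h]
    simp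

theorem law2 [Fintype T] (hb : Gen b) (s : T) (v : Fin 3 → T) :
    FreeGroup.lift v (up (ind D b s)) =
      FreeGroup.lift v ((Finset.univ.toList.map fun g => Psi D b g s).prod) := by
  rw [lift_up, map_list_prod, List.map_map]
  by_cases h : Eqv b ![v 0, v 1]
  · obtain ⟨α, hα⟩ := h
    rw [ind_self D hb s hα]
    have hv : v = fun j => α (tr b (α.symm (v 2)) j) := by
      funext j
      fin_cases j
      · exact congrFun hα 0
      · exact congrFun hα 1
      · simp [tr]
    rw [list_single _ (Finset.nodup_toList _) _ (α.symm (v 2)) (by simp)]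
    · exact (psi_self D hb _ s hv).symm
    · intro g _ hg
      exact psi_not D g s fun h => hg (tr_inj hb h ⟨α, hv⟩)
  · rw [ind_not D s h, List.prod_eq_one]
    intro y hy
    obtain ⟨g, _, rfl⟩ := List.mem_map.1 hy
    refine psi_not D g s fun h' => h ?_
    obtain ⟨α, hα⟩ := h'
    refine ⟨α, ?_⟩
    funext j
    fin_cases j
    · exact congrFun hα 0
    · exact congrFun hα 1

theorem law3 (hb : Gen b) (g s : T) (v : Fin 3 → T) :
    FreeGroup.lift v (FreeGroup.of 2 * Psi D b g s * (FreeGroup.of 2)⁻¹) =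
      FreeGroup.lift v (Psi D b g (g * s * g⁻¹)) := by
  simp only [map_mul, map_inv, FreeGroup.lift_apply_of]
  by_cases h : Eqv (tr b g) v
  · obtain ⟨α, hα⟩ := h
    rw [psi_self D hb _ _ hα, psi_self D hb _ _ hα]
    have : v 2 = α g := congrFun hα 2
    rw [this]
    simp
  · rw [psi_not D g s h, psi_not D g _ h]
    simp

theorem law4 {c : Fin 2 → T} (hbc : ¬ Eqv b c) (s t : T) (v : Fin 3 → T) :
    FreeGroup.lift v (up (ind D b s) * (FreeGroup.of 2 * up (ind D c t) * (FreeGroup.of 2)⁻¹) *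
      (up (ind D b s))⁻¹ * (FreeGroup.of 2 * up (ind D c t) * (FreeGroup.of 2)⁻¹)⁻¹) = 1 := by
  simp only [map_mul, map_inv, lift_up, FreeGroup.lift_apply_of]
  by_cases h : Eqv b ![v 0, v 1]
  · have h' : ¬ Eqv c ![v 0, v 1] := fun h' => hbc (h.trans h'.symm)
    rw [ind_not D t h']
    simp
  · rw [ind_not D s h]
    simp

end words

theorem lift_two_comm {J T : Type} [Group T] {Q : Type*} [Group Q] (φ ψ : T →* Q)
    (h : ∀ s t, Commute (φ s) (ψ t)) (b c : J → T) (w : FreeGroup J) :
    FreeGroup.lift (fun j => φ (b j) * ψ (c j)) w =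
      φ (FreeGroup.lift b w) * ψ (FreeGroup.lift c w) := by
  induction w using FreeGroup.induction_on with
  | C1 => simp
  | of j => simp
  | inv_of j _ =>
    simp only [map_inv, FreeGroup.lift_apply_of, mul_inv_rev]
    rw [← map_inv, ← map_inv]
    exact (h _ _).symm.eq
  | mul w w' e e' =>
    rw [map_mul, e, e', map_mul, map_mul, map_mul, map_mul]
    have := (h (FreeGroup.lift b w') (FreeGroup.lift c w)).eq
    calc φ (FreeGroup.lift b w) * ψ (FreeGroup.lift c w) *
          (φ (FreeGroup.lift b w') * ψ (FreeGroup.lift c w'))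
        = φ (FreeGroup.lift b w) * (ψ (FreeGroup.lift c w) * φ (FreeGroup.lift b w')) *
          ψ (FreeGroup.lift c w') := by group
      _ = φ (FreeGroup.lift b w) * (φ (FreeGroup.lift b w') * ψ (FreeGroup.lift c w)) *
          ψ (FreeGroup.lift c w') := by rw [this]
      _ = _ := by group

/-- the local hypotheses on the group -/
structure Hyp (T : Type) [Group T] (Q : Type*) [Group Q] : Prop where
  two : Laws (Fin 2) T Q
  three : ∀ x y z : Q, ∃ S : Subgroup Q, Loc T (Subgroup.closure {x, y, z}) S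

/-- **Theorem D4.** commuting subgroups commute with all conjugates of each other -/
theorem comm_conj {T : Type} [Group T] (D : Suit T) {Q : Type*} [Group Q] (hQ : Hyp T Q)
    {b c : Fin 2 → T} (hb : Gen b) (hc : Gen c) (hbc : ¬ Eqv b c) (φ ψ : T →* Q)
    (h : ∀ s t, Commute (φ s) (ψ t)) (y : Q) (s t : T) :
    Commute (φ s) (y * ψ t * y⁻¹) := by
  let a' : Q := φ (b 0) * ψ (c 0)
  let b' : Q := φ (b 1) * ψ (c 1)
  obtain ⟨S, L⟩ := hQ.three a' b' y
  let F := Subgroup.closure {a', b', y}
  have ha' : a' ∈ F := Subgroup.subset_closure (by simp)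
  have hb' : b' ∈ F := Subgroup.subset_closure (by simp)
  have hy : y ∈ F := Subgroup.subset_closure (by simp)
  have hX : (![a', b'] : Fin 2 → Q) = fun j => φ (b j) * ψ (c j) := by
    funext j
    fin_cases j <;> rfl
  have e1 : ∀ s, FreeGroup.lift ![a', b'] (ind D.toDat b s) = φ s := by
    intro s
    rw [hX, lift_two_comm φ ψ h, ind_id D.toDat hb, ind_not D.toDat _ hbc, map_one, mul_one]
  have e2 : ∀ t, FreeGroup.lift ![a', b'] (ind D.toDat c t) = ψ t := by
    intro t
    rw [hX, lift_two_comm φ ψ h, ind_id D.toDat hc, ind_not D.toDat _ fun h => hbc h.symm, map_one,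
      one_mul]
  have hmem : ∀ w, FreeGroup.lift ![a', b'] w ∈ F := by
    intro w
    apply lift_mem
    intro j
    fin_cases j
    · exact ha'
    · exact hb'
  let ψ' : T →* Q := (MulAut.conj y).toMonoidHom.comp ψ
  have e3 : ∀ t, ψ' t = y * ψ t * y⁻¹ := fun t => rfl
  rw [← e3]
  refine hom_commute D hQ.two φ ψ' S L.solv ?_ ?_ ?_ s t
  · intro s x hx
    rw [← e1]
    exact L.norm _ (hmem _) x hx
  · intro t x hx
    refine L.norm _ ?_ x hx
    rw [e3, ← e2]
    exact mul_mem (mul_mem hy (hmem _)) (inv_mem hy)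
  · intro s t
    have h1 := L.laws _ (law4 D.toDat hbc s t) ![a', b', y] (by
      intro i
      fin_cases i
      · exact ha'
      · exact hb'
      · exact hy)
    simp only [map_mul, map_inv, lift_up, FreeGroup.lift_apply_of] at h1
    have e4 : (![(![a', b', y] : Fin 3 → Q) 0, (![a', b', y] : Fin 3 → Q) 1] : Fin 2 → Q) =
        ![a', b'] := rfl
    rw [e4, e1, e2] at h1
    exact h1

/-- the decomposition of `T` with respect to an element `h` -/
theorem decomp {T : Type} [Group T] [Fintype T] (D : Suit T) {Q : Type*} [Group Q]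
    (hQ : Hyp T Q) {b : Fin 2 → T} (hb : Gen b) (φ : T →* Q) (h : Q) :
    ∃ ψ : T → (T →* Q), (∀ g g', g ≠ g' → ∀ s t, Commute (ψ g s) (ψ g' t)) ∧
      (∀ s, φ s = (Finset.univ.toList.map fun g => ψ g s).prod) ∧
      ∀ g s, h * ψ g s * h⁻¹ = ψ g (g * s * g⁻¹) := by
  classical
  let u : Fin 3 → Q := ![φ (b 0), φ (b 1), h]
  obtain ⟨S, L⟩ := hQ.three (φ (b 0)) (φ (b 1)) h
  let F := Subgroup.closure {φ (b 0), φ (b 1), h}
  have hu : ∀ i, u i ∈ F := by
    intro i
    fin_cases i
    · exact Subgroup.subset_closure (by simp [u])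
    · exact Subgroup.subset_closure (by simp [u])
    · exact Subgroup.subset_closure (by simp [u])
  have hh : h ∈ F := hu 2
  let ψ : T → (T →* Q) := fun g => chi D.toDat hQ.two b
    (fun j => FreeGroup.lift u ((![ind D.toDat (tr b g) (b 0), ind D.toDat (tr b g) (b 1)] :
      Fin 2 → FreeGroup (Fin 3)) j))
  have eψ : ∀ g s, ψ g s = FreeGroup.lift u (Psi D.toDat b g s) := by
    intro g s
    unfold Psi
    rw [← lift_comp]
    rfl
  have hmem : ∀ g s, ψ g s ∈ F := by
    intro g s
    rw [eψ]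
    exact lift_mem F u hu _
  have hcomm : ∀ g g', g ≠ g' → ∀ s t, Commute (ψ g s) (ψ g' t) := by
    intro g g' hg s t
    refine hom_commute D hQ.two (ψ g) (ψ g') S L.solv (fun t => L.norm _ (hmem g t))
      (fun t => L.norm _ (hmem g' t)) ?_ s t
    intro s t
    have := L.laws _ (law1 D.toDat hb hg s t) u hu
    simp only [map_mul, map_inv] at this
    rw [eψ, eψ]
    exact this
  let Ψ : T →* Q := (MonoidHom.noncommPiCoprod ψ (fun g g' hg s t => hcomm g g' hg s t)).comp
    (MonoidHom.pi fun _ => MonoidHom.id T)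
  have hΨ : ∀ s, Ψ s = (Finset.univ.toList.map fun g => ψ g s).prod := by
    intro s
    have h1 : Ψ s = Finset.univ.noncommProd (fun g => ψ g s)
      (fun g _ g' _ hg => hcomm g g' hg s s) := rfl
    have h2 := Finset.noncommProd_toFinset (Finset.univ.toList) (fun g => ψ g s)
      (fun g _ g' _ hg => hcomm g g' hg s s) (Finset.nodup_toList _)
    rw [h1, ← h2]
    congr 1
    simp
  refine ⟨ψ, hcomm, fun s => ?_, fun g s => ?_⟩
  · rw [← hΨ]
    refine hom_unique D hQ.two φ Ψ S L.solv ?_ ?_ ?_ s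
    · intro t x hx
      refine L.norm _ ?_ x hx
      obtain ⟨w, rfl⟩ := hb t
      rw [← lift_comp]
      apply lift_mem
      intro j
      fin_cases j
      · exact hu 0
      · exact hu 1
    · intro t x hx
      refine L.norm _ ?_ x hx
      rw [hΨ]
      apply Subgroup.list_prod_mem
      intro y hy
      obtain ⟨g, _, rfl⟩ := List.mem_map.1 hy
      exact hmem g t
    · intro t
      have h1 := L.eq (law2 D.toDat hb t) u hu
      rw [lift_up, map_list_prod, List.map_map] at h1
      have e1 : FreeGroup.lift ![u 0, u 1] (ind D.toDat b t) = φ t := by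
        have : (![u 0, u 1] : Fin 2 → Q) = fun j => φ (b j) := by
          funext j
          fin_cases j <;> rfl
        rw [this, lift_comp, ind_id D.toDat hb]
      have e2 : ((FreeGroup.lift u) ∘ fun g => Psi D.toDat b g t) = fun g => ψ g t := by
        funext g
        exact (eψ g t).symm
      rw [e1, e2, ← hΨ] at h1
      exact h1
  · let φ1 : T →* Q := (MulAut.conj h).toMonoidHom.comp (ψ g)
    let φ2 : T →* Q := (ψ g).comp (MulAut.conj g).toMonoidHom
    change φ1 s = φ2 s
    refine hom_unique D hQ.two φ1 φ2 S L.solv ?_ ?_ ?_ s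
    · intro t x hx
      exact L.norm _ (mul_mem (mul_mem hh (hmem g t)) (inv_mem hh)) x hx
    · intro t x hx
      exact L.norm _ (hmem g _) x hx
    · intro t
      have h1 := L.eq (law3 D.toDat hb g t) u hu
      simp only [map_mul, map_inv, FreeGroup.lift_apply_of] at h1
      rw [← eψ, ← eψ] at h1
      exact h1

end Pool.Agent.U110.BN
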