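import Pool.Agent.U110.BN.D

set_option autoImplicit false

/-!
# The normal closure of a simple subgroup is locally finite
-/

namespace Pool.Agent.U110.BN

theorem mem_nc_conj {Q : Type*} [Group Q] (s : Set Q) (x : Q) (hx : x ∈ s) (y : Q) :
    y * x * y⁻¹ ∈ Subgroup.normalClosure s :=
  Subgroup.normalClosure_normal.conj_mem x (Subgroup.subset_normalClosure hx) y

/-- normal closures commute -/
theorem nc_commute {T : Type} [Group T] {Q : Type*} [Group Q] (φ ψ : T →* Q)
    (h : ∀ (y : Q) (s t : T), Commute (φ s) (y * ψ t * y⁻¹)) (x : Q)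
    (hx : x ∈ Subgroup.normalClosure (Set.range φ)) (y : Q)
    (hy : y ∈ Subgroup.normalClosure (Set.range ψ)) : Commute x y := by
  have h1 : ∀ s, Subgroup.normalClosure (Set.range ψ) ≤ Subgroup.centralizer {φ s} := by
    intro s
    unfold Subgroup.normalClosure
    rw [Subgroup.closure_le]
    intro z hz
    obtain ⟨_, ⟨t, rfl⟩, hc⟩ := Group.mem_conjugatesOfSet_iff.1 hz
    obtain ⟨c, hc⟩ := isConj_iff.1 hc
    rw [SetLike.mem_coe, Subgroup.mem_centralizer_singleton_iff]
    rw [← hc]
    exact (h c s t).symm.eq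
  have h2 : Subgroup.normalClosure (Set.range φ) ≤
      Subgroup.centralizer (Subgroup.normalClosure (Set.range ψ) : Set Q) := by
    apply Subgroup.normalClosure_le_normal
    rintro _ ⟨s, rfl⟩
    rw [SetLike.mem_coe, Subgroup.mem_centralizer_iff]
    intro z hz
    exact (Subgroup.mem_centralizer_singleton_iff.1 (h1 s hz))
  exact ((Subgroup.mem_centralizer_iff.1 (h2 hx)) y hy).symm

theorem list_eq_npc {Q : Type*} [Group Q] {I : Type} [Fintype I] (H : I → Subgroup Q)
    (hcomm : Pairwise fun i j : I => ∀ x y : Q, x ∈ H i → y ∈ H j → Commute x y)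
    (x : ∀ i, H i) :
    Subgroup.noncommPiCoprod hcomm x = (Finset.univ.toList.map fun i => (x i : Q)).prod := by
  classical
  rw [Subgroup.noncommPiCoprod_apply]
  have h2 := Finset.noncommProd_toFinset (Finset.univ.toList) (fun i => (x i : Q))
      (fun g _ g' _ hg => hcomm hg _ _ (x g).2 (x g').2) (Finset.nodup_toList _)
  rw [← h2]
  congr 1
  simp

theorem conj_mulSingle {I : Type} [DecidableEq I] {H : I → Type*} [∀ i, Group (H i)]
    (x : ∀ i, H i) (i : I) (y : H i) :
    x * Pi.mulSingle i y * x⁻¹ = Pi.mulSingle i (x i * y * (x i)⁻¹) := by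
  funext j
  by_cases hj : j = i
  · subst hj
    simp
  · simp [Pi.mulSingle_eq_of_ne hj]

section

variable {T : Type} [Group T] [Fintype T] (D : Suit T) {Q : Type*} [Group Q] (hQ : Hyp T Q)
  (hab : ∀ N : Subgroup Q, N.Normal → (∀ x ∈ N, ∀ y ∈ N, x * y = y * x) → N = ⊥)
  {b c : Fin 2 → T} (hb : Gen b) (hc : Gen c) (hbc : ¬ Eqv b c) (φ : T →* Q)

include D hQ hab hb hc hbc in
/-- one step -/
theorem step (h : Q) (K : Subgroup Q) (hK : Finite K)
    (hKM : K ≤ Subgroup.normalClosure (Set.range φ)) (hφ : ∀ s, φ s ∈ K) :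
    ∃ K' : Subgroup Q, Finite K' ∧ K' ≤ Subgroup.normalClosure (Set.range φ) ∧ K ≤ K' ∧
      ∀ s, h * φ s * h⁻¹ ∈ K' := by
  classical
  obtain ⟨ψ, h1, h2, h3⟩ := decomp D hQ hb φ h
  let N : T → Subgroup Q := fun g => Subgroup.normalClosure (Set.range (ψ g))
  have hNn : ∀ g, (N g).Normal := fun g => Subgroup.normalClosure_normal
  have hψN : ∀ g s, ψ g s ∈ N g := fun g s => Subgroup.subset_normalClosure ⟨s, rfl⟩
  have hcomm : Pairwise fun i j : T => ∀ x y : Q, x ∈ N i → y ∈ N j → Commute x y := by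
    intro g g' hg x y hx hy
    exact nc_commute (ψ g) (ψ g') (fun y s t =>
      comm_conj D hQ hb hc hbc (ψ g) (ψ g') (h1 g g' hg) y s t) x hx y hy
  let Φ : (∀ g, N g) →* Q := Subgroup.noncommPiCoprod hcomm
  have hΦs : ∀ g (y : N g), Φ (Pi.mulSingle g y) = y := fun g y =>
    Subgroup.noncommPiCoprod_mulSingle g y
  -- injectivity
  have hinj : Function.Injective Φ := by
    rw [injective_iff_map_eq_one]
    intro x hx
    funext g
    have hZ : N g ⊓ Subgroup.centralizer (N g : Set Q) = ⊥ := by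
      have := hNn g
      refine hab _ inferInstance ?_
      intro a ha a' ha'
      exact (Subgroup.mem_centralizer_iff.1 ha'.2 a ha.1)
    have h4 : (x g : Q) ∈ N g ⊓ Subgroup.centralizer (N g : Set Q) := by
      refine ⟨(x g).2, Subgroup.mem_centralizer_iff.2 fun y hy => ?_⟩
      have e1 := congrArg Φ (conj_mulSingle x g (⟨y, hy⟩ : N g))
      rw [hΦs, map_mul, map_mul, map_inv, hx, hΦs, inv_one, mul_one, one_mul] at e1
      have e2 : y = (x g : Q) * y * (x g : Q)⁻¹ := e1
      rw [eq_mul_inv_iff_mul_eq] at e2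
      exact e2
    rw [hZ, Subgroup.mem_bot] at h4
    exact Subtype.ext h4
  let xs : T → (∀ g, N g) := fun s g => ⟨ψ g s, hψN g s⟩
  have hxs : ∀ s, Φ (xs s) = φ s := by
    intro s
    rw [h2 s]
    exact list_eq_npc N hcomm (xs s)
  have hrange : Φ.range = Subgroup.normalClosure (Set.range φ) := by
    apply le_antisymm
    · change (Subgroup.noncommPiCoprod hcomm).range ≤ _
      rw [Subgroup.noncommPiCoprod_range]
      apply iSup_le
      intro g
      apply Subgroup.normalClosure_le_normal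
      have hMn : (Subgroup.normalClosure (Set.range φ)).Normal := Subgroup.normalClosure_normal
      have hB : ((Subgroup.normalClosure (Set.range φ)).comap (ψ g)).Normal := inferInstance
      have := D.simple
      have hBt : (Subgroup.normalClosure (Set.range φ)).comap (ψ g) = ⊤ := by
        rcases hB.eq_bot_or_eq_top with h | h
        · exfalso
          apply D.na
          intro t s
          have e1 := congrArg Φ (conj_mulSingle (xs t) g (⟨ψ g s, hψN g s⟩ : N g))
          rw [hΦs, map_mul, map_mul, map_inv, hxs, hΦs] at e1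
          have e2 : φ t * ψ g s * (φ t)⁻¹ = ψ g t * ψ g s * (ψ g t)⁻¹ := e1
          have e3 : t * s * t⁻¹ * s⁻¹ ∈
              (Subgroup.normalClosure (Set.range φ)).comap (ψ g) := by
            rw [Subgroup.mem_comap, map_mul, map_mul, map_mul, map_inv, map_inv, ← e2]
            have e4 := mul_mem (Subgroup.subset_normalClosure (s := Set.range φ) ⟨t, rfl⟩)
              (mem_nc_conj (Set.range φ) _ (⟨t⁻¹, rfl⟩ : φ t⁻¹ ∈ Set.range φ) (ψ g s))
            convert e4 using 1
            rw [map_inv]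
            group
          rw [h, Subgroup.mem_bot] at e3
          exact eq_mul_of_mul_inv_eq (eq_of_mul_inv_eq_one e3)
        · exact h
      rintro _ ⟨s, rfl⟩
      have : s ∈ (Subgroup.normalClosure (Set.range φ)).comap (ψ g) := by
        rw [hBt]; trivial
      exact this
    · have hn : Φ.range.Normal := by
        change (Subgroup.noncommPiCoprod hcomm).range.Normal
        rw [Subgroup.noncommPiCoprod_range]
        exact Subgroup.iSup_normal N
      apply Subgroup.normalClosure_le_normal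
      rintro _ ⟨s, rfl⟩
      exact ⟨xs s, hxs s⟩
  -- the new subgroup
  let X : ∀ g, Subgroup (N g) := fun g => (K.comap Φ).map (Pi.evalMonoidHom (fun g => N g) g)
  have hfc : (K.comap Φ : Set (∀ g, N g)).Finite := by
    have h5 : (K : Set Q).Finite := Set.toFinite _
    exact Set.Finite.preimage (f := Φ) hinj.injOn h5
  have hfX : ∀ g, (X g : Set (N g)).Finite := fun g => hfc.image _
  have hfpi : (Subgroup.pi Set.univ X : Set (∀ g, N g)).Finite := by
    rw [Subgroup.coe_pi]
    exact Set.Finite.pi' (fun g => hfX g) |>.subset (fun x hx g => hx g (Set.mem_univ g))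
  have hψK : ∀ g s, ψ g s ∈ (Subgroup.pi Set.univ X).map Φ := by
    intro g s
    refine ⟨Pi.mulSingle g (⟨ψ g s, hψN g s⟩ : N g), ?_, hΦs _ _⟩
    intro g' _
    by_cases hg : g' = g
    · subst hg
      rw [Pi.mulSingle_eq_same]
      refine ⟨xs s, ?_, rfl⟩
      change Φ (xs s) ∈ K
      rw [hxs]
      exact hφ s
    · rw [Pi.mulSingle_eq_of_ne hg]
      exact one_mem (X g')
  refine ⟨(Subgroup.pi Set.univ X).map Φ, ?_, ?_, ?_, ?_⟩
  · exact (hfpi.image Φ).to_subtype
  · rw [← hrange]
    exact Subgroup.map_le_range _ _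
  · intro k hk
    have : k ∈ Φ.range := by rw [hrange]; exact hKM hk
    obtain ⟨x, rfl⟩ := this
    exact ⟨x, fun g _ => ⟨x, hk, rfl⟩, rfl⟩
  · intro s
    have e1 : h * φ s * h⁻¹ = (MulAut.conj h).toMonoidHom (φ s) := rfl
    rw [e1, h2 s, map_list_prod, List.map_map]
    apply Subgroup.list_prod_mem
    intro y hy
    obtain ⟨g, _, rfl⟩ := List.mem_map.1 hy
    have e2 : ((MulAut.conj h).toMonoidHom ∘ fun g => ψ g s) g = h * ψ g s * h⁻¹ := rfl
    rw [e2, h3]
    exact hψK g _

include D hQ hab hb hc hbc in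
theorem exists_K (L : List Q) : ∃ K : Subgroup Q, Finite K ∧
    K ≤ Subgroup.normalClosure (Set.range φ) ∧ (∀ s, φ s ∈ K) ∧
      ∀ h ∈ L, ∀ s, h * φ s * h⁻¹ ∈ K := by
  induction L with
  | nil =>
    refine ⟨φ.range, (Set.finite_range φ).to_subtype, ?_, fun s => ⟨s, rfl⟩, by simp⟩
    exact Subgroup.subset_normalClosure
  | cons h L ih =>
    obtain ⟨K, h1, h2, h3, h4⟩ := ih
    obtain ⟨K', k1, k2, k3, k4⟩ := step D hQ hab hb hc hbc φ h K h1 h2 h3
    refine ⟨K', k1, k2, fun s => k3 (h3 s), ?_⟩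
    intro h' hh'
    rcases List.mem_cons.1 hh' with rfl | hh'
    · exact k4
    · exact fun s => k3 (h4 h' hh' s)

/-- elements of a normal closure involve finitely many conjugates -/
theorem nc_fin {T : Type} [Group T] {Q : Type*} [Group Q] (φ : T →* Q) (x : Q)
    (hx : x ∈ Subgroup.normalClosure (Set.range φ)) :
    ∃ L : List Q, ∀ K : Subgroup Q, (∀ h ∈ L, ∀ s, h * φ s * h⁻¹ ∈ K) → x ∈ K := by
  let N : Subgroup Q :=
    { carrier := {x | ∃ L : List Q, ∀ K : Subgroup Q, (∀ h ∈ L, ∀ s, h * φ s * h⁻¹ ∈ K) → x ∈ K}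
      one_mem' := ⟨[], fun K _ => one_mem K⟩
      mul_mem' := by
        rintro x y ⟨L, hL⟩ ⟨L', hL'⟩
        refine ⟨L ++ L', fun K hK => mul_mem (hL K fun h hh => hK h ?_)
          (hL' K fun h hh => hK h ?_)⟩
        · exact List.mem_append_left _ hh
        · exact List.mem_append_right _ hh
      inv_mem' := by
        rintro x ⟨L, hL⟩
        exact ⟨L, fun K hK => inv_mem (hL K hK)⟩ }
  have hN : N.Normal := by
    refine ⟨?_⟩
    rintro x ⟨L, hL⟩ y
    refine ⟨L.map (fun h => y * h), fun K hK => ?_⟩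
    have := hL (K.comap (MulAut.conj y).toMonoidHom) (by
      intro h hh s
      have h1 := hK (y * h) (List.mem_map.2 ⟨h, hh, rfl⟩) s
      change y * (h * φ s * h⁻¹) * y⁻¹ ∈ K
      convert h1 using 1
      group)
    exact this
  have h1 : Subgroup.normalClosure (Set.range φ) ≤ N := by
    apply Subgroup.normalClosure_le_normal
    rintro _ ⟨s, rfl⟩
    refine ⟨[1], fun K hK => ?_⟩
    have := hK 1 (by simp) s
    simpa using this
  exact h1 hx

include D hQ hab hb hc hbc in
/-- **Theorem E.** the normal closure of a subgroup `T` is locally finite -/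
theorem nc_lf (S : Set Q) (hS : S.Finite)
    (hSM : S ⊆ Subgroup.normalClosure (Set.range φ)) : Finite (Subgroup.closure S) := by
  have h1 : ∃ L : List Q, ∀ K : Subgroup Q, (∀ h ∈ L, ∀ s, h * φ s * h⁻¹ ∈ K) → S ⊆ K := by
    induction S, hS using Set.Finite.induction_on with
    | empty => exact ⟨[], fun K _ => Set.empty_subset _⟩
    | @insert a S _ _ ih =>
      obtain ⟨L, hL⟩ := ih fun x hx => hSM (Set.mem_insert_of_mem _ hx)
      obtain ⟨L', hL'⟩ := nc_fin φ a (hSM (Set.mem_insert _ _))
      refine ⟨L ++ L', fun K hK x hx => ?_⟩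
      rcases Set.mem_insert_iff.1 hx with rfl | hx
      · exact hL' K fun h hh => hK h (List.mem_append_right _ hh)
      · exact hL K (fun h hh => hK h (List.mem_append_left _ hh)) hx
  obtain ⟨L, hL⟩ := h1
  obtain ⟨K, k1, _, _, k4⟩ := exists_K D hQ hab hb hc hbc φ L
  have h2 : Subgroup.closure S ≤ K := by
    rw [Subgroup.closure_le]
    exact hL K k4
  exact Finite.of_injective _ (Subgroup.inclusion_injective h2)

end

end Pool.Agent.U110.BN
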