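import Pool.Agent.U110.BN.E

set_option autoImplicit false

/-!
# The soluble radical
-/

namespace Pool.Agent.U110.BN

/-- `H` satisfies all laws of `T` -/
def AllLaws (T : Type) (H : Type*) [Group T] [Group H] : Prop :=
  ∀ w : FreeGroup ℕ, (∀ v : ℕ → T, FreeGroup.lift v w = 1) → ∀ u : ℕ → H, FreeGroup.lift u w = 1

theorem AllLaws.fin {T : Type} {H : Type*} [Group T] [Group H] (h : AllLaws T H) (J : Type)
    [Finite J] : Laws J T H := by
  intro w hw u
  obtain ⟨e, he⟩ := exists_injective_nat J
  have h1 := h (FreeGroup.lift (fun j => FreeGroup.of (e j)) w) (by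
    intro v
    rw [← lift_comp]
    simp only [FreeGroup.lift_apply_of]
    exact hw _) (Function.extend e u fun _ => 1)
  rw [← lift_comp] at h1
  simp only [FreeGroup.lift_apply_of] at h1
  have e1 : (fun j => Function.extend e u (fun _ => (1 : H)) (e j)) = u := by
    funext j
    exact he.extend_apply _ _ _
  rwa [e1] at h1

theorem center_triv {T : Type} [Group T] (D : Dat T) (r : T) (h : ∀ x, r * x * r⁻¹ = x) :
    r = 1 := by
  have := D.simple
  have hr : r ∈ Subgroup.center T := by
    rw [Subgroup.mem_center_iff]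
    intro x
    have := h x
    rw [mul_inv_eq_iff_eq_mul] at this
    exact this.symm
  rcases (inferInstance : (Subgroup.center T).Normal).eq_bot_or_eq_top with h | h
  · rw [h] at hr
    exact hr
  · exfalso
    apply D.na
    intro a b
    have : b ∈ Subgroup.center T := by rw [h]; trivial
    exact Subgroup.mem_center_iff.1 this a

/-- a soluble subgroup does not act on `T` as the group of inner automorphisms -/
theorem no_action {T : Type} [Group T] (D : Dat T) {Q : Type*} [Group Q] (E : Subgroup Q)
    (hE : Group.IsSolvable E) (χ : T →* Q) (hχ : Function.Injective χ) (d d' : Q) (hd : d ∈ E)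
    (hd' : d' ∈ E) (s s' : T) (hs : Subgroup.closure {s, s'} = ⊤)
    (h : ∀ x, d * χ x * d⁻¹ = χ (s * x * s⁻¹)) (h' : ∀ x, d' * χ x * d'⁻¹ = χ (s' * x * s'⁻¹)) :
    False := by
  let P : Subgroup (Q × T) :=
    { carrier := {z | z.1 ∈ E ∧ ∀ x, z.1 * χ x * z.1⁻¹ = χ (z.2 * x * z.2⁻¹)}
      one_mem' := ⟨one_mem _, fun x => by simp⟩
      mul_mem' := by
        rintro ⟨a, r⟩ ⟨a', r'⟩ ⟨h1, h2⟩ ⟨h3, h4⟩
        refine ⟨mul_mem h1 h3, fun x => ?_⟩
        dsimp only at h2 h4 ⊢
        change a * a' * χ x * (a * a')⁻¹ = χ (r * r' * x * (r * r')⁻¹)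
        calc a * a' * χ x * (a * a')⁻¹ = a * (a' * χ x * a'⁻¹) * a⁻¹ := by group
          _ = χ (r * (r' * x * r'⁻¹) * r⁻¹) := by rw [h4, h2]
          _ = _ := by
            congr 1
            group
      inv_mem' := by
        rintro ⟨a, r⟩ ⟨h1, h2⟩
        refine ⟨inv_mem h1, fun x => ?_⟩
        dsimp only at h2 ⊢
        change a⁻¹ * χ x * (a⁻¹)⁻¹ = χ (r⁻¹ * x * (r⁻¹)⁻¹)
        have h3 := h2 (r⁻¹ * x * r)
        have e : r * (r⁻¹ * x * r) * r⁻¹ = x := by group
        rw [e] at h3
        rw [← h3, inv_inv, inv_inv]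
        group }
  have hP : ∀ z, z ∈ P ↔ z.1 ∈ E ∧ ∀ x, z.1 * χ x * z.1⁻¹ = χ (z.2 * x * z.2⁻¹) :=
    fun z => Iff.rfl
  let p1 : P →* E :=
    { toFun := fun z => ⟨z.1.1, z.2.1⟩
      map_one' := rfl
      map_mul' := fun _ _ => rfl }
  have hp1 : Function.Injective p1 := by
    rw [injective_iff_map_eq_one]
    rintro ⟨⟨a, r⟩, hz⟩ h1
    have ha : a = 1 := congrArg Subtype.val h1
    have hr : r = 1 := by
      apply center_triv D
      intro x
      apply hχ
      have := hz.2 x
      dsimp only at this
      rw [ha] at this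
      simpa using this.symm
    apply Subtype.ext
    change (a, r) = (1, 1)
    rw [ha, hr]
  have hPs : Group.IsSolvable P := Group.isSolvable_of_isSolvable_injective hp1
  let p2 : P →* T :=
    { toFun := fun z => z.1.2
      map_one' := rfl
      map_mul' := fun _ _ => rfl }
  have hp2 : Function.Surjective p2 := by
    rw [← MonoidHom.range_eq_top, eq_top_iff, ← hs, Subgroup.closure_le]
    rintro x (rfl | rfl)
    · exact ⟨⟨(d, x), hd, h⟩, rfl⟩
    · exact ⟨⟨(d', x), hd', h'⟩, rfl⟩
  exact not_solv D (Group.isSolvable_of_surjective hp2)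

/-- indicator words of equivalent tuples -/
theorem ind_eqv {J T : Type} [Finite J] [Group T] (D : Dat T) {H : Type*} [Group H]
    (h : Laws J T H) {v v' : J → T} (hv : Gen v) {α : T ≃* T} (hα : v' = fun j => α (v j)) (t : T)
    (u : J → H) :
    FreeGroup.lift u (ind D v' t) = FreeGroup.lift u (ind D v (α.symm t)) := by
  refine h.eq (fun w => ?_) u
  by_cases hw : Eqv v w
  · obtain ⟨β, hβ⟩ := hw
    rw [ind_self D hv _ hβ]
    have h1 : w = fun j => (α.symm.trans β) (v' j) := by
      rw [hβ, hα]
      funext j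
      simp
    rw [ind_self D (hv.eqv ⟨α, hα⟩) _ h1]
    rfl
  · rw [ind_not D _ hw, ind_not D]
    intro h'
    exact hw (Eqv.trans ⟨α, hα⟩ h')

/-- **Theorem R1.** -/
theorem commutes_T {T : Type} [Group T] (D : Suit T) {b : Fin 2 → T} (hb : Gen b) {Q : Type*}
    [Group Q] (h3 : Laws (Fin 3) T Q) (g : Q) (hg : ∀ x, Group.IsSolvable (Subgroup.closure {g, x}))
    (φ : T →* Q) (t : T) : g * φ t = φ t * g := by
  let u : Fin 3 → Q := ![φ (b 0), φ (b 1), g]
  have hup : ∀ w : FreeGroup (Fin 2), FreeGroup.lift u (up w) = φ (FreeGroup.lift b w) := by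
    intro w
    rw [lift_up]
    have : (![u 0, u 1] : Fin 2 → Q) = fun j => φ (b j) := by
      funext j
      fin_cases j <;> rfl
    rw [this, lift_comp]
  have hu2 : u 2 = g := rfl
  have key : ∀ s : T, s ≠ 1 → ∀ r, chi D.toDat h3 (tr b s) u r = 1 := by
    intro s hs
    refine (hom_dich D.toDat (chi D.toDat h3 (tr b s) u)).resolve_left fun hinj => ?_
    obtain ⟨t0, ht0⟩ := D.gen s hs
    refine no_action D.toDat (Subgroup.closure {g, φ t0}) (hg _) _ hinj g (φ t0)
      (Subgroup.subset_closure (by simp)) (Subgroup.subset_closure (by simp)) s t0 ht0 ?_ ?_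
    · intro x
      rw [chi_apply, chi_apply]
      have e1 : FreeGroup.lift u (FreeGroup.of 2 * ind D.toDat (tr b s) x * (FreeGroup.of 2)⁻¹) =
          FreeGroup.lift u (ind D.toDat (tr b s) (s * x * s⁻¹)) := by
        refine h3.eq (fun v => ?_) u
        simp only [map_mul, map_inv, FreeGroup.lift_apply_of]
        by_cases hv : Eqv (tr b s) v
        · obtain ⟨α, hα⟩ := hv
          rw [ind_self D.toDat (gen_tr hb s) _ hα, ind_self D.toDat (gen_tr hb s) _ hα]
          have : v 2 = α s := congrFun hα 2
          rw [this]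
          simp
        · rw [ind_not D.toDat _ hv, ind_not D.toDat _ hv]
          simp
      simp only [map_mul, map_inv, FreeGroup.lift_apply_of] at e1
      rw [hu2] at e1
      exact e1
    · intro x
      rw [chi_apply, chi_apply]
      have e1 : FreeGroup.lift u (up (ind D.toDat b t0) * ind D.toDat (tr b s) x *
          (up (ind D.toDat b t0))⁻¹) =
          FreeGroup.lift u (ind D.toDat (tr b s) (t0 * x * t0⁻¹)) := by
        refine h3.eq (fun v => ?_) u
        simp only [map_mul, map_inv]
        by_cases hv : Eqv (tr b s) v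
        · obtain ⟨α, hα⟩ := hv
          rw [ind_self D.toDat (gen_tr hb s) _ hα, ind_self D.toDat (gen_tr hb s) _ hα, lift_up]
          have : (![v 0, v 1] : Fin 2 → T) = fun j => α (b j) := by
            funext j
            fin_cases j
            · exact congrFun hα 0
            · exact congrFun hα 1
          rw [ind_self D.toDat hb _ this]
          simp
        · rw [ind_not D.toDat _ hv, ind_not D.toDat _ hv]
          simp
      simp only [map_mul, map_inv] at e1
      rw [hup, ind_id D.toDat hb] at e1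
      exact e1
  have h1 := key_mem D.toDat h3 u ⊥ (FreeGroup.of 2 * up (ind D.toDat b t) *
    (FreeGroup.of 2)⁻¹ * (up (ind D.toDat b t))⁻¹) (by
      intro v hv
      simp only [map_mul, map_inv, FreeGroup.lift_apply_of, lift_up] at hv
      have hE : Eqv b ![v 0, v 1] := by
        by_contra h
        apply hv
        rw [ind_not D.toDat _ h]
        simp
      obtain ⟨α, hα⟩ := hE
      have hv' : v = fun j => α (tr b (α.symm (v 2)) j) := by
        funext j
        fin_cases j
        · exact congrFun hα 0
        · exact congrFun hα 1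
        · simp [tr]
      have hs : α.symm (v 2) ≠ 1 := by
        intro h
        apply hv
        have : v 2 = 1 := by
          have := congrArg α h
          simpa using this
        rw [this]
        simp
      have hgen := gen_tr hb (α.symm (v 2))
      refine ⟨hgen.eqv ⟨α, hv'⟩, fun r => ?_⟩
      rw [Subgroup.mem_bot, ind_eqv D.toDat h3 hgen hv' r u]
      exact key _ hs _)
  rw [Subgroup.mem_bot] at h1
  simp only [map_mul, map_inv, FreeGroup.lift_apply_of] at h1
  rw [hup, ind_id D.toDat hb, hu2] at h1
  exact eq_mul_of_mul_inv_eq (eq_of_mul_inv_eq_one h1)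

/-- **Theorem R2.** finite groups satisfying the laws of `T` -/
theorem nc_solv {T : Type} [Group T] (D : Suit T) {b : Fin 2 → T} (hb : Gen b) {Q : Type}
    [Group Q] [Finite Q] (hl : ∀ (J : Type) [Finite J], Laws J T Q) (g : Q)
    (hg : ∀ x, Group.IsSolvable (Subgroup.closure {g, x})) :
    Group.IsSolvable (Subgroup.normalClosure {g}) := by
  let C : Subgroup Q :=
    { carrier := {x | ∀ (φ : T →* Q) (t : T), x * φ t = φ t * x}
      one_mem' := fun φ t => by simp
      mul_mem' := by
        intro x y hx hy φ t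
        rw [mul_assoc, hy, ← mul_assoc, hx, mul_assoc]
      inv_mem' := by
        intro x hx φ t
        rw [inv_mul_eq_iff_eq_mul, ← mul_assoc, hx, mul_assoc, mul_inv_cancel, mul_one] }
  have hC : C.Normal := by
    refine ⟨fun x hx y φ t => ?_⟩
    have h1 := hx ((MulAut.conj y⁻¹).toMonoidHom.comp φ) t
    have h2 : x * (y⁻¹ * φ t * y) = (y⁻¹ * φ t * y) * x := by
      have e : ((MulAut.conj y⁻¹).toMonoidHom.comp φ) t = y⁻¹ * φ t * y := by
        change y⁻¹ * φ t * (y⁻¹)⁻¹ = _
        rw [inv_inv]
      rw [e] at h1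
      exact h1
    calc y * x * y⁻¹ * φ t = y * (x * (y⁻¹ * φ t * y)) * y⁻¹ := by group
      _ = y * ((y⁻¹ * φ t * y) * x) * y⁻¹ := by rw [h2]
      _ = φ t * (y * x * y⁻¹) := by group
  have hN : Subgroup.normalClosure {g} ≤ C := by
    apply Subgroup.normalClosure_le_normal
    rintro x rfl φ t
    exact commutes_T D hb (hl (Fin 3)) x hg φ t
  let N := Subgroup.normalClosure {g}
  have hlN : Laws N T N := (hl N).sub N.subtype N.subtype_injective
  refine solv_of_noT D.toDat D.min hlN (fun x : N => x) (fun x => ⟨FreeGroup.of x, by simp⟩) ?_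
  intro φ hφ
  apply D.na
  intro s t
  apply hφ
  rw [map_mul, map_mul]
  apply Subtype.ext
  exact hN (φ s).2 (N.subtype.comp φ) t

/-- a normal soluble subgroup and one more element -/
theorem solv_pair {A : Type*} [Group A] (N : Subgroup A) [N.Normal] (hN : Group.IsSolvable N)
    (g x : A) (hg : g ∈ N) : Group.IsSolvable (Subgroup.closure {g, x}) := by
  let E := Subgroup.closure {g, x}
  let f : E →* A ⧸ N := (QuotientGroup.mk' N).comp E.subtype
  have hf : ∀ y : E, f y ∈ Subgroup.zpowers ((x : A) : A ⧸ N) := by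
    intro y
    have h1 : E ≤ (Subgroup.zpowers ((x : A) : A ⧸ N)).comap (QuotientGroup.mk' N) := by
      rw [Subgroup.closure_le]
      rintro z (rfl | rfl)
      · have e : QuotientGroup.mk' N z = 1 := (QuotientGroup.eq_one_iff z).2 hg
        rw [SetLike.mem_coe, Subgroup.mem_comap, e]
        exact one_mem _
      · exact Subgroup.mem_zpowers _
    exact h1 y.2
  let f' : E →* Subgroup.zpowers ((x : A) : A ⧸ N) := f.codRestrict _ hf
  have hcyc : Group.IsSolvable (Subgroup.zpowers ((x : A) : A ⧸ N)) := by
    refine Group.isSolvable_of_comm ?_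
    rintro ⟨_, ⟨m, rfl⟩⟩ ⟨_, ⟨k, rfl⟩⟩
    apply Subtype.ext
    exact zpow_mul_comm _ m k
  have hNE : Group.IsSolvable (N.subgroupOf E) := by
    let j : N.subgroupOf E →* N :=
      { toFun := fun y => ⟨y.1.1, y.2⟩
        map_one' := rfl
        map_mul' := fun _ _ => rfl }
    refine Group.isSolvable_of_isSolvable_injective (f := j) ?_
    intro a c hac
    apply Subtype.ext
    apply Subtype.ext
    exact congrArg (fun z : N => (z : A)) hac
  refine Group.isSolvable_of_ker_le_range (N.subgroupOf E).subtype f' ?_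
  intro y hy
  have h1 : f y = 1 := congrArg Subtype.val hy
  rw [Subgroup.range_subtype]
  exact (QuotientGroup.eq_one_iff (N := N) (y : A)).1 h1

/-- the join of two soluble normal subgroups -/
theorem solv_sup {A : Type*} [Group A] (M N : Subgroup A) [M.Normal] [N.Normal]
    (hM : Group.IsSolvable M) (hN : Group.IsSolvable N) : Group.IsSolvable ↥(M ⊔ N) := by
  let E := M ⊔ N
  let f : E →* A ⧸ N := (QuotientGroup.mk' N).comp E.subtype
  have hf : ∀ y : E, f y ∈ M.map (QuotientGroup.mk' N) := by
    intro y
    have h1 : E ≤ (M.map (QuotientGroup.mk' N)).comap (QuotientGroup.mk' N) := by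
      refine sup_le (fun z hz => ⟨z, hz, rfl⟩) fun z hz => ?_
      have e : QuotientGroup.mk' N z = 1 := (QuotientGroup.eq_one_iff z).2 hz
      rw [Subgroup.mem_comap, e]
      exact one_mem _
    exact h1 y.2
  let f' : E →* M.map (QuotientGroup.mk' N) := f.codRestrict _ hf
  have hMs : Group.IsSolvable (M.map (QuotientGroup.mk' N)) :=
    Group.isSolvable_of_surjective ((QuotientGroup.mk' N).subgroupMap_surjective M)
  have hNE : Group.IsSolvable (N.subgroupOf E) := by
    let j : N.subgroupOf E →* N :=
      { toFun := fun y => ⟨y.1.1, y.2⟩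
        map_one' := rfl
        map_mul' := fun _ _ => rfl }
    refine Group.isSolvable_of_isSolvable_injective (f := j) ?_
    intro a c hac
    apply Subtype.ext
    apply Subtype.ext
    exact congrArg (fun z : N => (z : A)) hac
  refine Group.isSolvable_of_ker_le_range (N.subgroupOf E).subtype f' ?_
  intro y hy
  have h1 : f y = 1 := congrArg Subtype.val hy
  rw [Subgroup.range_subtype]
  exact (QuotientGroup.eq_one_iff (N := N) (y : A)).1 h1

/-- **Theorem R3.** the radical of a finite group which is soluble-by-(laws of `T`) -/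
theorem exists_solv_normal {T : Type} [Group T] (D : Suit T) {b : Fin 2 → T} (hb : Gen b)
    {F : Type} [Group F] [Finite F] (S : Subgroup F) [S.Normal] (hS : Group.IsSolvable S)
    (hl : ∀ (J : Type) [Finite J], Laws J T (F ⧸ S)) (g : F)
    (hg : ∀ x, Group.IsSolvable (Subgroup.closure {g, x})) :
    ∃ N : Subgroup F, N.Normal ∧ Group.IsSolvable N ∧ g ∈ N := by
  let f := QuotientGroup.mk' S
  have h1 : Group.IsSolvable (Subgroup.normalClosure {f g}) := by
    refine nc_solv D hb hl (f g) fun x => ?_
    obtain ⟨x, rfl⟩ := QuotientGroup.mk'_surjective S x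
    have h2 : (Subgroup.closure {g, x}).map f = Subgroup.closure {f g, f x} := by
      rw [MonoidHom.map_closure, Set.image_pair]
    rw [← h2]
    have := hg x
    exact Group.isSolvable_of_surjective (f.subgroupMap_surjective _)
  refine ⟨(Subgroup.normalClosure {f g}).comap f, inferInstance, ?_,
    Subgroup.subset_normalClosure (by simp)⟩
  let N := (Subgroup.normalClosure {f g}).comap f
  let f' : N →* Subgroup.normalClosure {f g} :=
    (f.comp N.subtype).codRestrict _ fun y => y.2
  have hSN : S ≤ N := by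
    intro z hz
    have e : f z = 1 := (QuotientGroup.eq_one_iff z).2 hz
    rw [Subgroup.mem_comap, e]
    exact one_mem _
  refine Group.isSolvable_of_ker_le_range (Subgroup.inclusion hSN) f' ?_
  intro y hy
  have h1 : f y = 1 := congrArg Subtype.val hy
  exact ⟨⟨y, (QuotientGroup.eq_one_iff _).1 h1⟩, rfl⟩

end Pool.Agent.U110.BN
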