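import Pool.Agent.U110.BN.F
import Pool.Agent.TH69.MtnG

set_option autoImplicit false

/-!
# Local finiteness
-/

namespace Pool.Agent.U110.BN



open Pool.Agent.H32BU Pool.Agent.W629 Pool.Agent.TH69.Mtn

/-- soluble-by-(laws of `T`) -/
def SBL (T : Type) [Group T] (F : Type*) [Group F] : Prop :=
  ∃ (S : Subgroup F) (_ : S.Normal), Group.IsSolvable S ∧ AllLaws T (F ⧸ S)

theorem solv_inj {A B : Type*} [Group A] [Group B] (f : A →* B) (hf : Function.Injective f)
    (g x : A) : Group.IsSolvable (Subgroup.closure {f g, f x}) ↔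
      Group.IsSolvable (Subgroup.closure {g, x}) := by
  have e : (Subgroup.closure {g, x}).map f = Subgroup.closure {f g, f x} := by
    rw [MonoidHom.map_closure, Set.image_pair]
  rw [← e]
  have eq := (Subgroup.closure {g, x}).equivMapOfInjective f hf
  exact ⟨fun h => Group.isSolvable_of_isSolvable_injective (f := eq.toMonoidHom) eq.injective,
    fun h => Group.isSolvable_of_surjective (f := eq.toMonoidHom) eq.surjective⟩

theorem SBL.loc {T : Type} [Group T] {G : Type*} [Group G] (F : Subgroup G) (h : SBL T F) :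
    ∃ S : Subgroup G, Loc T F S := by
  obtain ⟨S, hS, h1, h2⟩ := h
  refine ⟨S.map F.subtype, ?_, ?_, ?_⟩
  · exact Group.isSolvable_of_surjective (F.subtype.subgroupMap_surjective S)
  · rintro f hf _ ⟨s, hs, rfl⟩
    exact ⟨⟨f, hf⟩ * s * ⟨f, hf⟩⁻¹, hS.conj_mem s hs _, rfl⟩
  · intro w hw u hu
    let u' : Fin 3 → F := fun i => ⟨u i, hu i⟩
    have e1 : FreeGroup.lift u w = F.subtype (FreeGroup.lift u' w) := by
      rw [← lift_comp]
      rfl
    rw [e1]
    refine ⟨_, ?_, rfl⟩
    have h3 := (h2.fin (Fin 3)) w hw fun i => QuotientGroup.mk' S (u' i)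
    rw [lift_comp] at h3
    exact (QuotientGroup.eq_one_iff _).1 h3

theorem loc_quo {T : Type} [Group T] {G H : Type*} [Group G] [Group H] (f : G →* H)
    (hf : Function.Surjective f)
    (h : ∀ x y z : G, ∃ S : Subgroup G, Loc T (Subgroup.closure {x, y, z}) S) (x y z : H) :
    ∃ S : Subgroup H, Loc T (Subgroup.closure {x, y, z}) S := by
  obtain ⟨x, rfl⟩ := hf x
  obtain ⟨y, rfl⟩ := hf y
  obtain ⟨z, rfl⟩ := hf z
  obtain ⟨S, h1, h2, h3⟩ := h x y z
  have e : Subgroup.closure {f x, f y, f z} = (Subgroup.closure {x, y, z}).map f := by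
    rw [MonoidHom.map_closure, Set.image_insert_eq, Set.image_pair]
  rw [e]
  refine ⟨S.map f, ?_, ?_, ?_⟩
  · exact Group.isSolvable_of_surjective (f.subgroupMap_surjective S)
  · rintro _ ⟨g, hg, rfl⟩ _ ⟨s, hs, rfl⟩
    exact ⟨g * s * g⁻¹, h2 g hg s hs, by simp⟩
  · intro w hw u hu
    choose u' hu' hu'' using hu
    have e1 : u = fun i => f (u' i) := by
      funext i
      exact (hu'' i).symm
    rw [e1, lift_comp]
    exact ⟨_, h3 w hw u' hu', rfl⟩

/-- two inequivalent generating pairs -/
theorem exists_pairs {T : Type} [Group T] (D : Suit T) :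
    ∃ b c : Fin 2 → T, Gen b ∧ Gen c ∧ ¬ Eqv b c := by
  obtain ⟨i, j, hi, hi1, hj, hj1, hij, hne⟩ := D.four
  obtain ⟨t, ht⟩ := D.gen i hi1
  have h1 : ∃ a : T, a * a ≠ 1 := by
    by_contra h
    push Not at h
    apply D.na
    intro a b
    have hinv : ∀ x : T, x⁻¹ = x := fun x => inv_eq_of_mul_eq_one_left (h x)
    calc a * b = (a * b)⁻¹ := (hinv _).symm
      _ = b⁻¹ * a⁻¹ := mul_inv_rev _ _
      _ = b * a := by rw [hinv, hinv]
  obtain ⟨a, ha⟩ := h1
  have ha1 : a ≠ 1 := by
    rintro rfl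
    simp at ha
  obtain ⟨t', ht'⟩ := D.gen a ha1
  refine ⟨![i, t], ![a, t'], (gen_iff _ _).2 ht, (gen_iff _ _).2 ht', ?_⟩
  rintro ⟨α, hα⟩
  have e : a = α i := congrFun hα 0
  apply ha
  rw [e, ← map_mul, hi, map_one]

theorem R_key {T : Type} [Group T] (D : Suit T) {G : Type} [Group G] (F : Subgroup G)
    (hf : Finite F) (hS : SBL T F) (g : F)
    (hg : ∀ x, Group.IsSolvable (Subgroup.closure {(g : G), x})) :
    ∃ N : Subgroup F, N.Normal ∧ Group.IsSolvable N ∧ g ∈ N := by
  obtain ⟨b, _, hb, _, _⟩ := exists_pairs D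
  obtain ⟨S, hS, h1, h2⟩ := hS
  refine exists_solv_normal D hb S h1 (fun J _ => h2.fin J) g fun w => ?_
  exact (solv_inj F.subtype F.subtype_injective g w).1 (hg w)

theorem R_mul' {T : Type} [Group T] (D : Suit T) {G : Type} [Group G] (F : Subgroup G)
    (hf : Finite F) (hS : SBL T F) (g h x : F)
    (hg : ∀ x, Group.IsSolvable (Subgroup.closure {(g : G), x}))
    (hh : ∀ x, Group.IsSolvable (Subgroup.closure {(h : G), x})) :
    Group.IsSolvable (Subgroup.closure {(g : G) * h, (x : G)}) := by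
  obtain ⟨N1, a1, a2, a3⟩ := R_key D F hf hS g hg
  obtain ⟨N2, c1, c2, c3⟩ := R_key D F hf hS h hh
  have h4 : g * h ∈ N1 ⊔ N2 := mul_mem (Subgroup.mem_sup_left a3) (Subgroup.mem_sup_right c3)
  have h5 := solv_pair (N1 ⊔ N2) (solv_sup N1 N2 a2 c2) (g * h) x h4
  have h6 := (solv_inj F.subtype F.subtype_injective (g * h) x).2 h5
  rw [map_mul] at h6
  exact h6

theorem R_mul {T : Type} [Group T] (D : Suit T) {G : Type} [Group G]
    (h3 : ∀ x y z : G, Finite (Subgroup.closure {x, y, z}) ∧
      SBL T (Subgroup.closure ({x, y, z} : Set G))) (g h : G)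
    (hg : ∀ x, Group.IsSolvable (Subgroup.closure {g, x}))
    (hh : ∀ x, Group.IsSolvable (Subgroup.closure {h, x})) (x : G) :
    Group.IsSolvable (Subgroup.closure {g * h, x}) := by
  have h1 := h3 g h x
  obtain ⟨F, hF⟩ : ∃ F : Subgroup G, F = Subgroup.closure {g, h, x} := ⟨_, rfl⟩
  have mg : g ∈ F := hF ▸ Subgroup.subset_closure (by simp)
  have mh : h ∈ F := hF ▸ Subgroup.subset_closure (by simp)
  have mx : x ∈ F := hF ▸ Subgroup.subset_closure (by simp)
  rw [← hF] at h1
  exact R_mul' D F h1.1 h1.2 ⟨g, mg⟩ ⟨h, mh⟩ ⟨x, mx⟩ hg hh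

theorem R_inv {G : Type} [Group G] (g : G)
    (hg : ∀ x, Group.IsSolvable (Subgroup.closure {g, x})) (x : G) :
    Group.IsSolvable (Subgroup.closure {g⁻¹, x}) := by
  have hle : Subgroup.closure {g⁻¹, x} ≤ Subgroup.closure {g, x} := by
    rw [Subgroup.closure_le]
    intro y hy
    rcases hy with hy | hy
    · rw [hy]
      exact inv_mem (Subgroup.subset_closure (Set.mem_insert _ _))
    · rw [Set.mem_singleton_iff] at hy
      rw [hy]
      exact Subgroup.subset_closure (Set.mem_insert_of_mem _ (Set.mem_singleton _))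
  have := hg x
  exact Group.isSolvable_of_isSolvable_injective (Subgroup.inclusion_injective hle)

theorem R_conj {G : Type} [Group G] (g : G)
    (hg : ∀ x, Group.IsSolvable (Subgroup.closure {g, x})) (y x : G) :
    Group.IsSolvable (Subgroup.closure {y * g * y⁻¹, x}) := by
  have h5 := (solv_inj (MulAut.conj y).toMonoidHom (MulAut.conj y).injective g (y⁻¹ * x * y)).2
    (hg _)
  have e1 : (MulAut.conj y).toMonoidHom g = y * g * y⁻¹ := rfl
  have e2 : (MulAut.conj y).toMonoidHom (y⁻¹ * x * y) = x := by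
    change y * (y⁻¹ * x * y) * y⁻¹ = x
    group
  rw [e1, e2] at h5
  exact h5

theorem exists_R {T : Type} [Group T] (D : Suit T) {G : Type} [Group G]
    (h3 : ∀ x y z : G, Finite (Subgroup.closure {x, y, z}) ∧
      SBL T (Subgroup.closure ({x, y, z} : Set G))) :
    ∃ R : Subgroup G, R.Normal ∧ ∀ g, g ∈ R ↔ ∀ x, Group.IsSolvable (Subgroup.closure {g, x}) := by
  refine ⟨{ carrier := {g | ∀ x, Group.IsSolvable (Subgroup.closure {g, x})}
            one_mem' := ?_
            mul_mem' := ?_
            inv_mem' := ?_ }, ⟨?_⟩, fun g => Iff.rfl⟩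
  · intro a b ha hb
    exact R_mul D h3 a b ha hb
  · intro x
    exact solv_pair (⊥ : Subgroup G) inferInstance 1 x (one_mem _)
  · intro a ha
    exact R_inv a ha
  · intro a ha y
    exact R_conj a ha y

theorem fin_three_quo {G H : Type*} [Group G] [Group H] (f : G →* H)
    (hf : Function.Surjective f) (h : ∀ x y z : G, Finite (Subgroup.closure {x, y, z}))
    (x y z : H) : Finite (Subgroup.closure {x, y, z}) := by
  obtain ⟨x, rfl⟩ := hf x
  obtain ⟨y, rfl⟩ := hf y
  obtain ⟨z, rfl⟩ := hf z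
  have e : Subgroup.closure {f x, f y, f z} = (Subgroup.closure {x, y, z}).map f := by
    rw [MonoidHom.map_closure, Set.image_insert_eq, Set.image_pair]
  rw [e]
  have := h x y z
  exact Finite.of_surjective _ (f.subgroupMap_surjective _)

theorem fin_three_sub {G H : Type*} [Group G] [Group H] (f : G →* H)
    (hf : Function.Injective f) (h : ∀ x y z : H, Finite (Subgroup.closure {x, y, z}))
    (x y z : G) : Finite (Subgroup.closure {x, y, z}) := by
  have h1 := h (f x) (f y) (f z)
  have e : Subgroup.closure {f x, f y, f z} = (Subgroup.closure {x, y, z}).map f := by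
    rw [MonoidHom.map_closure, Set.image_insert_eq, Set.image_pair]
  rw [e] at h1
  have eq := (Subgroup.closure {x, y, z}).equivMapOfInjective f hf
  exact Finite.of_equiv _ eq.symm.toEquiv

theorem fin_two_of_three {G : Type*} [Group G]
    (h : ∀ x y z : G, Finite (Subgroup.closure {x, y, z})) (x y : G) :
    Finite (Subgroup.closure {x, y}) := by
  have := h x y y
  rwa [Set.pair_eq_singleton] at this

/-- abelian groups of finite exponent are locally finite -/
theorem lf_comm {A : Type} [Group A] (hA : ∀ x y : A, x * y = y * x) {n : ℕ} (hn : 1 ≤ n)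
    (hn' : ∀ x : A, x ^ n = 1) : LF A := by
  intro S
  let E := Subgroup.closure (S : Set A)
  let _ : CommGroup E := { (inferInstance : Group E) with
    mul_comm := fun x y => Subtype.ext (hA x y) }
  have hfg : Group.FG E := (Group.fg_iff_subgroup_fg E).2 ⟨S, rfl⟩
  have ht : IsMulTorsion E := by
    intro x
    exact isOfFinOrder_iff_pow_eq_one.2 ⟨n, by omega, Subtype.ext (hn' x)⟩
  exact CommGroup.finite_of_fg_isMulTorsion E ht

theorem lf_of_closure {A : Type} [Group A] (N : Subgroup A)
    (h : ∀ S : Set A, S.Finite → S ⊆ N → Finite (Subgroup.closure S)) : LF N := by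
  intro S
  have h1 := h (N.subtype '' (S : Set N)) (Set.toFinite _) (by
    rintro _ ⟨y, _, rfl⟩
    exact y.2)
  rw [← MonoidHom.map_closure] at h1
  have eq := (Subgroup.closure (S : Set N)).equivMapOfInjective N.subtype N.subtype_injective
  exact Finite.of_equiv _ eq.symm.toEquiv

/-- if the quotient by a locally finite normal subgroup has a locally finite normal subgroup -/
theorem rad_quo {G : Type} [Group G] (M : Subgroup G) [M.Normal] (hM : LF M)
    (hmax : ∀ N : Subgroup G, N.Normal → LF N → N ≤ M) (N : Subgroup (G ⧸ M)) (hN : N.Normal)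
    (hNL : LF N) : N = ⊥ := by
  have hN2 : (N.comap (QuotientGroup.mk' M)).Normal := inferInstance
  have hML : M ≤ N.comap (QuotientGroup.mk' M) := by
    intro z hz
    have e : QuotientGroup.mk' M z = 1 := (QuotientGroup.eq_one_iff z).2 hz
    rw [Subgroup.mem_comap, e]
    exact one_mem _
  have hNL2 : LF (N.comap (QuotientGroup.mk' M)) := by
    have hML' : LF (M.subgroupOf (N.comap (QuotientGroup.mk' M))) := by
      refine x_LFS.2.1 _ M
        { toFun := fun x => ⟨(x : ↥(N.comap (QuotientGroup.mk' M))), x.2⟩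
          map_one' := rfl
          map_mul' := fun _ _ => rfl } ?_ hM
      intro a b hab
      have : ((a : ↥(N.comap (QuotientGroup.mk' M))) : G) =
          ((b : ↥(N.comap (QuotientGroup.mk' M))) : G) :=
        congrArg (fun z : ↥M => (z : G)) hab
      exact Subtype.ext (Subtype.ext this)
    refine x_SCH _ (M.subgroupOf (N.comap (QuotientGroup.mk' M))) hML' ?_
    let f : ↥(N.comap (QuotientGroup.mk' M)) →* N :=
      ((QuotientGroup.mk' M).comp (Subgroup.subtype _)).codRestrict _ fun y => y.2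
    have hk : M.subgroupOf (N.comap (QuotientGroup.mk' M)) = f.ker := by
      ext y
      rw [Subgroup.mem_subgroupOf, MonoidHom.mem_ker]
      constructor
      · intro h
        exact Subtype.ext ((QuotientGroup.eq_one_iff _).2 h)
      · intro h
        exact (QuotientGroup.eq_one_iff (y : G)).1 (congrArg Subtype.val h)
    refine x_LFS.2.1 _ N ((QuotientGroup.kerLift f).comp
      (QuotientGroup.quotientMulEquivOfEq hk).toMonoidHom) ?_ hNL
    exact (QuotientGroup.kerLift_injective f).comp (MulEquiv.injective _)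
  have h1 := hmax _ hN2 hNL2
  rw [eq_bot_iff]
  intro x hx
  obtain ⟨g, rfl⟩ := QuotientGroup.mk_surjective x
  have h2 : g ∈ N.comap (QuotientGroup.mk' M) := hx
  rw [Subgroup.mem_bot]
  exact (QuotientGroup.eq_one_iff g).2 (h1 h2)

/-- **Step 4.** -/
theorem lf_of_hyp {T : Type} [Group T] (D : Suit T) {n : ℕ} (hn : 1 ≤ n)
    (hLF : ∀ (Q : Type) [Group Q], (∀ x : Q, x ^ n = 1) →
      (∀ x y z : Q, Finite (Subgroup.closure {x, y, z})) →
      (∀ x y : Q, Group.IsSolvable (Subgroup.closure {x, y})) → LF Q)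
    {Q : Type} [Group Q] (hQn : ∀ x : Q, x ^ n = 1)
    (hfin : ∀ x y z : Q, Finite (Subgroup.closure {x, y, z})) (hQ : Hyp T Q) : LF Q := by
  have := D.fin
  have := Fintype.ofFinite T
  obtain ⟨b, c, hb, hc, hbc⟩ := exists_pairs D
  obtain ⟨M, hM, hML, hmax⟩ := exists_radical Q
  refine x_SCH Q M hML ?_
  let f := QuotientGroup.mk' M
  have hf : Function.Surjective f := QuotientGroup.mk'_surjective M
  have hrad : ∀ N : Subgroup (Q ⧸ M), N.Normal → LF N → N = ⊥ := fun N hN hNL =>
    rad_quo M hML hmax N hN hNL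
  have hexp : ∀ x : Q ⧸ M, x ^ n = 1 := by
    intro x
    obtain ⟨x, rfl⟩ := hf x
    rw [← map_pow, hQn, map_one]
  have hfin' := fin_three_quo f hf hfin
  have hH : Hyp T (Q ⧸ M) := ⟨hQ.two.quo f hf, loc_quo f hf hQ.three⟩
  have hab : ∀ N : Subgroup (Q ⧸ M), N.Normal → (∀ x ∈ N, ∀ y ∈ N, x * y = y * x) → N = ⊥ := by
    intro N hN hc
    refine hrad N hN (lf_comm (fun x y => Subtype.ext (hc x x.2 y y.2)) hn fun x => ?_)
    exact Subtype.ext (hexp x)
  have hno : ∀ φ : T →* Q ⧸ M, ¬ Function.Injective φ := by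
    intro φ hφ
    have h1 : LF (Subgroup.normalClosure (Set.range φ)) := lf_of_closure _ fun S hS hSM =>
      nc_lf D hH hab hb hc hbc φ S hS hSM
    have h2 := hrad _ Subgroup.normalClosure_normal h1
    apply D.na
    have h3 : ∀ s, φ s = 1 := by
      intro s
      have : φ s ∈ Subgroup.normalClosure (Set.range φ) :=
        Subgroup.subset_normalClosure ⟨s, rfl⟩
      rw [h2] at this
      exact this
    intro s t
    apply hφ
    rw [h3, h3]
  refine hLF (Q ⧸ M) hexp hfin' ?_
  intro x y
  let E := Subgroup.closure {x, y}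
  have mx : x ∈ E := Subgroup.subset_closure (by simp)
  have my : y ∈ E := Subgroup.subset_closure (by simp)
  refine solv_of_noT D.toDat D.min (hH.two.sub E.subtype E.subtype_injective)
    (![⟨x, mx⟩, ⟨y, my⟩] : Fin 2 → E) ?_ ?_
  · exact (gen_iff (T := E) ⟨x, mx⟩ ⟨y, my⟩).2 (by
      apply Subgroup.map_injective E.subtype_injective
      rw [MonoidHom.map_closure, Set.image_pair, ← MonoidHom.range_eq_map, Subgroup.range_subtype]
      rfl)
  · intro φ hφ
    exact hno (E.subtype.comp φ) (E.subtype_injective.comp hφ)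

/-- **Main theorem**, `Type` version -/
theorem main_lf {T : Type} [Group T] (D : Suit T) {n : ℕ} (hn : 1 ≤ n)
    (hLF : ∀ (Q : Type) [Group Q], (∀ x : Q, x ^ n = 1) →
      (∀ x y z : Q, Finite (Subgroup.closure {x, y, z})) →
      (∀ x y : Q, Group.IsSolvable (Subgroup.closure {x, y})) → LF Q)
    {G : Type} [Group G] (hGn : ∀ x : G, x ^ n = 1)
    (h3 : ∀ x y z : G, Finite (Subgroup.closure {x, y, z}) ∧
      SBL T (Subgroup.closure ({x, y, z} : Set G))) : LF G := by
  obtain ⟨R, hR, hRm⟩ := exists_R D h3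
  have hfin : ∀ x y z : G, Finite (Subgroup.closure {x, y, z}) := fun x y z => (h3 x y z).1
  have hRL : LF R := by
    refine hLF R (fun x => Subtype.ext (hGn x))
      (fin_three_sub R.subtype R.subtype_injective hfin) fun x y => ?_
    exact (solv_inj R.subtype R.subtype_injective x y).1 ((hRm x).1 x.2 y)
  refine x_SCH G R hRL ?_
  let f := QuotientGroup.mk' R
  have hf : Function.Surjective f := QuotientGroup.mk'_surjective R
  refine lf_of_hyp D hn hLF ?_ (fin_three_quo f hf hfin) ⟨?_, ?_⟩
  · intro x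
    obtain ⟨x, rfl⟩ := hf x
    rw [← map_pow, hGn, map_one]
  · intro w hw u
    choose u' hu' using fun i => hf (u i)
    have e1 : u = fun i => f (u' i) := by
      funext i
      exact (hu' i).symm
    rw [e1, lift_comp]
    refine (QuotientGroup.eq_one_iff _).2 ((hRm _).2 fun z => ?_)
    obtain ⟨_, S, hS, h1, h2⟩ := h3 (u' 0) (u' 1) z
    have m0 : u' 0 ∈ Subgroup.closure ({u' 0, u' 1, z} : Set G) :=
      Subgroup.subset_closure (by simp)
    have m1 : u' 1 ∈ Subgroup.closure ({u' 0, u' 1, z} : Set G) :=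
      Subgroup.subset_closure (by simp)
    have mz : z ∈ Subgroup.closure ({u' 0, u' 1, z} : Set G) :=
      Subgroup.subset_closure (by simp)
    let v : Fin 2 → Subgroup.closure ({u' 0, u' 1, z} : Set G) := ![⟨u' 0, m0⟩, ⟨u' 1, m1⟩]
    have h4 := (h2.fin (Fin 2)) w hw fun i => QuotientGroup.mk' S (v i)
    rw [lift_comp] at h4
    have h5 : FreeGroup.lift v w ∈ S := (QuotientGroup.eq_one_iff _).1 h4
    have h6 := solv_pair S h1 _ ⟨z, mz⟩ h5
    have h7 := (solv_inj (Subgroup.subtype _) (Subgroup.subtype_injective _) _ _).2 h6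
    rw [← lift_comp] at h7
    have e2 : (fun j => (Subgroup.subtype (Subgroup.closure ({u' 0, u' 1, z} : Set G))) (v j)) =
        u' := by
      funext j
      fin_cases j <;> rfl
    rw [e2] at h7
    exact h7
  · exact loc_quo f hf fun x y z => (h3 x y z).2.loc

end Pool.Agent.U110.BN
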