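import Pool.Agent.U110.BN.B
import Pool.Agent.W629.TwiceLF

set_option autoImplicit false

/-!
# The alternating group of degree five
-/

namespace Pool.Agent.U110.BN

open Pool.Agent.H32BU Pool.Agent.W629

theorem a5_gen : ∀ a : Equiv.Perm (Fin 5), Equiv.Perm.sign a = 1 → a ≠ 1 →
    ∃ b : Equiv.Perm (Fin 5), Equiv.Perm.sign b = 1 ∧ b ≠ 1 ∧ a * b ≠ 1 ∧
      ((a ^ 2 = 1 ∧ b ^ 3 = 1 ∧ (a * b) ^ 5 = 1) ∨ (a ^ 3 = 1 ∧ b ^ 2 = 1 ∧ (a * b) ^ 5 = 1) ∨
        (a ^ 5 = 1 ∧ b ^ 2 = 1 ∧ (a * b) ^ 3 = 1)) := by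
  decide +kernel

/-- the alternating group of degree five -/
abbrev A5 : Type := alternatingGroup (Fin 5)

theorem a5_card : Nat.card A5 = 60 := by
  rw [nat_card_alternatingGroup, Nat.card_eq_fintype_card, Fintype.card_fin]
  rfl

theorem a5_na : ¬ ∀ a b : A5, a * b = b * a := by
  have h : ¬ Group.IsSolvable A5 := by
    intro h
    have h1 : Group.IsSolvable (Equiv.Perm (Fin 5)) := by
      refine Group.isSolvable_of_ker_le_range (alternatingGroup (Fin 5)).subtype
        (Equiv.Perm.sign : Equiv.Perm (Fin 5) →* ℤˣ) ?_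
      rw [Subgroup.range_subtype]
      exact le_of_eq rfl
    exact Equiv.Perm.not_isSolvable_fin_5 h1
  intro h1
  exact h (Group.isSolvable_of_comm h1)

theorem a5_top (P : Subgroup A5) (h : 30 ∣ Nat.card P) : P = ⊤ := by
  have hs : IsSimpleGroup A5 := inferInstance
  have h1 : P.index * Nat.card P = 60 := by rw [P.index_mul_card, a5_card]
  obtain ⟨k, hk⟩ := h
  rw [hk] at h1
  have h2 : P.index * k = 2 := by
    have : P.index * k * 30 = 2 * 30 := by
      calc P.index * k * 30 = P.index * (30 * k) := by ring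
        _ = 60 := h1
    exact Nat.eq_of_mul_eq_mul_right (by norm_num) this
  have h3 : P.index ∣ 2 := ⟨k, h2.symm⟩
  rcases (Nat.dvd_prime Nat.prime_two).1 h3 with h4 | h4
  · exact Subgroup.index_eq_one.1 h4
  · exfalso
    have hn : P.Normal := Subgroup.normal_of_index_eq_two h4
    rcases hn.eq_bot_or_eq_top with h5 | h5
    · rw [h5, Subgroup.index_bot, a5_card] at h4
      omega
    · rw [h5, Subgroup.index_top] at h4
      omega

theorem a5_min (P : Subgroup A5) (h : P ≠ ⊤) : Group.IsSolvable P := by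
  have h1 : Nat.card P ∣ 60 := by
    rw [← a5_card]
    exact P.card_subgroup_dvd_card
  have h2 : ¬ 30 ∣ Nat.card P := fun h' => h (a5_top P h')
  have h3 : ∀ x : P, x ^ Nat.card P = 1 := fun x => pow_card_eq_one'
  have h4 : Nat.card P ∣ 2 ^ 2 * 3 ^ 1 ∨ Nat.card P ∣ 2 ^ 2 * 5 ^ 1 ∨
      Nat.card P ∣ 3 ^ 1 * 5 ^ 1 := by
    have h5 : Nat.card P ≤ 60 := Nat.le_of_dvd (by norm_num) h1
    generalize Nat.card P = m at h1 h2 h5
    interval_cases m <;> omega
  have key : ∀ m, Nat.card P ∣ m → ∀ x : P, x ^ m = 1 := by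
    rintro _ ⟨k, rfl⟩ x
    rw [pow_mul, h3, one_pow]
  rcases h4 with h4 | h4 | h4
  · exact solv_of_exp 2 3 2 1 Nat.prime_two Nat.prime_three (key _ h4)
  · exact solv_of_exp 2 5 2 1 Nat.prime_two Nat.prime_five (key _ h4)
  · exact solv_of_exp 3 5 1 1 Nat.prime_three Nat.prime_five (key _ h4)

theorem a5_dvd (P : Subgroup A5) (x : A5) (hx : x ∈ P) (p : ℕ) (hp : p.Prime)
    (h : x ^ p = 1) (h1 : x ≠ 1) : p ∣ Nat.card P := by
  have := Fact.mk hp
  have h2 : orderOf x = p := orderOf_eq_prime h h1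
  rw [← h2]
  have h3 := orderOf_dvd_natCard (⟨x, hx⟩ : P)
  rwa [Subgroup.orderOf_mk] at h3

theorem a5_suit : Suit A5 where
  fin := inferInstance
  simple := inferInstance
  na := a5_na
  min := a5_min
  gen := by
    intro a ha
    obtain ⟨b, hb, hb1, hab, h⟩ := a5_gen (a : Equiv.Perm (Fin 5))
      (Equiv.Perm.mem_alternatingGroup.1 a.2) (fun h => ha (Subtype.ext h))
    let b' : A5 := ⟨b, Equiv.Perm.mem_alternatingGroup.2 hb⟩
    refine ⟨b', a5_top _ ?_⟩
    have hb1' : b' ≠ 1 := fun h => hb1 (congrArg Subtype.val h)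
    have hab' : a * b' ≠ 1 := fun h => hab (congrArg Subtype.val h)
    have ma : a ∈ Subgroup.closure {a, b'} := Subgroup.subset_closure (by simp)
    have mb : b' ∈ Subgroup.closure {a, b'} := Subgroup.subset_closure (by simp)
    have mab := mul_mem ma mb
    have key : ∀ x y z : A5, x ∈ Subgroup.closure {a, b'} → y ∈ Subgroup.closure {a, b'} →
        z ∈ Subgroup.closure {a, b'} → x ≠ 1 → y ≠ 1 → z ≠ 1 →
        (x : Equiv.Perm (Fin 5)) ^ 2 = 1 → (y : Equiv.Perm (Fin 5)) ^ 3 = 1 →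
        (z : Equiv.Perm (Fin 5)) ^ 5 = 1 → 30 ∣ Nat.card (Subgroup.closure {a, b'}) := by
      intro x y z mx my mz hx hy hz ex ey ez
      have e2 := a5_dvd _ x mx 2 Nat.prime_two (Subtype.ext ex) hx
      have e3 := a5_dvd _ y my 3 Nat.prime_three (Subtype.ext ey) hy
      have e5 := a5_dvd _ z mz 5 Nat.prime_five (Subtype.ext ez) hz
      omega
    rcases h with ⟨h1, h2, h3⟩ | ⟨h1, h2, h3⟩ | ⟨h1, h2, h3⟩
    · exact key a b' (a * b') ma mb mab ha hb1' hab' h1 h2 h3
    · exact key b' a (a * b') mb ma mab hb1' ha hab' h2 h1 h3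
    · exact key b' (a * b') a mb mab ma hb1' hab' ha h2 h3 h1
  four := by
    refine ⟨⟨Equiv.swap 0 1 * Equiv.swap 2 3, ?_⟩, ⟨Equiv.swap 0 2 * Equiv.swap 1 3, ?_⟩, ?_⟩
    · exact Equiv.Perm.mem_alternatingGroup.2 (by decide +kernel)
    · exact Equiv.Perm.mem_alternatingGroup.2 (by decide +kernel)
    · refine ⟨Subtype.ext ?_, fun h => ?_, Subtype.ext ?_, fun h => ?_, Subtype.ext ?_, fun h => ?_⟩
      · change Equiv.swap (0 : Fin 5) 1 * Equiv.swap 2 3 * (Equiv.swap 0 1 * Equiv.swap 2 3) = 1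
        decide +kernel
      · have h := congrArg Subtype.val h
        change Equiv.swap (0 : Fin 5) 1 * Equiv.swap 2 3 = 1 at h
        revert h
        decide +kernel
      · change Equiv.swap (0 : Fin 5) 2 * Equiv.swap 1 3 * (Equiv.swap 0 2 * Equiv.swap 1 3) = 1
        decide +kernel
      · have h := congrArg Subtype.val h
        change Equiv.swap (0 : Fin 5) 2 * Equiv.swap 1 3 = 1 at h
        revert h
        decide +kernel
      · change Equiv.swap (0 : Fin 5) 1 * Equiv.swap 2 3 * (Equiv.swap 0 2 * Equiv.swap 1 3) =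
          Equiv.swap 0 2 * Equiv.swap 1 3 * (Equiv.swap 0 1 * Equiv.swap 2 3)
        decide +kernel
      · have h := congrArg Subtype.val h
        change Equiv.swap (0 : Fin 5) 1 * Equiv.swap 2 3 =
          Equiv.swap 0 2 * Equiv.swap 1 3 at h
        revert h
        decide +kernel

end Pool.Agent.U110.BN
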