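import Pool.Agent.U110.BN.F

set_option autoImplicit false


/-!
# Components
-/

namespace Pool.Agent.U110.BN

universe u

/-- `h` acts on `χ(T)` as `r` -/
def Act {T : Type} [Group T] {H : Type*} [Group H] (χ : T →* H) (h : H) (r : T) : Prop :=
  ∀ x, h * χ x * h⁻¹ = χ (r * x * r⁻¹)

section act

variable {T : Type} [Group T] {H : Type*} [Group H] {χ : T →* H}

theorem Act.mul {h h' : H} {r r' : T} (a : Act χ h r) (a' : Act χ h' r') :
    Act χ (h * h') (r * r') := by
  intro x
  calc h * h' * χ x * (h * h')⁻¹ = h * (h' * χ x * h'⁻¹) * h⁻¹ := by group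
    _ = χ (r * (r' * x * r'⁻¹) * r⁻¹) := by rw [a', a]
    _ = _ := by
      congr 1
      group

theorem Act.inv {h : H} {r : T} (a : Act χ h r) : Act χ h⁻¹ r⁻¹ := by
  intro x
  have h3 := a (r⁻¹ * x * r)
  have e : r * (r⁻¹ * x * r) * r⁻¹ = x := by group
  rw [e] at h3
  rw [← h3, inv_inv]
  group

theorem act_one : Act χ 1 1 := fun x => by simp

theorem act_self (r : T) : Act χ (χ r) r := fun x => by simp

theorem Act.unique (D : Dat T) (hχ : Function.Injective χ) {h : H} {r r' : T} (a : Act χ h r)
    (a' : Act χ h r') : r = r' := by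
  have h1 : r'⁻¹ * r = 1 := by
    apply center_triv D
    intro x
    have h2 := hχ ((a x).symm.trans (a' x))
    calc r'⁻¹ * r * x * (r'⁻¹ * r)⁻¹ = r'⁻¹ * (r * x * r⁻¹) * r' := by group
      _ = r'⁻¹ * (r' * x * r'⁻¹) * r' := by rw [h2]
      _ = x := by group
  exact (inv_mul_eq_one.1 h1).symm

theorem act_lift {J : Type} {u : J → H} {r : J → T} (a : ∀ i, Act χ (u i) (r i))
    (w : FreeGroup J) : Act χ (FreeGroup.lift u w) (FreeGroup.lift r w) := by
  induction w using FreeGroup.induction_on with
  | C1 =>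
    rw [map_one, map_one]
    exact act_one
  | of j => simpa using a j
  | inv_of j _ => simpa using (a j).inv
  | mul w w' h h' =>
    rw [map_mul, map_mul]
    exact h.mul h'

end act

/-- **Lemma L.** -/
theorem exists_chi {T : Type} [Group T] (D : Dat T) {b : Fin 2 → T} (hb : Gen b) {H : Type*}
    [Group H] (h3 : Laws (Fin 3) T H) (φ : T →* H) (g : H) (hφ : ∃ t, φ t ≠ 1) :
    ∃ (χ : T →* H) (s : T), Function.Injective χ ∧ (∀ t, Act χ (φ t) t) ∧ Act χ g s := by
  let u : Fin 3 → H := ![φ (b 0), φ (b 1), g]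
  have hup : ∀ w : FreeGroup (Fin 2), FreeGroup.lift u (up w) = φ (FreeGroup.lift b w) := by
    intro w
    rw [lift_up]
    have : (![u 0, u 1] : Fin 2 → H) = fun j => φ (b j) := by
      funext j
      fin_cases j <;> rfl
    rw [this, lift_comp]
  by_cases hall : ∀ s r, chi D h3 (tr b s) u r = 1
  · exfalso
    obtain ⟨t, ht⟩ := hφ
    apply ht
    have h1 := key_mem D h3 u ⊥ (up (ind D b t)) (by
      intro v hv
      rw [lift_up] at hv
      have hE : Eqv b ![v 0, v 1] := by
        by_contra h
        exact hv (ind_not D _ h)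
      obtain ⟨α, hα⟩ := hE
      have hv' : v = fun j => α (tr b (α.symm (v 2)) j) := by
        funext j
        fin_cases j
        · exact congrFun hα 0
        · exact congrFun hα 1
        · simp [tr]
      have hgen := gen_tr hb (α.symm (v 2))
      refine ⟨hgen.eqv ⟨α, hv'⟩, fun r => ?_⟩
      rw [Subgroup.mem_bot, ind_eqv D h3 hgen hv' r u]
      exact hall _ _)
    rw [Subgroup.mem_bot, hup, ind_id D hb] at h1
    exact h1
  · push Not at hall
    obtain ⟨s, r, hr⟩ := hall
    have hinj := (hom_dich D (chi D h3 (tr b s) u)).resolve_right fun h => hr (h r)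
    refine ⟨chi D h3 (tr b s) u, s, hinj, ?_, ?_⟩
    · intro t x
      rw [chi_apply, chi_apply]
      have e1 : FreeGroup.lift u (up (ind D b t) * ind D (tr b s) x * (up (ind D b t))⁻¹) =
          FreeGroup.lift u (ind D (tr b s) (t * x * t⁻¹)) := by
        refine h3.eq (fun v => ?_) u
        simp only [map_mul, map_inv]
        by_cases hv : Eqv (tr b s) v
        · obtain ⟨α, hα⟩ := hv
          rw [ind_self D (gen_tr hb s) _ hα, ind_self D (gen_tr hb s) _ hα, lift_up]
          have : (![v 0, v 1] : Fin 2 → T) = fun j => α (b j) := by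
            funext j
            fin_cases j
            · exact congrFun hα 0
            · exact congrFun hα 1
          rw [ind_self D hb _ this]
          simp
        · rw [ind_not D _ hv, ind_not D _ hv]
          simp
      simp only [map_mul, map_inv] at e1
      rw [hup, ind_id D hb] at e1
      exact e1
    · intro x
      rw [chi_apply, chi_apply]
      have e1 : FreeGroup.lift u (FreeGroup.of 2 * ind D (tr b s) x * (FreeGroup.of 2)⁻¹) =
          FreeGroup.lift u (ind D (tr b s) (s * x * s⁻¹)) := by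
        refine h3.eq (fun v => ?_) u
        simp only [map_mul, map_inv, FreeGroup.lift_apply_of]
        by_cases hv : Eqv (tr b s) v
        · obtain ⟨α, hα⟩ := hv
          rw [ind_self D (gen_tr hb s) _ hα, ind_self D (gen_tr hb s) _ hα]
          have : v 2 = α s := congrFun hα 2
          rw [this]
          simp
        · rw [ind_not D _ hv, ind_not D _ hv]
          simp
      simp only [map_mul, map_inv, FreeGroup.lift_apply_of] at e1
      exact e1

/-- no permutation of components in groups with the laws of `T` -/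
theorem no_perm {T : Type} [Group T] (D : Dat T) {b : Fin 2 → T} (hb : Gen b) {H : Type*}
    [Group H] (h3 : Laws (Fin 3) T H) (φ : T →* H) (g : H)
    (hc : ∀ s t, Commute (φ s) (g * φ t * g⁻¹)) (t : T) : φ t = 1 := by
  by_contra ht
  obtain ⟨χ, s, hχ, h1, h2⟩ := exists_chi D hb h3 φ g ⟨t, ht⟩
  apply D.na
  intro x y
  have a1 : Act χ (φ x * (g * φ (s⁻¹ * y * s) * g⁻¹)) (x * y) := by
    have := (h1 x).mul ((h2.mul (h1 (s⁻¹ * y * s))).mul h2.inv)
    have e : x * (s * (s⁻¹ * y * s) * s⁻¹) = x * y := by group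
    rwa [e] at this
  have a2 : Act χ (φ x * (g * φ (s⁻¹ * y * s) * g⁻¹)) (y * x) := by
    rw [(hc x (s⁻¹ * y * s)).eq]
    have := ((h2.mul (h1 (s⁻¹ * y * s))).mul h2.inv).mul (h1 x)
    have e : s * (s⁻¹ * y * s) * s⁻¹ * x = y * x := by group
    rwa [e] at this
  exact a1.unique D hχ a2

/-- only inner automorphisms in groups with the laws of `T` -/
theorem inner_of {T : Type} [Group T] (D : Dat T) {b : Fin 2 → T} (hb : Gen b) {H : Type*}
    [Group H] (h3 : Laws (Fin 3) T H) (φ : T →* H) (g : H) (hφ : ∃ t, φ t ≠ 1) (α : T → T)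
    (hα : ∀ t, g * φ t * g⁻¹ = φ (α t)) : ∃ r, ∀ t, α t = r * t * r⁻¹ := by
  obtain ⟨χ, s, hχ, h1, h2⟩ := exists_chi D hb h3 φ g hφ
  refine ⟨s, fun t => ?_⟩
  have a1 : Act χ (g * φ t * g⁻¹) (s * t * s⁻¹) := (h2.mul (h1 t)).mul h2.inv
  rw [hα] at a1
  exact (h1 (α t)).unique D hχ a1

/-- `S ≤ K` normal, `S` and `F / K` soluble, `K / S` with the laws of `T` -/
structure Mid (T : Type) [Group T] {F : Type*} [Group F] (S K : Subgroup F) : Prop where
  sN : S.Normal
  kN : K.Normal
  le : S ≤ K
  solS : Group.IsSolvable S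
  laws : ∀ w : FreeGroup ℕ, (∀ v : ℕ → T, FreeGroup.lift v w = 1) →
    ∀ u : ℕ → F, (∀ i, u i ∈ K) → FreeGroup.lift u w ∈ S
  solQ : ∃ d, derivedSeries F d ≤ K

theorem Mid.sub {T : Type} [Group T] {A B : Type*} [Group A] [Group B] {S K : Subgroup B}
    (M : Mid T S K) (f : A →* B) (hf : Function.Injective f) :
    Mid T (S.comap f) (K.comap f) where
  sN := M.sN.comap f
  kN := M.kN.comap f
  le := Subgroup.comap_mono M.le
  solS := by
    have := M.solS
    let j : S.comap f →* S :=
      { toFun := fun x => ⟨f x, x.2⟩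
        map_one' := Subtype.ext (map_one f)
        map_mul' := fun x y => Subtype.ext (map_mul f _ _) }
    refine Group.isSolvable_of_isSolvable_injective (f := j) ?_
    intro x y hxy
    exact Subtype.ext (hf (congrArg Subtype.val hxy))
  laws := by
    intro w hw u hu
    rw [Subgroup.mem_comap, ← lift_comp]
    exact M.laws w hw _ hu
  solQ := by
    obtain ⟨d, hd⟩ := M.solQ
    refine ⟨d, ?_⟩
    rw [← Subgroup.map_le_iff_le_comap]
    exact (map_derivedSeries_le_derivedSeries f d).trans hd

theorem Mid.quo {T : Type} [Group T] {A B : Type*} [Group A] [Group B] {S K : Subgroup A}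
    (M : Mid T S K) (f : A →* B) (hf : Function.Surjective f) :
    Mid T (S.map f) (K.map f) where
  sN := M.sN.map f hf
  kN := M.kN.map f hf
  le := Subgroup.map_mono M.le
  solS := by
    have := M.solS
    exact Group.isSolvable_of_surjective (f.subgroupMap_surjective S)
  laws := by
    intro w hw u hu
    choose u' hu' hu'' using hu
    have e1 : u = fun i => f (u' i) := by
      funext i
      exact (hu'' i).symm
    rw [e1, lift_comp]
    exact ⟨_, M.laws w hw u' hu', rfl⟩
  solQ := by
    obtain ⟨d, hd⟩ := M.solQ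
    refine ⟨d, ?_⟩
    rw [← map_derivedSeries_eq hf]
    exact Subgroup.map_mono hd

theorem der_top {T : Type} [Group T] (D : Dat T) (d : ℕ) : derivedSeries T d = ⊤ := by
  have := D.simple
  rcases (derivedSeries_normal T d).eq_bot_or_eq_top with h | h
  · exact absurd ⟨⟨d, h⟩⟩ (not_solv D)
  · exact h

theorem Mid.perf {T : Type} [Group T] (D : Dat T) {F : Type*} [Group F] {S K : Subgroup F}
    (M : Mid T S K) (φ : T →* F) (t : T) : φ t ∈ K := by
  obtain ⟨d, hd⟩ := M.solQ
  apply hd
  apply map_derivedSeries_le_derivedSeries φ d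
  rw [der_top D]
  exact ⟨t, trivial, rfl⟩

/-- the factor `K / S` with a copy of `T` and an element -/
theorem Mid.factor {T : Type} [Group T] (D : Dat T) {F : Type u} [Group F] {S K : Subgroup F}
    (M : Mid T S K) (φ : T →* F) (hφ : ∃ t, φ t ≠ 1) :
    ∃ (H : Type u) (_ : Group H) (f : K →* H), Laws (Fin 3) T H ∧
      ∃ (ψ : T →* K), (∀ t, (ψ t : F) = φ t) ∧ ∃ t, f (ψ t) ≠ 1 := by
  have := M.sN
  have hS : (S.subgroupOf K).Normal := inferInstance
  refine ⟨K ⧸ S.subgroupOf K, inferInstance, QuotientGroup.mk' (S.subgroupOf K), ?_,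
    φ.codRestrict K (M.perf D φ), fun t => rfl, ?_⟩
  · have hall : AllLaws T (K ⧸ S.subgroupOf K) := by
      intro w hw u
      choose u' hu' using fun i => QuotientGroup.mk'_surjective (S.subgroupOf K) (u i)
      have e1 : u = fun i => QuotientGroup.mk' (S.subgroupOf K) (u' i) := by
        funext i
        exact (hu' i).symm
      rw [e1, lift_comp]
      refine (QuotientGroup.eq_one_iff _).2 ?_
      rw [Subgroup.mem_subgroupOf]
      have h1 := M.laws w hw (fun i => K.subtype (u' i)) (fun i => (u' i).2)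
      rw [lift_comp] at h1
      exact h1
    exact hall.fin (Fin 3)
  · by_contra hcon
    push Not at hcon
    obtain ⟨t, ht⟩ := hφ
    apply ht
    have := M.solS
    refine hom_trivial_sub D S φ (fun t => ?_) t
    have h1 := (QuotientGroup.eq_one_iff _).1 (hcon t)
    exact h1

end Pool.Agent.U110.BN
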