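import Pool.Agent.U110.BN.I

set_option autoImplicit false


/-!
# Components (continued)
-/

namespace Pool.Agent.U110.BN

universe u

/-- a simple normal subgroup of `N` -/
structure Comp {T : Type} [Group T] {A : Type*} [Group A] (N : Subgroup A) (φ : T →* A) :
    Prop where
  inj : Function.Injective φ
  le : ∀ t, φ t ∈ N
  norm : ∀ n ∈ N, ∀ t, ∃ t', n * φ t * n⁻¹ = φ t'

theorem Comp.conj {T : Type} [Group T] {A : Type*} [Group A] {N : Subgroup A} (hN : N.Normal)
    {φ : T →* A} (h : Comp N φ) (y : A) : Comp N ((MulAut.conj y).toMonoidHom.comp φ) where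
  inj := (MulAut.conj y).injective.comp h.inj
  le := fun t => hN.conj_mem _ (h.le t) y
  norm := by
    intro n hn t
    obtain ⟨t', ht'⟩ := h.norm (y⁻¹ * n * y) (by
      have := hN.conj_mem n hn y⁻¹
      rwa [inv_inv] at this) t
    refine ⟨t', ?_⟩
    change n * (y * φ t * y⁻¹) * n⁻¹ = y * φ t' * y⁻¹
    rw [← ht']
    group

theorem Comp.dich {T : Type} [Group T] (D : Dat T) {A : Type*} [Group A] {N : Subgroup A}
    {φ ψ : T →* A} (hφ : Comp N φ) (hψ : Comp N ψ) :
    (∀ s t, Commute (φ s) (ψ t)) ∨ ∀ t, ∃ s, ψ t = φ s := by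
  have := D.simple
  let B : Subgroup T := φ.range.comap ψ
  have hB : B.Normal := by
    refine ⟨fun t ht s => ?_⟩
    obtain ⟨x, hx⟩ := ht
    obtain ⟨x', hx'⟩ := hφ.norm (ψ s) (hψ.le s) x
    refine ⟨x', ?_⟩
    rw [← hx', hx, map_mul, map_mul, map_inv]
  rcases hB.eq_bot_or_eq_top with h | h
  · left
    intro s t
    obtain ⟨t', ht'⟩ := hψ.norm (φ s) (hφ.le s) t
    have h1 : t' * t⁻¹ ∈ B := by
      have h2 : ψ (t' * t⁻¹) = φ s * (ψ t * φ s⁻¹ * (ψ t)⁻¹) := by
        rw [map_mul, map_inv, ← ht', map_inv]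
        group
      obtain ⟨x, hx⟩ := hφ.norm (ψ t) (hψ.le t) s⁻¹
      rw [hx, ← map_mul] at h2
      exact ⟨_, h2.symm⟩
    rw [h, Subgroup.mem_bot, mul_inv_eq_one] at h1
    rw [h1, mul_inv_eq_iff_eq_mul] at ht'
    exact ht'
  · right
    intro t
    have : t ∈ B := by rw [h]; trivial
    obtain ⟨s, hs⟩ := this
    exact ⟨s, hs.symm⟩

section canon

variable (T : Type) [Group T] {A : Type*} [Group A] (N : Subgroup A)

/-- elements inducing inner automorphisms on all components -/
def Kc : Subgroup A where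
  carrier := {x | ∀ φ : T →* A, Comp N φ → ∃ r, Act φ x r}
  one_mem' := fun _ _ => ⟨1, act_one⟩
  mul_mem' := by
    intro x y hx hy φ hφ
    obtain ⟨r, hr⟩ := hx φ hφ
    obtain ⟨s, hs⟩ := hy φ hφ
    exact ⟨r * s, hr.mul hs⟩
  inv_mem' := by
    intro x hx φ hφ
    obtain ⟨r, hr⟩ := hx φ hφ
    exact ⟨r⁻¹, hr.inv⟩

/-- elements centralising all components -/
def Sc : Subgroup A where
  carrier := {x | ∀ φ : T →* A, Comp N φ → Act φ x 1}
  one_mem' := fun _ _ => act_one
  mul_mem' := by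
    intro x y hx hy φ hφ
    have := (hx φ hφ).mul (hy φ hφ)
    rwa [mul_one] at this
  inv_mem' := by
    intro x hx φ hφ
    have := (hx φ hφ).inv
    rwa [inv_one] at this

/-- the subgroup generated by the components -/
def Cc : Subgroup A := Subgroup.closure {x | ∃ φ : T →* A, Comp N φ ∧ ∃ t, φ t = x}

variable {T N}

theorem act_conj {φ : T →* A} {x y : A} {r : T}
    (h : Act ((MulAut.conj y⁻¹).toMonoidHom.comp φ) x r) : Act φ (y * x * y⁻¹) r := by
  intro t
  have h1 := h t
  have e : ∀ t, ((MulAut.conj y⁻¹).toMonoidHom.comp φ) t = y⁻¹ * φ t * y := by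
    intro t
    change y⁻¹ * φ t * (y⁻¹)⁻¹ = _
    rw [inv_inv]
  rw [e, e] at h1
  calc y * x * y⁻¹ * φ t * (y * x * y⁻¹)⁻¹ = y * (x * (y⁻¹ * φ t * y) * x⁻¹) * y⁻¹ := by group
    _ = φ (r * t * r⁻¹) := by
      rw [h1]
      group

theorem Kc_normal (hN : N.Normal) : (Kc T N).Normal := by
  refine ⟨fun x hx y φ hφ => ?_⟩
  obtain ⟨r, hr⟩ := hx _ (hφ.conj hN y⁻¹)
  exact ⟨r, act_conj hr⟩

theorem Sc_normal (hN : N.Normal) : (Sc T N).Normal :=
  ⟨fun _ hx y _ hφ => act_conj (hx _ (hφ.conj hN y⁻¹))⟩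

theorem Sc_le : Sc T N ≤ Kc T N := fun _ hx φ hφ => ⟨1, hx φ hφ⟩

theorem Cc_le (D : Dat T) : Cc T N ≤ Kc T N := by
  unfold Cc
  rw [Subgroup.closure_le]
  rintro _ ⟨ψ, hψ, t, rfl⟩ φ hφ
  rcases Comp.dich D hφ hψ with h | h
  · refine ⟨1, fun x => ?_⟩
    rw [(h x t).symm.eq]
    simp
  · obtain ⟨s, hs⟩ := h t
    rw [hs]
    exact ⟨s, act_self s⟩

theorem Sc_comm {x c : A} (hx : x ∈ Sc T N) (hc : c ∈ Cc T N) : Commute c x := by
  have h1 : Cc T N ≤ Subgroup.centralizer {x} := by
    unfold Cc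
    rw [Subgroup.closure_le]
    rintro _ ⟨ψ, hψ, t, rfl⟩
    rw [SetLike.mem_coe, Subgroup.mem_centralizer_singleton_iff]
    have := hx ψ hψ t
    rw [one_mul, inv_one, mul_one, mul_inv_eq_iff_eq_mul] at this
    exact this.symm
  exact Subgroup.mem_centralizer_singleton_iff.1 (h1 hc)

theorem Sc_laws (w : FreeGroup ℕ) (hw : ∀ v : ℕ → T, FreeGroup.lift v w = 1) (u : ℕ → A)
    (hu : ∀ i, u i ∈ Kc T N) : FreeGroup.lift u w ∈ Sc T N := by
  intro φ hφ
  choose r hr using fun i => hu i φ hφ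
  have := act_lift hr w
  rwa [hw] at this

end canon

/-- the derived series of the free group on non-generating tuples -/
theorem exists_e {J T : Type} [Finite J] [Group T] (D : Dat T)
    (hmin : ∀ P : Subgroup T, P ≠ ⊤ → Group.IsSolvable P) :
    ∃ e, ∀ w ∈ derivedSeries (FreeGroup J) e, ∀ v : J → T, ¬ Gen v → FreeGroup.lift v w = 1 := by
  classical
  have := D.fin
  have := Fintype.ofFinite (J → T)
  have h1 : ∀ v : J → T, ∃ d, ¬ Gen v → derivedSeries (FreeGroup.lift v).range d = ⊥ := by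
    intro v
    by_cases hv : Gen v
    · exact ⟨0, fun h => absurd hv h⟩
    · have hne : (FreeGroup.lift v).range ≠ ⊤ := by
        intro h
        exact hv (MonoidHom.range_eq_top.1 h)
      obtain ⟨⟨d, hd⟩⟩ := hmin _ hne
      exact ⟨d, fun _ => hd⟩
  choose d hd using h1
  refine ⟨Finset.univ.sup d, fun w hw v hg => ?_⟩
  have h3 : (FreeGroup.lift v).rangeRestrict w ∈
      derivedSeries (FreeGroup.lift v).range (Finset.univ.sup d) :=
    map_derivedSeries_le_derivedSeries _ _ ⟨w, hw, rfl⟩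
  have h4 := derivedSeries_antitone (G := (FreeGroup.lift v).range)
    (Finset.le_sup (f := d) (Finset.mem_univ v)) h3
  rw [hd v hg, Subgroup.mem_bot] at h4
  exact congrArg Subtype.val h4

theorem Mid.allLaws {T : Type} [Group T] {A : Type*} [Group A] {N : Subgroup A}
    (M : Mid T ⊥ N) : AllLaws T N := by
  intro w hw u
  have h1 := M.laws w hw (fun i => N.subtype (u i)) fun i => (u i).2
  rw [lift_comp, Subgroup.mem_bot] at h1
  exact Subtype.ext h1

theorem der_le_Cc {T : Type} [Group T] (D : Suit T) {A : Type} [Group A] [Finite A]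
    {N : Subgroup A} (M : Mid T ⊥ N) :
    ∃ e, (derivedSeries N e).map N.subtype ≤ Cc T N := by
  obtain ⟨e, he⟩ := exists_e (J := N) D.toDat D.min
  refine ⟨e, ?_⟩
  have hl : Laws N T N := M.allLaws.fin N
  let u : N → N := fun x => x
  have hu : Function.Surjective (FreeGroup.lift u) := fun x => ⟨FreeGroup.of x, by simp [u]⟩
  rw [← map_derivedSeries_eq hu]
  rintro _ ⟨_, ⟨w, hw, rfl⟩, rfl⟩
  have := key_mem D.toDat hl u ((Cc T N).comap N.subtype) w (by
    intro v hv
    have hg : Gen v := by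
      by_contra hg
      exact hv (he w hw v hg)
    refine ⟨hg, fun t => ?_⟩
    rcases hom_dich D.toDat (chi D.toDat hl v u) with hi | hi
    · refine Subgroup.subset_closure ⟨N.subtype.comp (chi D.toDat hl v u), ⟨?_, ?_, ?_⟩, t, rfl⟩
      · exact N.subtype_injective.comp hi
      · exact fun t => (chi D.toDat hl v u t).2
      · intro n hn t
        refine ⟨v ⟨n, hn⟩ * t * (v ⟨n, hn⟩)⁻¹, ?_⟩
        have h1 : FreeGroup.lift u (FreeGroup.of ⟨n, hn⟩ * ind D.toDat v t *
            (FreeGroup.of ⟨n, hn⟩)⁻¹) =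
            FreeGroup.lift u (ind D.toDat v (v ⟨n, hn⟩ * t * (v ⟨n, hn⟩)⁻¹)) := by
          refine hl.eq (fun v' => ?_) u
          simp only [map_mul, map_inv, FreeGroup.lift_apply_of]
          by_cases he : Eqv v v'
          · obtain ⟨α, hα⟩ := he
            rw [ind_self D.toDat hg _ hα, ind_self D.toDat hg _ hα, hα]
            simp
          · rw [ind_not D.toDat _ he, ind_not D.toDat _ he]
            simp
        simp only [map_mul, map_inv, FreeGroup.lift_apply_of] at h1
        exact congrArg Subtype.val h1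
    · have h1 : FreeGroup.lift u (ind D.toDat v t) = 1 := hi t
      rw [h1]
      exact one_mem _)
  exact this

theorem der_add {A : Type*} [Group A] {N : Subgroup A} {d : ℕ} (h : derivedSeries A d ≤ N)
    (e : ℕ) : derivedSeries A (d + e) ≤ (derivedSeries N e).map N.subtype := by
  induction e with
  | zero =>
    rw [derivedSeries_zero, ← MonoidHom.range_eq_map, Subgroup.range_subtype]
    exact h
  | succ e ih =>
    rw [← add_assoc, derivedSeries_succ, derivedSeries_succ, Subgroup.map_commutator]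
    exact Subgroup.commutator_mono ih ih

/-- the canonical `Mid` -/
theorem mid_canon {T : Type} [Group T] (D : Suit T) {A : Type} [Group A] [Finite A]
    {N : Subgroup A} (M : Mid T ⊥ N) : Mid T (Sc T N) (Kc T N) where
  sN := Sc_normal M.kN
  kN := Kc_normal M.kN
  le := Sc_le
  laws := Sc_laws
  solQ := by
    obtain ⟨e, he⟩ := der_le_Cc D M
    obtain ⟨d, hd⟩ := M.solQ
    exact ⟨d + e, (der_add hd e).trans (he.trans (Cc_le D.toDat))⟩
  solS := by
    have := M.kN
    obtain ⟨e, he⟩ := der_le_Cc D M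
    obtain ⟨d, hd⟩ := M.solQ
    -- `U = Sc ∩ N`
    let U : Subgroup A := Sc T N ⊓ N
    have hUl : AllLaws T U := by
      intro w hw u
      have h1 := M.laws w hw (fun i => U.subtype (u i)) fun i => (u i).2.2
      rw [lift_comp, Subgroup.mem_bot] at h1
      exact Subtype.ext h1
    have hU : Group.IsSolvable U := by
      refine solv_of_noT D.toDat D.min (hUl.fin U) (fun x : U => x)
        (fun x => ⟨FreeGroup.of x, by simp⟩) ?_
      intro φ hφ
      let φN : T →* N := (Subgroup.inclusion (inf_le_right : U ≤ N)).comp φ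
      have hC : ∀ t, (φ t : A) ∈ Cc T N := by
        intro t
        apply he
        refine ⟨φN t, ?_, rfl⟩
        apply map_derivedSeries_le_derivedSeries φN e
        rw [der_top D.toDat]
        exact ⟨t, trivial, rfl⟩
      apply D.na
      intro s t
      apply hφ
      rw [map_mul, map_mul]
      apply Subtype.ext
      exact (Sc_comm (φ t).2.1 (hC s)).eq
    have hQ : Group.IsSolvable (A ⧸ N) := by
      refine ⟨⟨d, ?_⟩⟩
      rw [← map_derivedSeries_eq (QuotientGroup.mk'_surjective N), eq_bot_iff]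
      rintro _ ⟨x, hx, rfl⟩
      exact (QuotientGroup.eq_one_iff x).2 (hd hx)
    refine Group.isSolvable_of_ker_le_range (Subgroup.inclusion (inf_le_left : U ≤ Sc T N))
      ((QuotientGroup.mk' N).comp (Sc T N).subtype) ?_
    intro x hx
    exact ⟨⟨x, x.2, (QuotientGroup.eq_one_iff (N := N) (x : A)).1 hx⟩, rfl⟩

/-- `g` is in the middle of `F` -/
def Kp (T : Type) [Group T] {A : Type*} [Group A] (F : Subgroup A) (g : A) : Prop :=
  ∃ S K : Subgroup F, Mid T S K ∧ ∃ k ∈ K, (k : A) = g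

theorem Kp.mono {T : Type} [Group T] {A : Type*} [Group A] {F F' : Subgroup A} (h : F' ≤ F)
    {g : A} (hg : g ∈ F') (hK : Kp T F g) : Kp T F' g := by
  obtain ⟨S, K, M, k, hk, rfl⟩ := hK
  refine ⟨_, _, M.sub (Subgroup.inclusion h) (Subgroup.inclusion_injective h), ⟨k, hg⟩, ?_, rfl⟩
  exact hk

/-- hypotheses on the outer automorphisms -/
def Out (T : Type) [Group T] : Prop :=
  ∀ α : T ≃* T, (∃ r, ∀ t, α t = r * t * r⁻¹) ∨
    ∃ y, ∀ B : Subgroup T, y ∈ B → (∀ x ∈ B, α x ∈ B) → B = ⊤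

/-- the use of `Kp` for a component in `closure {g, y}` -/
theorem Kp.use {T : Type} [Group T] (D : Dat T) {A : Type u} [Group A] {F : Subgroup A} {g : A}
    (h : Kp T F g) (φ : T →* A) (hφ : Function.Injective φ) (hF : ∀ t, φ t ∈ F) :
    ∃ (H : Type u) (_ : Group H), Laws (Fin 3) T H ∧ ∃ (K : Subgroup A) (f : K →* H)
      (hg : g ∈ K) (hK : ∀ t, φ t ∈ K), ∃ t, f ⟨φ t, hK t⟩ ≠ 1 := by
  obtain ⟨S, K, M, k, hk, rfl⟩ := h
  have hne : ∃ t, (φ.codRestrict F hF) t ≠ 1 := by
    by_contra hcon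
    push Not at hcon
    apply D.na
    intro s t
    apply hφ
    have h1 : φ s = 1 := congrArg Subtype.val (hcon s)
    have h2 : φ t = 1 := congrArg Subtype.val (hcon t)
    rw [map_mul, map_mul, h1, h2]
  obtain ⟨H, iH, f, hl, ψ, hψ, t, ht⟩ := M.factor D (φ.codRestrict F hF) hne
  let e := K.equivMapOfInjective F.subtype F.subtype_injective
  refine ⟨H, iH, hl, K.map F.subtype, f.comp e.symm.toMonoidHom, ⟨k, hk, rfl⟩,
    fun t => ⟨ψ t, (ψ t).2, by rw [Subgroup.coe_subtype, hψ]; rfl⟩, t, ?_⟩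
  have h1 : e.symm ⟨φ t, ⟨ψ t, (ψ t).2, by rw [Subgroup.coe_subtype, hψ]; rfl⟩⟩ = ψ t := by
    rw [MulEquiv.symm_apply_eq]
    apply Subtype.ext
    change φ t = ((ψ t : F) : A)
    rw [hψ]
    rfl
  change f (e.symm _) ≠ 1
  rw [h1]
  exact ht

/-- an involution and another element -/
theorem sq_ne_one {T : Type} [Group T] (D : Dat T) {i t : T} (hi : i * i = 1)
    (h : Subgroup.closure {i, t} = ⊤) : t * t ≠ 1 := by
  intro ht
  apply not_solv D
  have hi' : i⁻¹ = i := inv_eq_of_mul_eq_one_left hi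
  have ht' : t⁻¹ = t := inv_eq_of_mul_eq_one_left ht
  let N := Subgroup.zpowers (i * t)
  have hN : N.Normal := by
    rw [← Subgroup.normalizer_eq_top_iff, eq_top_iff, ← h, Subgroup.closure_le]
    have key : ∀ x : T, x * x = 1 → x * (i * t) * x⁻¹ = (i * t)⁻¹ → x ∈ Subgroup.normalizer (N : Set T) := by
      intro x hx e
      rw [Subgroup.mem_normalizer_iff]
      have h1 : ∀ y ∈ N, x * y * x⁻¹ ∈ N := by
        rintro _ ⟨k, rfl⟩
        refine ⟨-k, ?_⟩
        change (i * t) ^ (-k) = x * (i * t) ^ k * x⁻¹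
        rw [← conj_zpow, e, inv_zpow']
      intro y
      refine ⟨h1 y, fun hy => ?_⟩
      have h2 := h1 _ hy
      have hx' : x⁻¹ = x := inv_eq_of_mul_eq_one_left hx
      have e2 : x * (x * y * x⁻¹) * x⁻¹ = y := by
        rw [hx']
        calc x * (x * y * x) * x = (x * x) * y * (x * x) := by group
          _ = y := by rw [hx, one_mul, mul_one]
      rwa [e2] at h2
    rintro x (rfl | rfl)
    · apply key _ hi
      rw [mul_inv_rev, hi', ht', ← mul_assoc, hi, one_mul]
    · apply key _ ht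
      rw [mul_inv_rev, hi', ht']
      calc x * (i * x) * x = x * i * (x * x) := by group
        _ = x * i := by rw [ht, mul_one]
  have hNs : Group.IsSolvable N := by
    refine Group.isSolvable_of_comm ?_
    rintro ⟨_, ⟨m, rfl⟩⟩ ⟨_, ⟨k, rfl⟩⟩
    apply Subtype.ext
    exact zpow_mul_comm _ m k
  have h1 := solv_pair N hNs (i * t) t (Subgroup.mem_zpowers _)
  have h2 : Subgroup.closure {i * t, t} = ⊤ := by
    rw [eq_top_iff, ← h, Subgroup.closure_le]
    have m1 : i * t ∈ Subgroup.closure {i * t, t} := Subgroup.subset_closure (by simp)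
    have m2 : t ∈ Subgroup.closure {i * t, t} := Subgroup.subset_closure (by simp)
    intro x hx
    rcases hx with hx | hx
    · rw [hx]
      have := mul_mem m1 (inv_mem m2)
      rwa [mul_inv_cancel_right] at this
    · rw [Set.mem_singleton_iff] at hx
      rw [hx]
      exact m2
  rw [h2] at h1
  exact Group.isSolvable_of_surjective (f := (Subgroup.topEquiv (G := T)).toMonoidHom)
    (Subgroup.topEquiv (G := T)).surjective

end Pool.Agent.U110.BN
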