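import Pool.Agent.U110.BN.J

set_option autoImplicit false


/-!
# The middle part of a finite group is detected on two-generator subgroups
-/

namespace Pool.Agent.U110.BN

universe u

theorem act_normalizer {T : Type} [Group T] {A : Type*} [Group A] {φ : T →* A} {z : A} {r : T}
    (h : Act φ z r) (E : Subgroup A) (hz : z ∈ E) :
    r ∈ Subgroup.normalizer (E.comap φ : Set T) := by
  rw [Subgroup.mem_normalizer_iff]
  intro x
  rw [Subgroup.mem_comap, Subgroup.mem_comap, ← h x]
  constructor
  · intro hx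
    exact mul_mem (mul_mem hz hx) (inv_mem hz)
  · intro hx
    have := mul_mem (mul_mem (inv_mem hz) hx) hz
    convert this using 1
    group

/-- **Theorem M7.** -/
theorem mem_Kc {T : Type} [Group T] (D : Suit T) (hout : Out T) {b : Fin 2 → T} (hb : Gen b)
    {A : Type u} [Group A] {N : Subgroup A} (hN : N.Normal) {g : A}
    (hg : ∀ y, Kp T (Subgroup.closure {g, y}) g) : g ∈ Kc T N := by
  have := D.simple
  have := D.fin
  intro φ hφ
  have hφ' := hφ.conj hN g
  have e' : ∀ t, ((MulAut.conj g).toMonoidHom.comp φ) t = g * φ t * g⁻¹ := fun t => rfl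
  rcases Comp.dich D.toDat hφ hφ' with h | h
  · exfalso
    simp only [e'] at h
    obtain ⟨i, j, hi, hi1, -⟩ := D.four
    obtain ⟨t0, ht0⟩ := D.gen i hi1
    have h' : ∀ s t, Commute (φ s) (g⁻¹ * φ t * g) := by
      intro s t
      have h1 := (h t s).eq
      change φ s * (g⁻¹ * φ t * g) = g⁻¹ * φ t * g * φ s
      calc φ s * (g⁻¹ * φ t * g) = g⁻¹ * ((g * φ s * g⁻¹) * φ t) * g := by group
        _ = g⁻¹ * (φ t * (g * φ s * g⁻¹)) * g := by rw [h1]
        _ = g⁻¹ * φ t * g * φ s := by group
    obtain ⟨y, hy⟩ : ∃ y, y = φ i * (g⁻¹ * φ t0 * g) := ⟨_, rfl⟩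
    let E := Subgroup.closure {g, y}
    have mg : g ∈ E := Subgroup.subset_closure (by simp)
    have my : y ∈ E := Subgroup.subset_closure (by simp)
    have a1 : Act φ y i := by
      have h1 : Act φ (g⁻¹ * φ t0 * g) 1 := by
        intro x
        rw [← (h' x t0).eq, mul_inv_cancel_right, one_mul, inv_one, mul_one]
      have := (act_self (χ := φ) i).mul h1
      rwa [mul_one, ← hy] at this
    have a2 : Act φ (g * y * g⁻¹) t0 := by
      have h1 : Act φ (g * φ i * g⁻¹) 1 := by
        intro x
        rw [← (h x i).eq, mul_inv_cancel_right, one_mul, inv_one, mul_one]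
      have h2 := h1.mul (act_self (χ := φ) t0)
      have e : g * φ i * g⁻¹ * φ t0 = g * y * g⁻¹ := by
        rw [hy]
        group
      rwa [e, one_mul] at h2
    have hBn : (E.comap φ).Normal := by
      rw [← Subgroup.normalizer_eq_top_iff, eq_top_iff, ← ht0, Subgroup.closure_le]
      intro x hx
      rcases hx with hx | hx
      · rw [hx]
        exact act_normalizer a1 E my
      · rw [Set.mem_singleton_iff] at hx
        rw [hx]
        exact act_normalizer a2 E (mul_mem (mul_mem mg my) (inv_mem mg))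
    have hsq : t0 * t0 ∈ E.comap φ := by
      have h1 : φ (t0 * t0) = g * (y * y) * g⁻¹ := by
        have h2 := (h' i t0).eq
        have h3 : φ i * φ i = 1 := by rw [← map_mul, hi, map_one]
        have h4 : y * y = g⁻¹ * φ (t0 * t0) * g := by
          calc y * y = φ i * ((g⁻¹ * φ t0 * g) * φ i) * (g⁻¹ * φ t0 * g) := by
                rw [hy]
                group
            _ = φ i * (φ i * (g⁻¹ * φ t0 * g)) * (g⁻¹ * φ t0 * g) := by rw [h2]
            _ = (φ i * φ i) * (g⁻¹ * (φ t0 * φ t0) * g) := by group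
            _ = g⁻¹ * φ (t0 * t0) * g := by rw [h3, one_mul, map_mul]
        rw [h4]
        group
      rw [Subgroup.mem_comap, h1]
      exact mul_mem (mul_mem mg (mul_mem my my)) (inv_mem mg)
    have hE : ∀ t, φ t ∈ E := by
      rcases hBn.eq_bot_or_eq_top with h1 | h1
      · rw [h1, Subgroup.mem_bot] at hsq
        exact absurd hsq (sq_ne_one D.toDat hi ht0)
      · intro t
        have : t ∈ E.comap φ := by rw [h1]; trivial
        exact this
    obtain ⟨H, _, hl, K, f, hgK, hK, t, ht⟩ := (hg y).use D.toDat φ hφ.inj hE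
    apply ht
    refine no_perm D.toDat hb hl (f.comp (φ.codRestrict K hK)) (f ⟨g, hgK⟩) ?_ t
    intro s t
    have h5 : (φ.codRestrict K hK) s * (⟨g, hgK⟩ * (φ.codRestrict K hK) t * ⟨g, hgK⟩⁻¹) =
        (⟨g, hgK⟩ * (φ.codRestrict K hK) t * ⟨g, hgK⟩⁻¹) * (φ.codRestrict K hK) s :=
      Subtype.ext (h s t).eq
    have h6 := congrArg f h5
    simp only [map_mul, map_inv] at h6
    exact h6
  · simp only [e'] at h
    choose α hα using h
    have hαm : ∀ s t, α (s * t) = α s * α t := by
      intro s t
      apply hφ.inj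
      rw [← hα, map_mul, map_mul, ← hα, ← hα]
      group
    have hαi : Function.Injective α := by
      intro s t hst
      apply hφ.inj
      have h1 := hα s
      rw [hst, ← hα t] at h1
      exact mul_left_cancel (mul_right_cancel h1)
    let αe : T ≃* T := MulEquiv.mk' (Equiv.ofBijective α (Finite.injective_iff_bijective.1 hαi)) hαm
    have hαe : ∀ t, αe t = α t := fun t => rfl
    rcases hout αe with ⟨r, hr⟩ | ⟨y0, hy0⟩
    · refine ⟨r, fun x => ?_⟩
      rw [hα, ← hαe, hr]
    · let E := Subgroup.closure {g, φ y0}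
      have mg : g ∈ E := Subgroup.subset_closure (by simp)
      have my : φ y0 ∈ E := Subgroup.subset_closure (by simp)
      have hB := hy0 (E.comap φ) my (by
        intro x hx
        rw [Subgroup.mem_comap, hαe, ← hα]
        exact mul_mem (mul_mem mg hx) (inv_mem mg))
      have hE : ∀ t, φ t ∈ E := by
        intro t
        have : t ∈ E.comap φ := by rw [hB]; trivial
        exact this
      obtain ⟨H, _, hl, K, f, hgK, hK, t, ht⟩ := (hg (φ y0)).use D.toDat φ hφ.inj hE
      obtain ⟨r, hr⟩ := inner_of D.toDat hb hl (f.comp (φ.codRestrict K hK)) (f ⟨g, hgK⟩)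
        ⟨t, ht⟩ α (by
          intro t
          have h5 : (⟨g, hgK⟩ : K) * (φ.codRestrict K hK) t * ⟨g, hgK⟩⁻¹ =
              (φ.codRestrict K hK) (α t) := Subtype.ext (hα t)
          have h6 := congrArg f h5
          rw [map_mul, map_mul, map_inv] at h6
          exact h6)
      refine ⟨r, fun x => ?_⟩
      rw [hα, hr]

/-- **Theorem M8.** -/
theorem exists_canon {T : Type} [Group T] (D : Suit T) (hout : Out T) {F : Type} [Group F]
    [Finite F] {b : Fin 2 → T} (hb : Gen b) {S0 K0 : Subgroup F} (M : Mid T S0 K0) :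
    ∃ S K : Subgroup F, Mid T S K ∧
      ∀ g : F, (∀ y, Kp T (Subgroup.closure {g, y}) g) → g ∈ K := by
  have := M.sN
  let f := QuotientGroup.mk' S0
  have hf : Function.Surjective f := QuotientGroup.mk'_surjective S0
  have M1 : Mid T ⊥ (K0.map f) := by
    have h1 := M.quo f hf
    have h2 : S0.map f = ⊥ := by
      rw [eq_bot_iff]
      rintro _ ⟨x, hx, rfl⟩
      exact (QuotientGroup.eq_one_iff x).2 hx
    rwa [h2] at h1
  have M2 := mid_canon D M1
  refine ⟨(Sc T (K0.map f)).comap f, (Kc T (K0.map f)).comap f, ⟨M2.sN.comap f, M2.kN.comap f,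
    Subgroup.comap_mono M2.le, ?_, ?_, ?_⟩, ?_⟩
  · have h1 := M.solS
    have h2 := M2.solS
    have hle : S0 ≤ (Sc T (K0.map f)).comap f := by
      intro x hx
      have e : f x = 1 := (QuotientGroup.eq_one_iff x).2 hx
      rw [Subgroup.mem_comap, e]
      exact one_mem _
    let f' : ↥((Sc T (K0.map f)).comap f) →* Sc T (K0.map f) :=
      (f.comp (Subgroup.subtype _)).codRestrict _ fun y => y.2
    refine Group.isSolvable_of_ker_le_range (Subgroup.inclusion hle) f' ?_
    intro y hy
    have h3 : f y = 1 := congrArg Subtype.val hy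
    exact ⟨⟨y, (QuotientGroup.eq_one_iff (N := S0) (y : F)).1 h3⟩, rfl⟩
  · intro w hw u hu
    rw [Subgroup.mem_comap, ← lift_comp]
    exact M2.laws w hw _ hu
  · obtain ⟨d, hd⟩ := M2.solQ
    refine ⟨d, ?_⟩
    rw [← Subgroup.map_le_iff_le_comap]
    exact (map_derivedSeries_le_derivedSeries f d).trans hd
  · intro g hg
    rw [Subgroup.mem_comap]
    refine mem_Kc D hout hb M1.kN ?_
    intro y
    obtain ⟨y, rfl⟩ := hf y
    obtain ⟨S, K, M3, k, hk, hkg⟩ := hg y
    have e : Subgroup.closure {f g, f y} = (Subgroup.closure {g, y}).map f := by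
      rw [MonoidHom.map_closure, Set.image_pair]
    rw [e]
    refine ⟨_, _, M3.quo (f.subgroupMap (Subgroup.closure {g, y}))
      (f.subgroupMap_surjective _), f.subgroupMap _ k, ⟨k, hk, rfl⟩, ?_⟩
    change f (k : F) = f g
    rw [hkg]

end Pool.Agent.U110.BN
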