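import Pool.Agent.U110.BN.G
import Pool.Agent.U110.BN.K

set_option autoImplicit false


/-!
# Local finiteness, soluble-by-(laws of `T`)-by-soluble three-generator subgroups
-/

namespace Pool.Agent.U110.BN

open Pool.Agent.H32BU Pool.Agent.W629 Pool.Agent.TH69.Mtn

theorem mid_of_SBL {T : Type} [Group T] {F : Type*} [Group F] (h : SBL T F) :
    ∃ S : Subgroup F, Mid T S ⊤ := by
  obtain ⟨S, hS, h1, h2⟩ := h
  refine ⟨S, hS, inferInstance, le_top, h1, ?_, 0, le_top⟩
  intro w hw u _
  have h3 := h2 w hw fun i => QuotientGroup.mk' S (u i)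
  rw [lift_comp] at h3
  exact (QuotientGroup.eq_one_iff _).1 h3

theorem SBL_of_mid {T : Type} [Group T] {F : Type*} [Group F] {S K : Subgroup F}
    (M : Mid T S K) (hK : K = ⊤) : SBL T F := by
  refine ⟨S, M.sN, M.solS, ?_⟩
  have := M.sN
  intro w hw u
  choose u' hu' using fun i => QuotientGroup.mk'_surjective S (u i)
  have e1 : u = fun i => QuotientGroup.mk' S (u' i) := by
    funext i
    exact (hu' i).symm
  rw [e1, lift_comp]
  exact (QuotientGroup.eq_one_iff _).2 (M.laws w hw u' fun i => by rw [hK]; trivial)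

theorem SBL.sub {T : Type} [Group T] {A B : Type*} [Group A] [Group B] (h : SBL T B) (f : A →* B)
    (hf : Function.Injective f) : SBL T A := by
  obtain ⟨S, M⟩ := mid_of_SBL h
  exact SBL_of_mid (M.sub f hf) (Subgroup.comap_top f)

/-- restriction of an injective homomorphism to the subgroups generated by a subset -/
theorem Kp.tr {T : Type} [Group T] {A B : Type*} [Group A] [Group B] (f : A →* B)
    (hf : Function.Injective f) (F : Subgroup A) (g : A) (hg : g ∈ F) (h : Kp T (F.map f) (f g)) :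
    Kp T F g := by
  obtain ⟨S, K, M, k, hk, hkg⟩ := h
  have hi : Function.Injective (f.subgroupMap F) := by
    intro x y hxy
    exact Subtype.ext (hf (congrArg Subtype.val hxy))
  refine ⟨_, _, M.sub (f.subgroupMap F) hi, ⟨g, hg⟩, ?_, rfl⟩
  have : f.subgroupMap F ⟨g, hg⟩ = k := Subtype.ext hkg.symm
  rw [Subgroup.mem_comap, this]
  exact hk

theorem Kp.tr' {T : Type} [Group T] {A B : Type*} [Group A] [Group B] (f : A →* B)
    (hf : Function.Injective f) (g x : A) (h : Kp T (Subgroup.closure {f g, f x}) (f g)) :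
    Kp T (Subgroup.closure {g, x}) g := by
  apply Kp.tr f hf _ _ (Subgroup.subset_closure (by simp))
  rwa [MonoidHom.map_closure, Set.image_pair]

theorem K_det {T : Type} [Group T] (D : Suit T) (hout : Out T) {G : Type} [Group G]
    (F : Subgroup G) (hf : Finite F) (hM : ∃ S K : Subgroup F, Mid T S K) :
    ∃ S K : Subgroup F, Mid T S K ∧
      ∀ g : F, (∀ x : G, Kp T (Subgroup.closure {(g : G), x}) g) → g ∈ K := by
  obtain ⟨b, _, hb, _, _⟩ := exists_pairs D
  obtain ⟨S0, K0, M0⟩ := hM
  obtain ⟨S, K, M, h⟩ := exists_canon D hout hb M0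
  refine ⟨S, K, M, fun g hg => h g fun y => ?_⟩
  exact Kp.tr' F.subtype F.subtype_injective g y (hg y)

theorem K_mul' {T : Type} [Group T] (D : Suit T) (hout : Out T) {G : Type} [Group G]
    (F : Subgroup G) (hf : Finite F) (hM : ∃ S K : Subgroup F, Mid T S K) (g h x : F)
    (hg : ∀ x : G, Kp T (Subgroup.closure {(g : G), x}) g)
    (hh : ∀ x : G, Kp T (Subgroup.closure {(h : G), x}) h) :
    Kp T (Subgroup.closure {(g : G) * h, (x : G)}) (g * h) := by
  obtain ⟨S, K, M, hK⟩ := K_det D hout F hf hM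
  have h1 : Kp T F ((g : G) * h) := ⟨S, K, M, g * h, mul_mem (hK g hg) (hK h hh), rfl⟩
  refine h1.mono ?_ (Subgroup.subset_closure (by simp))
  rw [Subgroup.closure_le]
  intro y hy
  rcases hy with hy | hy
  · rw [hy]
    exact (g * h).2
  · rw [Set.mem_singleton_iff] at hy
    rw [hy]
    exact x.2

theorem K_mul {T : Type} [Group T] (D : Suit T) (hout : Out T) {G : Type} [Group G]
    (h3 : ∀ x y z : G, Finite (Subgroup.closure {x, y, z}) ∧
      ∃ S K : Subgroup (Subgroup.closure ({x, y, z} : Set G)), Mid T S K) (g h : G)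
    (hg : ∀ x, Kp T (Subgroup.closure {g, x}) g)
    (hh : ∀ x, Kp T (Subgroup.closure {h, x}) h) (x : G) :
    Kp T (Subgroup.closure {g * h, x}) (g * h) := by
  have h1 := h3 g h x
  obtain ⟨F, hF⟩ : ∃ F : Subgroup G, F = Subgroup.closure {g, h, x} := ⟨_, rfl⟩
  have mg : g ∈ F := hF ▸ Subgroup.subset_closure (by simp)
  have mh : h ∈ F := hF ▸ Subgroup.subset_closure (by simp)
  have mx : x ∈ F := hF ▸ Subgroup.subset_closure (by simp)
  rw [← hF] at h1
  exact K_mul' D hout F h1.1 h1.2 ⟨g, mg⟩ ⟨h, mh⟩ ⟨x, mx⟩ hg hh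

theorem K_inv {T : Type} [Group T] {G : Type} [Group G] (g : G)
    (hg : ∀ x, Kp T (Subgroup.closure {g, x}) g) (x : G) :
    Kp T (Subgroup.closure {g⁻¹, x}) g⁻¹ := by
  obtain ⟨S, K, M, k, hk, hkg⟩ := hg x
  have h1 : Kp T (Subgroup.closure {g, x}) g⁻¹ := ⟨S, K, M, k⁻¹, inv_mem hk, by simp [hkg]⟩
  refine h1.mono ?_ (Subgroup.subset_closure (by simp))
  rw [Subgroup.closure_le]
  intro y hy
  rcases hy with hy | hy
  · rw [hy]
    exact inv_mem (Subgroup.subset_closure (Set.mem_insert _ _))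
  · rw [Set.mem_singleton_iff] at hy
    rw [hy]
    exact Subgroup.subset_closure (Set.mem_insert_of_mem _ (Set.mem_singleton _))

theorem K_conj {T : Type} [Group T] {G : Type} [Group G] (g : G)
    (hg : ∀ x, Kp T (Subgroup.closure {g, x}) g) (y x : G) :
    Kp T (Subgroup.closure {y * g * y⁻¹, x}) (y * g * y⁻¹) := by
  have e1 : (MulAut.conj y⁻¹).toMonoidHom (y * g * y⁻¹) = g := by
    change y⁻¹ * (y * g * y⁻¹) * (y⁻¹)⁻¹ = g
    group
  have h1 := hg ((MulAut.conj y⁻¹).toMonoidHom x)
  apply Kp.tr' (MulAut.conj y⁻¹).toMonoidHom (MulAut.conj y⁻¹).injective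
  rw [e1]
  exact h1

theorem K_one {T : Type} [Group T] {G : Type} [Group G] (x : G) :
    Kp T (Subgroup.closure {1, x}) (1 : G) := by
  have h1 : Group.IsSolvable (Subgroup.closure {1, x}) :=
    solv_pair (⊥ : Subgroup G) inferInstance 1 x (one_mem _)
  have h2 : Group.IsSolvable (⊤ : Subgroup (Subgroup.closure {1, x})) := inferInstance
  exact ⟨⊤, ⊤, ⟨inferInstance, inferInstance, le_rfl, h2, fun _ _ _ _ => trivial, 0, le_top⟩, 1,
    trivial, rfl⟩

theorem exists_KG {T : Type} [Group T] (D : Suit T) (hout : Out T) {G : Type} [Group G]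
    (h3 : ∀ x y z : G, Finite (Subgroup.closure {x, y, z}) ∧
      ∃ S K : Subgroup (Subgroup.closure ({x, y, z} : Set G)), Mid T S K) :
    ∃ R : Subgroup G, R.Normal ∧ ∀ g, g ∈ R ↔ ∀ x, Kp T (Subgroup.closure {g, x}) g := by
  refine ⟨{ carrier := {g | ∀ x, Kp T (Subgroup.closure {g, x}) g}
            one_mem' := ?_
            mul_mem' := ?_
            inv_mem' := ?_ }, ⟨?_⟩, fun g => Iff.rfl⟩
  · intro a b ha hb
    exact K_mul D hout h3 a b ha hb
  · intro x
    exact K_one x
  · intro a ha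
    exact K_inv a ha
  · intro a ha y
    exact K_conj a ha y

/-- stability of the derived series -/
theorem der_stab (F : Type*) [Group F] [Finite F] :
    ∃ d, ∀ e, derivedSeries F d ≤ derivedSeries F e := by
  have h1 : ∃ k, ∃ d, Nat.card (derivedSeries F d) = k := ⟨_, 0, rfl⟩
  classical
  obtain ⟨d, hd⟩ := Nat.find_spec h1
  refine ⟨d, fun e => ?_⟩
  have h2 : derivedSeries F (max d e) ≤ derivedSeries F d :=
    derivedSeries_antitone _ (le_max_left _ _)
  have h3 : Nat.card (derivedSeries F d) ≤ Nat.card (derivedSeries F (max d e)) := by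
    rw [hd]
    exact Nat.find_min' h1 ⟨max d e, rfl⟩
  have h4 : derivedSeries F (max d e) = derivedSeries F d :=
    Subgroup.eq_of_le_of_card_ge h2 h3
  rw [← h4]
  exact derivedSeries_antitone _ (le_max_right _ _)

/-- **Main theorem**, `Type` version -/
theorem main_mid {T : Type} [Group T] (D : Suit T) (hout : Out T) {n : ℕ} (hn : 1 ≤ n)
    (hLF : ∀ (Q : Type) [Group Q], (∀ x : Q, x ^ n = 1) →
      (∀ x y z : Q, Finite (Subgroup.closure {x, y, z})) →
      (∀ x y : Q, Group.IsSolvable (Subgroup.closure {x, y})) → LF Q)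
    {G : Type} [Group G] (hGn : ∀ x : G, x ^ n = 1)
    (h3 : ∀ x y z : G, Finite (Subgroup.closure {x, y, z}) ∧
      ∃ S K : Subgroup (Subgroup.closure ({x, y, z} : Set G)), Mid T S K) : LF G := by
  obtain ⟨R, hR, hRm⟩ := exists_KG D hout h3
  have hfin : ∀ x y z : G, Finite (Subgroup.closure {x, y, z}) := fun x y z => (h3 x y z).1
  have hRL : LF R := by
    refine main_lf D hn hLF (fun x => Subtype.ext (hGn x)) fun x y z =>
      ⟨fin_three_sub R.subtype R.subtype_injective hfin x y z, ?_⟩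
    have h1 := h3 x y z
    obtain ⟨F, hF⟩ : ∃ F : Subgroup G, F = Subgroup.closure {(x : G), (y : G), (z : G)} :=
      ⟨_, rfl⟩
    have mx : (x : G) ∈ F := hF ▸ Subgroup.subset_closure (by simp)
    have my : (y : G) ∈ F := hF ▸ Subgroup.subset_closure (by simp)
    have mz : (z : G) ∈ F := hF ▸ Subgroup.subset_closure (by simp)
    rw [← hF] at h1
    obtain ⟨S, K, M, hK⟩ := K_det D hout F h1.1 h1.2
    have hKt : K = ⊤ := by
      have hx := hK ⟨x, mx⟩ ((hRm x).1 x.2)
      have hy := hK ⟨y, my⟩ ((hRm y).1 y.2)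
      have hz := hK ⟨z, mz⟩ ((hRm z).1 z.2)
      have h2 : F ≤ K.map F.subtype := by
        refine le_trans (le_of_eq hF) ?_
        rw [Subgroup.closure_le]
        rintro a (rfl | rfl | rfl)
        · exact ⟨_, hx, rfl⟩
        · exact ⟨_, hy, rfl⟩
        · exact ⟨_, hz, rfl⟩
      rw [eq_top_iff]
      intro a _
      obtain ⟨a', ha', e⟩ := h2 a.2
      have : a' = a := Subtype.ext e
      rwa [this] at ha'
    have h4 : SBL T F := SBL_of_mid M hKt
    have e : (Subgroup.closure {x, y, z}).map R.subtype = F := by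
      rw [hF, MonoidHom.map_closure, Set.image_insert_eq, Set.image_pair]
      rfl
    have hle : (Subgroup.closure {x, y, z}).map R.subtype ≤ F := le_of_eq e
    refine h4.sub ((Subgroup.inclusion hle).comp (R.subtype.subgroupMap _)) ?_
    intro a a' haa
    have h5 : ((a : R) : G) = ((a' : R) : G) := congrArg (fun w : F => (w : G)) haa
    exact Subtype.ext (Subtype.ext h5)
  refine x_SCH G R hRL ?_
  let f := QuotientGroup.mk' R
  have hf : Function.Surjective f := QuotientGroup.mk'_surjective R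
  refine hLF (G ⧸ R) ?_ (fin_three_quo f hf hfin) ?_
  · intro x
    obtain ⟨x, rfl⟩ := hf x
    rw [← map_pow, hGn, map_one]
  · intro x y
    obtain ⟨x, rfl⟩ := hf x
    obtain ⟨y, rfl⟩ := hf y
    have e : Subgroup.closure {f x, f y} = (Subgroup.closure {x, y}).map f := by
      rw [MonoidHom.map_closure, Set.image_pair]
    rw [e]
    have hfi := fin_two_of_three hfin x y
    obtain ⟨d, hd⟩ := der_stab (Subgroup.closure {x, y})
    refine ⟨⟨d, ?_⟩⟩
    rw [← map_derivedSeries_eq (f.subgroupMap_surjective _), eq_bot_iff]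
    rintro _ ⟨z, hz, rfl⟩
    rw [Subgroup.mem_bot]
    apply Subtype.ext
    change f (z : G) = 1
    refine (QuotientGroup.eq_one_iff (N := R) (z : G)).2 ((hRm _).2 fun w => ?_)
    obtain ⟨_, S, K, M⟩ := h3 x y w
    obtain ⟨e', he'⟩ := M.solQ
    have hle : Subgroup.closure {x, y} ≤ Subgroup.closure {x, y, w} := by
      apply Subgroup.closure_mono
      intro a ha
      rcases ha with ha | ha
      · exact Or.inl ha
      · exact Or.inr (Or.inl ha)
    have h1 : Subgroup.inclusion hle z ∈ K := by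
      apply he'
      apply map_derivedSeries_le_derivedSeries (Subgroup.inclusion hle) e'
      exact ⟨z, hd e' hz, rfl⟩
    have h2 : Kp T (Subgroup.closure {x, y, w}) (z : G) := ⟨S, K, M, _, h1, rfl⟩
    refine h2.mono ?_ (Subgroup.subset_closure (by simp))
    rw [Subgroup.closure_le]
    intro a ha
    rcases ha with ha | ha
    · rw [ha]
      exact hle z.2
    · rw [Set.mem_singleton_iff] at ha
      rw [ha]
      exact Subgroup.subset_closure (by simp)

end Pool.Agent.U110.BN
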