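import Pool.Agent.U110.BN.H
import Pool.Agent.U110.BN.J

set_option autoImplicit false

/-!
# Automorphisms of the alternating group of degree five
-/

namespace Pool.Agent.U110.BN

theorem a5_thirty (B : Subgroup A5) (y z : A5) (my : y ∈ B) (mz : z ∈ B) (hy5 : y ^ 5 = 1)
    (hy1 : y ≠ 1) (hz5 : z ^ 5 = 1) (hk : ∀ k : Fin 5, z ≠ y ^ (k : ℕ)) : 30 ∣ Nat.card B := by
  have := Fact.mk Nat.prime_five
  have h5 := a5_dvd B y my 5 Nat.prime_five hy5 hy1
  have h60 : Nat.card B ∣ 60 := by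
    rw [← a5_card]
    exact B.card_subgroup_dvd_card
  obtain ⟨P⟩ : Nonempty (Sylow 5 B) := inferInstance
  have hn := card_sylow_modEq_one 5 B
  have hd := P.card_dvd_index
  have hB5 : Nat.card B = 5 * (Nat.card B / 5) := (Nat.mul_div_cancel' h5).symm
  have hm : Nat.card B / 5 ∣ 12 := by
    rw [hB5] at h60
    exact Nat.dvd_of_mul_dvd_mul_left (by norm_num : 0 < 5) h60
  have hPc : Nat.card P = 5 := by
    obtain ⟨k, hk⟩ := IsPGroup.iff_card.1 P.isPGroup'
    have h1 : 5 ∣ Nat.card P := P.dvd_card_of_dvd_card h5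
    have h2 : Nat.card P ∣ 60 := (Subgroup.card_subgroup_dvd_card P.1).trans h60
    rw [hk] at h1 h2 ⊢
    rcases k with _ | _ | k
    · norm_num at h1
    · rfl
    · exfalso
      have : 25 ∣ 60 := (Dvd.intro (5 ^ k) (by ring)).trans h2
      norm_num at this
  have hind : (P : Subgroup B).index = Nat.card B / 5 := by
    have h1 := (P : Subgroup B).card_mul_index
    rw [hPc] at h1
    omega
  rw [hind] at hd
  by_cases h6 : 6 ∣ Nat.card B / 5
  · obtain ⟨c, hc⟩ := h6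
    rw [hB5, hc]
    exact ⟨c, by ring⟩
  exfalso
  have hn1 : Nat.card (Sylow 5 B) = 1 := by
    have hle : Nat.card B / 5 ≤ 12 := Nat.le_of_dvd (by norm_num) hm
    generalize Nat.card B / 5 = m at *
    have hle2 : Nat.card (Sylow 5 B) ≤ 12 :=
      (Nat.le_of_dvd (Nat.pos_of_ne_zero (by rintro rfl; norm_num at hm)) hd).trans hle
    generalize Nat.card (Sylow 5 B) = c at *
    unfold Nat.ModEq at hn
    have hm' : m = 0 ∨ m = 1 ∨ m = 2 ∨ m = 3 ∨ m = 4 ∨ m = 6 ∨ m = 12 := by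
      clear * - hm hle
      interval_cases m <;> omega
    clear * - hn hd h6 hm' hle2
    rcases hm' with rfl | rfl | rfl | rfl | rfl | rfl | rfl <;> interval_cases c <;> omega
  have hss : Subsingleton (Sylow 5 B) := (Nat.card_eq_one_iff_unique.1 hn1).1
  have key : ∀ a : A5, ∀ ma : a ∈ B, a ^ 5 = 1 → (⟨a, ma⟩ : B) ∈ (P : Subgroup B) := by
    intro a ma ha
    have h1 : IsPGroup 5 (Subgroup.zpowers (⟨a, ma⟩ : B)) := by
      have h2 : (⟨a, ma⟩ : B) ^ 5 = 1 := Subtype.ext ha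
      rw [IsPGroup.iff_card]
      rw [Nat.card_zpowers]
      have h3 : orderOf (⟨a, ma⟩ : B) ∣ 5 ^ 1 := by
        rw [pow_one]
        exact orderOf_dvd_of_pow_eq_one h2
      obtain ⟨k, _, hok⟩ := (Nat.dvd_prime_pow Nat.prime_five).1 h3
      exact ⟨k, hok⟩
    obtain ⟨Q, hQ⟩ := h1.exists_le_sylow
    have : Q = P := Subsingleton.elim _ _
    rw [this] at hQ
    exact hQ (Subgroup.mem_zpowers _)
  have hy := key y my hy5
  have hz := key z mz hz5
  have h1 : Subgroup.zpowers (⟨y, my⟩ : B) = (P : Subgroup B) := by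
    apply Subgroup.eq_of_le_of_card_ge
    · rw [Subgroup.zpowers_le]
      exact hy
    · rw [hPc, Nat.card_zpowers]
      have h2 : orderOf (⟨y, my⟩ : B) = 5 := by
        apply orderOf_eq_prime
        · exact Subtype.ext hy5
        · intro h
          exact hy1 (congrArg Subtype.val h)
      rw [h2]
  rw [← h1] at hz
  obtain ⟨k, hk'⟩ := hz
  have h2 : y ^ k = z := congrArg Subtype.val hk'
  have h3 : (k % 5).toNat < 5 := by omega
  apply hk ⟨(k % 5).toNat, h3⟩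
  rw [← h2]
  have h4 : ((k % 5).toNat : ℤ) = k % 5 := Int.toNat_of_nonneg (by omega)
  rw [← zpow_natCast, h4]
  conv_lhs => rw [← Int.mul_ediv_add_emod k 5, zpow_add, zpow_mul]
  have h5' : y ^ (5 : ℤ) = 1 := by
    rw [show (5 : ℤ) = ((5 : ℕ) : ℤ) from rfl, zpow_natCast, hy5]
  rw [h5', one_zpow, one_mul]

theorem a5_norm : ∀ h : Equiv.Perm (Fin 5), Equiv.Perm.sign h = 1 →
    (∀ y : Equiv.Perm (Fin 5), Equiv.Perm.sign y = 1 → y ^ 5 = 1 → y ≠ 1 →
      ∃ k : Fin 5, h * y * h⁻¹ = y ^ (k : ℕ)) → h = 1 := by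
  decide +kernel

theorem pow_mod5 {G : Type*} [Group G] {y : G} (hy : y ^ 5 = 1) (m : ℕ) : y ^ m = y ^ (m % 5) := by
  conv_lhs => rw [← Nat.div_add_mod m 5, pow_add, pow_mul, hy, one_pow, one_mul]

theorem a5_out : Out A5 := by
  intro α
  by_cases hall : ∀ y : A5, y ^ 5 = 1 → y ≠ 1 → ∃ k : Fin 5, α y = y ^ (k : ℕ)
  · left
    refine ⟨1, fun g => ?_⟩
    rw [one_mul, inv_one, mul_one]
    have h1 : g⁻¹ * α g = 1 := by
      apply Subtype.ext
      refine a5_norm _ (Equiv.Perm.mem_alternatingGroup.1 (g⁻¹ * α g).2) ?_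
      intro y hys hy5 hy1
      let y' : A5 := ⟨y, Equiv.Perm.mem_alternatingGroup.2 hys⟩
      have hy5' : y' ^ 5 = 1 := Subtype.ext hy5
      have hy1' : y' ≠ 1 := fun h => hy1 (congrArg Subtype.val h)
      obtain ⟨l, hl⟩ := hall y' hy5' hy1'
      obtain ⟨k, hk⟩ := hall (g * y' * g⁻¹) (by rw [conj_pow, hy5']; simp) (by
        intro h
        apply hy1'
        rw [mul_inv_eq_one] at h
        exact mul_left_cancel (h.trans (mul_one g).symm))
      have hl0 : (l : ℕ) ^ 4 % 5 = 1 := by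
        have hl0' : (l : ℕ) ≠ 0 := by
          intro h0
          rw [h0, pow_zero] at hl
          apply hy1'
          exact α.injective (by rw [hl, map_one])
        have := l.2
        generalize (l : ℕ) = a at *
        interval_cases a <;> simp_all
      have h2 : (g⁻¹ * α g) * y' ^ (l : ℕ) * (g⁻¹ * α g)⁻¹ = y' ^ (k : ℕ) := by
        rw [map_mul, map_mul, map_inv, hl, conj_pow] at hk
        calc (g⁻¹ * α g) * y' ^ (l : ℕ) * (g⁻¹ * α g)⁻¹
            = g⁻¹ * (α g * y' ^ (l : ℕ) * (α g)⁻¹) * g := by group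
          _ = g⁻¹ * (g * y' ^ (k : ℕ) * g⁻¹) * g := by rw [hk]
          _ = y' ^ (k : ℕ) := by group
      have h3 : (g⁻¹ * α g) * y' * (g⁻¹ * α g)⁻¹ = y' ^ ((k : ℕ) * (l : ℕ) ^ 3 % 5) := by
        have e1 : (y' ^ (l : ℕ)) ^ ((l : ℕ) ^ 3) = y' := by
          rw [← pow_mul, pow_mod5 hy5']
          have : (l : ℕ) * (l : ℕ) ^ 3 = (l : ℕ) ^ 4 := by ring
          rw [this, hl0, pow_one]
        calc (g⁻¹ * α g) * y' * (g⁻¹ * α g)⁻¹
            = (g⁻¹ * α g) * (y' ^ (l : ℕ)) ^ ((l : ℕ) ^ 3) * (g⁻¹ * α g)⁻¹ := by rw [e1]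
          _ = ((g⁻¹ * α g) * y' ^ (l : ℕ) * (g⁻¹ * α g)⁻¹) ^ ((l : ℕ) ^ 3) := by rw [conj_pow]
          _ = y' ^ ((k : ℕ) * (l : ℕ) ^ 3 % 5) := by rw [h2, ← pow_mul, pow_mod5 hy5']
      exact ⟨⟨_, Nat.mod_lt _ (by norm_num)⟩, congrArg Subtype.val h3⟩
    exact (inv_mul_eq_one.1 h1).symm
  · right
    push Not at hall
    obtain ⟨y, hy5, hy1, hk⟩ := hall
    refine ⟨y, fun B hB hα => ?_⟩
    have hz5 : (α y) ^ 5 = 1 := by rw [← map_pow, hy5, map_one]
    apply a5_top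
    exact a5_thirty B y (α y) hB (hα y hB) hy5 hy1 hz5 hk

end Pool.Agent.U110.BN
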