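import Pool.Agent.U110.BN.L
import Pool.Agent.U110.BN.M
import Pool.Agent.Results.MP_544bd1_al.TwoGeneratorsMultiplesOfFive

set_option autoImplicit false


/-!
# The exponents
-/

namespace Pool.Agent.U110.BN

open Pool.Agent.H32BU hiding InL
open Pool.Agent.W629 Pool.Agent.TH69.Mtn
open Pool.Agent.Results.MP_544bd1_al.TwoGenerators (InL B Admissible)

universe u

/-- prime powers greater than five -/
def PP5 (n : ℕ) : Prop := ∀ p k : ℕ, p.Prime → p ^ k ∣ n → 5 < p ^ k → InL.{u} (p ^ k)

theorem lf_pp {n : ℕ} (hq : PP5.{u} n) {p k : ℕ} (hp : p.Prime) (hk : p ^ k ∣ n) (N : Type)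
    [Group N] (hN : ∀ x : N, x ^ p ^ k = 1)
    (h3 : ∀ x y z : N, Finite (Subgroup.closure {x, y, z})) : LF N := by
  by_cases h5 : 5 < p ^ k
  · exact (inL_iff x_LFD _).1 (hq p k hp hk h5) N hN
  · by_cases h4 : 4 < p ^ k
    · have e : p ^ k = 5 := by omega
      rw [e] at hN
      intro S
      exact Pool.Agent.Y50.FE.main5_u N hN h3 (S : Set N) S.finite_toSet
    · exact small_pp x_LFD x_L34 p k hp h4 N hN

/-- the soluble case, two generators, admissible exponents -/
theorem hLF_two {n : ℕ} (hn : 1 ≤ n) (hA : Admissible n) (hq : PP5.{u} n) (Q : Type) [Group Q]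
    (hQ : ∀ x : Q, x ^ n = 1) (h3 : ∀ x y z : Q, Finite (Subgroup.closure {x, y, z}))
    (hs : ∀ x y : Q, Group.IsSolvable (Subgroup.closure {x, y})) : LF Q := by
  obtain ⟨M, hM, hML, hmax⟩ := exists_radical Q
  refine x_SCH Q M hML ?_
  let f := QuotientGroup.mk' M
  have hf : Function.Surjective f := QuotientGroup.mk'_surjective M
  have hexp : ∀ x : Q ⧸ M, x ^ n = 1 := by
    intro x
    obtain ⟨x, rfl⟩ := hf x
    rw [← map_pow, hQ, map_one]
  have h3' := fin_three_quo f hf h3
  have h2' : ∀ x y : Q ⧸ M, Finite (Subgroup.closure {x, y}) := fin_two_of_three h3'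
  have hs' : ∀ x y : Q ⧸ M, Group.IsSolvable (Subgroup.closure {x, y}) := by
    intro x y
    obtain ⟨x, rfl⟩ := hf x
    obtain ⟨y, rfl⟩ := hf y
    have e : Subgroup.closure {f x, f y} = (Subgroup.closure {x, y}).map f := by
      rw [MonoidHom.map_closure, Set.image_pair]
    rw [e]
    have := hs x y
    exact Group.isSolvable_of_surjective (f.subgroupMap_surjective _)
  by_cases hnt : Nontrivial (Q ⧸ M)
  · exfalso
    obtain ⟨p, k, hp, hk, N, hN, hNb, hNe⟩ :=
      ((Pool.Agent.Results.MP_544bd1_al.TwoGenerators.result.{0}.2 n hn hA).1 (Q ⧸ M) hexp h2'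
        (Or.inr hs')).1 hnt
    apply hNb
    refine rad_quo M hML hmax N hN (lf_pp hq hp hk N (fun x => Subtype.ext (hNe x x.2)) ?_)
    exact fin_three_sub N.subtype N.subtype_injective h3'
  · rw [not_nontrivial_iff_subsingleton] at hnt
    intro S
    infer_instance

/-- the universe free version of the main theorem -/
theorem main_u {T : Type} [Group T] (D : Suit T) (hout : Out T) {n : ℕ} (hn : 1 ≤ n)
    (hA : Admissible n) (hq : PP5.{u} n) (G : Type u) [Group G] (hGn : ∀ x : G, x ^ n = 1)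
    (h3 : ∀ x y z : G, Finite (Subgroup.closure {x, y, z}) ∧
      ∃ S K : Subgroup (Subgroup.closure ({x, y, z} : Set G)), Mid T S K) (S : Set G)
    (hS : S.Finite) : Finite (Subgroup.closure S) := by
  refine finite_closure_u S hS fun Q _ f hf => ?_
  refine main_mid D hout hn (hLF_two hn hA hq) (fun x => hf (by rw [map_pow, map_one]; exact hGn _))
    fun x y z => ⟨fin_three_sub f hf (fun x y z => (h3 x y z).1) x y z, ?_⟩
  obtain ⟨-, S, K, M⟩ := h3 (f x) (f y) (f z)
  have e : (Subgroup.closure {x, y, z}).map f = Subgroup.closure {f x, f y, f z} := by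
    rw [MonoidHom.map_closure, Set.image_insert_eq, Set.image_pair]
  let g := (Subgroup.inclusion (le_of_eq e)).comp (f.subgroupMap (Subgroup.closure {x, y, z}))
  refine ⟨_, _, M.sub g ?_⟩
  intro a b hab
  apply Subtype.ext
  apply hf
  exact congrArg (fun w : Subgroup.closure {f x, f y, f z} => (w : G)) hab

theorem b3_hom {n : ℕ} {G : Type u} [Group G] (hGn : ∀ x : G, x ^ n = 1) (x y z : G) :
    ∃ f : B 3 n →* G, f.range = Subgroup.closure {x, y, z} := by
  let g : FreeGroup (Fin 3) →* G := FreeGroup.lift ![x, y, z]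
  have hg : Subgroup.normalClosure (Set.range fun w : FreeGroup (Fin 3) => w ^ n) ≤ g.ker := by
    apply Subgroup.normalClosure_le_normal
    rintro _ ⟨w, rfl⟩
    change g (w ^ n) = 1
    rw [map_pow, hGn]
  refine ⟨QuotientGroup.lift _ g hg, ?_⟩
  have h1 : (QuotientGroup.lift _ g hg).range = g.range := by
    ext y
    constructor
    · rintro ⟨q, rfl⟩
      obtain ⟨u, rfl⟩ := QuotientGroup.mk_surjective q
      exact ⟨u, rfl⟩
    · rintro ⟨u, rfl⟩
      exact ⟨QuotientGroup.mk u, rfl⟩
  rw [h1, FreeGroup.range_lift_eq_closure]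
  congr 1
  ext a
  simp only [Set.mem_range, Fin.exists_fin_succ, Set.mem_insert_iff, Set.mem_singleton_iff]
  simp [eq_comm]

theorem main_B {T : Type} [Group T] (D : Suit T) (hout : Out T) {n : ℕ} (hn : 1 ≤ n)
    (hA : Admissible n) (hq : PP5.{u} n) (hM : ∃ S K : Subgroup (B 3 n), Mid T S K)
    (hf : Finite (B 3 n)) : InL.{u} n := by
  intro G _ hGn
  refine main_u D hout hn hA hq G hGn fun x y z => ?_
  obtain ⟨f, hfr⟩ := b3_hom hGn x y z
  obtain ⟨S, K, M⟩ := hM
  have h1 : Finite f.range := Finite.of_surjective f.rangeRestrict f.rangeRestrict_surjective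
  have h2 := M.quo f.rangeRestrict f.rangeRestrict_surjective
  rw [hfr] at h1
  refine ⟨h1, ?_⟩
  have hle : Subgroup.closure {x, y, z} ≤ f.range := le_of_eq hfr.symm
  exact ⟨_, _, h2.sub (Subgroup.inclusion hle) (Subgroup.inclusion_injective hle)⟩

theorem adm30 : Admissible 30 := by
  have := (Pool.Agent.Results.MP_544bd1_al.TwoGenerators.result.{0}.1 15 (by decide)
    (by norm_num)).2.1
  exact this

theorem pp30 : PP5.{u} 30 := by
  intro p k hp hk h5
  exfalso
  have h2 : p ^ k ≤ 30 := Nat.le_of_dvd (by norm_num) hk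
  have hsf : Squarefree 30 := by
    rw [Nat.squarefree_iff_prime_squarefree]
    intro q hq hq2
    have h3 : q * q ≤ 30 := Nat.le_of_dvd (by norm_num) hq2
    have h4 : q ≤ 5 := by nlinarith
    interval_cases q <;> first | (norm_num at hq2; done) | (norm_num at hq; done)
  have hk1 : k = 0 ∨ k = 1 := by
    rcases k with _ | _ | k
    · exact Or.inl rfl
    · exact Or.inr rfl
    · exfalso
      have h3 : p * p ∣ 30 := by
        refine Dvd.dvd.trans ?_ hk
        exact ⟨p ^ k, by ring⟩
      exact hp.one_lt.ne' (Nat.isUnit_iff.1 (hsf p h3))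
  rcases hk1 with rfl | rfl
  · simp at h5
  · rw [pow_one] at hk h5 h2
    interval_cases p <;> first | omega | (norm_num at hp)

end Pool.Agent.U110.BN
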