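import Pool.Agent.U110.BN.J

set_option autoImplicit false

/-!
# Classes of finite groups
-/

namespace Pool.Agent.U110.BN

/-- a class of finite groups closed under subgroups, quotients and extensions which contains the
finite soluble groups -/
structure Cls (C : ∀ (F : Type) [Group F], Prop) : Prop where
  fin : ∀ (F : Type) [Group F], C F → Finite F
  sub : ∀ (A F : Type) [Group A] [Group F] (f : A →* F), Function.Injective f → C F → C A
  quo : ∀ (F A : Type) [Group F] [Group A] (f : F →* A), Function.Surjective f → C F → C A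
  ext : ∀ (F A : Type) [Group F] [Group A] (f : F →* A), C f.ker → C A → C F
  sol : ∀ (F : Type) [Group F], Finite F → Group.IsSolvable F → C F

section cls

variable {C : ∀ (F : Type) [Group F], Prop} (K : Cls C)

include K

theorem Cls.ofSub {A : Type} [Group A] {H H' : Subgroup A} (h : H' ≤ H) (hH : C H) : C H' :=
  K.sub _ _ (Subgroup.inclusion h) (Subgroup.inclusion_injective h) hH

theorem Cls.map {A B : Type} [Group A] [Group B] (f : A →* B) {H : Subgroup A} (hH : C H) :
    C (H.map f) :=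
  K.quo _ _ (f.subgroupMap H) (f.subgroupMap_surjective H) hH

theorem Cls.comap {A B : Type} [Group A] [Group B] (f : A →* B) (hf : Function.Injective f)
    {H : Subgroup B} (hH : C H) : C (H.comap f) := by
  let j : H.comap f →* H :=
    { toFun := fun x => ⟨f x, x.2⟩
      map_one' := Subtype.ext (map_one f)
      map_mul' := fun x y => Subtype.ext (map_mul f _ _) }
  refine K.sub _ _ j ?_ hH
  intro x y hxy
  exact Subtype.ext (hf (congrArg (fun z : H => (z : B)) hxy))

/-- extensions of subgroups -/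
theorem Cls.extS {A B : Type} [Group A] [Group B] (f : A →* B) (E : Subgroup A) (N : Subgroup A)
    (hN : C N) (hE : C (E.map f)) (hk : ∀ x ∈ E, f x = 1 → x ∈ N) : C E := by
  refine K.ext _ _ (f.subgroupMap E) ?_ hE
  let j : (f.subgroupMap E).ker →* N :=
    { toFun := fun x => ⟨x.1.1, hk _ x.1.2 (congrArg (fun z : E.map f => (z : B)) x.2)⟩
      map_one' := rfl
      map_mul' := fun _ _ => rfl }
  refine K.sub _ _ j ?_ hN
  intro x y hxy
  exact Subtype.ext (Subtype.ext (congrArg (fun z : N => (z : A)) hxy))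

theorem Cls.sup {A : Type} [Group A] (M N : Subgroup A) [M.Normal] [N.Normal]
    (hM : C M) (hN : C N) : C ↥(M ⊔ N) := by
  refine K.extS (QuotientGroup.mk' N) (M ⊔ N) N hN ?_ fun x _ hx =>
    (QuotientGroup.eq_one_iff x).1 hx
  have h1 : (M ⊔ N).map (QuotientGroup.mk' N) = M.map (QuotientGroup.mk' N) := by
    rw [Subgroup.map_sup, sup_eq_left]
    rintro _ ⟨x, hx, rfl⟩
    have e : QuotientGroup.mk' N x = 1 := (QuotientGroup.eq_one_iff x).2 hx
    rw [e]
    exact one_mem _
  rw [h1]
  exact K.map _ hM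

/-- the subgroup generated by an element of a normal `C`-subgroup and another element -/
theorem Cls.pair {A : Type} [Group A] (N : Subgroup A) [N.Normal] (hN : C N)
    (g x : A) (hg : g ∈ N) (hx : IsOfFinOrder x) : C (Subgroup.closure {g, x}) := by
  refine K.extS (QuotientGroup.mk' N) _ N hN ?_ fun x _ hx => (QuotientGroup.eq_one_iff x).1 hx
  have h1 : (Subgroup.closure {g, x}).map (QuotientGroup.mk' N) ≤
      Subgroup.zpowers (QuotientGroup.mk' N x) := by
    rw [MonoidHom.map_closure, Subgroup.closure_le, Set.image_pair]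
    have e : QuotientGroup.mk' N g = 1 := (QuotientGroup.eq_one_iff g).2 hg
    rintro y (rfl | rfl)
    · rw [e]
      exact one_mem _
    · exact Subgroup.mem_zpowers _
  refine K.ofSub h1 (K.sol _ ?_ ?_)
  · have h2 : IsOfFinOrder (QuotientGroup.mk' N x) := MonoidHom.isOfFinOrder _ hx
    exact h2.finite_zpowers
  · refine Group.isSolvable_of_comm ?_
    rintro ⟨_, ⟨m, rfl⟩⟩ ⟨_, ⟨k, rfl⟩⟩
    apply Subtype.ext
    exact zpow_mul_comm _ m k

theorem Cls.prod {A B : Type} [Group A] [Group B] (hA : C A) (hB : C B) : C (A × B) := by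
  refine K.ext _ _ (MonoidHom.snd A B) ?_ hB
  let j : (MonoidHom.snd A B).ker →* A :=
    { toFun := fun x => x.1.1
      map_one' := rfl
      map_mul' := fun _ _ => rfl }
  refine K.sub _ _ j ?_ hA
  rintro ⟨⟨a, b⟩, h⟩ ⟨⟨a', b'⟩, h'⟩ e
  apply Subtype.ext
  have h1 : b = 1 := h
  have h2 : b' = 1 := h'
  have h3 : a = a' := e
  exact Prod.ext h3 (h1.trans h2.symm)

end cls

/-- the situation of a simple group `T` not in the class `C` -/
structure Ctx (C : ∀ (F : Type) [Group F], Prop) (T : Type) [Group T] : Prop extends Cls C where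
  dat : Dat T
  notC : ¬ C T
  prop : ∀ P : Subgroup T, P ≠ ⊤ → C P
  good : ∀ α : T ≃* T, (∃ t, α t ≠ t) →
    ∃ y, ∀ B : Subgroup T, y ∈ B → (∀ x ∈ B, α x ∈ B) → B = ⊤
  four : ∃ i j : T, i * i = 1 ∧ i ≠ 1 ∧ j * j = 1 ∧ j ≠ 1 ∧ i * j = j * i ∧ i ≠ j
  simp : ∀ (V : Type) [Group V], C V → IsSimpleGroup V → (¬ ∀ a b : V, a * b = b * a) →
    Nat.card V ≤ Nat.card T ∧ ∃ a b : V, Subgroup.closure {a, b} = ⊤

section ctx

variable {C : ∀ (F : Type) [Group F], Prop} {T : Type} [Group T] (X : Ctx C T)

include X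

theorem Ctx.gen (a : T) (ha : a ≠ 1) : ∃ b, Subgroup.closure {a, b} = ⊤ := by
  have h1 : ∃ t, MulAut.conj a t ≠ t := by
    by_contra hcon
    push Not at hcon
    exact ha (center_triv X.dat a hcon)
  obtain ⟨y, hy⟩ := X.good (MulAut.conj a) h1
  refine ⟨y, hy _ (Subgroup.subset_closure (by simp)) fun x hx => ?_⟩
  have ma : a ∈ Subgroup.closure {a, y} := Subgroup.subset_closure (by simp)
  exact mul_mem (mul_mem ma hx) (inv_mem ma)

theorem Ctx.hom_trivial {S : Type} [Group S] (hS : C S) (φ : T →* S) (t : T) : φ t = 1 := by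
  rcases hom_dich X.dat φ with h | h
  · exact absurd (X.sub _ _ φ h hS) X.notC
  · exact h t

theorem Ctx.hom_trivial_sub {Q : Type} [Group Q] {S : Subgroup Q} (hS : C S) (φ : T →* Q)
    (h : ∀ t, φ t ∈ S) (t : T) : φ t = 1 := by
  have := X.hom_trivial hS (φ.codRestrict S h) t
  exact congrArg Subtype.val this

/-- two inequivalent generating pairs -/
theorem Ctx.exists_pairs : ∃ b c : Fin 2 → T, Gen b ∧ Gen c ∧ ¬ Eqv b c := by
  obtain ⟨i, j, hi, hi1, hj, hj1, hij, hne⟩ := X.four
  obtain ⟨t, ht⟩ := X.gen i hi1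
  have h1 : ∃ a : T, a * a ≠ 1 := by
    by_contra h
    push Not at h
    apply X.dat.na
    intro a b
    have hinv : ∀ x : T, x⁻¹ = x := fun x => inv_eq_of_mul_eq_one_left (h x)
    calc a * b = (a * b)⁻¹ := (hinv _).symm
      _ = b⁻¹ * a⁻¹ := mul_inv_rev _ _
      _ = b * a := by rw [hinv, hinv]
  obtain ⟨a, ha⟩ := h1
  have ha1 : a ≠ 1 := by
    rintro rfl
    simp at ha
  obtain ⟨t', ht'⟩ := X.gen a ha1
  refine ⟨![i, t], ![a, t'], (gen_iff _ _).2 ht, (gen_iff _ _).2 ht', ?_⟩
  rintro ⟨α, hα⟩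
  have e : a = α i := congrFun hα 0
  apply ha
  rw [e, ← map_mul, hi, map_one]

/-- groups with the laws of `T` without subgroups `T` -/
theorem Ctx.of_noT {J : Type} [Finite J] {H : Type} [Group H]
    (h : Laws J T H) (u : J → H) (hu : Function.Surjective (FreeGroup.lift u))
    (hno : ∀ φ : T →* H, ¬ Function.Injective φ) : C H := by
  classical
  have := X.dat.fin
  have := Fintype.ofFinite (J → T)
  have key : ∀ Ω : Finset (J → T), ∃ (I : Type) (_ : Group I) (f : FreeGroup J →* I), C I ∧
      ∀ w, f w = 1 → ∀ v ∈ Ω, ¬ Gen v → FreeGroup.lift v w = 1 := by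
    intro Ω
    induction Ω using Finset.induction_on with
    | empty =>
      refine ⟨Unit, inferInstance, 1, X.sol _ inferInstance inferInstance, ?_⟩
      simp
    | insert v Ω _ ih =>
      obtain ⟨I, _, f, hI, hf⟩ := ih
      by_cases hv : Gen v
      · refine ⟨I, inferInstance, f, hI, fun w hw v' hv' hg => ?_⟩
        rcases Finset.mem_insert.1 hv' with rfl | hv'
        · exact absurd hv hg
        · exact hf w hw v' hv' hg
      · have hne : (FreeGroup.lift v).range ≠ ⊤ := fun h => hv (MonoidHom.range_eq_top.1 h)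
        refine ⟨I × (FreeGroup.lift v).range, inferInstance, f.prod (FreeGroup.lift v).rangeRestrict,
          X.prod hI (X.prop _ hne), fun w hw v' hv' hg => ?_⟩
        have h1 : f w = 1 := congrArg Prod.fst hw
        have h2 : (FreeGroup.lift v).rangeRestrict w = 1 := congrArg Prod.snd hw
        rcases Finset.mem_insert.1 hv' with rfl | hv'
        · exact congrArg Subtype.val h2
        · exact hf w h1 v' hv' hg
  obtain ⟨I, _, f, hI, hf⟩ := key Finset.univ
  have hker : f.ker ≤ (FreeGroup.lift u).ker := by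
    intro w hw
    have := key_mem X.dat h u ⊥ w (fun v hv => ?_)
    · exact this
    by_cases hg : Gen v
    · refine ⟨hg, fun t => ?_⟩
      rw [Subgroup.mem_bot, ← chi_apply X.dat h]
      exact (hom_dich X.dat (chi X.dat h v u)).resolve_left (hno _) t
    · exact absurd (hf w hw v (Finset.mem_univ _) hg) hv
  have h1 : C (FreeGroup J ⧸ f.ker) := X.sub _ _ (QuotientGroup.kerLift f)
    (QuotientGroup.kerLift_injective f) hI
  refine X.quo _ _ (QuotientGroup.lift f.ker (FreeGroup.lift u) hker) ?_ h1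
  intro y
  obtain ⟨w, hw⟩ := hu y
  exact ⟨QuotientGroup.mk w, hw⟩

end ctx

end Pool.Agent.U110.BN
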