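import Pool.Agent.U110.BN.PA

set_option autoImplicit false

/-!
# Minimal normal subgroups
-/

namespace Pool.Agent.U110.BN

section cj

variable {Q : Type*} [Group Q]

/-- conjugate subgroups -/
def cj (y : Q) (V : Subgroup Q) : Subgroup Q := V.map (MulAut.conj y).toMonoidHom

theorem mem_cj {y x : Q} {V : Subgroup Q} : x ∈ cj y V ↔ y⁻¹ * x * y ∈ V := by
  constructor
  · rintro ⟨v, hv, rfl⟩
    have e : y⁻¹ * ((MulAut.conj y).toMonoidHom v) * y = v := by
      change y⁻¹ * (y * v * y⁻¹) * y = v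
      group
    rw [e]
    exact hv
  · intro h
    refine ⟨_, h, ?_⟩
    change y * (y⁻¹ * x * y) * y⁻¹ = x
    group

theorem conj_mem_cj {y v : Q} {V : Subgroup Q} (hv : v ∈ V) : y * v * y⁻¹ ∈ cj y V := by
  rw [mem_cj]
  convert hv using 1
  group

theorem cj_one (V : Subgroup Q) : cj 1 V = V := by
  ext x
  rw [mem_cj, inv_one, one_mul, mul_one]

theorem cj_mul (x y : Q) (V : Subgroup Q) : cj (x * y) V = cj x (cj y V) := by
  ext z
  rw [mem_cj, mem_cj, mem_cj]
  have : (x * y)⁻¹ * z * (x * y) = y⁻¹ * (x⁻¹ * z * x) * y := by group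
  rw [this]

theorem cj_inv_cj (y : Q) (V : Subgroup Q) : cj y⁻¹ (cj y V) = V := by
  rw [← cj_mul, inv_mul_cancel, cj_one]

theorem cj_cj_inv (y : Q) (V : Subgroup Q) : cj y (cj y⁻¹ V) = V := by
  rw [← cj_mul, mul_inv_cancel, cj_one]

theorem cj_mono {y : Q} {V W : Subgroup Q} (h : V ≤ W) : cj y V ≤ cj y W := Subgroup.map_mono h

theorem cj_bot (y : Q) : cj y (⊥ : Subgroup Q) = ⊥ := Subgroup.map_bot _

/-- minimal among the nontrivial subgroups of `S` normalised by `S` -/
structure MinN (S V : Subgroup Q) : Prop where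
  le : V ≤ S
  ne : V ≠ ⊥
  norm : ∀ s ∈ S, ∀ v ∈ V, s * v * s⁻¹ ∈ V
  min : ∀ W : Subgroup Q, W ≤ V → W ≠ ⊥ → (∀ s ∈ S, ∀ v ∈ W, s * v * s⁻¹ ∈ W) → W = V

theorem MinN.conj {S V : Subgroup Q} (h : MinN S V) (y : Q)
    (hy : ∀ s, y * s * y⁻¹ ∈ S ↔ s ∈ S) : MinN S (cj y V) where
  le := by
    intro x hx
    rw [mem_cj] at hx
    have h1 := (hy _).2 (h.le hx)
    convert h1 using 1
    group
  ne := by
    intro h1
    apply h.ne
    have := cj_inv_cj y V
    rw [h1, cj_bot] at this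
    exact this.symm
  norm := by
    intro s hs x hx
    rw [mem_cj] at hx ⊢
    have h1 : y⁻¹ * s * y ∈ S := by
      rw [← hy]
      convert hs using 1
      group
    have h2 := h.norm _ h1 _ hx
    convert h2 using 1
    group
  min := by
    intro W hW hne hn
    have h1 : cj y⁻¹ W = V := by
      refine h.min _ ?_ ?_ ?_
      · have := cj_mono (y := y⁻¹) hW
        rwa [cj_inv_cj] at this
      · intro h1
        apply hne
        have := cj_cj_inv y W
        rw [h1, cj_bot] at this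
        exact this.symm
      · intro s hs v hv
        rw [mem_cj, inv_inv] at hv ⊢
        have h2 := hn _ ((hy s).2 hs) _ hv
        convert h2 using 1
        group
    rw [← h1, cj_cj_inv]

theorem MinN.dich {S V V' : Subgroup Q} (h : MinN S V) (h' : MinN S V') :
    V = V' ∨ ∀ v ∈ V, ∀ v' ∈ V', Commute v v' := by
  by_cases hb : V ⊓ V' = ⊥
  · right
    intro v hv v' hv'
    have h1 : v * v' * v⁻¹ * v'⁻¹ ∈ V ⊓ V' := by
      rw [Subgroup.mem_inf]
      refine ⟨?_, ?_⟩
      · have := mul_mem hv (h.norm v' (h'.le hv') _ (inv_mem hv))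
        have e : v * v' * v⁻¹ * v'⁻¹ = v * (v' * v⁻¹ * v'⁻¹) := by group
        rw [e]
        exact this
      · exact mul_mem (h'.norm v (h.le hv) _ hv') (inv_mem hv')
    rw [hb, Subgroup.mem_bot] at h1
    exact eq_mul_of_mul_inv_eq (eq_of_mul_inv_eq_one h1)
  · left
    have hn : ∀ s ∈ S, ∀ v ∈ V ⊓ V', s * v * s⁻¹ ∈ V ⊓ V' := fun s hs v hv =>
      ⟨h.norm s hs v hv.1, h'.norm s hs v hv.2⟩
    rw [← h.min _ inf_le_left hb hn, h'.min _ inf_le_right hb hn]

theorem exists_MinN (S : Subgroup Q) (W : Subgroup Q) (hf : Finite W) (hW : W ≤ S) (hne : W ≠ ⊥)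
    (hn : ∀ s ∈ S, ∀ v ∈ W, s * v * s⁻¹ ∈ W) : ∃ V, V ≤ W ∧ MinN S V := by
  obtain ⟨k, hk⟩ : ∃ k, Nat.card W = k := ⟨_, rfl⟩
  induction k using Nat.strong_induction_on generalizing W with
  | _ k ih =>
    by_cases h : ∀ W' : Subgroup Q, W' ≤ W → W' ≠ ⊥ → (∀ s ∈ S, ∀ v ∈ W', s * v * s⁻¹ ∈ W') → W' = W
    · exact ⟨W, le_rfl, hW, hne, hn, h⟩
    · push Not at h
      obtain ⟨W', h1, h2, h3, h4⟩ := h
      have hf' : Finite W' := Finite.of_injective _ (Subgroup.inclusion_injective h1)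
      have hlt : Nat.card W' < k := by
        by_contra hcon
        push Not at hcon
        rw [← hk] at hcon
        exact h4 (Subgroup.eq_of_le_of_card_ge h1 hcon)
      obtain ⟨V, hV, hM⟩ := ih _ hlt W' hf' (h1.trans hW) h2 h3 rfl
      exact ⟨V, hV.trans h1, hM⟩

theorem MinN.sub_eq {S V : Subgroup Q} (h : MinN S V) (Y : Set Q)
    (hY : ∀ y ∈ Y, ∀ s, y * s * y⁻¹ ∈ S ↔ s ∈ S) (hS : S ≤ ⨆ y ∈ Y, cj y V) (W : Subgroup Q)
    (hW : W ≤ V) (hne : W ≠ ⊥) (hn : ∀ v ∈ V, ∀ w ∈ W, v * w * v⁻¹ ∈ W) : W = V := by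
  refine h.min W hW hne ?_
  have h1 : S ≤ Subgroup.normalizer (W : Set Q) := by
    refine hS.trans (iSup₂_le fun y hy => ?_)
    intro x hx
    rw [Subgroup.mem_normalizer_iff]
    intro w
    rcases h.dich (h.conj y (hY y hy)) with e | e
    · rw [← e] at hx
      refine ⟨hn x hx w, fun hw => ?_⟩
      have := hn _ (inv_mem hx) _ hw
      convert this using 1
      group
    · constructor
      · intro hw
        have h2 := (e w (hW hw) x hx).eq
        rw [← h2]
        convert hw using 1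
        group
      · intro hw
        have h2 := (e _ (hW hw) x hx).eq
        have h3 : w = x * w * x⁻¹ := by
          calc w = x⁻¹ * (x * w * x⁻¹ * x) := by group
            _ = x⁻¹ * (x * (x * w * x⁻¹)) := by rw [h2]
            _ = x * w * x⁻¹ := by group
        rw [h3]
        exact hw
  intro s hs v hv
  exact (Subgroup.mem_normalizer_iff.1 (h1 hs) v).1 hv

theorem MinN.simple {S V : Subgroup Q} (h : MinN S V) (Y : Set Q)
    (hY : ∀ y ∈ Y, ∀ s, y * s * y⁻¹ ∈ S ↔ s ∈ S) (hS : S ≤ ⨆ y ∈ Y, cj y V) :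
    IsSimpleGroup V := by
  have hnt : Nontrivial V := (Subgroup.nontrivial_iff_ne_bot V).2 h.ne
  refine { exists_pair_ne := hnt.exists_pair_ne, eq_bot_or_eq_top_of_normal := ?_ }
  intro H hH
  by_cases hb : H = ⊥
  · exact Or.inl hb
  · right
    have h1 : H.map V.subtype = V := by
      refine h.sub_eq Y hY hS _ (Subgroup.map_subtype_le H) ?_ ?_
      · intro h2
        exact hb ((Subgroup.map_eq_bot_iff_of_injective _ V.subtype_injective).1 h2)
      · rintro v hv _ ⟨w, hw, rfl⟩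
        exact ⟨⟨v, hv⟩ * w * ⟨v, hv⟩⁻¹, hH.conj_mem w hw _, rfl⟩
    rw [eq_top_iff]
    intro x _
    have : (x : Q) ∈ H.map V.subtype := by rw [h1]; exact x.2
    obtain ⟨w, hw, e⟩ := this
    have : w = x := Subtype.ext e
    rwa [this] at hw

theorem MinN.na {S V : Subgroup Q} (h : MinN S V) (Y : Set Q)
    (hY : ∀ y ∈ Y, ∀ s, y * s * y⁻¹ ∈ S ↔ s ∈ S) (hS : S ≤ ⨆ y ∈ Y, cj y V)
    (hSna : ¬ ∀ a ∈ S, ∀ b ∈ S, a * b = b * a) : ¬ ∀ a ∈ V, ∀ b ∈ V, a * b = b * a := by
  intro hV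
  apply hSna
  have key : ∀ y ∈ Y, ∀ y' ∈ Y, ∀ a ∈ cj y V, ∀ b ∈ cj y' V, a * b = b * a := by
    intro y hy y' hy' a ha b hb
    rcases (h.conj y (hY y hy)).dich (h.conj y' (hY y' hy')) with e | e
    · rw [← e] at hb
      rw [mem_cj] at ha hb
      have h1 := hV _ ha _ hb
      calc a * b = y * ((y⁻¹ * a * y) * (y⁻¹ * b * y)) * y⁻¹ := by group
        _ = y * ((y⁻¹ * b * y) * (y⁻¹ * a * y)) * y⁻¹ := by rw [h1]
        _ = b * a := by group
    · exact (e a ha b hb).eq
  have h1 : ∀ y ∈ Y, (⨆ y ∈ Y, cj y V) ≤ Subgroup.centralizer (cj y V : Set Q) := by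
    intro y hy
    refine iSup₂_le fun y' hy' => ?_
    intro a ha
    rw [Subgroup.mem_centralizer_iff]
    intro b hb
    exact key y hy y' hy' b hb a ha
  have h2 : (⨆ y ∈ Y, cj y V) ≤
      Subgroup.centralizer ((⨆ y ∈ Y, cj y V : Subgroup Q) : Set Q) := by
    refine iSup₂_le fun y hy => ?_
    intro a ha
    rw [Subgroup.mem_centralizer_iff]
    intro b hb
    exact (Subgroup.mem_centralizer_iff.1 (h1 y hy hb) a ha).symm
  intro a ha b hb
  exact (Subgroup.mem_centralizer_iff.1 (h2 (hS hb)) a (hS ha))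

end cj

section aut

/-- automorphisms of groups with two generators -/
theorem card_aut {S : Type*} [Group S] [Finite S] (a b : S) (h : Subgroup.closure {a, b} = ⊤)
    (hnt : Nontrivial S) : Finite (MulAut S) ∧ Nat.card (MulAut S) < Nat.card S * Nat.card S := by
  let F : MulAut S → S × S := fun α => (α a, α b)
  have hF : Function.Injective F := by
    intro α β hαβ
    have h1 : α a = β a := congrArg Prod.fst hαβ
    have h2 : α b = β b := congrArg Prod.snd hαβ
    have h3 : α.toMonoidHom = β.toMonoidHom := by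
      refine MonoidHom.eq_of_eqOn_dense h ?_
      intro x hx
      rcases hx with rfl | hx
      · exact h1
      · rw [Set.mem_singleton_iff] at hx
        rw [hx]
        exact h2
    ext x
    exact DFunLike.congr_fun h3 x
  have hfin : Finite (MulAut S) := Finite.of_injective F hF
  refine ⟨hfin, ?_⟩
  rw [← Nat.card_prod]
  by_contra hcon
  push Not at hcon
  obtain ⟨α, hα⟩ := (hF.bijective_of_nat_card_le hcon).2 (1, 1)
  have h1 : α a = 1 := congrArg Prod.fst hα
  have h2 : α b = 1 := congrArg Prod.snd hα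
  have h1' : a = 1 := by rwa [map_eq_one_iff _ α.injective] at h1
  have h2' : b = 1 := by rwa [map_eq_one_iff _ α.injective] at h2
  rw [h1', h2'] at h
  obtain ⟨x, hx⟩ := exists_ne (1 : S)
  have : x ∈ Subgroup.closure {(1 : S), 1} := by rw [h]; trivial
  apply hx
  have h3 : Subgroup.closure {(1 : S), 1} ≤ ⊥ := by
    rw [Subgroup.closure_le]
    rintro y (rfl | rfl) <;> rfl
  exact h3 this

theorem conj_range_normal (S : Type*) [Group S] : (MulAut.conj (G := S)).range.Normal := by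
  refine ⟨?_⟩
  rintro _ ⟨s, rfl⟩ α
  refine ⟨α s, ?_⟩
  ext x
  change α s * x * (α s)⁻¹ = α (s * (α⁻¹ x) * s⁻¹)
  rw [map_mul, map_mul, map_inv]
  congr 2
  exact (MulAut.apply_inv_self S α x).symm

theorem conj_inj {S : Type} [Group S] (D : Dat S) : Function.Injective (MulAut.conj (G := S)) := by
  rw [injective_iff_map_eq_one]
  intro s hs
  apply center_triv D
  intro x
  have := DFunLike.congr_fun hs x
  exact this

/-- simple groups acting on simple groups -/
theorem card_out {T S : Type} [Group T] [Group S] (D : Dat S) (a b : S)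
    (h : Subgroup.closure {a, b} = ⊤) (ρ : T →* MulAut S)
    (hB : ∀ t, ρ t ∈ (MulAut.conj (G := S)).range → t = 1) : Nat.card T < Nat.card S := by
  have := D.fin
  have := D.simple
  obtain ⟨hf, hc⟩ := card_aut a b h inferInstance
  let F : T × S → MulAut S := fun p => MulAut.conj p.2 * ρ p.1
  have hF : Function.Injective F := by
    rintro ⟨t, s⟩ ⟨t', s'⟩ e
    have e1 : MulAut.conj s * ρ t = MulAut.conj s' * ρ t' := e
    have e2 : ρ (t * t'⁻¹) = MulAut.conj (s⁻¹ * s') := by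
      rw [map_mul, map_mul, map_inv, map_inv]
      calc ρ t * (ρ t')⁻¹ = (MulAut.conj s)⁻¹ * (MulAut.conj s * ρ t) * (ρ t')⁻¹ := by group
        _ = (MulAut.conj s)⁻¹ * (MulAut.conj s' * ρ t') * (ρ t')⁻¹ := by rw [e1]
        _ = _ := by group
    have e3 := hB _ ⟨_, e2.symm⟩
    rw [e3, map_one] at e2
    have e4 : s⁻¹ * s' = 1 := by
      apply conj_inj D
      rw [← e2, map_one]
    rw [mul_inv_eq_one.1 e3, inv_mul_eq_one.1 e4]
  have h1 : Nat.card (T × S) ≤ Nat.card (MulAut S) := Nat.card_le_card_of_injective F hF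
  rw [Nat.card_prod] at h1
  exact lt_of_mul_lt_mul_right (lt_of_le_of_lt h1 hc) (Nat.zero_le _)

end aut

end Pool.Agent.U110.BN
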