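import Pool.Agent.U110.BN.PB

set_option autoImplicit false

/-!
# Simple groups centralise `C`-subgroups which they normalise
-/

namespace Pool.Agent.U110.BN

/-- `T` acts trivially on the abelianization -/
theorem Ctx.act_ab {C : ∀ (F : Type) [Group F], Prop} {T : Type} [Group T] (X : Ctx C T)
    {Q : Type*} [Group Q] (h2 : Laws (Fin 2) T Q)
    (φ : T →* Q) (S : Subgroup Q) (hn : ∀ t, ∀ s ∈ S, φ t * s * (φ t)⁻¹ ∈ S) (t : T) (x : S) :
    Abelianization.of (actS φ S hn t x) = Abelianization.of x := by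
  obtain ⟨i, j, hi, hi1, hj, hj1, hij, hne⟩ := X.four
  refine act_trivial X.dat (actA φ S hn) hi hi1 hj hj1 hij hne ?_ t (Abelianization.of x)
  intro a ha ha1 v s
  obtain ⟨v, rfl⟩ := QuotientGroup.mk_surjective v
  obtain ⟨b, hb⟩ := X.gen a ha1
  have hg : Gen ![a, b] := (gen_iff a b).2 hb
  let Y : Fin 2 → Q := ![φ a * v, φ b]
  obtain ⟨z, hz, e⟩ := lift_mod φ S hn ![a, b] Y (by
    intro k
    fin_cases k
    · exact ⟨v, v.2, rfl⟩
    · exact ⟨1, one_mem _, (mul_one _).symm⟩) (ind X.dat ![a, b] s⁻¹)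
  rw [ind_id X.dat hg] at e
  -- the commutation law
  have hc : FreeGroup.lift Y (FreeGroup.of 0 * FreeGroup.of 0 * ind X.dat ![a, b] s⁻¹) =
      FreeGroup.lift Y (ind X.dat ![a, b] s⁻¹ * (FreeGroup.of 0 * FreeGroup.of 0)) := by
    refine h2.eq (fun v' => ?_) Y
    by_cases he : Eqv ![a, b] v'
    · obtain ⟨α, hα⟩ := he
      have h0 : v' 0 * v' 0 = 1 := by
        rw [hα]
        change α a * α a = 1
        rw [← map_mul, ha, map_one]
      simp only [map_mul, FreeGroup.lift_apply_of]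
      rw [h0, one_mul, mul_one]
    · simp only [map_mul, ind_not X.dat _ he, FreeGroup.lift_apply_of, mul_one, one_mul]
  simp only [map_mul, FreeGroup.lift_apply_of] at hc
  rw [e] at hc
  have hX : Y 0 = φ a * v := rfl
  have ha2 : φ a * φ a = 1 := by rw [← map_mul, ha, map_one]
  have ha3 : (φ a)⁻¹ = φ a := inv_eq_of_mul_eq_one_left ha2
  -- `y = φ a v φ a⁻¹ v`
  let y : S := actS φ S hn a v * v
  have hy : (y : Q) = Y 0 * Y 0 := by
    change φ a * v * (φ a)⁻¹ * v = φ a * v * (φ a * v)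
    rw [ha3]
    group
  rw [← hy] at hc
  change Abelianization.of (actS φ S hn s y) = Abelianization.of y
  have hkey : actS φ S hn s y = (⟨z, hz⟩ : S) * y * (⟨z, hz⟩ : S)⁻¹ := by
    apply Subtype.ext
    change φ s * (y : Q) * (φ s)⁻¹ = z * y * z⁻¹
    have h1 : (y : Q) = φ s⁻¹ * z * y * z⁻¹ * φ s := by
      calc (y : Q) = (y * (φ s⁻¹ * z)) * (φ s⁻¹ * z)⁻¹ := by group
        _ = (φ s⁻¹ * z * y) * (φ s⁻¹ * z)⁻¹ := by rw [hc]
        _ = φ s⁻¹ * z * y * z⁻¹ * φ s := by
          rw [mul_inv_rev, map_inv, inv_inv]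
          group
    calc φ s * (y : Q) * (φ s)⁻¹ = φ s * (φ s⁻¹ * z * y * z⁻¹ * φ s) * (φ s)⁻¹ := by rw [← h1]
      _ = z * y * z⁻¹ := by
        rw [map_inv]
        group
  rw [hkey, map_mul, map_mul, map_inv, mul_comm, ← mul_assoc, inv_mul_cancel, one_mul]

theorem Ctx.act_comm {C : ∀ (F : Type) [Group F], Prop} {T : Type} [Group T] (X : Ctx C T)
    {Q : Type*} [Group Q] (h2 : Laws (Fin 2) T Q)
    (φ : T →* Q) (S : Subgroup Q) (hn : ∀ t, ∀ s ∈ S, φ t * s * (φ t)⁻¹ ∈ S) (t : T) (x : Q)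
    (hx : x ∈ S) : φ t * x * (φ t)⁻¹ * x⁻¹ ∈ ⁅S, S⁆ := by
  have h1 := X.act_ab h2 φ S hn t ⟨x, hx⟩
  have h3 : actS φ S hn t ⟨x, hx⟩ * (⟨x, hx⟩ : S)⁻¹ ∈ (Abelianization.of (G := S)).ker := by
    rw [MonoidHom.mem_ker, map_mul, map_inv, h1, mul_inv_cancel]
  rw [Abelianization.ker_of] at h3
  rw [← Subgroup.map_subtype_commutator]
  exact ⟨_, h3, rfl⟩

section

variable {C : ∀ (F : Type) [Group F], Prop} {T : Type} [Group T] (X : Ctx C T)

include X

/-- involutions do not move components -/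
theorem Ctx.no_move {Q : Type} [Group Q] (h2 : Laws (Fin 2) T Q) (φ : T →* Q) (S : Subgroup Q)
    (hn : ∀ t, ∀ s ∈ S, φ t * s * (φ t)⁻¹ ∈ S) (V : Subgroup Q) (hV : MinN S V)
    (hna : ¬ ∀ a ∈ V, ∀ b ∈ V, a * b = b * a) (i : T) (hi : i * i = 1) (hi1 : i ≠ 1) :
    cj (φ i) V = V := by
  by_contra hmove
  have hy : ∀ t s, φ t * s * (φ t)⁻¹ ∈ S ↔ s ∈ S := by
    intro t s
    refine ⟨fun h => ?_, hn t s⟩
    have h1 := hn t⁻¹ _ h
    rw [map_inv] at h1
    convert h1 using 1
    group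
  have hM : ∀ t, MinN S (cj (φ t) V) := fun t => hV.conj (φ t) (hy t)
  obtain ⟨b, hb⟩ := X.gen i hi1
  have hg : Gen ![i, b] := (gen_iff i b).2 hb
  push Not at hna
  obtain ⟨v, hv, v', hv', hvv⟩ := hna
  have hi3 : (φ i)⁻¹ = φ i := by
    rw [← map_inv, inv_eq_of_mul_eq_one_left hi]
  -- the two element orbit
  have key : ∀ s, cj (φ s) V = V ∨ cj (φ s) V = cj (φ i) V := by
    intro s
    by_contra hcon
    push Not at hcon
    obtain ⟨c1, c2⟩ := hcon
    let Y : Fin 2 → Q := ![φ i * v, φ b]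
    obtain ⟨z, hz, e⟩ := lift_mod φ S hn ![i, b] Y (by
      intro k
      fin_cases k
      · exact ⟨v, hV.le hv, rfl⟩
      · exact ⟨1, one_mem _, (mul_one _).symm⟩) (ind X.dat ![i, b] s)
    rw [ind_id X.dat hg] at e
    have hc : FreeGroup.lift Y (FreeGroup.of 0 * FreeGroup.of 0 * ind X.dat ![i, b] s) =
        FreeGroup.lift Y (ind X.dat ![i, b] s * (FreeGroup.of 0 * FreeGroup.of 0)) := by
      refine h2.eq (fun v' => ?_) Y
      by_cases he : Eqv ![i, b] v'
      · obtain ⟨α, hα⟩ := he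
        have h0 : v' 0 * v' 0 = 1 := by
          rw [hα]
          change α i * α i = 1
          rw [← map_mul, hi, map_one]
        simp only [map_mul, FreeGroup.lift_apply_of]
        rw [h0, one_mul, mul_one]
      · simp only [map_mul, ind_not X.dat _ he, FreeGroup.lift_apply_of, mul_one, one_mul]
    simp only [map_mul, FreeGroup.lift_apply_of] at hc
    rw [e] at hc
    obtain ⟨w, hw⟩ : ∃ w, w = φ i * v * (φ i)⁻¹ := ⟨_, rfl⟩
    have hwV : w ∈ cj (φ i) V := hw ▸ conj_mem_cj hv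
    have hY : Y 0 * Y 0 = w * v := by
      change φ i * v * (φ i * v) = w * v
      rw [hw, hi3]
      group
    rw [hY] at hc
    obtain ⟨u, hu⟩ : ∃ u, u = φ s * (z * v' * z⁻¹) * (φ s)⁻¹ := ⟨_, rfl⟩
    have huV : u ∈ cj (φ s) V := hu ▸ conj_mem_cj (hV.norm z hz v' hv')
    have d1 := ((hM s).dich hV).resolve_left c1
    have d2 := ((hM s).dich (hM i)).resolve_left c2
    have e1 : u * (w * v) = w * v * u := ((d2 u huV w hwV).mul_right (d1 u huV v hv)).eq
    have e2 : Commute v' (w * v) := by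
      have h3 : (w * v) = (φ s * z)⁻¹ * (w * v) * (φ s * z) := by
        calc w * v = (φ s * z)⁻¹ * (φ s * z * (w * v)) := by group
          _ = (φ s * z)⁻¹ * (w * v * (φ s * z)) := by rw [← hc]
          _ = _ := by group
      have hu2 : v' = (φ s * z)⁻¹ * u * (φ s * z) := by
        rw [hu]
        group
      change v' * (w * v) = w * v * v'
      calc v' * (w * v) = (φ s * z)⁻¹ * u * (φ s * z) *
            ((φ s * z)⁻¹ * (w * v) * (φ s * z)) := by rw [← h3, ← hu2]
        _ = (φ s * z)⁻¹ * (u * (w * v)) * (φ s * z) := by group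
        _ = (φ s * z)⁻¹ * ((w * v) * u) * (φ s * z) := by rw [e1]
        _ = ((φ s * z)⁻¹ * (w * v) * (φ s * z)) * ((φ s * z)⁻¹ * u * (φ s * z)) := by group
        _ = w * v * v' := by rw [← h3, ← hu2]
    have d3 := (hV.dich (hM i)).resolve_left (Ne.symm hmove)
    have e3 : Commute v' w := d3 v' hv' w hwV
    have e4 : Commute v' v := by
      have h1 : v = w⁻¹ * (w * v) := by group
      rw [h1]
      exact e3.inv_right.mul_right e2
    exact hvv e4.eq.symm
  let B : Subgroup T :=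
    { carrier := {t | cj (φ t) V = V}
      one_mem' := by
        change cj (φ 1) V = V
        rw [map_one, cj_one]
      mul_mem' := by
        intro s t hs ht
        have hs' : cj (φ s) V = V := hs
        have ht' : cj (φ t) V = V := ht
        change cj (φ (s * t)) V = V
        rw [map_mul, cj_mul, ht', hs']
      inv_mem' := by
        intro t ht
        have ht' : cj (φ t) V = V := ht
        change cj (φ t⁻¹) V = V
        have h1 := cj_inv_cj (φ t) V
        rw [ht'] at h1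
        rw [map_inv, h1] }
  have hB : ∀ t, t ∈ B ↔ cj (φ t) V = V := fun t => Iff.rfl
  have hB2 : ∀ t, t ∉ B → cj (φ t) V = cj (φ i) V := fun t ht => (key t).resolve_left ht
  have hBm : ∀ s t, s ∉ B → t ∉ B → s⁻¹ * t ∈ B := by
    intro s t hs ht
    rw [hB, map_mul, cj_mul, hB2 t ht, ← hB2 s hs, map_inv, cj_inv_cj]
  have hBn : B.Normal := by
    refine ⟨fun t ht s => ?_⟩
    by_cases hs : s ∈ B
    · exact mul_mem (mul_mem hs ht) (inv_mem hs)
    · have h1 : t⁻¹ * s⁻¹ ∉ B := fun h => hs (by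
        have := mul_mem ht h
        rw [mul_inv_cancel_left] at this
        exact inv_mem_iff.1 this)
      have h3 : s⁻¹ ∉ B := fun h => hs (inv_mem_iff.1 h)
      have := hBm _ _ h1 h3
      rwa [mul_inv_rev, inv_inv, inv_inv] at this
  have := X.dat.simple
  rcases hBn.eq_bot_or_eq_top with h | h
  · apply X.dat.na
    intro a b
    by_cases ha : a = 1
    · simp [ha]
    by_cases hb : b = 1
    · simp [hb]
    have ha' : a ∉ B := by rw [h, Subgroup.mem_bot]; exact ha
    have hb' : b ∉ B := by rw [h, Subgroup.mem_bot]; exact hb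
    have := hBm _ _ ha' hb'
    rw [h, Subgroup.mem_bot, inv_mul_eq_one] at this
    rw [this]
  · exact hmove ((hB i).1 (by rw [h]; trivial))

theorem Ctx.stab {Q : Type} [Group Q] (h2 : Laws (Fin 2) T Q) (φ : T →* Q) (S : Subgroup Q)
    (hn : ∀ t, ∀ s ∈ S, φ t * s * (φ t)⁻¹ ∈ S) (V : Subgroup Q) (hV : MinN S V)
    (hna : ¬ ∀ a ∈ V, ∀ b ∈ V, a * b = b * a) (t : T) : cj (φ t) V = V := by
  obtain ⟨i, j, hi, hi1, -⟩ := X.four
  let B : Subgroup T :=
    { carrier := {t | cj (φ t) V = V}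
      one_mem' := by
        change cj (φ 1) V = V
        rw [map_one, cj_one]
      mul_mem' := by
        intro s t hs ht
        have hs' : cj (φ s) V = V := hs
        have ht' : cj (φ t) V = V := ht
        change cj (φ (s * t)) V = V
        rw [map_mul, cj_mul, ht', hs']
      inv_mem' := by
        intro t ht
        have ht' : cj (φ t) V = V := ht
        change cj (φ t⁻¹) V = V
        have h1 := cj_inv_cj (φ t) V
        rw [ht'] at h1
        rw [map_inv, h1] }
  have hle : Subgroup.normalClosure {i} ≤ B := by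
    unfold Subgroup.normalClosure
    rw [Subgroup.closure_le]
    intro z hz
    obtain ⟨a, ha, hc⟩ := Group.mem_conjugatesOfSet_iff.1 hz
    rw [Set.mem_singleton_iff] at ha
    rw [ha] at hc
    obtain ⟨c, hc⟩ := isConj_iff.1 hc
    change cj (φ z) V = V
    refine X.no_move h2 φ S hn V hV hna z ?_ ?_
    · rw [← hc]
      calc c * i * c⁻¹ * (c * i * c⁻¹) = c * (i * i) * c⁻¹ := by group
        _ = 1 := by rw [hi, mul_one, mul_inv_cancel]
    · intro h
      apply hi1
      rw [← hc] at h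
      have := congrArg (fun x => c⁻¹ * x * c) h
      simp only [mul_one, inv_mul_cancel] at this
      rw [← this]
      group
  have := X.dat.simple
  have htop : Subgroup.normalClosure {i} = ⊤ := by
    rcases (Subgroup.normalClosure_normal (s := {i})).eq_bot_or_eq_top with h | h
    · exfalso
      apply hi1
      have : i ∈ Subgroup.normalClosure {i} := Subgroup.subset_normalClosure rfl
      rw [h] at this
      exact this
    · exact h
  have : t ∈ B := hle (by rw [htop]; trivial)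
  exact this

/-- the action on simple groups in the class -/
theorem Ctx.simple_act {Q : Type} [Group Q] (φ : T →* Q) (S : Subgroup Q) (hS : C S)
    (hs : IsSimpleGroup S) (hna : ¬ ∀ a b : S, a * b = b * a)
    (hn : ∀ t, ∀ s ∈ S, φ t * s * (φ t)⁻¹ ∈ S) (t : T) (x : Q) (hx : x ∈ S) :
    φ t * x = x * φ t := by
  have D : Dat S := ⟨X.fin _ hS, hs, hna⟩
  obtain ⟨hcard, a, b, hab⟩ := X.simp S hS hs hna
  rcases hom_dich X.dat (actS φ S hn) with h | h
  · exfalso
    have hr := conj_range_normal S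
    have hB : ((MulAut.conj (G := S)).range.comap (actS φ S hn)).Normal := hr.comap _
    have := X.dat.simple
    rcases hB.eq_bot_or_eq_top with hb | hb
    · have := card_out D a b hab (actS φ S hn) (fun t ht => by
        have : t ∈ (MulAut.conj (G := S)).range.comap (actS φ S hn) := ht
        rw [hb] at this
        exact this)
      omega
    · have h1 : ∀ t, actS φ S hn t ∈ (MulAut.conj (G := S)).range := by
        intro t
        have : t ∈ (MulAut.conj (G := S)).range.comap (actS φ S hn) := by rw [hb]; trivial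
        exact this
      have h3 : C (MulAut.conj (G := S)).range :=
        X.quo _ _ (MulAut.conj (G := S)).rangeRestrict
          (MulAut.conj (G := S)).rangeRestrict_surjective hS
      refine X.notC (X.sub _ _ ((actS φ S hn).codRestrict _ h1) ?_ h3)
      intro s t hst
      exact h (congrArg Subtype.val hst)
  · have h1 := DFunLike.congr_fun (h t) (⟨x, hx⟩ : S)
    have h3 : φ t * x * (φ t)⁻¹ = x := congrArg Subtype.val h1
    exact mul_inv_eq_iff_eq_mul.1 h3

theorem Ctx.centralises_aux (k : ℕ) : ∀ {Q : Type} [Group Q] (_ : Laws (Fin 2) T Q) (φ : T →* Q)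
    (S : Subgroup Q) (_ : C S) (_ : Nat.card S = k) (_ : ∀ t, ∀ s ∈ S, φ t * s * (φ t)⁻¹ ∈ S)
    (t : T) (x : Q) (_ : x ∈ S), φ t * x = x * φ t := by
  induction k using Nat.strong_induction_on with
  | _ k ih =>
  intro Q _ h2 φ S hS hk hn t x hx
  have hfS : Finite S := X.fin _ hS
  by_cases hM : ∀ M : Subgroup Q, M ≤ S → M ≠ ⊥ → (∀ s ∈ S, ∀ x ∈ M, s * x * s⁻¹ ∈ M) →
      (∀ t, ∀ x ∈ M, φ t * x * (φ t)⁻¹ ∈ M) → M = S
  · by_cases hSab : ∀ a ∈ S, ∀ b ∈ S, a * b = b * a
    · have h3 := X.act_comm h2 φ S hn t x hx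
      have h4 : ⁅S, S⁆ = ⊥ := by
        rw [eq_bot_iff, Subgroup.commutator_le]
        intro a ha b hb
        rw [Subgroup.mem_bot, commutatorElement_eq_one_iff_mul_comm]
        exact hSab a ha b hb
      rw [h4, Subgroup.mem_bot] at h3
      calc φ t * x = (φ t * x * (φ t)⁻¹ * x⁻¹) * (x * φ t) := by group
        _ = x * φ t := by rw [h3, one_mul]
    · have hne : S ≠ ⊥ := by
        intro h
        apply hSab
        intro a ha b hb
        rw [h, Subgroup.mem_bot] at ha hb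
        rw [ha, hb]
      obtain ⟨V, _, hV⟩ := exists_MinN S S hfS le_rfl hne
        fun s hs v hv => mul_mem (mul_mem hs hv) (inv_mem hs)
      have hY : ∀ y ∈ Set.range φ, ∀ s, y * s * y⁻¹ ∈ S ↔ s ∈ S := by
        rintro _ ⟨r, rfl⟩ s
        refine ⟨fun h => ?_, hn r s⟩
        have h1 := hn r⁻¹ _ h
        rw [map_inv] at h1
        convert h1 using 1
        group
      have hcM : ∀ r, MinN S (cj (φ r) V) := fun r => hV.conj (φ r) (hY _ ⟨r, rfl⟩)
      have hle : ∀ r, cj (φ r) V ≤ ⨆ y ∈ Set.range φ, cj y V := fun r =>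
        le_iSup₂_of_le (φ r) ⟨r, rfl⟩ le_rfl
      have hSup : (⨆ y ∈ Set.range φ, cj y V) = S := by
        refine hM _ (iSup₂_le ?_) ?_ ?_ ?_
        · rintro _ ⟨r, rfl⟩
          exact (hcM r).le
        · intro h
          apply hV.ne
          have := hle 1
          rw [map_one, cj_one, h] at this
          exact le_bot_iff.1 this
        · intro s hs
          have h5 : (⨆ y ∈ Set.range φ, cj y V) ≤
              (⨆ y ∈ Set.range φ, cj y V).comap (MulAut.conj s).toMonoidHom := by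
            refine iSup₂_le ?_
            rintro _ ⟨r, rfl⟩
            intro x hx
            exact hle r ((hcM r).norm s hs x hx)
          exact fun x hx => h5 hx
        · intro r
          have h5 : (⨆ y ∈ Set.range φ, cj y V) ≤
              (⨆ y ∈ Set.range φ, cj y V).comap (MulAut.conj (φ r)).toMonoidHom := by
            refine iSup₂_le ?_
            rintro _ ⟨r', rfl⟩
            intro x hx
            have h6 : φ r * x * (φ r)⁻¹ ∈ cj (φ (r * r')) V := by
              rw [map_mul, cj_mul]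
              exact conj_mem_cj hx
            exact hle _ h6
          exact fun x hx => h5 hx
      have hna := hV.na _ hY (le_of_eq hSup.symm) hSab
      have hst := X.stab h2 φ S hn V hV hna
      have hsimple := hV.simple _ hY (le_of_eq hSup.symm)
      have hVS : V = S := hM V hV.le hV.ne hV.norm (fun t x hx => by
        have := conj_mem_cj (y := φ t) hx
        rwa [hst t] at this)
      rw [hVS] at hsimple hna
      refine X.simple_act φ S hS hsimple ?_ hn t x hx
      intro h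
      apply hna
      intro a ha b hb
      exact congrArg Subtype.val (h ⟨a, ha⟩ ⟨b, hb⟩)
  · push Not at hM
    obtain ⟨M, m1, m2, m4, m5, m3⟩ := hM
    have hCM : C M := X.ofSub m1 hS
    have hlt : Nat.card M < k := by
      by_contra hcon
      push Not at hcon
      rw [← hk] at hcon
      exact m3 (Subgroup.eq_of_le_of_card_ge m1 hcon)
    have ihM := ih _ hlt h2 φ M hCM rfl m5
    have hSE : S ≤ Subgroup.normalizer (M : Set Q) := by
      intro s hs
      rw [Subgroup.mem_normalizer_iff]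
      intro y
      refine ⟨m4 s hs y, fun h => ?_⟩
      have := m4 _ (inv_mem hs) _ h
      convert this using 1
      group
    have hφE : ∀ t, φ t ∈ Subgroup.normalizer (M : Set Q) := by
      intro t
      rw [Subgroup.mem_normalizer_iff]
      intro y
      refine ⟨m5 t y, fun h => ?_⟩
      have := m5 t⁻¹ _ h
      rw [map_inv] at this
      convert this using 1
      group
    let E := Subgroup.normalizer (M : Set Q)
    have hMn : (M.subgroupOf E).Normal := by
      refine ⟨fun y hy z => ?_⟩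
      rw [Subgroup.mem_subgroupOf] at hy ⊢
      exact (Subgroup.mem_normalizer_iff.1 z.2 y).1 hy
    let f : E →* E ⧸ M.subgroupOf E := QuotientGroup.mk' _
    let φ' : T →* E ⧸ M.subgroupOf E := f.comp (φ.codRestrict E hφE)
    let g : S →* E ⧸ M.subgroupOf E := f.comp (Subgroup.inclusion hSE)
    have hC' : C g.range := X.quo _ _ g.rangeRestrict g.rangeRestrict_surjective hS
    have hcard : Nat.card g.range < k := by
      by_contra hcon
      push Not at hcon
      rw [← hk] at hcon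
      have hbij := g.rangeRestrict_surjective.bijective_of_nat_card_le hcon
      apply m2
      rw [eq_bot_iff]
      intro y hy
      have e1 : g ⟨y, m1 hy⟩ = 1 := (QuotientGroup.eq_one_iff _).2 hy
      have e2 : g.rangeRestrict ⟨y, m1 hy⟩ = g.rangeRestrict 1 := by
        apply Subtype.ext
        rw [map_one]
        exact e1
      have e3 := hbij.1 e2
      exact congrArg Subtype.val e3
    have h2' : Laws (Fin 2) T (E ⧸ M.subgroupOf E) :=
      (h2.sub E.subtype E.subtype_injective).quo f (QuotientGroup.mk'_surjective _)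
    have ihQ := ih _ hcard h2' φ' g.range hC' rfl (by
      rintro t _ ⟨s, rfl⟩
      exact ⟨⟨φ t * s * (φ t)⁻¹, hn t s s.2⟩, rfl⟩)
    have hz : ∀ t, φ t * x * (φ t)⁻¹ * x⁻¹ ∈ M := by
      intro t
      have h3 := ihQ t (g ⟨x, hx⟩) ⟨_, rfl⟩
      have h4 : f (⟨φ t, hφE t⟩ * ⟨x, hSE hx⟩ * ⟨φ t, hφE t⟩⁻¹ * ⟨x, hSE hx⟩⁻¹) = 1 := by
        rw [map_mul, map_mul, map_mul, map_inv, map_inv]
        have h5 : f ⟨φ t, hφE t⟩ * f ⟨x, hSE hx⟩ = f ⟨x, hSE hx⟩ * f ⟨φ t, hφE t⟩ := h3
        rw [h5]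
        group
      exact (QuotientGroup.eq_one_iff (N := M.subgroupOf E) _).1 h4
    let χ : T →* Q := MonoidHom.mk' (fun t => (φ t * x * (φ t)⁻¹ * x⁻¹)⁻¹) (by
      intro s t
      have h1 := ihM s _ (hz t)
      rw [← mul_inv_rev, inv_inj]
      calc φ (s * t) * x * (φ (s * t))⁻¹ * x⁻¹
          = φ s * (φ t * x * (φ t)⁻¹ * x⁻¹) * x * (φ s)⁻¹ * x⁻¹ := by
            rw [map_mul]
            group
        _ = (φ t * x * (φ t)⁻¹ * x⁻¹) * φ s * x * (φ s)⁻¹ * x⁻¹ := by rw [h1]
        _ = (φ t * x * (φ t)⁻¹ * x⁻¹) * (φ s * x * (φ s)⁻¹ * x⁻¹) := by group)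
    have h1 : χ t = 1 := X.hom_trivial_sub hCM χ (fun t => inv_mem (hz t)) t
    have h3 : φ t * x * (φ t)⁻¹ * x⁻¹ = 1 := inv_eq_one.1 h1
    calc φ t * x = (φ t * x * (φ t)⁻¹ * x⁻¹) * (x * φ t) := by group
      _ = x * φ t := by rw [h3, one_mul]

/-- **Lemma X.** -/
theorem Ctx.centralises {Q : Type} [Group Q] (h2 : Laws (Fin 2) T Q) (φ : T →* Q)
    (S : Subgroup Q) (hS : C S) (hn : ∀ t, ∀ s ∈ S, φ t * s * (φ t)⁻¹ ∈ S) (t : T) (x : Q)
    (hx : x ∈ S) : φ t * x = x * φ t := X.centralises_aux _ h2 φ S hS rfl hn t x hx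

end

/-- **Lemma U.** uniqueness -/
theorem Ctx.hom_unique {C : ∀ (F : Type) [Group F], Prop} {T : Type} [Group T] (X : Ctx C T)
    {Q : Type} [Group Q]
    (h2 : Laws (Fin 2) T Q) (φ ψ : T →* Q) (S : Subgroup Q) (hS : C S)
    (hφ : ∀ t, ∀ s ∈ S, φ t * s * (φ t)⁻¹ ∈ S) (hψ : ∀ t, ∀ s ∈ S, ψ t * s * (ψ t)⁻¹ ∈ S)
    (h : ∀ t, φ t * (ψ t)⁻¹ ∈ S) (t : T) : φ t = ψ t := by
  let χ : T →* Q := MonoidHom.mk' (fun t => φ t * (ψ t)⁻¹) (by
    intro s t
    have h1 := X.centralises h2 φ S hS hφ s _ (h t)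
    have h3 := X.centralises h2 φ S hS hφ s _ (h t)
    have h4 := X.centralises h2 ψ S hS hψ s _ (h t)
    have h5 : (φ t * (ψ t)⁻¹) * (ψ s)⁻¹ = (ψ s)⁻¹ * (φ t * (ψ t)⁻¹) := by
      calc (φ t * (ψ t)⁻¹) * (ψ s)⁻¹
          = (ψ s)⁻¹ * (ψ s * (φ t * (ψ t)⁻¹)) * (ψ s)⁻¹ := by group
        _ = (ψ s)⁻¹ * ((φ t * (ψ t)⁻¹) * ψ s) * (ψ s)⁻¹ := by rw [h4]
        _ = (ψ s)⁻¹ * (φ t * (ψ t)⁻¹) := by group
    rw [map_mul, map_mul]
    calc φ s * φ t * (ψ s * ψ t)⁻¹ = φ s * ((φ t * (ψ t)⁻¹) * (ψ s)⁻¹) := by group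
      _ = φ s * ((ψ s)⁻¹ * (φ t * (ψ t)⁻¹)) := by rw [h5]
      _ = φ s * (ψ s)⁻¹ * (φ t * (ψ t)⁻¹) := by group)
  exact mul_inv_eq_one.1 (X.hom_trivial_sub hS χ h t)

/-- **Lemma Y.** commuting -/
theorem Ctx.hom_commute {C : ∀ (F : Type) [Group F], Prop} {T : Type} [Group T] (X : Ctx C T)
    {Q : Type} [Group Q]
    (h2 : Laws (Fin 2) T Q) (φ ψ : T →* Q) (S : Subgroup Q) (hS : C S)
    (hφ : ∀ t, ∀ s ∈ S, φ t * s * (φ t)⁻¹ ∈ S) (hψ : ∀ t, ∀ s ∈ S, ψ t * s * (ψ t)⁻¹ ∈ S)
    (h : ∀ s t, φ s * ψ t * (φ s)⁻¹ * (ψ t)⁻¹ ∈ S) (s t : T) : Commute (φ s) (ψ t) := by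
  let φ' : T →* Q := (MulAut.conj (ψ t)).toMonoidHom.comp φ
  have e : ∀ s, φ' s = ψ t * φ s * (ψ t)⁻¹ := fun s => rfl
  have h1 := X.hom_unique h2 φ φ' S hS hφ (by
    intro r x hx
    rw [e]
    have h3 := hψ t⁻¹ x hx
    have h4 := hφ r _ h3
    have h5 := hψ t _ h4
    rw [map_inv, inv_inv] at h5
    convert h5 using 1
    group) (by
    intro r
    rw [e]
    convert h r t using 1
    group) s
  rw [e] at h1
  change φ s * ψ t = ψ t * φ s
  rw [eq_mul_inv_iff_mul_eq] at h1
  exact h1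

end Pool.Agent.U110.BN
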