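import Pool.Agent.U110.BN.PC

set_option autoImplicit false

/-!
# The normal closure of a simple subgroup is locally finite, general classes
-/

namespace Pool.Agent.U110.BN

/-- `F / S` satisfies the laws of `T` in three variables, `S` in `C` and normalised by `F` -/
structure LocC (C : ∀ (F : Type) [Group F], Prop) (T : Type) [Group T] {Q : Type} [Group Q]
    (F S : Subgroup Q) : Prop where
  cls : C S
  norm : ∀ f ∈ F, ∀ s ∈ S, f * s * f⁻¹ ∈ S
  laws : ∀ w : FreeGroup (Fin 3), (∀ v : Fin 3 → T, FreeGroup.lift v w = 1) →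
    ∀ u : Fin 3 → Q, (∀ i, u i ∈ F) → FreeGroup.lift u w ∈ S

theorem LocC.eq {C : ∀ (F : Type) [Group F], Prop} {T : Type} [Group T] {Q : Type}
    [Group Q] {F S : Subgroup Q} (L : LocC C T F S)
    {w w' : FreeGroup (Fin 3)} (hw : ∀ v : Fin 3 → T, FreeGroup.lift v w = FreeGroup.lift v w')
    (u : Fin 3 → Q) (hu : ∀ i, u i ∈ F) :
    FreeGroup.lift u w * (FreeGroup.lift u w')⁻¹ ∈ S := by
  have := L.laws (w * w'⁻¹) (fun v => by rw [map_mul, map_inv, hw v, mul_inv_cancel]) u hu
  rwa [map_mul, map_inv] at this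

/-- the local hypotheses on the group -/
structure HypC (C : ∀ (F : Type) [Group F], Prop) (T : Type) [Group T] (Q : Type) [Group Q] :
    Prop where
  two : Laws (Fin 2) T Q
  three : ∀ x y z : Q, ∃ S : Subgroup Q, LocC C T (Subgroup.closure {x, y, z}) S

/-- **Theorem D4.** commuting subgroups commute with all conjugates of each other -/
theorem Ctx.comm_conj {C : ∀ (F : Type) [Group F], Prop} {T : Type} [Group T]
    (X : Ctx C T) {Q : Type} [Group Q] (hQ : HypC C T Q)
    {b c : Fin 2 → T} (hb : Gen b) (hc : Gen c) (hbc : ¬ Eqv b c) (φ ψ : T →* Q)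
    (h : ∀ s t, Commute (φ s) (ψ t)) (y : Q) (s t : T) :
    Commute (φ s) (y * ψ t * y⁻¹) := by
  let a' : Q := φ (b 0) * ψ (c 0)
  let b' : Q := φ (b 1) * ψ (c 1)
  obtain ⟨S, L⟩ := hQ.three a' b' y
  let F := Subgroup.closure {a', b', y}
  have ha' : a' ∈ F := Subgroup.subset_closure (by simp)
  have hb' : b' ∈ F := Subgroup.subset_closure (by simp)
  have hy : y ∈ F := Subgroup.subset_closure (by simp)
  have hX : (![a', b'] : Fin 2 → Q) = fun j => φ (b j) * ψ (c j) := by
    funext j
    fin_cases j <;> rfl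
  have e1 : ∀ s, FreeGroup.lift ![a', b'] (ind X.dat b s) = φ s := by
    intro s
    rw [hX, lift_two_comm φ ψ h, ind_id X.dat hb, ind_not X.dat _ hbc, map_one, mul_one]
  have e2 : ∀ t, FreeGroup.lift ![a', b'] (ind X.dat c t) = ψ t := by
    intro t
    rw [hX, lift_two_comm φ ψ h, ind_id X.dat hc, ind_not X.dat _ fun h => hbc h.symm, map_one,
      one_mul]
  have hmem : ∀ w, FreeGroup.lift ![a', b'] w ∈ F := by
    intro w
    apply lift_mem
    intro j
    fin_cases j
    · exact ha'
    · exact hb'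
  let ψ' : T →* Q := (MulAut.conj y).toMonoidHom.comp ψ
  have e3 : ∀ t, ψ' t = y * ψ t * y⁻¹ := fun t => rfl
  rw [← e3]
  refine X.hom_commute hQ.two φ ψ' S L.cls ?_ ?_ ?_ s t
  · intro s x hx
    rw [← e1]
    exact L.norm _ (hmem _) x hx
  · intro t x hx
    refine L.norm _ ?_ x hx
    rw [e3, ← e2]
    exact mul_mem (mul_mem hy (hmem _)) (inv_mem hy)
  · intro s t
    have h1 := L.laws _ (law4 X.dat hbc s t) ![a', b', y] (by
      intro i
      fin_cases i
      · exact ha'
      · exact hb'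
      · exact hy)
    simp only [map_mul, map_inv, lift_up, FreeGroup.lift_apply_of] at h1
    have e4 : (![(![a', b', y] : Fin 3 → Q) 0, (![a', b', y] : Fin 3 → Q) 1] : Fin 2 → Q) =
        ![a', b'] := rfl
    rw [e4, e1, e2] at h1
    exact h1

/-- the decomposition of `T` with respect to an element `h` -/
theorem Ctx.decomp {C : ∀ (F : Type) [Group F], Prop} {T : Type} [Group T]
    [Fintype T] (X : Ctx C T) {Q : Type} [Group Q] (hQ : HypC C T Q) {b : Fin 2 → T} (hb : Gen b) (φ : T →* Q) (h : Q) :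
    ∃ ψ : T → (T →* Q), (∀ g g', g ≠ g' → ∀ s t, Commute (ψ g s) (ψ g' t)) ∧
      (∀ s, φ s = (Finset.univ.toList.map fun g => ψ g s).prod) ∧
      ∀ g s, h * ψ g s * h⁻¹ = ψ g (g * s * g⁻¹) := by
  classical
  let u : Fin 3 → Q := ![φ (b 0), φ (b 1), h]
  obtain ⟨S, L⟩ := hQ.three (φ (b 0)) (φ (b 1)) h
  let F := Subgroup.closure {φ (b 0), φ (b 1), h}
  have hu : ∀ i, u i ∈ F := by
    intro i
    fin_cases i
    · exact Subgroup.subset_closure (by simp [u])
    · exact Subgroup.subset_closure (by simp [u])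
    · exact Subgroup.subset_closure (by simp [u])
  have hh : h ∈ F := hu 2
  let ψ : T → (T →* Q) := fun g => chi X.dat hQ.two b
    (fun j => FreeGroup.lift u ((![ind X.dat (tr b g) (b 0), ind X.dat (tr b g) (b 1)] :
      Fin 2 → FreeGroup (Fin 3)) j))
  have eψ : ∀ g s, ψ g s = FreeGroup.lift u (Psi X.dat b g s) := by
    intro g s
    unfold Psi
    rw [← lift_comp]
    rfl
  have hmem : ∀ g s, ψ g s ∈ F := by
    intro g s
    rw [eψ]
    exact lift_mem F u hu _
  have hcomm : ∀ g g', g ≠ g' → ∀ s t, Commute (ψ g s) (ψ g' t) := by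
    intro g g' hg s t
    refine X.hom_commute hQ.two (ψ g) (ψ g') S L.cls (fun t => L.norm _ (hmem g t))
      (fun t => L.norm _ (hmem g' t)) ?_ s t
    intro s t
    have := L.laws _ (law1 X.dat hb hg s t) u hu
    simp only [map_mul, map_inv] at this
    rw [eψ, eψ]
    exact this
  let Ψ : T →* Q := (MonoidHom.noncommPiCoprod ψ (fun g g' hg s t => hcomm g g' hg s t)).comp
    (MonoidHom.pi fun _ => MonoidHom.id T)
  have hΨ : ∀ s, Ψ s = (Finset.univ.toList.map fun g => ψ g s).prod := by
    intro s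
    have h1 : Ψ s = Finset.univ.noncommProd (fun g => ψ g s)
      (fun g _ g' _ hg => hcomm g g' hg s s) := rfl
    have h2 := Finset.noncommProd_toFinset (Finset.univ.toList) (fun g => ψ g s)
      (fun g _ g' _ hg => hcomm g g' hg s s) (Finset.nodup_toList _)
    rw [h1, ← h2]
    congr 1
    simp
  refine ⟨ψ, hcomm, fun s => ?_, fun g s => ?_⟩
  · rw [← hΨ]
    refine X.hom_unique hQ.two φ Ψ S L.cls ?_ ?_ ?_ s
    · intro t x hx
      refine L.norm _ ?_ x hx
      obtain ⟨w, rfl⟩ := hb t
      rw [← lift_comp]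
      apply lift_mem
      intro j
      fin_cases j
      · exact hu 0
      · exact hu 1
    · intro t x hx
      refine L.norm _ ?_ x hx
      rw [hΨ]
      apply Subgroup.list_prod_mem
      intro y hy
      obtain ⟨g, _, rfl⟩ := List.mem_map.1 hy
      exact hmem g t
    · intro t
      have h1 := L.eq (law2 X.dat hb t) u hu
      rw [lift_up, map_list_prod, List.map_map] at h1
      have e1 : FreeGroup.lift ![u 0, u 1] (ind X.dat b t) = φ t := by
        have : (![u 0, u 1] : Fin 2 → Q) = fun j => φ (b j) := by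
          funext j
          fin_cases j <;> rfl
        rw [this, lift_comp, ind_id X.dat hb]
      have e2 : ((FreeGroup.lift u) ∘ fun g => Psi X.dat b g t) = fun g => ψ g t := by
        funext g
        exact (eψ g t).symm
      rw [e1, e2, ← hΨ] at h1
      exact h1
  · let φ1 : T →* Q := (MulAut.conj h).toMonoidHom.comp (ψ g)
    let φ2 : T →* Q := (ψ g).comp (MulAut.conj g).toMonoidHom
    change φ1 s = φ2 s
    refine X.hom_unique hQ.two φ1 φ2 S L.cls ?_ ?_ ?_ s
    · intro t x hx
      exact L.norm _ (mul_mem (mul_mem hh (hmem g t)) (inv_mem hh)) x hx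
    · intro t x hx
      exact L.norm _ (hmem g _) x hx
    · intro t
      have h1 := L.eq (law3 X.dat hb g t) u hu
      simp only [map_mul, map_inv, FreeGroup.lift_apply_of] at h1
      rw [← eψ, ← eψ] at h1
      exact h1

section

variable {C : ∀ (F : Type) [Group F], Prop} {T : Type} [Group T] [Fintype T] (X : Ctx C T)
  {Q : Type} [Group Q] (hQ : HypC C T Q)
  (hab : ∀ N : Subgroup Q, N.Normal → (∀ x ∈ N, ∀ y ∈ N, x * y = y * x) → N = ⊥)
  {b c : Fin 2 → T} (hb : Gen b) (hc : Gen c) (hbc : ¬ Eqv b c) (φ : T →* Q)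

include X hQ hab hb hc hbc in
/-- one step -/
theorem Ctx.step (h : Q) (K : Subgroup Q) (hK : Finite K)
    (hKM : K ≤ Subgroup.normalClosure (Set.range φ)) (hφ : ∀ s, φ s ∈ K) :
    ∃ K' : Subgroup Q, Finite K' ∧ K' ≤ Subgroup.normalClosure (Set.range φ) ∧ K ≤ K' ∧
      ∀ s, h * φ s * h⁻¹ ∈ K' := by
  classical
  obtain ⟨ψ, h1, h2, h3⟩ := X.decomp hQ hb φ h
  let N : T → Subgroup Q := fun g => Subgroup.normalClosure (Set.range (ψ g))
  have hNn : ∀ g, (N g).Normal := fun g => Subgroup.normalClosure_normal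
  have hψN : ∀ g s, ψ g s ∈ N g := fun g s => Subgroup.subset_normalClosure ⟨s, rfl⟩
  have hcomm : Pairwise fun i j : T => ∀ x y : Q, x ∈ N i → y ∈ N j → Commute x y := by
    intro g g' hg x y hx hy
    exact nc_commute (ψ g) (ψ g') (fun y s t =>
      X.comm_conj hQ hb hc hbc (ψ g) (ψ g') (h1 g g' hg) y s t) x hx y hy
  let Φ : (∀ g, N g) →* Q := Subgroup.noncommPiCoprod hcomm
  have hΦs : ∀ g (y : N g), Φ (Pi.mulSingle g y) = y := fun g y =>
    Subgroup.noncommPiCoprod_mulSingle g y
  -- injectivity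
  have hinj : Function.Injective Φ := by
    rw [injective_iff_map_eq_one]
    intro x hx
    funext g
    have hZ : N g ⊓ Subgroup.centralizer (N g : Set Q) = ⊥ := by
      have := hNn g
      refine hab _ inferInstance ?_
      intro a ha a' ha'
      exact (Subgroup.mem_centralizer_iff.1 ha'.2 a ha.1)
    have h4 : (x g : Q) ∈ N g ⊓ Subgroup.centralizer (N g : Set Q) := by
      refine ⟨(x g).2, Subgroup.mem_centralizer_iff.2 fun y hy => ?_⟩
      have e1 := congrArg Φ (conj_mulSingle x g (⟨y, hy⟩ : N g))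
      rw [hΦs, map_mul, map_mul, map_inv, hx, hΦs, inv_one, mul_one, one_mul] at e1
      have e2 : y = (x g : Q) * y * (x g : Q)⁻¹ := e1
      rw [eq_mul_inv_iff_mul_eq] at e2
      exact e2
    rw [hZ, Subgroup.mem_bot] at h4
    exact Subtype.ext h4
  let xs : T → (∀ g, N g) := fun s g => ⟨ψ g s, hψN g s⟩
  have hxs : ∀ s, Φ (xs s) = φ s := by
    intro s
    rw [h2 s]
    exact list_eq_npc N hcomm (xs s)
  have hrange : Φ.range = Subgroup.normalClosure (Set.range φ) := by
    apply le_antisymm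
    · change (Subgroup.noncommPiCoprod hcomm).range ≤ _
      rw [Subgroup.noncommPiCoprod_range]
      apply iSup_le
      intro g
      apply Subgroup.normalClosure_le_normal
      have hMn : (Subgroup.normalClosure (Set.range φ)).Normal := Subgroup.normalClosure_normal
      have hB : ((Subgroup.normalClosure (Set.range φ)).comap (ψ g)).Normal := inferInstance
      have := X.dat.simple
      have hBt : (Subgroup.normalClosure (Set.range φ)).comap (ψ g) = ⊤ := by
        rcases hB.eq_bot_or_eq_top with h | h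
        · exfalso
          apply X.dat.na
          intro t s
          have e1 := congrArg Φ (conj_mulSingle (xs t) g (⟨ψ g s, hψN g s⟩ : N g))
          rw [hΦs, map_mul, map_mul, map_inv, hxs, hΦs] at e1
          have e2 : φ t * ψ g s * (φ t)⁻¹ = ψ g t * ψ g s * (ψ g t)⁻¹ := e1
          have e3 : t * s * t⁻¹ * s⁻¹ ∈
              (Subgroup.normalClosure (Set.range φ)).comap (ψ g) := by
            rw [Subgroup.mem_comap, map_mul, map_mul, map_mul, map_inv, map_inv, ← e2]
            have e4 := mul_mem (Subgroup.subset_normalClosure (s := Set.range φ) ⟨t, rfl⟩)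
              (mem_nc_conj (Set.range φ) _ (⟨t⁻¹, rfl⟩ : φ t⁻¹ ∈ Set.range φ) (ψ g s))
            convert e4 using 1
            rw [map_inv]
            group
          rw [h, Subgroup.mem_bot] at e3
          exact eq_mul_of_mul_inv_eq (eq_of_mul_inv_eq_one e3)
        · exact h
      rintro _ ⟨s, rfl⟩
      have : s ∈ (Subgroup.normalClosure (Set.range φ)).comap (ψ g) := by
        rw [hBt]; trivial
      exact this
    · have hn : Φ.range.Normal := by
        change (Subgroup.noncommPiCoprod hcomm).range.Normal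
        rw [Subgroup.noncommPiCoprod_range]
        exact Subgroup.iSup_normal N
      apply Subgroup.normalClosure_le_normal
      rintro _ ⟨s, rfl⟩
      exact ⟨xs s, hxs s⟩
  -- the new subgroup
  let Z : ∀ g, Subgroup (N g) := fun g => (K.comap Φ).map (Pi.evalMonoidHom (fun g => N g) g)
  have hfc : (K.comap Φ : Set (∀ g, N g)).Finite := by
    have h5 : (K : Set Q).Finite := Set.toFinite _
    exact Set.Finite.preimage (f := Φ) hinj.injOn h5
  have hfZ : ∀ g, (Z g : Set (N g)).Finite := fun g => hfc.image _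
  have hfpi : (Subgroup.pi Set.univ Z : Set (∀ g, N g)).Finite := by
    rw [Subgroup.coe_pi]
    exact Set.Finite.pi' (fun g => hfZ g) |>.subset (fun x hx g => hx g (Set.mem_univ g))
  have hψK : ∀ g s, ψ g s ∈ (Subgroup.pi Set.univ Z).map Φ := by
    intro g s
    refine ⟨Pi.mulSingle g (⟨ψ g s, hψN g s⟩ : N g), ?_, hΦs _ _⟩
    intro g' _
    by_cases hg : g' = g
    · subst hg
      rw [Pi.mulSingle_eq_same]
      refine ⟨xs s, ?_, rfl⟩
      change Φ (xs s) ∈ K
      rw [hxs]
      exact hφ s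
    · rw [Pi.mulSingle_eq_of_ne hg]
      exact one_mem (Z g')
  refine ⟨(Subgroup.pi Set.univ Z).map Φ, ?_, ?_, ?_, ?_⟩
  · exact (hfpi.image Φ).to_subtype
  · rw [← hrange]
    exact Subgroup.map_le_range _ _
  · intro k hk
    have : k ∈ Φ.range := by rw [hrange]; exact hKM hk
    obtain ⟨x, rfl⟩ := this
    exact ⟨x, fun g _ => ⟨x, hk, rfl⟩, rfl⟩
  · intro s
    have e1 : h * φ s * h⁻¹ = (MulAut.conj h).toMonoidHom (φ s) := rfl
    rw [e1, h2 s, map_list_prod, List.map_map]
    apply Subgroup.list_prod_mem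
    intro y hy
    obtain ⟨g, _, rfl⟩ := List.mem_map.1 hy
    have e2 : ((MulAut.conj h).toMonoidHom ∘ fun g => ψ g s) g = h * ψ g s * h⁻¹ := rfl
    rw [e2, h3]
    exact hψK g _

include X hQ hab hb hc hbc in
theorem Ctx.exists_K (L : List Q) : ∃ K : Subgroup Q, Finite K ∧
    K ≤ Subgroup.normalClosure (Set.range φ) ∧ (∀ s, φ s ∈ K) ∧
      ∀ h ∈ L, ∀ s, h * φ s * h⁻¹ ∈ K := by
  induction L with
  | nil =>
    refine ⟨φ.range, (Set.finite_range φ).to_subtype, ?_, fun s => ⟨s, rfl⟩, by simp⟩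
    exact Subgroup.subset_normalClosure
  | cons h L ih =>
    obtain ⟨K, h1, h2, h3, h4⟩ := ih
    obtain ⟨K', k1, k2, k3, k4⟩ := X.step hQ hab hb hc hbc φ h K h1 h2 h3
    refine ⟨K', k1, k2, fun s => k3 (h3 s), ?_⟩
    intro h' hh'
    rcases List.mem_cons.1 hh' with rfl | hh'
    · exact k4
    · exact fun s => k3 (h4 h' hh' s)

include X hQ hab hb hc hbc in
/-- **Theorem E.** the normal closure of a subgroup `T` is locally finite -/
theorem Ctx.nc_lf (S : Set Q) (hS : S.Finite)
    (hSM : S ⊆ Subgroup.normalClosure (Set.range φ)) : Finite (Subgroup.closure S) := by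
  have h1 : ∃ L : List Q, ∀ K : Subgroup Q, (∀ h ∈ L, ∀ s, h * φ s * h⁻¹ ∈ K) → S ⊆ K := by
    induction S, hS using Set.Finite.induction_on with
    | empty => exact ⟨[], fun K _ => Set.empty_subset _⟩
    | @insert a S _ _ ih =>
      obtain ⟨L, hL⟩ := ih fun x hx => hSM (Set.mem_insert_of_mem _ hx)
      obtain ⟨L', hL'⟩ := nc_fin φ a (hSM (Set.mem_insert _ _))
      refine ⟨L ++ L', fun K hK x hx => ?_⟩
      rcases Set.mem_insert_iff.1 hx with rfl | hx
      · exact hL' K fun h hh => hK h (List.mem_append_right _ hh)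
      · exact hL K (fun h hh => hK h (List.mem_append_left _ hh)) hx
  obtain ⟨L, hL⟩ := h1
  obtain ⟨K, k1, _, _, k4⟩ := X.exists_K hQ hab hb hc hbc φ L
  have h2 : Subgroup.closure S ≤ K := by
    rw [Subgroup.closure_le]
    exact hL K k4
  exact Finite.of_injective _ (Subgroup.inclusion_injective h2)

end

end Pool.Agent.U110.BN
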