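import Pool.Agent.U110.BN.PD

set_option autoImplicit false

/-!
# Classes defined by simple sections
-/

namespace Pool.Agent.U110.BN

theorem exists_factor {A B V : Type*} [Group A] [Group B] [Group V] (p : A →* B)
    (hp : Function.Surjective p) (g : A →* V) (h : ∀ a, p a = 1 → g a = 1) :
    ∃ q : B →* V, ∀ a, q (p a) = g a :=
  ⟨p.liftOfSurjective hp ⟨g, fun a ha => h a ha⟩, fun a =>
    p.liftOfRightInverse_comp_apply _ _ _ a⟩

theorem finite_of_ker {A B : Type*} [Group A] [Group B] (f : A →* B) (hk : Finite f.ker)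
    (hB : Finite B) : Finite A := by
  have h1 : Finite (A ⧸ f.ker) := Finite.of_injective _ (QuotientGroup.kerLift_injective f)
  exact Finite.of_equiv _ (Subgroup.groupEquivQuotientProdSubgroup (s := f.ker)).symm

/-- `V` is a section of `F` -/
def Sec (V F : Type) [Group V] [Group F] : Prop :=
  ∃ (H : Subgroup F) (f : H →* V), Function.Surjective f

theorem Sec.refl (V : Type) [Group V] : Sec V V :=
  ⟨⊤, (Subgroup.topEquiv (G := V)).toMonoidHom, (Subgroup.topEquiv (G := V)).surjective⟩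

theorem Sec.of_sur {V F : Type} [Group V] [Group F] (f : F →* V) (hf : Function.Surjective f) :
    Sec V F :=
  ⟨⊤, f.comp (Subgroup.topEquiv (G := F)).toMonoidHom,
    hf.comp (Subgroup.topEquiv (G := F)).surjective⟩

theorem Sec.sub {V A F : Type} [Group V] [Group A] [Group F] (f : A →* F)
    (hf : Function.Injective f) (h : Sec V A) : Sec V F := by
  obtain ⟨H, g, hg⟩ := h
  exact ⟨H.map f, g.comp (H.equivMapOfInjective f hf).symm.toMonoidHom,
    hg.comp (H.equivMapOfInjective f hf).symm.surjective⟩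

theorem Sec.quo {V A F : Type} [Group V] [Group A] [Group F] (f : F →* A)
    (hf : Function.Surjective f) (h : Sec V A) : Sec V F := by
  obtain ⟨H, g, hg⟩ := h
  let j : H.comap f →* H :=
    { toFun := fun x => ⟨f x, x.2⟩
      map_one' := Subtype.ext (map_one f)
      map_mul' := fun x y => Subtype.ext (map_mul f _ _) }
  refine ⟨H.comap f, g.comp j, hg.comp ?_⟩
  rintro ⟨x, hx⟩
  obtain ⟨y, rfl⟩ := hf x
  exact ⟨⟨y, hx⟩, rfl⟩

theorem Sec.trans {U V F : Type} [Group U] [Group V] [Group F] (h : Sec U V) (h' : Sec V F) :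
    Sec U F := by
  obtain ⟨H, f, hf⟩ := h'
  exact Sec.sub H.subtype H.subtype_injective (Sec.quo f hf h)

theorem Sec.card {V F : Type} [Group V] [Group F] [Finite F] (h : Sec V F) :
    Nat.card V ≤ Nat.card F := by
  obtain ⟨H, f, hf⟩ := h
  exact (Nat.card_le_card_of_surjective f hf).trans
    (Nat.card_le_card_of_injective H.subtype H.subtype_injective)

/-- the class of finite groups whose nonabelian simple sections satisfy `P` -/
def XX (P : ∀ (V : Type) [Group V], Prop) : ∀ (F : Type) [Group F], Prop := fun F _ =>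
  Finite F ∧ ∀ (V : Type) [Group V], IsSimpleGroup V → (¬ ∀ a b : V, a * b = b * a) →
    Sec V F → P V

theorem xx_cls (P : ∀ (V : Type) [Group V], Prop) : Cls (XX P) where
  fin := fun F _ h => h.1
  sub := by
    intro A F _ _ f hf h
    have := h.1
    exact ⟨Finite.of_injective f hf, fun V _ h1 h2 h3 => h.2 V h1 h2 (h3.sub f hf)⟩
  quo := by
    intro F A _ _ f hf h
    have := h.1
    exact ⟨Finite.of_surjective f hf, fun V _ h1 h2 h3 => h.2 V h1 h2 (h3.quo f hf)⟩
  ext := by
    intro F A _ _ f hk hA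
    refine ⟨finite_of_ker f hk.1 hA.1, fun V _ h1 h2 h3 => ?_⟩
    obtain ⟨H, g, hg⟩ := h3
    have hN : ((f.ker.subgroupOf H).map g).Normal := Subgroup.Normal.map inferInstance g hg
    rcases hN.eq_bot_or_eq_top with h | h
    · refine hA.2 V h1 h2 ?_
      obtain ⟨q, hq⟩ := exists_factor (f.subgroupMap H) (f.subgroupMap_surjective H) g (by
        intro a ha
        have h4 : g a ∈ (f.ker.subgroupOf H).map g :=
          ⟨a, congrArg (fun z : H.map f => (z : A)) ha, rfl⟩
        rw [h] at h4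
        exact h4)
      refine ⟨H.map f, q, fun v => ?_⟩
      obtain ⟨a, rfl⟩ := hg v
      exact ⟨_, hq a⟩
    · refine hk.2 V h1 h2 ?_
      let j : H.subgroupOf f.ker →* H :=
        { toFun := fun x => ⟨x.1.1, x.2⟩
          map_one' := rfl
          map_mul' := fun _ _ => rfl }
      refine ⟨H.subgroupOf f.ker, g.comp j, fun v => ?_⟩
      have hv : v ∈ (f.ker.subgroupOf H).map g := by rw [h]; trivial
      obtain ⟨a, ha, rfl⟩ := hv
      exact ⟨⟨⟨a.1, ha⟩, a.2⟩, rfl⟩
  sol := by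
    intro F _ hf hs
    refine ⟨hf, fun V _ h1 h2 h3 => ?_⟩
    exfalso
    obtain ⟨H, f, hf⟩ := h3
    have := Group.isSolvable_of_surjective hf
    exact h2 (IsSimpleGroup.comm_iff_isSolvable.2 this)

/-- the radical of a class -/
theorem Cls.exists_rad {C : ∀ (F : Type) [Group F], Prop} (K : Cls C) (F : Type) [Group F]
    [Finite F] : ∃ R : Subgroup F, R.Normal ∧ C R ∧ ∀ N : Subgroup F, N.Normal → C N → N ≤ R := by
  classical
  have h0 : ∃ k, ∃ R : Subgroup F, R.Normal ∧ C R ∧ Nat.card F - Nat.card R = k :=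
    ⟨_, ⊥, inferInstance, K.sol _ inferInstance inferInstance, rfl⟩
  obtain ⟨R, h1, h2, h3⟩ := Nat.find_spec h0
  refine ⟨R, h1, h2, fun N hN hCN => ?_⟩
  have h4 : C ↥(N ⊔ R) := K.sup N R hCN h2
  have h5 := Nat.find_min' h0 ⟨N ⊔ R, inferInstance, h4, rfl⟩
  rw [← h3] at h5
  have h6 : Nat.card ↥(N ⊔ R) ≤ Nat.card F :=
    Nat.card_le_card_of_injective _ (N ⊔ R).subtype_injective
  have h6' : Nat.card R ≤ Nat.card F := Nat.card_le_card_of_injective _ R.subtype_injective
  have h7 : R = N ⊔ R := Subgroup.eq_of_le_of_card_ge le_sup_right (by omega)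
  rw [h7]
  exact le_sup_left

/-- the quotient by the radical -/
theorem Cls.rad_quo {C : ∀ (F : Type) [Group F], Prop} (K : Cls C) {F : Type} [Group F]
    {R : Subgroup F} [R.Normal] (hR : C R) (hmax : ∀ N : Subgroup F, N.Normal → C N → N ≤ R)
    (N : Subgroup (F ⧸ R)) (hN : N.Normal) (hCN : C N) : N = ⊥ := by
  have h1 : C (N.comap (QuotientGroup.mk' R)) := by
    refine K.extS (QuotientGroup.mk' R) _ R hR ?_ fun x _ hx => (QuotientGroup.eq_one_iff x).1 hx
    exact K.ofSub (Subgroup.map_comap_le _ _) hCN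
  have h2 := hmax _ (hN.comap _) h1
  rw [eq_bot_iff]
  intro x hx
  obtain ⟨g, rfl⟩ := QuotientGroup.mk_surjective x
  rw [Subgroup.mem_bot]
  exact (QuotientGroup.eq_one_iff g).2 (h2 hx)

/-- the residual of a class -/
theorem Cls.exists_res {C : ∀ (F : Type) [Group F], Prop} (K : Cls C) (Y : Type) [Group Y]
    [Finite Y] : ∃ U : Subgroup Y, U.Normal ∧ (∃ (I : Type) (_ : Group I) (f : Y →* I), C I ∧
      ∀ y, f y = 1 → y ∈ U) ∧
      ∀ (I : Type) [Group I] (f : Y →* I), C f.range → U ≤ f.ker := by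
  classical
  have h0 : ∃ k, ∃ U : Subgroup Y, U.Normal ∧ (∃ (I : Type) (_ : Group I) (f : Y →* I), C I ∧
      ∀ y, f y = 1 → y ∈ U) ∧ Nat.card U = k :=
    ⟨_, ⊤, inferInstance, ⟨Unit, inferInstance, 1, K.sol _ inferInstance inferInstance,
      fun _ _ => trivial⟩, rfl⟩
  obtain ⟨U, h1, ⟨I, _, f, hI, hf⟩, h3⟩ := Nat.find_spec h0
  refine ⟨U, h1, ⟨I, inferInstance, f, hI, hf⟩, fun J _ g hJ => ?_⟩
  have h5 := Nat.find_min' h0 ⟨U ⊓ g.ker, inferInstance, ⟨I × g.range, inferInstance,
    f.prod g.rangeRestrict, K.prod hI hJ, fun y hy => ⟨hf y (congrArg Prod.fst hy), ?_⟩⟩, rfl⟩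
  · have h7 : U ⊓ g.ker = U := Subgroup.eq_of_le_of_card_ge inf_le_left (by omega)
    rw [← h7]
    exact inf_le_right
  · exact congrArg (fun z : g.range => (z : J)) (congrArg Prod.snd hy)

/-- a simple group and the class without it -/
structure Ctx2 (P : ∀ (V : Type) [Group V], Prop) (T : Type) [Group T] : Prop extends
    Ctx (XX P) T where
  bd : ∀ (V : Type) [Group V], P V → Nat.card V ≤ Nat.card T

/-- one more simple group -/
def Pp (P : ∀ (V : Type) [Group V], Prop) (T : Type) [Group T] : ∀ (V : Type) [Group V], Prop :=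
  fun V _ => P V ∨ Nonempty (V ≃* T)

theorem noT {P : ∀ (V : Type) [Group V], Prop} {T : Type} [Group T] {F : Type} [Group F]
    (h : XX (Pp P T) F) (hn : ¬ Sec T F) : XX P F := by
  refine ⟨h.1, fun V _ h1 h2 h3 => ?_⟩
  rcases h.2 V h1 h2 h3 with h4 | ⟨⟨e⟩⟩
  · exact h4
  · exact absurd ((Sec.of_sur e.toMonoidHom e.surjective).trans h3) hn

theorem simple_plus {P : ∀ (V : Type) [Group V], Prop} {T : Type} [Group T] (X : Ctx2 P T)
    {V : Type} [Group V] (h : XX (Pp P T) V) (hs : IsSimpleGroup V)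
    (hna : ¬ ∀ a b : V, a * b = b * a) (hne : ¬ Nonempty (V ≃* T)) : XX P V := by
  refine noT h fun hT => hne ?_
  have := h.1
  have h1 : Nat.card V ≤ Nat.card T := X.bd V ((h.2 V hs hna (Sec.refl V)).resolve_right hne)
  obtain ⟨H, f, hf⟩ := hT
  have h2 : Nat.card H ≤ Nat.card V := Nat.card_le_card_of_injective _ H.subtype_injective
  have h3 : Nat.card T ≤ Nat.card H := Nat.card_le_card_of_surjective f hf
  have h4 := hf.bijective_of_nat_card_le (by omega)
  have h5 : H = ⊤ := Subgroup.eq_top_of_card_eq H (by omega)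
  exact ⟨((MulEquiv.subgroupCongr h5).trans (Subgroup.topEquiv (G := V))).symm.trans
    (MulEquiv.ofBijective f h4)⟩

theorem Ctx2.pp {P : ∀ (V : Type) [Group V], Prop} {T : Type} [Group T] {F : Type} [Group F]
    (h : XX P F) : XX (Pp P T) F := ⟨h.1, fun V _ h1 h2 h3 => Or.inl (h.2 V h1 h2 h3)⟩

end Pool.Agent.U110.BN
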