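import Pool.Agent.U110.BN.PE
import Pool.Agent.U110.BN.K

set_option autoImplicit false

/-!
# Components of finite groups with trivial radical
-/

namespace Pool.Agent.U110.BN

/-- a component isomorphic to `T` -/
structure CompA {T : Type} [Group T] {A : Type*} [Group A] (φ : T →* A) : Prop where
  inj : Function.Injective φ
  dich : ∀ y, (∀ s t, Commute (φ s) (y * φ t * y⁻¹)) ∨ ∀ t, ∃ s, y * φ t * y⁻¹ = φ s

theorem CompA.conj {T : Type} [Group T] {A : Type*} [Group A] {φ : T →* A} (h : CompA φ) (y : A) :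
    CompA ((MulAut.conj y).toMonoidHom.comp φ) where
  inj := (MulAut.conj y).injective.comp h.inj
  dich := by
    intro z
    have e : ∀ t, ((MulAut.conj y).toMonoidHom.comp φ) t = y * φ t * y⁻¹ := fun t => rfl
    rcases h.dich (y⁻¹ * z * y) with h1 | h1
    · left
      intro s t
      have h2 := (h1 s t).eq
      rw [e, e]
      change y * φ s * y⁻¹ * (z * (y * φ t * y⁻¹) * z⁻¹) =
        z * (y * φ t * y⁻¹) * z⁻¹ * (y * φ s * y⁻¹)
      calc y * φ s * y⁻¹ * (z * (y * φ t * y⁻¹) * z⁻¹)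
          = y * (φ s * (y⁻¹ * z * y * φ t * (y⁻¹ * z * y)⁻¹)) * y⁻¹ := by group
        _ = y * ((y⁻¹ * z * y * φ t * (y⁻¹ * z * y)⁻¹) * φ s) * y⁻¹ := by rw [h2]
        _ = z * (y * φ t * y⁻¹) * z⁻¹ * (y * φ s * y⁻¹) := by group
    · right
      intro t
      obtain ⟨s, hs⟩ := h1 t
      refine ⟨s, ?_⟩
      rw [e, e, ← hs]
      group

/-- the moving case -/
theorem move_case {T : Type} [Group T] (D : Dat T) {i t0 : T} (hi : i * i = 1)
    (ht0 : Subgroup.closure {i, t0} = ⊤) {A : Type*} [Group A] (φ : T →* A) (g : A)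
    (h : ∀ s t, Commute (φ s) (g * φ t * g⁻¹)) :
    ∃ y, ∀ t, φ t ∈ Subgroup.closure {g, y} := by
  have := D.simple
  have h0 : ∀ t s, Commute (g * φ t * g⁻¹) (φ s) := fun t s => (h s t).symm
  have h' : ∀ s t, Commute (φ s) (g⁻¹ * φ t * g) := by
    intro s t
    have h1 := (h0 s t).eq
    change φ s * (g⁻¹ * φ t * g) = g⁻¹ * φ t * g * φ s
    calc φ s * (g⁻¹ * φ t * g) = g⁻¹ * ((g * φ s * g⁻¹) * φ t) * g := by group
      _ = g⁻¹ * (φ t * (g * φ s * g⁻¹)) * g := by rw [h1]
      _ = g⁻¹ * φ t * g * φ s := by group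
  obtain ⟨y, hy⟩ : ∃ y, y = φ i * (g⁻¹ * φ t0 * g) := ⟨_, rfl⟩
  refine ⟨y, ?_⟩
  let E := Subgroup.closure {g, y}
  have mg : g ∈ E := Subgroup.subset_closure (by simp)
  have my : y ∈ E := Subgroup.subset_closure (by simp)
  have a1 : Act φ y i := by
    have h1 : Act φ (g⁻¹ * φ t0 * g) 1 := by
      intro x
      rw [← (h' x t0).eq, mul_inv_cancel_right, one_mul, inv_one, mul_one]
    have := (act_self (χ := φ) i).mul h1
    rwa [mul_one, ← hy] at this
  have a2 : Act φ (g * y * g⁻¹) t0 := by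
    have h1 : Act φ (g * φ i * g⁻¹) 1 := by
      intro x
      rw [← (h x i).eq, mul_inv_cancel_right, one_mul, inv_one, mul_one]
    have h2 := h1.mul (act_self (χ := φ) t0)
    have e : g * φ i * g⁻¹ * φ t0 = g * y * g⁻¹ := by
      rw [hy]
      group
    rwa [e, one_mul] at h2
  have hBn : (E.comap φ).Normal := by
    rw [← Subgroup.normalizer_eq_top_iff, eq_top_iff, ← ht0, Subgroup.closure_le]
    intro x hx
    rcases hx with hx | hx
    · rw [hx]
      exact act_normalizer a1 E my
    · rw [Set.mem_singleton_iff] at hx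
      rw [hx]
      exact act_normalizer a2 E (mul_mem (mul_mem mg my) (inv_mem mg))
  have hsq : t0 * t0 ∈ E.comap φ := by
    have h1 : φ (t0 * t0) = g * (y * y) * g⁻¹ := by
      have h2 := (h' i t0).eq
      have h3 : φ i * φ i = 1 := by rw [← map_mul, hi, map_one]
      have h4 : y * y = g⁻¹ * φ (t0 * t0) * g := by
        calc y * y = φ i * ((g⁻¹ * φ t0 * g) * φ i) * (g⁻¹ * φ t0 * g) := by
              rw [hy]
              group
          _ = φ i * (φ i * (g⁻¹ * φ t0 * g)) * (g⁻¹ * φ t0 * g) := by rw [h2]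
          _ = (φ i * φ i) * (g⁻¹ * (φ t0 * φ t0) * g) := by group
          _ = g⁻¹ * φ (t0 * t0) * g := by rw [h3, one_mul, map_mul]
      rw [h4]
      group
    rw [Subgroup.mem_comap, h1]
    exact mul_mem (mul_mem mg (mul_mem my my)) (inv_mem mg)
  rcases hBn.eq_bot_or_eq_top with h1 | h1
  · rw [h1, Subgroup.mem_bot] at hsq
    exact absurd hsq (sq_ne_one D hi ht0)
  · intro t
    have : t ∈ E.comap φ := by rw [h1]; trivial
    exact this

/-- the automorphism -/
theorem exists_aut {T : Type} [Group T] (D : Dat T) {A : Type*} [Group A] {φ : T →* A}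
    (hφ : Function.Injective φ) (g : A) (h : ∀ t, ∃ s, g * φ t * g⁻¹ = φ s) :
    ∃ α : T ≃* T, ∀ t, g * φ t * g⁻¹ = φ (α t) := by
  have := D.fin
  choose α hα using h
  have hαm : ∀ s t, α (s * t) = α s * α t := by
    intro s t
    apply hφ
    rw [← hα, map_mul, map_mul, ← hα, ← hα]
    group
  have hαi : Function.Injective α := by
    intro s t hst
    apply hφ
    have h1 := hα s
    rw [hst, ← hα t] at h1
    have h2 := mul_right_cancel h1
    exact mul_left_cancel h2
  exact ⟨MulEquiv.mk' (Equiv.ofBijective α (Finite.injective_iff_bijective.1 hαi)) hαm, hα⟩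

section ctx

variable {C : ∀ (F : Type) [Group F], Prop} {T : Type} [Group T] (X : Ctx C T)

include X

theorem Ctx.move {A : Type*} [Group A] (φ : T →* A) (g : A)
    (h : ∀ s t, Commute (φ s) (g * φ t * g⁻¹)) :
    ∃ y, ∀ t, φ t ∈ Subgroup.closure {g, y} := by
  obtain ⟨i, j, hi, hi1, -⟩ := X.four
  obtain ⟨t0, ht0⟩ := X.gen i hi1
  exact move_case X.dat hi ht0 φ g h

theorem Ctx.stay {A : Type*} [Group A] (φ : T →* A) (g : A) (α : T ≃* T)
    (hα : ∀ t, g * φ t * g⁻¹ = φ (α t)) (h : ∃ t, α t ≠ t) :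
    ∃ y, ∀ t, φ t ∈ Subgroup.closure {g, y} := by
  obtain ⟨y0, hy0⟩ := X.good α h
  refine ⟨φ y0, ?_⟩
  let E := Subgroup.closure {g, φ y0}
  have mg : g ∈ E := Subgroup.subset_closure (by simp)
  have my : φ y0 ∈ E := Subgroup.subset_closure (by simp)
  have hB := hy0 (E.comap φ) my (by
    intro x hx
    rw [Subgroup.mem_comap, ← hα]
    exact mul_mem (mul_mem mg hx) (inv_mem mg))
  intro t
  have : t ∈ E.comap φ := by rw [hB]; trivial
  exact this

end ctx

section comp

variable {P : ∀ (V : Type) [Group V], Prop} {T : Type} [Group T] (X : Ctx2 P T) {A : Type}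
  [Group A] (hA : XX (Pp P T) A) (hrad : ∀ N : Subgroup A, N.Normal → XX P N → N = ⊥)

include X hA hrad

/-- **Components exist.** -/
theorem exists_comp (N : Subgroup A) (hN : N.Normal) (hne : N ≠ ⊥) :
    ∃ φ : T →* A, CompA φ ∧ ∀ t, φ t ∈ N := by
  have := hA.1
  obtain ⟨M, hMN, hM⟩ := exists_MinN ⊤ N inferInstance le_top hne
    fun s _ v hv => hN.conj_mem v hv s
  have hMn : M.Normal := ⟨fun m hm g => hM.norm g trivial m hm⟩
  have hMC : ¬ XX P M := fun h => hM.ne (hrad M hMn h)
  have hMna : ¬ ∀ a ∈ M, ∀ b ∈ M, a * b = b * a := by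
    intro h
    apply hMC
    refine (xx_cls P).sol _ inferInstance (Group.isSolvable_of_comm ?_)
    intro a b
    exact Subtype.ext (h a a.2 b b.2)
  obtain ⟨V, _, hV⟩ := exists_MinN M M inferInstance le_rfl hM.ne
    fun s hs v hv => mul_mem (mul_mem hs hv) (inv_mem hs)
  have hY : ∀ y : A, ∀ s, y * s * y⁻¹ ∈ M ↔ s ∈ M := by
    intro y s
    refine ⟨fun h => ?_, fun h => hMn.conj_mem s h y⟩
    have h1 := hMn.conj_mem _ h y⁻¹
    convert h1 using 1
    group
  have hcM : ∀ y, MinN M (cj y V) := fun y => hV.conj y (hY y)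
  have hle : ∀ y, cj y V ≤ ⨆ y ∈ (Set.univ : Set A), cj y V := fun y =>
    le_iSup₂_of_le y trivial le_rfl
  have hSup : (⨆ y ∈ (Set.univ : Set A), cj y V) = M := by
    refine hM.min _ (iSup₂_le fun y _ => (hcM y).le) ?_ ?_
    · intro h
      apply hV.ne
      have := hle 1
      rw [cj_one, h] at this
      exact le_bot_iff.1 this
    · intro s _
      have h5 : (⨆ y ∈ (Set.univ : Set A), cj y V) ≤
          (⨆ y ∈ (Set.univ : Set A), cj y V).comap (MulAut.conj s).toMonoidHom := by
        refine iSup₂_le fun y _ => ?_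
        intro x hx
        have h6 : s * x * s⁻¹ ∈ cj (s * y) V := by
          rw [cj_mul]
          exact conj_mem_cj hx
        exact hle _ h6
      exact fun x hx => h5 hx
  have hna := hV.na Set.univ (fun y _ => hY y) (le_of_eq hSup.symm) hMna
  have hsimple := hV.simple Set.univ (fun y _ => hY y) (le_of_eq hSup.symm)
  have hna' : ¬ ∀ a b : V, a * b = b * a := by
    intro h
    apply hna
    intro a ha b hb
    exact congrArg Subtype.val (h ⟨a, ha⟩ ⟨b, hb⟩)
  have K := xx_cls P
  have K' := xx_cls (Pp P T)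
  have hVC : XX (Pp P T) V := K'.sub _ _ V.subtype V.subtype_injective hA
  by_cases he : Nonempty (V ≃* T)
  · obtain ⟨e⟩ := he
    refine ⟨V.subtype.comp e.symm.toMonoidHom, ⟨V.subtype_injective.comp e.symm.injective, ?_⟩,
      fun t => hMN (hV.le (e.symm t).2)⟩
    intro y
    have e' : ∀ t, (V.subtype.comp e.symm.toMonoidHom) t = (e.symm t : A) := fun t => rfl
    rcases hV.dich (hcM y) with h | h
    · right
      intro t
      have h1 : y * (e.symm t : A) * y⁻¹ ∈ V :=
        (le_of_eq h.symm) (conj_mem_cj (e.symm t).2)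
      refine ⟨e ⟨_, h1⟩, ?_⟩
      rw [e', e', MulEquiv.symm_apply_apply]
    · left
      intro s t
      rw [e', e']
      exact h _ (e.symm s).2 _ (conj_mem_cj (e.symm t).2)
  · exfalso
    have hVP := simple_plus X hVC hsimple hna' he
    obtain ⟨R, hR, hCR, hRmax⟩ := K.exists_rad M
    apply hMC
    have h1 : M ≤ R.map M.subtype := by
      refine (le_of_eq hSup.symm).trans ?_
      refine iSup₂_le fun y _ => ?_
      have h2 : (cj y V).subgroupOf M ≤ R := by
        refine hRmax _ ⟨fun n hn g => ?_⟩ ?_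
        · rw [Subgroup.mem_subgroupOf] at hn ⊢
          exact (hcM y).norm g g.2 n hn
        · refine K.sub _ (cj y V) ({ toFun := fun x => ⟨x.1.1, x.2⟩
                                     map_one' := rfl
                                     map_mul' := fun _ _ => rfl } :
              (cj y V).subgroupOf M →* cj y V) ?_ (K.map _ hVP)
          intro a b hab
          exact Subtype.ext (Subtype.ext (congrArg (fun z : cj y V => (z : A)) hab))
      intro x hx
      have hxM := (hcM y).le hx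
      exact ⟨⟨x, hxM⟩, h2 hx, rfl⟩
    exact K.ofSub h1 (K.map _ hCR)

/-- only the identity centralises all components -/
theorem cent_comp (x : A) (hx : ∀ φ : T →* A, CompA φ → ∀ t, x * φ t = φ t * x) : x = 1 := by
  let S : Subgroup A :=
    { carrier := {x | ∀ φ : T →* A, CompA φ → ∀ t, x * φ t = φ t * x}
      one_mem' := fun φ _ t => by simp
      mul_mem' := by
        intro a b ha hb φ hφ t
        rw [mul_assoc, hb φ hφ, ← mul_assoc, ha φ hφ, mul_assoc]
      inv_mem' := by
        intro a ha φ hφ t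
        have h1 := ha φ hφ t
        rw [inv_mul_eq_iff_eq_mul, ← mul_assoc, h1, mul_assoc, mul_inv_cancel, mul_one] }
  have hSn : S.Normal := by
    refine ⟨fun a ha g φ hφ t => ?_⟩
    have h1 : a * (g⁻¹ * φ t * (g⁻¹)⁻¹) = g⁻¹ * φ t * (g⁻¹)⁻¹ * a := ha _ (hφ.conj g⁻¹) t
    calc g * a * g⁻¹ * φ t = g * (a * (g⁻¹ * φ t * (g⁻¹)⁻¹)) * g⁻¹ := by group
      _ = g * (g⁻¹ * φ t * (g⁻¹)⁻¹ * a) * g⁻¹ := by rw [h1]
      _ = φ t * (g * a * g⁻¹) := by group
  by_contra hx1
  have hne : S ≠ ⊥ := by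
    intro h
    apply hx1
    have : x ∈ S := hx
    rw [h] at this
    exact this
  obtain ⟨φ, hφ, hφS⟩ := exists_comp X hA hrad S hSn hne
  apply X.dat.na
  intro a b
  apply hφ.inj
  rw [map_mul, map_mul]
  exact hφS a φ hφ b

/-- **Detection of the radical.** -/
theorem det_R (g : A) (hg : ∀ y, XX P (Subgroup.closure {g, y})) : g = 1 := by
  refine cent_comp X hA hrad g fun φ hφ t => ?_
  have key : ¬ ∃ y, ∀ t, φ t ∈ Subgroup.closure {g, y} := by
    rintro ⟨y, hy⟩
    apply X.dat.na
    intro a b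
    apply hφ.inj
    have h := X.hom_trivial_sub (hg y) φ hy
    rw [h, h]
  rcases hφ.dich g with h | h
  · exact absurd (X.move φ g h) key
  · obtain ⟨α, hα⟩ := exists_aut X.dat hφ.inj g h
    by_cases h1 : ∃ t, α t ≠ t
    · exact absurd (X.stay φ g α hα h1) key
    · push Not at h1
      have h2 := hα t
      rw [h1, mul_inv_eq_iff_eq_mul] at h2
      exact h2

end comp

end Pool.Agent.U110.BN
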