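import Pool.Agent.U110.BN.PF

set_option autoImplicit false

/-!
# The middle part of finite groups
-/

namespace Pool.Agent.U110.BN

/-- `S ≤ K ≤ F`, `S` in `C`, and `K / S` satisfies the laws of `T` -/
structure MK (C : ∀ (F : Type) [Group F], Prop) (T : Type) [Group T] {A : Type} [Group A]
    (F S K : Subgroup A) : Prop where
  le : S ≤ K
  kle : K ≤ F
  cls : C S
  normS : ∀ f ∈ F, ∀ s ∈ S, f * s * f⁻¹ ∈ S
  normK : ∀ f ∈ F, ∀ k ∈ K, f * k * f⁻¹ ∈ K
  laws : ∀ w : FreeGroup ℕ, (∀ v : ℕ → T, FreeGroup.lift v w = 1) →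
    ∀ u : ℕ → A, (∀ i, u i ∈ K) → FreeGroup.lift u w ∈ S

/-- `g` is in the middle of `F` -/
def Kq (C : ∀ (F : Type) [Group F], Prop) (T : Type) [Group T] {A : Type} [Group A]
    (F : Subgroup A) (g : A) : Prop := ∃ S K : Subgroup A, MK C T F S K ∧ g ∈ K

section mk

variable {C : ∀ (F : Type) [Group F], Prop} (Kc : Cls C) {T : Type} [Group T]

include Kc

theorem MK.mono {A : Type} [Group A] {F F' S K : Subgroup A} (M : MK C T F S K) (h : F' ≤ F) :
    MK C T F' (S ⊓ F') (K ⊓ F') where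
  le := inf_le_inf_right _ M.le
  kle := inf_le_right
  cls := Kc.ofSub inf_le_left M.cls
  normS := fun f hf s hs => Subgroup.mem_inf.2
    ⟨M.normS f (h hf) s hs.1, F'.mul_mem (F'.mul_mem hf hs.2) (F'.inv_mem hf)⟩
  normK := fun f hf s hs => Subgroup.mem_inf.2
    ⟨M.normK f (h hf) s hs.1, F'.mul_mem (F'.mul_mem hf hs.2) (F'.inv_mem hf)⟩
  laws := fun w hw u hu => ⟨M.laws w hw u fun i => (hu i).1, lift_mem F' u (fun i => (hu i).2) w⟩

theorem MK.map {A B : Type} [Group A] [Group B] {F S K : Subgroup A} (M : MK C T F S K)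
    (f : A →* B) : MK C T (F.map f) (S.map f) (K.map f) where
  le := Subgroup.map_mono M.le
  kle := Subgroup.map_mono M.kle
  cls := Kc.map f M.cls
  normS := by
    rintro _ ⟨g, hg, rfl⟩ _ ⟨s, hs, rfl⟩
    exact ⟨g * s * g⁻¹, M.normS g hg s hs, by simp⟩
  normK := by
    rintro _ ⟨g, hg, rfl⟩ _ ⟨s, hs, rfl⟩
    exact ⟨g * s * g⁻¹, M.normK g hg s hs, by simp⟩
  laws := by
    intro w hw u hu
    choose u' hu' hu'' using hu
    have e1 : u = fun i => f (u' i) := by
      funext i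
      exact (hu'' i).symm
    rw [e1, lift_comp]
    exact ⟨_, M.laws w hw u' hu', rfl⟩

theorem MK.comap {A B : Type} [Group A] [Group B] (f : A →* B) (hf : Function.Injective f)
    {F : Subgroup A} {S K : Subgroup B} (M : MK C T (F.map f) S K) :
    MK C T F (S.comap f) (K.comap f) where
  le := Subgroup.comap_mono M.le
  kle := by
    intro x hx
    obtain ⟨y, hy, e⟩ := M.kle hx
    rw [← hf e]
    exact hy
  cls := Kc.comap f hf M.cls
  normS := by
    intro g hg s hs
    rw [Subgroup.mem_comap] at hs ⊢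
    rw [map_mul, map_mul, map_inv]
    exact M.normS _ ⟨g, hg, rfl⟩ _ hs
  normK := by
    intro g hg s hs
    rw [Subgroup.mem_comap] at hs ⊢
    rw [map_mul, map_mul, map_inv]
    exact M.normK _ ⟨g, hg, rfl⟩ _ hs
  laws := by
    intro w hw u hu
    rw [Subgroup.mem_comap, ← lift_comp]
    exact M.laws w hw _ hu

theorem Kq.mono {A : Type} [Group A] {F F' : Subgroup A} {g : A} (h : Kq C T F g) (hle : F' ≤ F)
    (hg : g ∈ F') : Kq C T F' g := by
  obtain ⟨S, K, M, hk⟩ := h
  exact ⟨_, _, M.mono Kc hle, hk, hg⟩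

theorem Kq.map {A B : Type} [Group A] [Group B] {F : Subgroup A} {g : A} (h : Kq C T F g)
    (f : A →* B) : Kq C T (F.map f) (f g) := by
  obtain ⟨S, K, M, hk⟩ := h
  exact ⟨_, _, M.map Kc f, ⟨g, hk, rfl⟩⟩

theorem Kq.comap {A B : Type} [Group A] [Group B] (f : A →* B) (hf : Function.Injective f)
    {F : Subgroup A} {g : A} (h : Kq C T (F.map f) (f g)) : Kq C T F g := by
  obtain ⟨S, K, M, hk⟩ := h
  exact ⟨_, _, M.comap Kc f hf, hk⟩

theorem Kq.tr {A B : Type} [Group A] [Group B] (f : A →* B) (hf : Function.Injective f)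
    (g x : A) (h : Kq C T (Subgroup.closure {f g, f x}) (f g)) :
    Kq C T (Subgroup.closure {g, x}) g := by
  apply Kq.comap Kc f hf
  rwa [MonoidHom.map_closure, Set.image_pair]

end mk

theorem Kq.use {C : ∀ (F : Type) [Group F], Prop} {T : Type} [Group T] (X : Ctx C T) {A : Type}
    [Group A] {F : Subgroup A} {g : A} (h : Kq C T F g) (φ : T →* A)
    (hφ : Function.Injective φ) (hF : ∀ t, φ t ∈ F)
    (hc : ∀ K : Subgroup A, g ∈ K → (∀ t, ∀ k ∈ K, φ t * k * (φ t)⁻¹ ∈ K) →
      ∃ t, t ≠ 1 ∧ φ t ∈ K) :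
    ∃ (H : Type) (_ : Group H), Laws (Fin 3) T H ∧ ∃ (K : Subgroup A) (f : K →* H)
      (_ : g ∈ K) (hK : ∀ t, φ t ∈ K), ∃ t, f ⟨φ t, hK t⟩ ≠ 1 := by
  obtain ⟨S, K, M, hgK⟩ := h
  have := X.dat.simple
  have hBn : (K.comap φ).Normal := by
    refine ⟨fun t ht s => ?_⟩
    rw [Subgroup.mem_comap] at ht ⊢
    rw [map_mul, map_mul, map_inv]
    exact M.normK _ (hF s) _ ht
  have hK : ∀ t, φ t ∈ K := by
    obtain ⟨t0, h0, h1⟩ := hc K hgK fun t k hk => M.normK _ (hF t) k hk
    rcases hBn.eq_bot_or_eq_top with hb | hb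
    · exfalso
      apply h0
      have : t0 ∈ K.comap φ := h1
      rw [hb] at this
      exact this
    · intro t
      have : t ∈ K.comap φ := by rw [hb]; trivial
      exact this
  have hSn : (S.subgroupOf K).Normal := by
    refine ⟨fun n hn g => ?_⟩
    rw [Subgroup.mem_subgroupOf] at hn ⊢
    exact M.normS _ (M.kle g.2) _ hn
  refine ⟨K ⧸ S.subgroupOf K, inferInstance, ?_, K, QuotientGroup.mk' (S.subgroupOf K), hgK,
    hK, ?_⟩
  · have hall : AllLaws T (K ⧸ S.subgroupOf K) := by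
      intro w hw u
      choose u' hu' using fun i => QuotientGroup.mk'_surjective (S.subgroupOf K) (u i)
      have e1 : u = fun i => QuotientGroup.mk' (S.subgroupOf K) (u' i) := by
        funext i
        exact (hu' i).symm
      rw [e1, lift_comp]
      refine (QuotientGroup.eq_one_iff _).2 ?_
      rw [Subgroup.mem_subgroupOf]
      have h1 := M.laws w hw (fun i => K.subtype (u' i)) (fun i => (u' i).2)
      rw [lift_comp] at h1
      exact h1
    exact hall.fin (Fin 3)
  · by_contra hcon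
    push Not at hcon
    apply X.dat.na
    intro a b
    apply hφ
    have h1 : ∀ t, φ t ∈ S := by
      intro t
      exact (QuotientGroup.eq_one_iff (N := S.subgroupOf K) _).1 (hcon t)
    rw [X.hom_trivial_sub M.cls φ h1, X.hom_trivial_sub M.cls φ h1]

/-- **Detection of the middle.** -/
theorem det_K {C : ∀ (F : Type) [Group F], Prop} {T : Type} [Group T] (X : Ctx C T) {A : Type}
    [Group A] (φ : T →* A) (hφ : CompA φ) (g : A)
    (hg : ∀ y, Kq C T (Subgroup.closure {g, y}) g) : ∃ r, Act φ g r := by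
  obtain ⟨b, _, hb, _, _⟩ := X.exists_pairs
  rcases hφ.dich g with h | h
  · exfalso
    obtain ⟨y, hy⟩ := X.move φ g h
    obtain ⟨H, _, hl, K, f, hgK, hK, t, ht⟩ := (hg y).use X φ hφ.inj hy (by
      intro K hgK hn
      have hna := X.dat.na
      push Not at hna
      obtain ⟨s, t, hst⟩ := hna
      refine ⟨s * t⁻¹ * s⁻¹ * t, ?_, ?_⟩
      · intro h0
        apply hst
        have h1 : s * t⁻¹ = t⁻¹ * s := by
          calc s * t⁻¹ = (s * t⁻¹ * s⁻¹ * t) * t⁻¹ * s := by group
            _ = t⁻¹ * s := by rw [h0, one_mul]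
        calc s * t = t * (t⁻¹ * s) * t := by group
          _ = t * (s * t⁻¹) * t := by rw [h1]
          _ = t * s := by group
      · obtain ⟨c, hc⟩ : ∃ c, c = g * φ t * g⁻¹ := ⟨_, rfl⟩
        have hcc : ∀ r, φ r * c = c * φ r := fun r => by
          rw [hc]
          exact (h r t).eq
        have hw : c * (φ t)⁻¹ ∈ K := by
          have := mul_mem hgK (hn t _ (inv_mem hgK))
          rw [hc]
          convert this using 1
          group
        have hw2 := mul_mem (hn s _ hw) (inv_mem hw)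
        have e : φ (s * t⁻¹ * s⁻¹ * t) = φ s * (c * (φ t)⁻¹) * (φ s)⁻¹ * (c * (φ t)⁻¹)⁻¹ := by
          calc φ (s * t⁻¹ * s⁻¹ * t) = φ (s * t⁻¹ * s⁻¹ * t) * c * c⁻¹ := by group
            _ = c * φ (s * t⁻¹ * s⁻¹ * t) * c⁻¹ := by rw [hcc]
            _ = c * φ s * (φ t)⁻¹ * (φ s)⁻¹ * φ t * c⁻¹ := by
              simp only [map_mul, map_inv]
              group
            _ = φ s * c * (φ t)⁻¹ * (φ s)⁻¹ * φ t * c⁻¹ := by rw [hcc]
            _ = _ := by group
        rw [e]
        exact hw2)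
    apply ht
    refine no_perm X.dat hb hl (f.comp (φ.codRestrict K hK)) (f ⟨g, hgK⟩) ?_ t
    intro s t
    have h5 : (φ.codRestrict K hK) s * (⟨g, hgK⟩ * (φ.codRestrict K hK) t * ⟨g, hgK⟩⁻¹) =
        (⟨g, hgK⟩ * (φ.codRestrict K hK) t * ⟨g, hgK⟩⁻¹) * (φ.codRestrict K hK) s :=
      Subtype.ext (h s t).eq
    have h6 := congrArg f h5
    simp only [map_mul, map_inv] at h6
    exact h6
  · obtain ⟨α, hα⟩ := exists_aut X.dat hφ.inj g h
    by_cases h1 : ∃ t, α t ≠ t
    · obtain ⟨y, hy⟩ := X.stay φ g α hα h1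
      obtain ⟨H, _, hl, K, f, hgK, hK, t, ht⟩ := (hg y).use X φ hφ.inj hy (by
        intro K hgK hn
        obtain ⟨t, ht⟩ := h1
        refine ⟨α t * t⁻¹, fun h0 => ht (mul_inv_eq_one.1 h0), ?_⟩
        have := mul_mem hgK (hn t _ (inv_mem hgK))
        rw [map_mul, map_inv, ← hα]
        convert this using 1
        group)
      obtain ⟨r, hr⟩ := inner_of X.dat hb hl (f.comp (φ.codRestrict K hK)) (f ⟨g, hgK⟩)
        ⟨t, ht⟩ α (by
          intro t
          have h5 : (⟨g, hgK⟩ : K) * (φ.codRestrict K hK) t * ⟨g, hgK⟩⁻¹ =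
              (φ.codRestrict K hK) (α t) := Subtype.ext (hα t)
          have h6 := congrArg f h5
          rw [map_mul, map_mul, map_inv] at h6
          exact h6)
      refine ⟨r, fun x => ?_⟩
      rw [hα, hr]
    · push Not at h1
      refine ⟨1, fun x => ?_⟩
      rw [hα, h1]
      simp

section subgroups

variable (T : Type) [Group T] (A : Type) [Group A]

/-- elements inducing inner automorphisms on all components -/
def KA : Subgroup A where
  carrier := {x | ∀ φ : T →* A, CompA φ → ∃ r, Act φ x r}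
  one_mem' := fun _ _ => ⟨1, act_one⟩
  mul_mem' := by
    intro x y hx hy φ hφ
    obtain ⟨r, hr⟩ := hx φ hφ
    obtain ⟨s, hs⟩ := hy φ hφ
    exact ⟨r * s, hr.mul hs⟩
  inv_mem' := by
    intro x hx φ hφ
    obtain ⟨r, hr⟩ := hx φ hφ
    exact ⟨r⁻¹, hr.inv⟩

/-- elements normalising all components -/
def NA : Subgroup A where
  carrier := {x | ∀ φ : T →* A, CompA φ → cj x φ.range = φ.range}
  one_mem' := fun _ _ => cj_one _
  mul_mem' := by
    intro x y hx hy φ hφ
    rw [cj_mul, hy φ hφ, hx φ hφ]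
  inv_mem' := by
    intro x hx φ hφ
    have h1 := cj_inv_cj x φ.range
    rwa [hx φ hφ] at h1

variable {T A}

theorem KA_normal : (KA T A).Normal := by
  refine ⟨fun x hx y φ hφ => ?_⟩
  obtain ⟨r, hr⟩ := hx _ (hφ.conj y⁻¹)
  exact ⟨r, act_conj hr⟩

theorem range_conj (φ : T →* A) (y : A) :
    ((MulAut.conj y).toMonoidHom.comp φ).range = cj y φ.range := by
  rw [MonoidHom.range_comp]
  rfl

theorem NA_normal : (NA T A).Normal := by
  refine ⟨fun x hx y φ hφ => ?_⟩
  have h1 := hx _ (hφ.conj y⁻¹)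
  rw [range_conj] at h1
  rw [cj_mul, cj_mul, h1, cj_cj_inv]

theorem cj_range (D : Dat T) {φ : T →* A} (hφ : Function.Injective φ) {y : A}
    (h : ∀ t, ∃ s, y * φ t * y⁻¹ = φ s) : cj y φ.range = φ.range := by
  obtain ⟨α, hα⟩ := exists_aut D hφ y h
  apply le_antisymm
  · intro x hx
    rw [mem_cj] at hx
    obtain ⟨t, ht⟩ := hx
    refine ⟨α t, ?_⟩
    rw [← hα, ht]
    group
  · rintro _ ⟨t, rfl⟩
    rw [mem_cj]
    refine ⟨α.symm t, ?_⟩
    have := hα (α.symm t)
    rw [MulEquiv.apply_symm_apply] at this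
    rw [← this]
    group

theorem Act.pow {φ : T →* A} {x : A} {r : T} (h : Act φ x r) (n : ℕ) : Act φ (x ^ n) (r ^ n) := by
  induction n with
  | zero =>
    rw [pow_zero, pow_zero]
    exact act_one
  | succ n ih =>
    rw [pow_succ, pow_succ]
    exact ih.mul h

/-- **The half exponent normalises all components.** -/
theorem wreath (D : Dat T) {i : T} (hi : i * i = 1) (hi1 : i ≠ 1) {a q : ℕ} (hq : Odd q)
    (hexp : ∀ x : A, x ^ (2 ^ (a + 1) * q) = 1) (φ : T →* A) (hφ : CompA φ) (x : A) :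
    cj (x ^ (2 ^ a * q)) φ.range = φ.range := by
  by_contra hmove
  obtain ⟨x', hx'⟩ : ∃ x', x' = x ^ q := ⟨_, rfl⟩
  have hz : x ^ (2 ^ a * q) = x' ^ (2 ^ a) := by
    rw [hx', ← pow_mul, mul_comm]
  rw [hz] at hmove
  have hN : x' ^ (2 ^ (a + 1)) = 1 := by
    rw [hx', ← pow_mul, mul_comm, hexp]
  let St : Subgroup A :=
    { carrier := {y | cj y φ.range = φ.range}
      one_mem' := cj_one _
      mul_mem' := by
        intro x y hx hy
        have hx' : cj x φ.range = φ.range := hx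
        have hy' : cj y φ.range = φ.range := hy
        change cj (x * y) φ.range = φ.range
        rw [cj_mul, hy', hx']
      inv_mem' := by
        intro x hx
        have hx' : cj x φ.range = φ.range := hx
        have h1 := cj_inv_cj x φ.range
        rwa [hx'] at h1 }
  have h1 : ∀ k, 0 < k → k < 2 ^ (a + 1) → x' ^ k ∉ St := by
    intro k hk0 hkN hk
    apply hmove
    change x' ^ (2 ^ a) ∈ St
    obtain ⟨b, hb, hb'⟩ := (Nat.dvd_prime_pow Nat.prime_two).1 (Nat.gcd_dvd_right k (2 ^ (a + 1)))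
    have hle : Nat.gcd k (2 ^ (a + 1)) ≤ k := Nat.gcd_le_left _ hk0
    have hba : b ≤ a := by
      by_contra hcon
      have : b = a + 1 := by omega
      rw [hb', this] at hle
      omega
    have hg : x' ^ (Nat.gcd k (2 ^ (a + 1))) ∈ St := by
      have e : (x' ^ (Nat.gcd k (2 ^ (a + 1))) : A) =
          (x' ^ k) ^ (Nat.gcdA k (2 ^ (a + 1))) *
            (x' ^ (2 ^ (a + 1))) ^ (Nat.gcdB k (2 ^ (a + 1))) := by
        rw [← zpow_natCast x' (Nat.gcd _ _), Nat.gcd_eq_gcd_ab, zpow_add, zpow_mul, zpow_mul,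
          zpow_natCast, zpow_natCast]
      rw [e, hN, one_zpow, mul_one]
      exact zpow_mem hk _
    rw [hb'] at hg
    have e : x' ^ (2 ^ a) = (x' ^ (2 ^ b)) ^ (2 ^ (a - b)) := by
      rw [← pow_mul, ← pow_add]
      congr 2
      omega
    rw [e]
    exact pow_mem hg _
  have h2 : ∀ k, k + 1 ≤ 2 ^ (a + 1) →
      ∃ Q, (x' * φ i) ^ (k + 1) = x' ^ (k + 1) * Q ∧ Act φ Q i := by
    intro k
    induction k with
    | zero =>
      intro _
      exact ⟨φ i, by simp, act_self i⟩
    | succ k ih =>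
      intro hk
      obtain ⟨Q, hQ, hQa⟩ := ih (by omega)
      obtain ⟨c, hc⟩ : ∃ c, c = (x' ^ (k + 1))⁻¹ * φ i * ((x' ^ (k + 1))⁻¹)⁻¹ := ⟨_, rfl⟩
      refine ⟨c * Q, ?_, ?_⟩
      · rw [pow_succ', hQ, hc, pow_succ' x' (k + 1)]
        group
      · have hca : Act φ c 1 := by
          rcases hφ.dich (x' ^ (k + 1))⁻¹ with h | h
          · intro t
            have h3 := (h t i).eq
            rw [← hc] at h3
            rw [← h3]
            simp
          · exfalso
            have h3 := cj_range D hφ.inj h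
            exact h1 (k + 1) (by omega) (by omega) (inv_mem_iff.1 (show (x' ^ (k + 1))⁻¹ ∈ St
              from h3))
        have := hca.mul hQa
        rwa [one_mul] at this
  obtain ⟨M, hM⟩ : ∃ M, 2 ^ (a + 1) = M + 1 :=
    ⟨2 ^ (a + 1) - 1, by have := Nat.one_le_two_pow (n := a + 1); omega⟩
  obtain ⟨Q, hQ, hQa⟩ := h2 M (by omega)
  rw [← hM, hN, one_mul] at hQ
  have h3 := hQa.pow q
  rw [← hQ, ← pow_mul, hexp] at h3
  have h4 : i ^ q = 1 := h3.unique D hφ.inj act_one
  apply hi1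
  obtain ⟨m, rfl⟩ := hq
  rw [pow_add, pow_mul, pow_two, hi, one_pow, one_mul, pow_one] at h4
  exact h4

end subgroups

end Pool.Agent.U110.BN
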