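import Pool.Agent.U110.BN.PG

set_option autoImplicit false

/-!
# The package for finite groups
-/

namespace Pool.Agent.U110.BN

/-- not isomorphic to `T` -/
def NotT (T : Type) [Group T] : ∀ (V : Type) [Group V], Prop := fun V _ => ¬ Nonempty (V ≃* T)

section out

variable {P : ∀ (V : Type) [Group V], Prop} {T : Type} [Group T]

/-- the outer automorphism group has no section `T` -/
theorem out_notT (D : Dat T) (hgen : ∃ a b : T, Subgroup.closure {a, b} = ⊤)
    [hn : (MulAut.conj (G := T)).range.Normal] :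
    XX (NotT T) (MulAut T ⧸ (MulAut.conj (G := T)).range) := by
  have := D.fin
  have := D.simple
  obtain ⟨a, b, hab⟩ := hgen
  obtain ⟨hf, hc⟩ := card_aut a b hab inferInstance
  refine ⟨inferInstance, fun V _ h1 h2 h3 => ?_⟩
  rintro ⟨e⟩
  have h4 : Nat.card V ≤ Nat.card (MulAut T ⧸ (MulAut.conj (G := T)).range) := h3.card
  have h5 : Nat.card V = Nat.card T := Nat.card_congr e.toEquiv
  have h6 := Subgroup.card_eq_card_quotient_mul_card_subgroup (MulAut.conj (G := T)).range
  have h7 : Nat.card (MulAut.conj (G := T)).range = Nat.card T :=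
    Nat.card_congr (MonoidHom.ofInjective (conj_inj D)).symm.toEquiv
  rw [h6, h7] at hc
  have h8 := lt_of_mul_lt_mul_right hc (Nat.zero_le _)
  omega

variable {A : Type} [Group A]

theorem exists_alpha (D : Dat T) (φ : T →* A) (hφ : CompA φ) :
    ∃ f : NA T A →* MulAut T, ∀ (x : NA T A) (t : T),
      (x : A) * φ t * (x : A)⁻¹ = φ (f x t) := by
  have h1 : ∀ x : NA T A, ∀ t, ∃ s, (x : A) * φ t * (x : A)⁻¹ = φ s := by
    intro x t
    have h2 : (x : A) * φ t * (x : A)⁻¹ ∈ cj (x : A) φ.range := conj_mem_cj ⟨t, rfl⟩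
    rw [x.2 φ hφ] at h2
    obtain ⟨s, hs⟩ := h2
    exact ⟨s, hs.symm⟩
  choose α hα using fun x : NA T A => exists_aut D hφ.inj (x : A) (h1 x)
  refine ⟨MonoidHom.mk' α ?_, hα⟩
  intro x y
  ext t
  apply hφ.inj
  rw [← hα]
  change (x : A) * y * φ t * ((x : A) * y)⁻¹ = φ (α x (α y t))
  rw [← hα, ← hα]
  group

/-- the quotient of the normaliser has no section `T` -/
theorem na_ka (D : Dat T) (hgen : ∃ a b : T, Subgroup.closure {a, b} = ⊤) [Finite A] :
    ∃ (I : Type) (_ : Group I) (f : NA T A →* I), XX (NotT T) I ∧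
      ∀ x, f x = 1 → (x : A) ∈ KA T A := by
  classical
  have := D.fin
  have hfin : Finite (T →* A) :=
    Finite.of_injective (fun f : T →* A => (f : T → A)) DFunLike.coe_injective
  have := Fintype.ofFinite (T →* A)
  have hn := conj_range_normal T
  have Kn := xx_cls (NotT T)
  have key : ∀ s : Finset (T →* A), ∃ (I : Type) (_ : Group I) (f : NA T A →* I),
      XX (NotT T) I ∧ ∀ x, f x = 1 → ∀ φ ∈ s, CompA φ → ∃ r, Act φ (x : A) r := by
    intro s
    induction s using Finset.induction_on with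
    | empty => exact ⟨Unit, inferInstance, 1, Kn.sol _ inferInstance inferInstance, by simp⟩
    | insert φ s _ ih =>
      obtain ⟨I, _, f, hI, hf⟩ := ih
      by_cases hφ : CompA φ
      · obtain ⟨α, hα⟩ := exists_alpha D φ hφ
        refine ⟨I × (MulAut T ⧸ (MulAut.conj (G := T)).range), inferInstance,
          f.prod ((QuotientGroup.mk' _).comp α), Kn.prod hI (out_notT D hgen), ?_⟩
        intro x hx ψ hψ hc
        rcases Finset.mem_insert.1 hψ with rfl | hψ
        · have h1 : QuotientGroup.mk' (MulAut.conj (G := T)).range (α x) = 1 :=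
            congrArg Prod.snd hx
          obtain ⟨r, hr⟩ := (QuotientGroup.eq_one_iff _).1 h1
          refine ⟨r, fun t => ?_⟩
          rw [hα, ← hr]
          rfl
        · exact hf x (congrArg Prod.fst hx) ψ hψ hc
      · refine ⟨I, inferInstance, f, hI, fun x hx ψ hψ hc => ?_⟩
        rcases Finset.mem_insert.1 hψ with rfl | hψ
        · exact absurd hc hφ
        · exact hf x hx ψ hψ hc
  obtain ⟨I, _, f, hI, hf⟩ := key Finset.univ
  exact ⟨I, inferInstance, f, hI, fun x hx φ hφ => hf x hx φ (Finset.mem_univ _) hφ⟩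

theorem na_fac (D : Dat T) (hgen : ∃ a b : T, Subgroup.closure {a, b} = ⊤)
    (hA : XX (Pp P T) A) (Y : Type) [Group Y] (j : Y →* A) (hj : ∀ y, j y ∈ NA T A) :
    ∃ (I : Type) (_ : Group I) (f : Y →* I), XX P f.range ∧ ∀ y, f y = 1 → j y ∈ KA T A := by
  have := hA.1
  obtain ⟨I, _, f, hI, hf⟩ := na_ka (A := A) D hgen
  let j' : Y →* NA T A := j.codRestrict _ hj
  have hn : (KA T A).Normal := KA_normal
  refine ⟨A ⧸ KA T A, inferInstance, (QuotientGroup.mk' (KA T A)).comp j, ?_, fun y hy =>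
    (QuotientGroup.eq_one_iff _).1 hy⟩
  have K1 := xx_cls (NotT T)
  have K2 := xx_cls (Pp P T)
  have h1 : XX (NotT T) ((QuotientGroup.mk' (KA T A)).comp j).range := by
    have h2 : XX (NotT T) (f.comp j').range := K1.sub _ _ (f.comp j').range.subtype
      (Subgroup.subtype_injective _) hI
    obtain ⟨q, hq⟩ := exists_factor (f.comp j').rangeRestrict
      (f.comp j').rangeRestrict_surjective ((QuotientGroup.mk' (KA T A)).comp j).rangeRestrict (by
        intro y hy
        apply Subtype.ext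
        have h3 : f (j' y) = 1 := congrArg Subtype.val hy
        exact (QuotientGroup.eq_one_iff _).2 (hf _ h3))
    refine K1.quo _ _ q ?_ h2
    intro z
    obtain ⟨y, rfl⟩ := ((QuotientGroup.mk' (KA T A)).comp j).rangeRestrict_surjective z
    exact ⟨_, hq y⟩
  have h2 : XX (Pp P T) ((QuotientGroup.mk' (KA T A)).comp j).range :=
    K2.sub _ _ (Subgroup.subtype _) (Subgroup.subtype_injective _)
      (K2.quo _ _ (QuotientGroup.mk' (KA T A)) (QuotientGroup.mk'_surjective _) hA)
  refine ⟨h2.1, fun V _ v1 v2 v3 => ?_⟩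
  exact (h2.2 V v1 v2 v3).resolve_right (h1.2 V v1 v2 v3)

end out

/-- canonical subgroups of a finite group -/
structure Pack (P : ∀ (V : Type) [Group V], Prop) (T : Type) [Group T] {F : Type} [Group F]
    (R K N : Subgroup F) : Prop where
  rN : R.Normal
  kN : K.Normal
  nN : N.Normal
  le : R ≤ K
  cls : XX P R
  laws : ∀ w : FreeGroup ℕ, (∀ v : ℕ → T, FreeGroup.lift v w = 1) →
    ∀ u : ℕ → F, (∀ i, u i ∈ K) → FreeGroup.lift u w ∈ R
  detR : ∀ g, (∀ y, XX P (Subgroup.closure {g, y})) → g ∈ R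
  detK : ∀ g, (∀ y, Kq (XX P) T (Subgroup.closure {g, y}) g) → g ∈ K
  half : ∀ a q, Odd q → (∀ x : F, x ^ (2 ^ (a + 1) * q) = 1) → ∀ x, x ^ (2 ^ a * q) ∈ N
  fac : ∀ (Y : Type) [Group Y] (j : Y →* F), (∀ y, j y ∈ N) →
    ∃ (I : Type) (_ : Group I) (f : Y →* I), XX P f.range ∧ ∀ y, f y = 1 → j y ∈ K

theorem package {P : ∀ (V : Type) [Group V], Prop} {T : Type} [Group T] (X : Ctx2 P T)
    {F : Type} [Group F] (hF : XX (Pp P T) F) : ∃ R K N : Subgroup F, Pack P T R K N := by
  have := hF.1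
  have Kl := xx_cls P
  obtain ⟨R, hR, hCR, hmax⟩ := Kl.exists_rad F
  let f := QuotientGroup.mk' R
  have hf : Function.Surjective f := QuotientGroup.mk'_surjective R
  have hA : XX (Pp P T) (F ⧸ R) := (xx_cls (Pp P T)).quo _ _ f hf hF
  have hrad : ∀ N : Subgroup (F ⧸ R), N.Normal → XX P N → N = ⊥ := fun N hN hCN =>
    Kl.rad_quo hCR hmax N hN hCN
  have hKn : (KA T (F ⧸ R)).Normal := KA_normal
  have hNn : (NA T (F ⧸ R)).Normal := NA_normal
  have hgen : ∃ a b : T, Subgroup.closure {a, b} = ⊤ := by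
    obtain ⟨i, j, hi, hi1, -⟩ := X.four
    obtain ⟨t, ht⟩ := X.gen i hi1
    exact ⟨i, t, ht⟩
  refine ⟨R, (KA T (F ⧸ R)).comap f, (NA T (F ⧸ R)).comap f, hR, hKn.comap f, hNn.comap f, ?_,
    hCR, ?_, ?_, ?_, ?_, ?_⟩
  · intro x hx
    have e : f x = 1 := (QuotientGroup.eq_one_iff x).2 hx
    rw [Subgroup.mem_comap, e]
    exact one_mem _
  · intro w hw u hu
    have h1 : FreeGroup.lift (fun i => f (u i)) w = 1 := by
      refine cent_comp X hA hrad _ fun φ hφ t => ?_
      choose r hr using fun i => hu i φ hφ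
      have h2 := act_lift hr w
      rw [hw] at h2
      have h3 := h2 t
      rw [one_mul, inv_one, mul_one, mul_inv_eq_iff_eq_mul] at h3
      exact h3
    rw [lift_comp] at h1
    exact (QuotientGroup.eq_one_iff _).1 h1
  · intro g hg
    have h1 : f g = 1 := by
      refine det_R X hA hrad _ fun y => ?_
      obtain ⟨y, rfl⟩ := hf y
      have e : Subgroup.closure {f g, f y} = (Subgroup.closure {g, y}).map f := by
        rw [MonoidHom.map_closure, Set.image_pair]
      rw [e]
      exact Kl.map f (hg y)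
    exact (QuotientGroup.eq_one_iff _).1 h1
  · intro g hg φ hφ
    refine det_K X.toCtx φ hφ _ fun y => ?_
    obtain ⟨y, rfl⟩ := hf y
    have e : Subgroup.closure {f g, f y} = (Subgroup.closure {g, y}).map f := by
      rw [MonoidHom.map_closure, Set.image_pair]
    rw [e]
    exact (hg y).map Kl f
  · intro a q hq hexp x φ hφ
    obtain ⟨i, j, hi, hi1, -⟩ := X.four
    have h1 := wreath X.dat hi hi1 hq (A := F ⧸ R) (by
      intro x
      obtain ⟨x, rfl⟩ := hf x
      rw [← map_pow, hexp, map_one]) φ hφ (f x)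
    rw [← map_pow] at h1
    exact h1
  · intro Y _ j hj
    exact na_fac X.dat hgen hA Y (f.comp j) hj

end Pool.Agent.U110.BN
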