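import Pool.Agent.U110.BN.PH
import Pool.Agent.U110.BN.L

set_option autoImplicit false
set_option maxHeartbeats 400000

/-!
# Groups whose three-generator subgroups are in a class
-/

namespace Pool.Agent.U110.BN

open Pool.Agent.H32BU Pool.Agent.W629 Pool.Agent.TH69.Mtn

/-- hereditary classes of finite groups -/
structure Her (W : ∀ (F : Type) [Group F], Prop) : Prop where
  fin : ∀ (F : Type) [Group F], W F → Finite F
  sub : ∀ (A F : Type) [Group A] [Group F] (f : A →* F), Function.Injective f → W F → W A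
  quo : ∀ (F A : Type) [Group F] [Group A] (f : F →* A), Function.Surjective f → W F → W A

theorem Cls.her {C : ∀ (F : Type) [Group F], Prop} (K : Cls C) : Her C := ⟨K.fin, K.sub, K.quo⟩

/-- intersection of classes -/
def And2 (W C : ∀ (F : Type) [Group F], Prop) : ∀ (F : Type) [Group F], Prop :=
  fun F _ => W F ∧ C F

theorem Her.and {W C : ∀ (F : Type) [Group F], Prop} (hW : Her W) (hC : Her C) :
    Her (And2 W C) where
  fin := fun F _ h => hW.fin F h.1
  sub := fun A F _ _ f hf h => ⟨hW.sub A F f hf h.1, hC.sub A F f hf h.2⟩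
  quo := fun A F _ _ f hf h => ⟨hW.quo A F f hf h.1, hC.quo A F f hf h.2⟩

/-- the three-generator subgroups are in the class -/
def Three (E : ∀ (F : Type) [Group F], Prop) (G : Type) [Group G] : Prop :=
  ∀ x y z : G, E (Subgroup.closure ({x, y, z} : Set G))

theorem Three.quo {E : ∀ (F : Type) [Group F], Prop} (hE : Her E) {G H : Type} [Group G] [Group H]
    (f : G →* H) (hf : Function.Surjective f) (h : Three E G) : Three E H := by
  intro x y z
  obtain ⟨x, rfl⟩ := hf x
  obtain ⟨y, rfl⟩ := hf y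
  obtain ⟨z, rfl⟩ := hf z
  have e : Subgroup.closure {f x, f y, f z} = (Subgroup.closure {x, y, z}).map f := by
    rw [MonoidHom.map_closure, Set.image_insert_eq, Set.image_pair]
  rw [e]
  exact hE.quo _ _ _ (f.subgroupMap_surjective _) (h x y z)

theorem Three.sub {E : ∀ (F : Type) [Group F], Prop} (hE : Her E) {G H : Type} [Group G] [Group H]
    (f : G →* H) (hf : Function.Injective f) (h : Three E H) : Three E G := by
  intro x y z
  have h1 := h (f x) (f y) (f z)
  have e : Subgroup.closure {f x, f y, f z} = (Subgroup.closure {x, y, z}).map f := by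
    rw [MonoidHom.map_closure, Set.image_insert_eq, Set.image_pair]
  rw [e] at h1
  have eq := (Subgroup.closure {x, y, z}).equivMapOfInjective f hf
  exact hE.sub _ _ eq.toMonoidHom eq.injective h1

theorem Three.mono {E E' : ∀ (F : Type) [Group F], Prop} {G : Type} [Group G]
    (h : ∀ (F : Type) [Group F], E F → E' F) (h3 : Three E G) : Three E' G :=
  fun x y z => h _ (h3 x y z)

/-- two-generator subgroups under injective homomorphisms -/
theorem Her.pair {E : ∀ (F : Type) [Group F], Prop} (hE : Her E) {A B : Type} [Group A] [Group B]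
    (f : A →* B) (hf : Function.Injective f) (g x : A) :
    E (Subgroup.closure {f g, f x}) ↔ E (Subgroup.closure {g, x}) := by
  have e : (Subgroup.closure {g, x}).map f = Subgroup.closure {f g, f x} := by
    rw [MonoidHom.map_closure, Set.image_pair]
  rw [← e]
  have eq := (Subgroup.closure {g, x}).equivMapOfInjective f hf
  exact ⟨fun h => hE.sub _ _ eq.toMonoidHom eq.injective h,
    fun h => hE.quo _ _ eq.toMonoidHom eq.surjective h⟩

theorem Her.pairS {E : ∀ (F : Type) [Group F], Prop} (hE : Her E) {A : Type} [Group A]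
    (F : Subgroup A) (g x : A) (hg : g ∈ F) (hx : x ∈ F) :
    E (Subgroup.closure {g, x}) ↔ E (Subgroup.closure {(⟨g, hg⟩ : F), ⟨x, hx⟩}) := by
  have h := hE.pair F.subtype F.subtype_injective ⟨g, hg⟩ ⟨x, hx⟩
  have e1 : F.subtype ⟨g, hg⟩ = g := rfl
  have e2 : F.subtype ⟨x, hx⟩ = x := rfl
  rw [e1, e2] at h
  exact h

/-- local finiteness for a class -/
def LFC (Z : ∀ (G : Type) [Group G], Prop) (n : ℕ) (E : ∀ (F : Type) [Group F], Prop) : Prop :=
  ∀ (G : Type) [Group G], Z G → (∀ x : G, x ^ n = 1) → Three E G → LF G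

/-- trivial locally finite radical -/
def RT (G : Type) [Group G] : Prop := ∀ N : Subgroup G, N.Normal → LF N → N = ⊥

theorem lf_of_rt (G : Type) [Group G]
    (h : ∀ (M : Subgroup G) (_ : M.Normal), RT (G ⧸ M) → LF (G ⧸ M)) : LF G := by
  obtain ⟨M, hM, hML, hmax⟩ := exists_radical G
  exact x_SCH G M hML (h M hM fun N hN hNL => rad_quo M hML hmax N hN hNL)

theorem Cls.pairF {C : ∀ (F : Type) [Group F], Prop} (K : Cls C) {A : Type} [Group A]
    (F S : Subgroup A) (hS : C S) (hn : ∀ f ∈ F, ∀ s ∈ S, f * s * f⁻¹ ∈ S) (g z : A)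
    (hg : g ∈ S) (hgF : g ∈ F) (hz : z ∈ F) (hfin : Finite F) : C (Subgroup.closure {g, z}) := by
  have h1 : (S.subgroupOf F).Normal := by
    refine ⟨fun n hn' f => ?_⟩
    rw [Subgroup.mem_subgroupOf] at hn' ⊢
    exact hn f f.2 n hn'
  have h3 : C (S.subgroupOf F) := K.comap F.subtype F.subtype_injective hS
  have h4 : (⟨g, hgF⟩ : F) ∈ S.subgroupOf F := hg
  have h2 := K.pair (S.subgroupOf F) h3 ⟨g, hgF⟩ ⟨z, hz⟩ h4 (isOfFinOrder_of_finite _)
  exact (K.her.pairS F g z hgF hz).2 h2

section two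

variable {P : ∀ (V : Type) [Group V], Prop} {T : Type} [Group T] (X : Ctx2 P T)

include X

/-- the radical of a group -/
theorem exists_RG {G : Type} [Group G] (h3 : Three (XX (Pp P T)) G) :
    ∃ R : Subgroup G, R.Normal ∧ ∀ g, g ∈ R ↔ ∀ x, XX P (Subgroup.closure {g, x}) := by
  have Kl := xx_cls P
  refine ⟨{ carrier := {g | ∀ x, XX P (Subgroup.closure {g, x})}
            one_mem' := ?_
            mul_mem' := ?_
            inv_mem' := ?_ }, ⟨?_⟩, fun g => Iff.rfl⟩
  · intro g h hg hh x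
    have h1 := h3 g h x
    obtain ⟨F, hF⟩ : ∃ F : Subgroup G, F = Subgroup.closure {g, h, x} := ⟨_, rfl⟩
    have mg : g ∈ F := hF ▸ Subgroup.subset_closure (by simp)
    have mh : h ∈ F := hF ▸ Subgroup.subset_closure (by simp)
    have mx : x ∈ F := hF ▸ Subgroup.subset_closure (by simp)
    rw [← hF] at h1
    obtain ⟨R, K, N, pk⟩ := package X h1
    have := pk.rN
    have hfin := h1.1
    have hg' : (⟨g, mg⟩ : F) ∈ R := pk.detR _ fun y =>
      (Kl.her.pairS F g y mg y.2).1 (hg y)
    have hh' : (⟨h, mh⟩ : F) ∈ R := pk.detR _ fun y =>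
      (Kl.her.pairS F h y mh y.2).1 (hh y)
    have h2 := Kl.pair R pk.cls (⟨g * h, mul_mem mg mh⟩) ⟨x, mx⟩ (mul_mem hg' hh')
      (isOfFinOrder_of_finite _)
    exact (Kl.her.pairS F (g * h) x (mul_mem mg mh) mx).2 h2
  · intro x
    have hx : IsOfFinOrder x := by
      have h1 := (h3 x x x).1
      have mx : x ∈ Subgroup.closure ({x, x, x} : Set G) := Subgroup.subset_closure (by simp)
      have h2 := isOfFinOrder_of_finite (⟨x, mx⟩ : Subgroup.closure ({x, x, x} : Set G))
      exact MonoidHom.isOfFinOrder (Subgroup.subtype _) h2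
    exact Kl.pair (⊥ : Subgroup G) (Kl.sol _ inferInstance inferInstance) 1 x (one_mem _) hx
  · intro g hg x
    have hle : Subgroup.closure {g⁻¹, x} ≤ Subgroup.closure {g, x} := by
      rw [Subgroup.closure_le]
      intro y hy
      rcases hy with hy | hy
      · rw [hy]
        exact inv_mem (Subgroup.subset_closure (Set.mem_insert _ _))
      · rw [Set.mem_singleton_iff] at hy
        rw [hy]
        exact Subgroup.subset_closure (Set.mem_insert_of_mem _ (Set.mem_singleton _))
    exact Kl.ofSub hle (hg x)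
  · intro g hg y x
    have h5 := (Kl.her.pair (MulAut.conj y).toMonoidHom (MulAut.conj y).injective g
      (y⁻¹ * x * y)).2 (hg _)
    have e1 : (MulAut.conj y).toMonoidHom g = y * g * y⁻¹ := rfl
    have e2 : (MulAut.conj y).toMonoidHom (y⁻¹ * x * y) = x := by
      change y * (y⁻¹ * x * y) * y⁻¹ = x
      group
    rw [e1, e2] at h5
    exact h5

theorem R_lf {Z : ∀ (G : Type) [Group G], Prop} (hZ : HSC Z) {W : ∀ (F : Type) [Group F], Prop}
    (hW : Her W) {n : ℕ} (hL : LFC Z n (And2 W (XX P)))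
    {G : Type} [Group G] (hZG : Z G) (hGn : ∀ x : G, x ^ n = 1)
    (h3 : Three (And2 W (XX (Pp P T))) G)
    (R : Subgroup G) (hR : ∀ g, g ∈ R ↔ ∀ x, XX P (Subgroup.closure {g, x})) : LF R := by
  have Kl := xx_cls P
  refine hL R (hZ.sub G R hZG) (fun x => Subtype.ext (hGn x)) ?_
  have h1 : Three W R := (h3.mono fun F _ h => h.1).sub hW R.subtype R.subtype_injective
  intro x y z
  refine ⟨h1 x y z, ?_⟩
  have h4 := (h3 (x : G) y z).2
  obtain ⟨F, hF⟩ : ∃ F : Subgroup G, F = Subgroup.closure {(x : G), (y : G), (z : G)} := ⟨_, rfl⟩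
  have mx : (x : G) ∈ F := hF ▸ Subgroup.subset_closure (by simp)
  have my : (y : G) ∈ F := hF ▸ Subgroup.subset_closure (by simp)
  have mz : (z : G) ∈ F := hF ▸ Subgroup.subset_closure (by simp)
  rw [← hF] at h4
  obtain ⟨R0, K0, N0, pk⟩ := package X h4
  have key : ∀ (g : G) (mg : g ∈ F), g ∈ R → (⟨g, mg⟩ : F) ∈ R0 := fun g mg hg =>
    pk.detR _ fun y => (Kl.her.pairS F g y mg y.2).1 ((hR g).1 hg y)
  have hle : (Subgroup.closure {x, y, z}).map R.subtype ≤ R0.map F.subtype := by
    rw [MonoidHom.map_closure, Subgroup.closure_le, Set.image_insert_eq, Set.image_pair]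
    rintro a (rfl | rfl | rfl)
    · exact ⟨_, key _ mx x.2, rfl⟩
    · exact ⟨_, key _ my y.2, rfl⟩
    · exact ⟨_, key _ mz z.2, rfl⟩
  have h5 := Kl.ofSub hle (Kl.map _ pk.cls)
  have eq := (Subgroup.closure {x, y, z}).equivMapOfInjective R.subtype R.subtype_injective
  exact Kl.sub _ _ eq.toMonoidHom eq.injective h5

/-- lifting `T` through quotients by `C`-subgroups -/
theorem lift_T {Q : Type} [Group Q] (h2 : Laws (Fin 2) T Q) {H : Type} [Group H] (f : Q →* H)
    (hf : Function.Surjective f) (φ : T →* H) (hφ : Function.Injective φ) :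
    ∃ ψ : T →* Q, Function.Injective ψ := by
  obtain ⟨b, _, hb, _, _⟩ := X.exists_pairs
  choose c hc using fun i => hf (φ (b i))
  refine ⟨chi X.dat h2 b c, ?_⟩
  have h1 : ∀ t, f (chi X.dat h2 b c t) = φ t := by
    intro t
    rw [chi_apply, ← lift_comp]
    have e : (fun j => f (c j)) = fun j => φ (b j) := by
      funext j
      exact hc j
    rw [e, lift_comp, ind_id X.dat hb]
  intro s t hst
  apply hφ
  rw [← h1, ← h1, hst]

/-- **The extension by the laws of `T`.** -/
theorem lf_laws {Z : ∀ (G : Type) [Group G], Prop} (hZ : HSC Z)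
    {W : ∀ (F : Type) [Group F], Prop} (hW : Her W) {n : ℕ} (hn : 1 ≤ n)
    (hL : LFC Z n (And2 W (XX P))) {G : Type} [Group G] (hZG : Z G) (hGn : ∀ x : G, x ^ n = 1)
    (h3 : Three (And2 W (XX (Pp P T))) G)
    (hloc : ∀ x y z : G, ∃ S : Subgroup G, LocC (XX P) T (Subgroup.closure {x, y, z}) S) :
    LF G := by
  refine lf_of_rt G fun M hM hRT => ?_
  have Kl := xx_cls P
  have := X.dat.fin
  have := Fintype.ofFinite T
  let f := QuotientGroup.mk' M
  have hf : Function.Surjective f := QuotientGroup.mk'_surjective M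
  have hexp : ∀ x : G ⧸ M, x ^ n = 1 := by
    intro x
    obtain ⟨x, rfl⟩ := hf x
    rw [← map_pow, hGn, map_one]
  have h3' : Three (And2 W (XX (Pp P T))) (G ⧸ M) :=
    h3.quo (hW.and (xx_cls (Pp P T)).her) f hf
  have hloc' : ∀ x y z : G ⧸ M,
      ∃ S : Subgroup (G ⧸ M), LocC (XX P) T (Subgroup.closure {x, y, z}) S := by
    intro x y z
    obtain ⟨x, rfl⟩ := hf x
    obtain ⟨y, rfl⟩ := hf y
    obtain ⟨z, rfl⟩ := hf z
    obtain ⟨S, h1, h2, h3⟩ := hloc x y z
    have e : Subgroup.closure {f x, f y, f z} = (Subgroup.closure {x, y, z}).map f := by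
      rw [MonoidHom.map_closure, Set.image_insert_eq, Set.image_pair]
    rw [e]
    refine ⟨S.map f, Kl.map f h1, ?_, ?_⟩
    · rintro _ ⟨g, hg, rfl⟩ _ ⟨s, hs, rfl⟩
      exact ⟨g * s * g⁻¹, h2 g hg s hs, by simp⟩
    · intro w hw u hu
      choose u' hu' hu'' using hu
      have e1 : u = fun i => f (u' i) := by
        funext i
        exact (hu'' i).symm
      rw [e1, lift_comp]
      exact ⟨_, h3 w hw u' hu', rfl⟩
  obtain ⟨R, hRn, hR⟩ := exists_RG X (h3'.mono fun F _ h => h.2)
  have hZQ : Z (G ⧸ M) := hZ.quo G M hZG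
  have hRb := hRT R hRn (R_lf X hZ hW hL hZQ hexp h3' R hR)
  have hR1 : ∀ g : G ⧸ M, (∀ x, XX P (Subgroup.closure {g, x})) → g = 1 := by
    intro g hg
    have : g ∈ R := (hR g).2 hg
    rw [hRb] at this
    exact this
  have h2 : Laws (Fin 2) T (G ⧸ M) := by
    intro w hw u
    refine hR1 _ fun z => ?_
    obtain ⟨S, L⟩ := hloc' (u 0) (u 1) z
    have hfin := (h3' (u 0) (u 1) z).2.1
    have mu : ∀ i, u i ∈ Subgroup.closure {u 0, u 1, z} := by
      intro i
      fin_cases i
      · exact Subgroup.subset_closure (by simp)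
      · exact Subgroup.subset_closure (by simp)
    have mz : z ∈ Subgroup.closure {u 0, u 1, z} := Subgroup.subset_closure (by simp)
    have h4 := L.laws (up w) (by
      intro v
      rw [lift_up]
      exact hw _) ![u 0, u 1, z] (by
      intro i
      fin_cases i
      · exact mu 0
      · exact mu 1
      · exact mz)
    rw [lift_up] at h4
    have e : (![(![u 0, u 1, z] : Fin 3 → G ⧸ M) 0, (![u 0, u 1, z] : Fin 3 → G ⧸ M) 1] :
        Fin 2 → G ⧸ M) = u := by
      funext i
      fin_cases i <;> rfl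
    rw [e] at h4
    exact Kl.pairF _ S L.cls L.norm _ z h4 (lift_mem _ u mu w) mz hfin
  have hH : HypC (XX P) T (G ⧸ M) := ⟨h2, hloc'⟩
  have hab : ∀ N : Subgroup (G ⧸ M), N.Normal → (∀ x ∈ N, ∀ y ∈ N, x * y = y * x) → N = ⊥ := by
    intro N hN hc
    refine hRT N hN (lf_comm (fun x y => Subtype.ext (hc x x.2 y y.2)) hn fun x => ?_)
    exact Subtype.ext (hexp x)
  obtain ⟨b, c, hb, hc, hbc⟩ := X.exists_pairs
  have hno : ∀ φ : T →* G ⧸ M, ¬ Function.Injective φ := by
    intro φ hφ
    have h1 : LF (Subgroup.normalClosure (Set.range φ)) := lf_of_closure _ fun S hS hSM =>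
      X.nc_lf hH hab hb hc hbc φ S hS hSM
    have h2 := hRT _ Subgroup.normalClosure_normal h1
    apply X.dat.na
    have h3 : ∀ s, φ s = 1 := by
      intro s
      have : φ s ∈ Subgroup.normalClosure (Set.range φ) :=
        Subgroup.subset_normalClosure ⟨s, rfl⟩
      rw [h2] at this
      exact this
    intro s t
    apply hφ
    rw [h3, h3]
  refine hL (G ⧸ M) hZQ hexp fun x y z => ⟨(h3' x y z).1, ?_⟩
  obtain ⟨S, L⟩ := hloc' x y z
  obtain ⟨F, hF⟩ : ∃ F : Subgroup (G ⧸ M), F = Subgroup.closure {x, y, z} := ⟨_, rfl⟩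
  rw [← hF] at L ⊢
  have hSn : (S.subgroupOf F).Normal := by
    refine ⟨fun n hn' f => ?_⟩
    rw [Subgroup.mem_subgroupOf] at hn' ⊢
    exact L.norm f f.2 n hn'
  let g := QuotientGroup.mk' (S.subgroupOf F)
  have hg : Function.Surjective g := QuotientGroup.mk'_surjective _
  have hl : Laws (Fin 3) T (F ⧸ S.subgroupOf F) := by
    intro w hw u
    choose u' hu' using fun i => hg (u i)
    have e1 : u = fun i => g (u' i) := by
      funext i
      exact (hu' i).symm
    rw [e1, lift_comp]
    refine (QuotientGroup.eq_one_iff _).2 ?_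
    rw [Subgroup.mem_subgroupOf]
    have h1 := L.laws w hw (fun i => F.subtype (u' i)) (fun i => (u' i).2)
    rw [lift_comp] at h1
    exact h1
  have mx : x ∈ F := hF ▸ Subgroup.subset_closure (by simp)
  have my : y ∈ F := hF ▸ Subgroup.subset_closure (by simp)
  have mz : z ∈ F := hF ▸ Subgroup.subset_closure (by simp)
  have hXQ : XX P (F ⧸ S.subgroupOf F) := by
    refine X.of_noT hl (fun i => g ((![⟨x, mx⟩, ⟨y, my⟩, ⟨z, mz⟩] : Fin 3 → F) i)) ?_ ?_
    · have h5 : Function.Surjective
          (FreeGroup.lift (![⟨x, mx⟩, ⟨y, my⟩, ⟨z, mz⟩] : Fin 3 → F)) := by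
        rw [← MonoidHom.range_eq_top, FreeGroup.range_lift_eq_closure]
        apply Subgroup.map_injective F.subtype_injective
        rw [MonoidHom.map_closure, ← MonoidHom.range_eq_map, Subgroup.range_subtype, ← Set.range_comp]
        refine Eq.trans ?_ hF.symm
        congr 1
        ext a
        simp only [Set.mem_range, Fin.exists_fin_succ, Set.mem_insert_iff, Set.mem_singleton_iff]
        simp [eq_comm]
      intro q
      obtain ⟨q, rfl⟩ := hg q
      obtain ⟨w, rfl⟩ := h5 q
      exact ⟨w, lift_comp _ _ _⟩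
    · intro φ hφ
      obtain ⟨ψ, hψ⟩ := lift_T X (h2.sub F.subtype F.subtype_injective) g hg φ hφ
      exact hno (F.subtype.comp ψ) (F.subtype_injective.comp hψ)
  refine Kl.ext _ _ g ?_ hXQ
  have e : g.ker = S.subgroupOf F := QuotientGroup.ker_mk' _
  rw [e]
  exact Kl.comap F.subtype F.subtype_injective L.cls

end two

end Pool.Agent.U110.BN
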