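import Pool.Agent.U110.BN.PI

set_option autoImplicit false
set_option maxHeartbeats 400000

/-!
# One more simple group
-/

namespace Pool.Agent.U110.BN

open Pool.Agent.H32BU Pool.Agent.W629 Pool.Agent.TH69.Mtn

theorem Pack.mk' {P : ∀ (V : Type) [Group V], Prop} {T : Type} [Group T] {F : Type} [Group F]
    {R K N : Subgroup F} (pk : Pack P T R K N) : MK (XX P) T ⊤ R K where
  le := pk.le
  kle := le_top
  cls := pk.cls
  normS := fun f _ s hs => pk.rN.conj_mem s hs f
  normK := fun f _ s hs => pk.kN.conj_mem s hs f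
  laws := pk.laws

/-- the middle of a subgroup from the package -/
theorem Pack.kq {P : ∀ (V : Type) [Group V], Prop} {T : Type} [Group T] {G : Type} [Group G]
    {F : Subgroup G} {R K N : Subgroup F} (pk : Pack P T R K N) (g : F) (hg : g ∈ K) :
    Kq (XX P) T F (g : G) := by
  have M := pk.mk'.map (xx_cls P) F.subtype
  rw [← MonoidHom.range_eq_map, Subgroup.range_subtype] at M
  exact ⟨_, _, M, ⟨g, hg, rfl⟩⟩

theorem pair_le {G : Type} [Group G] {F : Subgroup G} {g x : G} (hg : g ∈ F) (hx : x ∈ F) :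
    Subgroup.closure {g, x} ≤ F := by
  rw [Subgroup.closure_le]
  intro y hy
  rcases hy with hy | hy
  · rw [hy]
    exact hg
  · rw [Set.mem_singleton_iff] at hy
    rw [hy]
    exact hx

theorem Kq.trS {C : ∀ (F : Type) [Group F], Prop} (Kc : Cls C) {T : Type} [Group T] {G : Type}
    [Group G] (F : Subgroup G) (g x : G) (hg : g ∈ F) (hx : x ∈ F)
    (h : Kq C T (Subgroup.closure {g, x}) g) :
    Kq C T (Subgroup.closure {(⟨g, hg⟩ : F), ⟨x, hx⟩}) ⟨g, hg⟩ := by
  apply Kq.tr Kc F.subtype F.subtype_injective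
  have e1 : F.subtype ⟨g, hg⟩ = g := rfl
  have e2 : F.subtype ⟨x, hx⟩ = x := rfl
  rw [e1, e2]
  exact h

section two

variable {P : ∀ (V : Type) [Group V], Prop} {T : Type} [Group T] (X : Ctx2 P T)

include X

theorem exists_KG' {G : Type} [Group G] (h3 : Three (XX (Pp P T)) G) :
    ∃ R : Subgroup G, R.Normal ∧
      ∀ g, g ∈ R ↔ ∀ x, Kq (XX P) T (Subgroup.closure {g, x}) g := by
  have Kl := xx_cls P
  refine ⟨{ carrier := {g | ∀ x, Kq (XX P) T (Subgroup.closure {g, x}) g}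
            one_mem' := ?_
            mul_mem' := ?_
            inv_mem' := ?_ }, ⟨?_⟩, fun g => Iff.rfl⟩
  · intro g h hg hh x
    have h1 := h3 g h x
    obtain ⟨F, hF⟩ : ∃ F : Subgroup G, F = Subgroup.closure {g, h, x} := ⟨_, rfl⟩
    have mg : g ∈ F := hF ▸ Subgroup.subset_closure (by simp)
    have mh : h ∈ F := hF ▸ Subgroup.subset_closure (by simp)
    have mx : x ∈ F := hF ▸ Subgroup.subset_closure (by simp)
    rw [← hF] at h1
    obtain ⟨R, K, N, pk⟩ := package X h1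
    have hg' : (⟨g, mg⟩ : F) ∈ K := pk.detK _ fun y => Kq.trS Kl F g y mg y.2 (hg y)
    have hh' : (⟨h, mh⟩ : F) ∈ K := pk.detK _ fun y => Kq.trS Kl F h y mh y.2 (hh y)
    have h2 := pk.kq (⟨g, mg⟩ * ⟨h, mh⟩) (mul_mem hg' hh')
    have h4 : Kq (XX P) T F (g * h) := h2
    exact h4.mono Kl (pair_le (mul_mem mg mh) mx) (Subgroup.subset_closure (by simp))
  · intro x
    have hx : IsOfFinOrder x := by
      have h1 := (h3 x x x).1
      have mx : x ∈ Subgroup.closure ({x, x, x} : Set G) := Subgroup.subset_closure (by simp)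
      have h2 := isOfFinOrder_of_finite (⟨x, mx⟩ : Subgroup.closure ({x, x, x} : Set G))
      exact MonoidHom.isOfFinOrder (Subgroup.subtype _) h2
    have h1 := Kl.pair (⊥ : Subgroup G) (Kl.sol _ inferInstance inferInstance) 1 x (one_mem _) hx
    refine ⟨_, _, ⟨le_rfl, le_rfl, h1, ?_, ?_, ?_⟩, one_mem _⟩
    · exact fun f hf s hs => mul_mem (mul_mem hf hs) (inv_mem hf)
    · exact fun f hf s hs => mul_mem (mul_mem hf hs) (inv_mem hf)
    · exact fun w _ u hu => lift_mem _ u hu w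
  · intro g hg x
    obtain ⟨S, K, M, hk⟩ := hg x
    have h1 : Kq (XX P) T (Subgroup.closure {g, x}) g⁻¹ := ⟨S, K, M, inv_mem hk⟩
    refine h1.mono Kl (pair_le (inv_mem (Subgroup.subset_closure (by simp)))
      (Subgroup.subset_closure (by simp))) (Subgroup.subset_closure (by simp))
  · intro g hg y x
    have e1 : (MulAut.conj y⁻¹).toMonoidHom (y * g * y⁻¹) = g := by
      change y⁻¹ * (y * g * y⁻¹) * (y⁻¹)⁻¹ = g
      group
    have h1 := hg ((MulAut.conj y⁻¹).toMonoidHom x)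
    apply Kq.tr Kl (MulAut.conj y⁻¹).toMonoidHom (MulAut.conj y⁻¹).injective
    rw [e1]
    exact h1

theorem K_lf {Z : ∀ (G : Type) [Group G], Prop} (hZ : HSC Z)
    {W : ∀ (F : Type) [Group F], Prop} (hW : Her W) {n : ℕ} (hn : 1 ≤ n)
    (hL : LFC Z n (And2 W (XX P)))
    {G : Type} [Group G] (hZG : Z G) (hGn : ∀ x : G, x ^ n = 1)
    (h3 : Three (And2 W (XX (Pp P T))) G)
    (R : Subgroup G) (hR : ∀ g, g ∈ R ↔ ∀ x, Kq (XX P) T (Subgroup.closure {g, x}) g) :
    LF R := by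
  have Kl := xx_cls P
  refine lf_laws X hZ hW hn hL (hZ.sub G R hZG) (fun x => Subtype.ext (hGn x))
    (h3.sub (hW.and (xx_cls (Pp P T)).her) R.subtype R.subtype_injective) fun x y z => ?_
  have h4 := (h3 (x : G) y z).2
  obtain ⟨F, hF⟩ : ∃ F : Subgroup G, F = Subgroup.closure {(x : G), (y : G), (z : G)} := ⟨_, rfl⟩
  have mx : (x : G) ∈ F := hF ▸ Subgroup.subset_closure (by simp)
  have my : (y : G) ∈ F := hF ▸ Subgroup.subset_closure (by simp)
  have mz : (z : G) ∈ F := hF ▸ Subgroup.subset_closure (by simp)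
  rw [← hF] at h4
  obtain ⟨R0, K0, N0, pk⟩ := package X h4
  have key : ∀ (g : G) (mg : g ∈ F), g ∈ R → (⟨g, mg⟩ : F) ∈ K0 := fun g mg hg =>
    pk.detK _ fun y => Kq.trS Kl F g y mg y.2 ((hR g).1 hg y)
  have M := pk.mk'.map (xx_cls P) F.subtype
  rw [← MonoidHom.range_eq_map, Subgroup.range_subtype] at M
  have hle : ∀ v ∈ Subgroup.closure {x, y, z}, (v : G) ∈ K0.map F.subtype := by
    have h5 : Subgroup.closure {x, y, z} ≤ (K0.map F.subtype).comap R.subtype := by
      rw [Subgroup.closure_le]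
      rintro a (rfl | rfl | rfl)
      · exact ⟨_, key _ mx a.2, rfl⟩
      · exact ⟨_, key _ my a.2, rfl⟩
      · exact ⟨_, key _ mz a.2, rfl⟩
    exact fun v hv => h5 hv
  refine ⟨(R0.map F.subtype).comap R.subtype, ?_, ?_, ?_⟩
  · exact Kl.comap _ R.subtype_injective M.cls
  · intro f hf s hs
    exact M.normS _ (M.kle (hle f hf)) _ hs
  · intro w hw u hu
    -- pass to countably many variables
    let w' : FreeGroup ℕ := FreeGroup.lift (fun i : Fin 3 => FreeGroup.of (i : ℕ)) w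
    have h5 : ∀ {H : Type} [Group H] (v : ℕ → H), FreeGroup.lift v w' =
        FreeGroup.lift (fun i : Fin 3 => v i) w := by
      intro H _ v
      simp only [w']
      rw [← lift_comp]
      simp only [FreeGroup.lift_apply_of]
    have h6 := M.laws w' (fun v => by rw [h5]; exact hw _)
      (fun i => if h : i < 3 then ((u ⟨i, h⟩ : R) : G) else 1) (by
        intro i
        split_ifs with h
        · exact hle _ (hu _)
        · exact one_mem _)
    rw [h5] at h6
    rw [Subgroup.mem_comap, ← lift_comp]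
    have e : (fun i : Fin 3 => if h : (i : ℕ) < 3 then ((u ⟨i, h⟩ : R) : G) else 1) =
        fun i => R.subtype (u i) := by
      funext i
      rw [dif_pos i.2]
      rfl
    rw [e] at h6
    exact h6

/-- the half powers are in the radical -/
theorem half_mem {Q : Type} [Group Q] (h3 : Three (XX (Pp P T)) Q)
    (hK1 : ∀ g : Q, (∀ x, Kq (XX P) T (Subgroup.closure {g, x}) g) → g = 1) {a q : ℕ} (hq : Odd q)
    (hexp : ∀ x : Q, x ^ (2 ^ (a + 1) * q) = 1) (x w : Q) :
    XX P (Subgroup.closure {x ^ (2 ^ a * q), w}) := by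
  have Kl := xx_cls P
  obtain ⟨F, hF⟩ : ∃ F : Subgroup Q, F = Subgroup.closure {x, w} := ⟨_, rfl⟩
  have mx : x ∈ F := hF ▸ Subgroup.subset_closure (by simp)
  have mw : w ∈ F := hF ▸ Subgroup.subset_closure (by simp)
  have hfinF : Finite F := by
    have h1 := (h3 x w w).1
    rw [Set.pair_eq_singleton] at h1
    rw [hF]
    exact h1
  obtain ⟨z, hz⟩ : ∃ z : F, z = ⟨x, mx⟩ ^ (2 ^ a * q) := ⟨_, rfl⟩
  have hzx : (z : Q) = x ^ (2 ^ a * q) := by
    rw [hz]
    rfl
  obtain ⟨Y, hY⟩ : ∃ Y : Subgroup F, Y = Subgroup.normalClosure {z} := ⟨_, rfl⟩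
  have hYn : Y.Normal := hY ▸ Subgroup.normalClosure_normal
  have hzY : z ∈ Y := hY ▸ Subgroup.subset_normalClosure rfl
  obtain ⟨U, hU, ⟨I, _, f, hI, hf⟩, hmin⟩ := Kl.exists_res Y
  have hU1 : ∀ u ∈ U, u = 1 := by
    intro u hu
    have h1 : ((u : F) : Q) = 1 := by
      refine hK1 _ fun v => ?_
      have h4 := h3 x w v
      obtain ⟨F3, hF3⟩ : ∃ F3 : Subgroup Q, F3 = Subgroup.closure {x, w, v} := ⟨_, rfl⟩
      have m3x : x ∈ F3 := hF3 ▸ Subgroup.subset_closure (by simp)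
      have m3w : w ∈ F3 := hF3 ▸ Subgroup.subset_closure (by simp)
      have m3v : v ∈ F3 := hF3 ▸ Subgroup.subset_closure (by simp)
      rw [← hF3] at h4
      have hle : F ≤ F3 := by
        rw [hF]
        exact pair_le m3x m3w
      obtain ⟨R0, K0, N0, pk⟩ := package X h4
      have hY3 : Y ≤ N0.comap (Subgroup.inclusion hle) := by
        have hn : (N0.comap (Subgroup.inclusion hle)).Normal := pk.nN.comap _
        rw [hY]
        apply Subgroup.normalClosure_le_normal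
        intro s hs
        rw [Set.mem_singleton_iff] at hs
        rw [hs]
        have h5 := pk.half a q hq (fun x => Subtype.ext (hexp x)) ⟨x, m3x⟩
        have h6 : Subgroup.inclusion hle z = ⟨x, m3x⟩ ^ (2 ^ a * q) := Subtype.ext hzx
        change Subgroup.inclusion hle z ∈ N0
        rw [h6]
        exact h5
      obtain ⟨J, _, g, hJ, hg⟩ := pk.fac Y ((Subgroup.inclusion hle).comp Y.subtype)
        fun y => hY3 y.2
      have h7 : u ∈ g.ker := hmin J g hJ hu
      have h8 := hg u h7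
      have h9 : Kq (XX P) T F3 ((u : F) : Q) := pk.kq _ h8
      exact h9.mono Kl (pair_le (hle (u : F).2) m3v) (Subgroup.subset_closure (by simp))
    exact Subtype.ext (Subtype.ext h1)
  have hYC : XX P Y := Kl.sub _ _ f (by
    rw [injective_iff_map_eq_one]
    exact fun y hy => hU1 y (hf y hy)) hI
  have h2 := Kl.pair Y hYC z ⟨w, mw⟩ hzY (isOfFinOrder_of_finite _)
  have h3' := (Kl.her.pairS F (z : Q) w z.2 mw).2 h2
  rwa [hzx] at h3'

theorem rt_step {Z : ∀ (G : Type) [Group G], Prop} (hZ : HSC Z)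
    {W : ∀ (F : Type) [Group F], Prop} (hW : Her W) {n : ℕ} (hn : 1 ≤ n)
    (hL : LFC Z n (And2 W (XX P))) {Q : Type} [Group Q] (hZQ : Z Q) (hexp : ∀ x : Q, x ^ n = 1)
    (h3 : Three (And2 W (XX (Pp P T))) Q) (hRT : RT Q) : LF Q := by
  classical
  have Kl := xx_cls P
  have h3' : Three (XX (Pp P T)) Q := h3.mono fun F _ h => h.2
  obtain ⟨R, hRn, hR⟩ := exists_RG X h3'
  have hRb := hRT R hRn (R_lf X hZ hW hL hZQ hexp h3 R hR)
  have hR1 : ∀ g : Q, (∀ x, XX P (Subgroup.closure {g, x})) → g = 1 := by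
    intro g hg
    have : g ∈ R := (hR g).2 hg
    rw [hRb] at this
    exact this
  obtain ⟨K, hKn, hK⟩ := exists_KG' X h3'
  have hKb := hRT K hKn (K_lf X hZ hW hn hL hZQ hexp h3 K hK)
  have hK1 : ∀ g : Q, (∀ x, Kq (XX P) T (Subgroup.closure {g, x}) g) → g = 1 := by
    intro g hg
    have : g ∈ K := (hK g).2 hg
    rw [hKb] at this
    exact this
  -- the exact exponent
  obtain ⟨m, hm1, hm, hmin⟩ : ∃ m, 1 ≤ m ∧ (∀ x : Q, x ^ m = 1) ∧
      ∀ k, 1 ≤ k → (∀ x : Q, x ^ k = 1) → m ≤ k := by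
    have hex : ∃ m, 1 ≤ m ∧ ∀ x : Q, x ^ m = 1 := ⟨n, hn, hexp⟩
    exact ⟨Nat.find hex, (Nat.find_spec hex).1, (Nat.find_spec hex).2,
      fun k h1 h2 => Nat.find_min' hex ⟨h1, h2⟩⟩
  obtain ⟨e, q, hq, rfl⟩ := Nat.exists_eq_two_pow_mul_odd (n := m) (by omega)
  rcases e with _ | a
  · refine hL Q hZQ hexp fun x y z => ⟨(h3 x y z).1, noT (h3 x y z).2 ?_⟩
    rintro ⟨H, f, hf⟩
    obtain ⟨i, j, hi, hi1, -⟩ := X.four
    obtain ⟨h, hh⟩ := hf i
    apply hi1
    have h1 : i ^ q = 1 := by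
      rw [← hh, ← map_pow]
      have h2 : h ^ q = 1 := by
        apply Subtype.ext
        apply Subtype.ext
        have h3 := hm ((h : Subgroup.closure ({x, y, z} : Set Q)) : Q)
        rw [pow_zero, one_mul] at h3
        exact h3
      rw [h2, map_one]
    obtain ⟨k, rfl⟩ := hq
    rw [pow_add, pow_mul, pow_two, hi, one_pow, one_mul, pow_one] at h1
    exact h1
  · exfalso
    have h1 : ∀ x : Q, x ^ (2 ^ a * q) = 1 := fun x =>
      hR1 _ fun w => half_mem X h3' hK1 hq hm x w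
    have hq0 : 0 < q := hq.pos
    have h0 : 0 < 2 ^ a * q := by positivity
    have h2 := hmin (2 ^ a * q) h0 h1
    rw [pow_succ] at h2
    nlinarith

/-- **One more simple group.** -/
theorem lfc_step {Z : ∀ (G : Type) [Group G], Prop} (hZ : HSC Z)
    {W : ∀ (F : Type) [Group F], Prop} (hW : Her W) {n : ℕ} (hn : 1 ≤ n)
    (hL : LFC Z n (And2 W (XX P))) : LFC Z n (And2 W (XX (Pp P T))) := by
  intro G _ hZG hGn h3
  refine lf_of_rt G fun M hM hRT => ?_
  refine rt_step X hZ hW hn hL (hZ.quo G M hZG) ?_ (h3.quo (hW.and (xx_cls (Pp P T)).her) _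
    (QuotientGroup.mk'_surjective M)) hRT
  intro x
  obtain ⟨x, rfl⟩ := QuotientGroup.mk'_surjective M x
  rw [← map_pow, hGn, map_one]

end two

end Pool.Agent.U110.BN
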