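import Pool.Agent.U110.BN.PJ
import Pool.Agent.U110.BN.N

set_option autoImplicit false
set_option maxHeartbeats 400000

/-!
# The soluble case
-/

namespace Pool.Agent.U110.BN

open Pool.Agent.H32BU Pool.Agent.W629 Pool.Agent.TH69.Mtn

universe u

/-- finite groups of bounded order -/
def Wc (c : ℕ) : ∀ (F : Type) [Group F], Prop := fun F _ => Finite F ∧ Nat.card F ≤ c

theorem her_Wc (c : ℕ) : Her (Wc c) where
  fin := fun F _ h => h.1
  sub := by
    intro A F _ _ f hf h
    have := h.1
    exact ⟨Finite.of_injective f hf, (Nat.card_le_card_of_injective f hf).trans h.2⟩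
  quo := by
    intro F A _ _ f hf h
    have := h.1
    exact ⟨Finite.of_surjective f hf, (Nat.card_le_card_of_surjective f hf).trans h.2⟩

/-- no simple groups at all -/
def P0 : ∀ (V : Type) [Group V], Prop := fun _ _ => False

/-- maximal normal subgroups -/
theorem exists_max_normal (F : Type) [Group F] [Finite F] (hnt : Nontrivial F) :
    ∃ (N : Subgroup F) (_ : N.Normal), N ≠ ⊤ ∧ IsSimpleGroup (F ⧸ N) := by
  classical
  have h0 : ∃ k, ∃ N : Subgroup F, N.Normal ∧ N ≠ ⊤ ∧ Nat.card F - Nat.card N = k :=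
    ⟨_, ⊥, inferInstance, bot_ne_top, rfl⟩
  obtain ⟨N, h1, h2, h3⟩ := Nat.find_spec h0
  have hmax : ∀ M : Subgroup F, M.Normal → M ≠ ⊤ → N ≤ M → M = N := by
    intro M hM hMt hNM
    have h4 := Nat.find_min' h0 ⟨M, hM, hMt, rfl⟩
    rw [← h3] at h4
    have h5 : Nat.card M ≤ Nat.card F := Nat.card_le_card_of_injective _ M.subtype_injective
    have h6 : Nat.card N ≤ Nat.card M :=
      Nat.card_le_card_of_injective _ (Subgroup.inclusion_injective hNM)
    exact (Subgroup.eq_of_le_of_card_ge hNM (by omega)).symm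
  refine ⟨N, h1, h2, ?_⟩
  have hnt' : Nontrivial (F ⧸ N) := by
    rw [← not_subsingleton_iff_nontrivial]
    intro hs
    apply h2
    rw [eq_top_iff]
    intro x _
    exact (QuotientGroup.eq_one_iff x).1 (Subsingleton.elim _ _)
  refine { exists_pair_ne := hnt'.exists_pair_ne, eq_bot_or_eq_top_of_normal := ?_ }
  intro H hH
  by_cases ht : H.comap (QuotientGroup.mk' N) = ⊤
  · right
    rw [eq_top_iff]
    intro x _
    obtain ⟨g, rfl⟩ := QuotientGroup.mk'_surjective N x
    have : g ∈ H.comap (QuotientGroup.mk' N) := by rw [ht]; trivial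
    exact this
  · left
    have h4 := hmax _ (hH.comap _) ht (fun x hx => by
      have e : QuotientGroup.mk' N x = 1 := (QuotientGroup.eq_one_iff x).2 hx
      rw [Subgroup.mem_comap, e]
      exact one_mem _)
    rw [eq_bot_iff]
    intro x hx
    obtain ⟨g, rfl⟩ := QuotientGroup.mk'_surjective N x
    have h5 : g ∈ H.comap (QuotientGroup.mk' N) := hx
    rw [h4] at h5
    exact (QuotientGroup.eq_one_iff g).2 h5

theorem solv_of_XX (k : ℕ) : ∀ (F : Type) [Group F], Nat.card F = k → XX P0 F →
    Group.IsSolvable F := by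
  induction k using Nat.strong_induction_on with
  | _ k ih =>
  intro F _ hk hF
  have := hF.1
  rcases subsingleton_or_nontrivial F with hs | hnt
  · exact inferInstance
  · obtain ⟨N, hN, hNt, hsimp⟩ := exists_max_normal F hnt
    have h1 : Nat.card N < k := by
      by_contra hcon
      push Not at hcon
      apply hNt
      exact Subgroup.eq_top_of_le_card N (by omega)
    have hNs : Group.IsSolvable N := ih _ h1 N rfl
      ((xx_cls P0).sub _ _ N.subtype N.subtype_injective hF)
    have hQ : Group.IsSolvable (F ⧸ N) := by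
      rw [← IsSimpleGroup.comm_iff_isSolvable]
      by_contra hna
      exact hF.2 (F ⧸ N) hsimp hna
        (Sec.of_sur (QuotientGroup.mk' N) (QuotientGroup.mk'_surjective N))
    exact Group.isSolvable_of_ker_le_range N.subtype (QuotientGroup.mk' N) (by
      rw [QuotientGroup.ker_mk', Subgroup.range_subtype])

/-- bounded height -/
theorem height (F : Type) [Group F] (hf : Finite F) (hs : Group.IsSolvable F) (m : ℕ) :
    DD (⊤ : Subgroup F) m = ⊥ ∨ Nat.card (DD (⊤ : Subgroup F) m) + m ≤ Nat.card F := by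
  obtain ⟨M, hM⟩ := x_SOLH F hf hs
  have hstab : ∀ m, DD (⊤ : Subgroup F) (m + 1) = DD (⊤ : Subgroup F) m →
      DD (⊤ : Subgroup F) m = ⊥ := by
    intro m hm
    have h1 : ∀ k, DD (⊤ : Subgroup F) (m + k) = DD (⊤ : Subgroup F) m := by
      intro k
      induction k with
      | zero => rfl
      | succ k ih =>
        rw [← add_assoc]
        change NR (DD (⊤ : Subgroup F) (m + k)) = _
        rw [ih]
        exact hm
    have h2 : ∀ k, DD (⊤ : Subgroup F) (M + k) = ⊥ := by
      intro k
      induction k with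
      | zero => exact hM
      | succ k ih =>
        rw [eq_bot_iff, ← ih, ← add_assoc]
        exact (x_MON F).2.1 _ _
    rw [← h1 M, add_comm]
    exact h2 m
  induction m with
  | zero =>
    right
    rw [add_zero]
    exact Nat.card_le_card_of_injective _ (Subgroup.subtype_injective _)
  | succ m ih =>
    rcases ih with h | h
    · left
      rw [eq_bot_iff, ← h]
      exact (x_MON F).2.1 _ _
    · by_cases hb : DD (⊤ : Subgroup F) m = ⊥
      · left
        rw [eq_bot_iff, ← hb]
        exact (x_MON F).2.1 _ _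
      · right
        have hle := (x_MON F).2.1 (⊤ : Subgroup F) m
        have hlt : Nat.card (DD (⊤ : Subgroup F) (m + 1)) < Nat.card (DD (⊤ : Subgroup F) m) := by
          by_contra hcon
          push Not at hcon
          exact hb (hstab m (Subgroup.eq_of_le_of_card_ge hle hcon))
        omega

theorem height' (F : Type) [Group F] (hf : Finite F) (hs : Group.IsSolvable F) (c : ℕ)
    (hc : Nat.card F ≤ c) : DD (⊤ : Subgroup F) c = ⊥ := by
  rcases height F hf hs c with h | h
  · exact h
  · exfalso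
    have : 0 < Nat.card (DD (⊤ : Subgroup F) c) := Nat.card_pos
    omega

/-- sections of prime power exponent greater than five are locally finite -/
def PS (Z : ∀ (G : Type) [Group G], Prop) (n : ℕ) : Prop :=
  ∀ p k : ℕ, p.Prime → p ^ k ∣ n → 5 < p ^ k → ∀ (G : Type) [Group G], Z G →
    (∀ x : G, x ^ p ^ k = 1) → LF G

theorem lf_ps {Z : ∀ (G : Type) [Group G], Prop} {n : ℕ} (hq : PS Z n) {p k : ℕ} (hp : p.Prime)
    (hk : p ^ k ∣ n) (N : Type) [Group N] (hZN : Z N) (hN : ∀ x : N, x ^ p ^ k = 1)
    (h3 : ∀ x y z : N, Finite (Subgroup.closure {x, y, z})) : LF N := by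
  by_cases h5 : 5 < p ^ k
  · exact hq p k hp hk h5 N hZN hN
  · by_cases h4 : 4 < p ^ k
    · have e : p ^ k = 5 := by omega
      rw [e] at hN
      intro S
      exact Pool.Agent.Y50.FE.main5_u N hN h3 (S : Set N) S.finite_toSet
    · exact small_pp x_LFD x_L34 p k hp h4 N hN

theorem hsc3 {Z : ∀ (G : Type) [Group G], Prop} (hZ : HSC Z) :
    HSC (fun G [Group G] => Z G ∧ ∀ x y z : G, Finite (Subgroup.closure {x, y, z})) where
  sub := fun G _ A h => ⟨hZ.sub G A h.1, fin_three_sub A.subtype A.subtype_injective h.2⟩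
  quo := fun G _ N _ h => ⟨hZ.quo G N h.1,
    fin_three_quo (QuotientGroup.mk' N) (QuotientGroup.mk'_surjective N) h.2⟩

/-- **The soluble case.** -/
theorem lfc_zero {Z : ∀ (G : Type) [Group G], Prop} (hZ : HSC Z) {n : ℕ} (hn : 1 ≤ n)
    (hq : PS Z n) (c : ℕ) : LFC Z n (And2 (Wc c) (XX P0)) := by
  intro G _ hZG hGn h3
  have hfin : ∀ x y z : G, Finite (Subgroup.closure {x, y, z}) := fun x y z => (h3 x y z).1.1
  refine x_INDV _ (hsc3 hZ) n hn ?_ c G ⟨hZG, hfin⟩ hGn ?_
  · intro p hp H _ hH hx
    exact lf_ps hq hp (Nat.ordProj_dvd n p) H hH.1 hx hH.2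
  · intro a x z
    have h1 := (h3 a x z).1
    have h2 : Group.IsSolvable (Subgroup.closure ({a, x, z} : Set G)) :=
      solv_of_XX _ _ rfl (h3 a x z).2
    refine ⟨h1.1, h2, ?_⟩
    have h4 := height' (Subgroup.closure ({a, x, z} : Set G)) h1.1 h2 c h1.2
    have h5 := x_MAPI (Subgroup.closure ({a, x, z} : Set G)) G (Subgroup.subtype _)
      (Subgroup.subtype_injective _) ⊤ c
    rw [h4, Subgroup.map_bot, ← MonoidHom.range_eq_map, Subgroup.range_subtype] at h5
    exact h5.symm

/-- finite groups -/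
def Wf : ∀ (F : Type) [Group F], Prop := fun F _ => Finite F

theorem her_Wf : Her Wf where
  fin := fun F _ h => h
  sub := fun A F _ _ f hf h => by
    have : Finite F := h
    exact Finite.of_injective f hf
  quo := fun F A _ _ f hf h => by
    have : Finite F := h
    exact Finite.of_surjective f hf

/-- **The soluble case, admissible exponents.** -/
theorem lfc_zero_adm {Z : ∀ (G : Type) [Group G], Prop} (hZ : HSC Z) {n : ℕ} (hn : 1 ≤ n)
    (hA : Pool.Agent.Results.MP_544bd1_al.TwoGenerators.Admissible n) (hq : PS Z n) :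
    LFC Z n (And2 Wf (XX P0)) := by
  intro G _ hZG hGn h3
  refine lf_of_rt G fun M hM hRT => ?_
  let f := QuotientGroup.mk' M
  have hf : Function.Surjective f := QuotientGroup.mk'_surjective M
  have hexp : ∀ x : G ⧸ M, x ^ n = 1 := by
    intro x
    obtain ⟨x, rfl⟩ := hf x
    rw [← map_pow, hGn, map_one]
  have h3' : Three (And2 Wf (XX P0)) (G ⧸ M) := h3.quo (her_Wf.and (xx_cls P0).her) f hf
  have hfin : ∀ x y z : G ⧸ M, Finite (Subgroup.closure {x, y, z}) := fun x y z => (h3' x y z).1
  have h2' : ∀ x y : G ⧸ M, Finite (Subgroup.closure {x, y}) := fin_two_of_three hfin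
  have hs' : ∀ x y : G ⧸ M, Group.IsSolvable (Subgroup.closure {x, y}) := by
    intro x y
    have h4 := (h3' x y y).2
    rw [Set.pair_eq_singleton] at h4
    exact solv_of_XX _ _ rfl h4
  by_cases hnt : Nontrivial (G ⧸ M)
  · exfalso
    obtain ⟨p, k, hp, hk, N, hN, hNb, hNe⟩ :=
      ((Pool.Agent.Results.MP_544bd1_al.TwoGenerators.result.{0}.2 n hn hA).1 (G ⧸ M) hexp h2'
        (Or.inr hs')).1 hnt
    apply hNb
    refine hRT N hN (lf_ps hq hp hk N (hZ.sub _ N (hZ.quo G M hZG))
      (fun x => Subtype.ext (hNe x x.2)) ?_)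
    exact fin_three_sub N.subtype N.subtype_injective hfin
  · rw [not_nontrivial_iff_subsingleton] at hnt
    intro S
    infer_instance

end Pool.Agent.U110.BN
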