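import Pool.Agent.U110.BN.PK

set_option autoImplicit false
set_option maxHeartbeats 400000

/-!
# All simple groups
-/

namespace Pool.Agent.U110.BN

open Pool.Agent.H32BU Pool.Agent.W629 Pool.Agent.TH69.Mtn

universe u

/-- good simple groups: two distinct commuting involutions, and for every nontrivial automorphism
an element in no proper invariant subgroup -/
def Good (V : Type) [Group V] : Prop :=
  (∃ i j : V, i * i = 1 ∧ i ≠ 1 ∧ j * j = 1 ∧ j ≠ 1 ∧ i * j = j * i ∧ i ≠ j) ∧
  ∀ α : V ≃* V, (∃ t, α t ≠ t) → ∃ y, ∀ B : Subgroup V, y ∈ B → (∀ x ∈ B, α x ∈ B) → B = ⊤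

theorem Good.congr {V V' : Type} [Group V] [Group V'] (e : V ≃* V') (h : Good V) : Good V' := by
  obtain ⟨⟨i, j, hi, hi1, hj, hj1, hij, hne⟩, hα⟩ := h
  refine ⟨⟨e i, e j, ?_, ?_, ?_, ?_, ?_, ?_⟩, ?_⟩
  · rw [← map_mul, hi, map_one]
  · rwa [Ne, map_eq_one_iff _ e.injective]
  · rw [← map_mul, hj, map_one]
  · rwa [Ne, map_eq_one_iff _ e.injective]
  · rw [← map_mul, hij, map_mul]
  · exact fun h => hne (e.injective h)
  · intro β hβ
    obtain ⟨y, hy⟩ := hα ((e.trans β).trans e.symm) (by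
      obtain ⟨t, ht⟩ := hβ
      refine ⟨e.symm t, fun h => ht ?_⟩
      have h1 : e.symm (β (e (e.symm t))) = e.symm t := h
      rw [MulEquiv.apply_symm_apply] at h1
      exact e.symm.injective h1)
    refine ⟨e y, fun B hB hinv => ?_⟩
    have h1 := hy (B.comap e.toMonoidHom) hB (fun x hx => by
      have h2 := hinv _ hx
      change e (e.symm (β (e x))) ∈ B
      rw [MulEquiv.apply_symm_apply]
      exact h2)
    rw [eq_top_iff]
    intro x _
    have h2 : e.symm x ∈ B.comap e.toMonoidHom := by rw [h1]; trivial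
    have h3 : e (e.symm x) ∈ B := h2
    rwa [MulEquiv.apply_symm_apply] at h3

/-- the group structures on a finite set -/
def Ty (m : ℕ) (_ : Group (Fin m)) : Type := Fin m

instance (m : ℕ) (g : Group (Fin m)) : Group (Ty m g) := g

/-- good groups of order less than `m`, or of order `m` and isomorphic to a group in the list -/
def PP (m : ℕ) (s : Finset (Group (Fin m))) : ∀ (V : Type) [Group V], Prop := fun V _ =>
  Good V ∧ (Nat.card V < m ∨ (Nat.card V = m ∧ ∃ g ∈ s, Nonempty (V ≃* Ty m g)))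

theorem PP.le {m : ℕ} {s : Finset (Group (Fin m))} {V : Type} [Group V] (h : PP m s V) :
    Nat.card V ≤ m := by
  rcases h.2 with h | h
  · exact h.le
  · exact h.1.le

theorem Ty.card (m : ℕ) (g : Group (Fin m)) : Nat.card (Ty m g) = m := Nat.card_fin m

theorem xx_mono {P P' : ∀ (V : Type) [Group V], Prop} {F : Type} [Group F]
    (hP : ∀ (V : Type) [Group V], IsSimpleGroup V → (¬ ∀ a b : V, a * b = b * a) → Sec V F →
      P V → P' V) (h : XX P F) : XX P' F :=
  ⟨h.1, fun V _ h1 h2 h3 => hP V h1 h2 h3 (h.2 V h1 h2 h3)⟩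

theorem LFC.mono {Z : ∀ (G : Type) [Group G], Prop} {n : ℕ}
    {E E' : ∀ (F : Type) [Group F], Prop}
    (h : ∀ (F : Type) [Group F], E' F → E F) (hL : LFC Z n E) : LFC Z n E' :=
  fun G _ hZ hG h3 => hL G hZ hG (h3.mono h)

/-- a group in the list as a context -/
theorem ctx_of {m : ℕ} {s : Finset (Group (Fin m))} (g : Group (Fin m))
    (hs : IsSimpleGroup (Ty m g)) (hna : ¬ ∀ a b : Ty m g, a * b = b * a)
    (hX : XX (fun V _ => Good V) (Ty m g)) (hno : ∀ g' ∈ s, ¬ Nonempty (Ty m g ≃* Ty m g')) :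
    Ctx2 (PP m s) (Ty m g) := by
  have hfin : Finite (Ty m g) := hX.1
  have hG : Good (Ty m g) := hX.2 _ hs hna (Sec.refl _)
  have Kl := xx_cls (PP m s)
  refine { toCls := Kl, dat := ⟨hfin, hs, hna⟩, notC := ?_, prop := ?_, good := hG.2,
           four := hG.1, simp := ?_, bd := ?_ }
  · intro h
    rcases (h.2 _ hs hna (Sec.refl _)).2 with h1 | ⟨_, g', hg', he⟩
    · rw [Ty.card] at h1
      omega
    · exact hno g' hg' he
  · intro B hB
    refine ⟨inferInstance, fun V _ h1 h2 h3 => ⟨hX.2 V h1 h2 (h3.sub _ B.subtype_injective),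
      Or.inl ?_⟩⟩
    have h4 := h3.card
    have h5 : Nat.card B < m := by
      by_contra hcon
      push Not at hcon
      apply hB
      refine Subgroup.eq_top_of_le_card B ?_
      rw [Ty.card]
      exact hcon
    omega
  · intro V _ hV h1 h2
    have h3 := hV.2 V h1 h2 (Sec.refl V)
    refine ⟨?_, ?_⟩
    · rw [Ty.card]
      exact h3.le
    · -- two generators
      have hfV := hV.1
      obtain ⟨⟨i, j, hi, hi1, -⟩, hα⟩ := h3.1
      have D : Dat V := ⟨hfV, h1, h2⟩
      have h4 : ∃ t, MulAut.conj i t ≠ t := by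
        by_contra hcon
        push Not at hcon
        exact hi1 (center_triv D i hcon)
      obtain ⟨y, hy⟩ := hα (MulAut.conj i) h4
      refine ⟨i, y, hy _ (Subgroup.subset_closure (by simp)) fun x hx => ?_⟩
      have ma : i ∈ Subgroup.closure {i, y} := Subgroup.subset_closure (by simp)
      exact mul_mem (mul_mem ma hx) (inv_mem ma)
  · intro V _ hV
    rw [Ty.card]
    exact hV.le

/-- one more group of order `m` -/
theorem lfc_insert {Z : ∀ (G : Type) [Group G], Prop} (hZ : HSC Z)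
    {W : ∀ (F : Type) [Group F], Prop} (hW : Her W) {n : ℕ} (hn : 1 ≤ n) {m : ℕ}
    [DecidableEq (Group (Fin m))]
    (s : Finset (Group (Fin m))) (g : Group (Fin m)) (hL : LFC Z n (And2 W (XX (PP m s)))) :
    LFC Z n (And2 W (XX (PP m (insert g s)))) := by
  by_cases hc : IsSimpleGroup (Ty m g) ∧ (¬ ∀ a b : Ty m g, a * b = b * a) ∧
      XX (fun V _ => Good V) (Ty m g) ∧ ∀ g' ∈ s, ¬ Nonempty (Ty m g ≃* Ty m g')
  · obtain ⟨h1, h2, h3, h4⟩ := hc
    have X := ctx_of g h1 h2 h3 h4
    refine (lfc_step X hZ hW hn hL).mono fun F _ h => ⟨h.1, xx_mono ?_ h.2⟩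
    intro V _ _ _ _ hV
    rcases hV.2 with h5 | ⟨h5, g', hg', he⟩
    · exact Or.inl ⟨hV.1, Or.inl h5⟩
    · rcases Finset.mem_insert.1 hg' with rfl | hg'
      · exact Or.inr he
      · exact Or.inl ⟨hV.1, Or.inr ⟨h5, g', hg', he⟩⟩
  · refine hL.mono fun F _ h => ⟨h.1, xx_mono ?_ h.2⟩
    intro V _ hs hna hsec hV
    refine ⟨hV.1, ?_⟩
    rcases hV.2 with h5 | ⟨h5, g', hg', ⟨e⟩⟩
    · exact Or.inl h5
    · right
      refine ⟨h5, ?_⟩
      rcases Finset.mem_insert.1 hg' with rfl | hg'
      · have h6 : IsSimpleGroup (Ty m g') := e.symm.isSimpleGroup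
        have h7 : ¬ ∀ a b : Ty m g', a * b = b * a := by
          intro h
          apply hna
          intro a b
          apply e.injective
          rw [map_mul, map_mul, h]
        have h8 : Sec (Ty m g') F := (Sec.of_sur e.toMonoidHom e.surjective).trans hsec
        have h9 : XX (fun V _ => Good V) (Ty m g') := by
          refine ⟨?_, fun U _ u1 u2 u3 => (h.2.2 U u1 u2 (u3.trans h8)).1⟩
          have := h.2.1
          obtain ⟨H, f, hf⟩ := h8
          exact Finite.of_surjective f hf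
        by_contra hcon
        apply hc
        refine ⟨h6, h7, h9, fun g'' hg'' he => ?_⟩
        obtain ⟨e'⟩ := he
        exact hcon ⟨g'', hg'', ⟨e.trans e'⟩⟩
      · exact ⟨g', hg', ⟨e⟩⟩

theorem finite_groups (m : ℕ) : Finite (Group (Fin m)) := by
  refine Finite.of_injective (fun g : Group (Fin m) => g.mul) ?_
  intro g g' h
  exact Group.ext (by
    funext a b
    exact congrFun (congrFun h a) b)

/-- all groups up to order `m` -/
theorem lfc_all {Z : ∀ (G : Type) [Group G], Prop} (hZ : HSC Z)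
    {W : ∀ (F : Type) [Group F], Prop} (hW : Her W) {n : ℕ} (hn : 1 ≤ n)
    (h0 : LFC Z n (And2 W (XX P0))) (m : ℕ) : LFC Z n (And2 W (XX (PP m ∅))) := by
  classical
  induction m with
  | zero =>
    refine h0.mono fun F _ h => ⟨h.1, xx_mono ?_ h.2⟩
    intro V _ _ _ _ hV
    rcases hV.2 with h | ⟨_, g, hg, _⟩
    · omega
    · simp at hg
  | succ m ih =>
    have hfin := finite_groups m
    have := Fintype.ofFinite (Group (Fin m))
    have h1 : ∀ s : Finset (Group (Fin m)), LFC Z n (And2 W (XX (PP m s))) := by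
      intro s
      induction s using Finset.induction_on with
      | empty => exact ih
      | insert g s _ ih => exact lfc_insert hZ hW hn s g ih
    refine (h1 Finset.univ).mono fun F _ hF => ⟨hF.1, xx_mono ?_ hF.2⟩
    intro V _ _ _ hsec hV
    refine ⟨hV.1, ?_⟩
    have hcard : Nat.card V ≤ m := by
      rcases hV.2 with h | ⟨_, g, hg, _⟩
      · omega
      · simp at hg
    rcases Nat.lt_or_ge (Nat.card V) m with h | h
    · exact Or.inl h
    · right
      have h2 : Nat.card V = m := le_antisymm hcard h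
      refine ⟨h2, ?_⟩
      have hfV : Finite V := by
        obtain ⟨H, f, hf⟩ := hsec
        have h3 := hF.2.1
        exact Finite.of_surjective f hf
      let e : Fin m ≃ V := (Finite.equivFinOfCardEq h2).symm
      let g : Group (Fin m) := e.group
      let e' : V ≃ Ty m g := e.symm
      have he : ∀ a b, e' (a * b) = e' a * e' b := by
        intro a b
        change e.symm (a * b) = e.symm (e (e.symm a) * e (e.symm b))
        simp
      exact ⟨g, Finset.mem_univ _, ⟨MulEquiv.mk' e' he⟩⟩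

/-- **All good groups.** -/
theorem lfc_good {Z : ∀ (G : Type) [Group G], Prop} (hZ : HSC Z) {n : ℕ} (hn : 1 ≤ n)
    (hq : PS Z n) (c : ℕ) : LFC Z n (And2 (Wc c) (XX (fun V _ => Good V))) := by
  refine (lfc_all hZ (her_Wc c) hn (lfc_zero hZ hn hq c) (c + 1)).mono fun F _ h =>
    ⟨h.1, xx_mono ?_ h.2⟩
  intro V _ _ _ hsec hV
  have := h.1.1
  have h1 := hsec.card
  have h2 := h.1.2
  exact ⟨hV, Or.inl (by omega)⟩

/-- **All good groups of bounded order, admissible exponents.** -/
theorem lfc_good_adm {Z : ∀ (G : Type) [Group G], Prop} (hZ : HSC Z) {n : ℕ} (hn : 1 ≤ n)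
    (hA : Pool.Agent.Results.MP_544bd1_al.TwoGenerators.Admissible n)
    (hq : PS Z n) (c : ℕ) : LFC Z n (And2 Wf (XX (fun V _ => Good V ∧ Nat.card V ≤ c))) := by
  refine (lfc_all hZ her_Wf hn (lfc_zero_adm hZ hn hA hq) (c + 1)).mono fun F _ h =>
    ⟨h.1, xx_mono ?_ h.2⟩
  intro V _ _ _ hsec hV
  exact ⟨hV.1, Or.inl (by have := hV.2; omega)⟩

end Pool.Agent.U110.BN
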